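import Mathlib

/-!
Mesoscopic moments of zeta, plain averages: zeta to the left of the critical line is bounded by
zeta to the right of it.
-/

set_option autoImplicit false

namespace Pool.Agent.Lib.MP2

open MeasureTheory Set Filter Topology Complex
open scoped ComplexConjugate

namespace LeftI

/-- the elementary inequality behind the telescoping sum -/
lemma delta_le {u x : ℝ} (hu : 1 ≤ u ^ 2) (hx : 0 ≤ x) (hx' : x ≤ 1 / 2) (j : ℕ) :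
    Real.log (((j + 1 : ℕ) : ℝ) ^ 2 + u ^ 2) - Real.log ((j : ℝ) ^ 2 + u ^ 2)
      - 15 / 2 * (1 / ((j : ℝ) + 1) - 1 / ((j : ℝ) + 2))
      ≤ 2 * (1 / 4 + (j : ℝ)) / ((1 / 4 + (j : ℝ) + x / 2) ^ 2 + u ^ 2) := by
  have hj : (0 : ℝ) ≤ j := Nat.cast_nonneg j
  set a : ℝ := (j : ℝ) with ha
  have hP : 0 < a ^ 2 + u ^ 2 := by nlinarith
  have hQ : 0 < (a + 1 / 2) ^ 2 + u ^ 2 := by nlinarith
  have h1 : Real.log (((j + 1 : ℕ) : ℝ) ^ 2 + u ^ 2) - Real.log (a ^ 2 + u ^ 2)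
      ≤ (2 * a + 1) / (a ^ 2 + u ^ 2) := by
    have e : (((j + 1 : ℕ) : ℝ)) ^ 2 + u ^ 2 = (a ^ 2 + u ^ 2) * (1 + (2 * a + 1) / (a ^ 2 + u ^ 2)) := by
      rw [mul_add, mul_div_cancel₀ _ hP.ne']
      push_cast
      rw [← ha]; ring
    rw [e, Real.log_mul hP.ne' (by positivity)]
    have := Real.log_le_sub_one_of_pos (x := 1 + (2 * a + 1) / (a ^ 2 + u ^ 2)) (by positivity)
    linarith
  have h2 : 2 * (1 / 4 + a) / ((a + 1 / 2) ^ 2 + u ^ 2)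
      ≤ 2 * (1 / 4 + a) / ((1 / 4 + a + x / 2) ^ 2 + u ^ 2) := by
    have h3 : 0 < (1 / 4 + a + x / 2) ^ 2 + u ^ 2 := by nlinarith [sq_nonneg (1 / 4 + a + x / 2)]
    have h4 : (1 / 4 + a + x / 2) ^ 2 + u ^ 2 ≤ (a + 1 / 2) ^ 2 + u ^ 2 := by
      have : 1 / 4 + a + x / 2 ≤ a + 1 / 2 := by linarith
      have h5 : 0 ≤ 1 / 4 + a + x / 2 := by linarith
      nlinarith
    gcongr
  have h3 : (2 * a + 1) / (a ^ 2 + u ^ 2)
      ≤ 2 * (1 / 4 + a) / ((a + 1 / 2) ^ 2 + u ^ 2) + 5 / 2 / (a ^ 2 + u ^ 2) := by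
    rw [div_add_div _ _ hQ.ne' hP.ne', div_le_div_iff₀ hP (mul_pos hQ hP)]
    have h5 : (2 * a + 1) * ((a + 1 / 2) ^ 2 + u ^ 2)
        ≤ 2 * (1 / 4 + a) * (a ^ 2 + u ^ 2) + 5 / 2 * ((a + 1 / 2) ^ 2 + u ^ 2) := by
      nlinarith [sq_nonneg a, sq_nonneg u]
    calc (2 * a + 1) * (((a + 1 / 2) ^ 2 + u ^ 2) * (a ^ 2 + u ^ 2))
        = ((2 * a + 1) * ((a + 1 / 2) ^ 2 + u ^ 2)) * (a ^ 2 + u ^ 2) := by ring
      _ ≤ (2 * (1 / 4 + a) * (a ^ 2 + u ^ 2) + 5 / 2 * ((a + 1 / 2) ^ 2 + u ^ 2)) * (a ^ 2 + u ^ 2) := by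
          gcongr
      _ = _ := by ring
  have h4 : 5 / 2 / (a ^ 2 + u ^ 2) ≤ 15 / 2 * (1 / (a + 1) - 1 / (a + 2)) := by
    have e : 1 / (a + 1) - 1 / (a + 2) = 1 / ((a + 1) * (a + 2)) := by
      field_simp; ring
    rw [e, mul_one_div, div_le_div_iff₀ hP (by positivity)]
    have h5 : (a + 1) * (a + 2) ≤ 3 * (a ^ 2 + 1) := by
      rcases Nat.eq_zero_or_pos j with hj0 | hj0
      · rw [ha, hj0]; norm_num
      · have hj1 : (1 : ℝ) ≤ a := by rw [ha]; exact_mod_cast hj0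
        rcases Nat.lt_or_ge j 2 with hj2 | hj2
        · have : j = 1 := by omega
          rw [ha, this]; norm_num
        · have hj3 : (2 : ℝ) ≤ a := by rw [ha]; exact_mod_cast hj2
          nlinarith
    nlinarith
  linarith

lemma prod_le {u x : ℝ} (hu : 1 ≤ u ^ 2) (hx : 0 ≤ x) (hx' : x ≤ 1 / 2) (m : ℕ) :
    (∏ j ∈ Finset.range m, ((1 / 4 + (j : ℝ) - x / 2) ^ 2 + u ^ 2))
      * Real.exp (x * (Real.log ((m : ℝ) ^ 2 + u ^ 2) - Real.log (u ^ 2)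
        - 15 / 2 * (1 - 1 / ((m : ℝ) + 1))))
      ≤ ∏ j ∈ Finset.range m, ((1 / 4 + (j : ℝ) + x / 2) ^ 2 + u ^ 2) := by
  induction m with
  | zero => simp
  | succ m ih =>
    rw [Finset.prod_range_succ, Finset.prod_range_succ]
    have hm : (0 : ℝ) ≤ m := Nat.cast_nonneg m
    have hP : 0 < (1 / 4 + (m : ℝ) + x / 2) ^ 2 + u ^ 2 := by
      nlinarith [sq_nonneg (1 / 4 + (m : ℝ) + x / 2)]
    have hQ : 0 < (1 / 4 + (m : ℝ) - x / 2) ^ 2 + u ^ 2 := by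
      nlinarith [sq_nonneg (1 / 4 + (m : ℝ) - x / 2)]
    set δ : ℝ := Real.log (((m + 1 : ℕ) : ℝ) ^ 2 + u ^ 2) - Real.log ((m : ℝ) ^ 2 + u ^ 2)
      - 15 / 2 * (1 / ((m : ℝ) + 1) - 1 / ((m : ℝ) + 2)) with hδ
    have h1 := delta_le hu hx hx' m
    rw [← hδ] at h1
    have h2 : ((1 / 4 + (m : ℝ) - x / 2) ^ 2 + u ^ 2) * Real.exp (x * δ)
        ≤ (1 / 4 + (m : ℝ) + x / 2) ^ 2 + u ^ 2 := by
      have h3 : (1 / 4 + (m : ℝ) - x / 2) ^ 2 + u ^ 2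
          = ((1 / 4 + (m : ℝ) + x / 2) ^ 2 + u ^ 2)
            * (1 - x * (2 * (1 / 4 + (m : ℝ)) / ((1 / 4 + (m : ℝ) + x / 2) ^ 2 + u ^ 2))) := by
        field_simp
        ring
      have h4 : 1 - x * (2 * (1 / 4 + (m : ℝ)) / ((1 / 4 + (m : ℝ) + x / 2) ^ 2 + u ^ 2))
          ≤ Real.exp (-(x * δ)) := by
        have h5 := Real.add_one_le_exp (-(x * δ))
        nlinarith [mul_le_mul_of_nonneg_left h1 hx]
      rw [h3, mul_assoc]
      calc ((1 / 4 + (m : ℝ) + x / 2) ^ 2 + u ^ 2)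
            * ((1 - x * (2 * (1 / 4 + (m : ℝ)) / ((1 / 4 + (m : ℝ) + x / 2) ^ 2 + u ^ 2))) * Real.exp (x * δ))
          ≤ ((1 / 4 + (m : ℝ) + x / 2) ^ 2 + u ^ 2) * (Real.exp (-(x * δ)) * Real.exp (x * δ)) := by
            gcongr
        _ = _ := by rw [← Real.exp_add]; simp
    have h3 : x * (Real.log (((m + 1 : ℕ) : ℝ) ^ 2 + u ^ 2) - Real.log (u ^ 2)
        - 15 / 2 * (1 - 1 / (((m + 1 : ℕ) : ℝ) + 1)))
        = x * (Real.log ((m : ℝ) ^ 2 + u ^ 2) - Real.log (u ^ 2)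
        - 15 / 2 * (1 - 1 / ((m : ℝ) + 1))) + x * δ := by
      rw [hδ]
      have : (((m + 1 : ℕ) : ℝ) + 1) = (m : ℝ) + 2 := by push_cast; ring
      rw [this]; ring
    rw [h3, Real.exp_add]
    have hpos : 0 ≤ ∏ j ∈ Finset.range m, ((1 / 4 + (j : ℝ) - x / 2) ^ 2 + u ^ 2) :=
      Finset.prod_nonneg fun j _ => by positivity
    calc (∏ j ∈ Finset.range m, ((1 / 4 + (j : ℝ) - x / 2) ^ 2 + u ^ 2))
          * ((1 / 4 + (m : ℝ) - x / 2) ^ 2 + u ^ 2)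
          * (Real.exp (x * (Real.log ((m : ℝ) ^ 2 + u ^ 2) - Real.log (u ^ 2)
            - 15 / 2 * (1 - 1 / ((m : ℝ) + 1)))) * Real.exp (x * δ))
        = ((∏ j ∈ Finset.range m, ((1 / 4 + (j : ℝ) - x / 2) ^ 2 + u ^ 2))
          * Real.exp (x * (Real.log ((m : ℝ) ^ 2 + u ^ 2) - Real.log (u ^ 2)
            - 15 / 2 * (1 - 1 / ((m : ℝ) + 1)))))
          * (((1 / 4 + (m : ℝ) - x / 2) ^ 2 + u ^ 2) * Real.exp (x * δ)) := by ring
      _ ≤ _ := by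
          refine mul_le_mul ih h2 (by positivity) ?_
          exact Finset.prod_nonneg fun j _ => by positivity

lemma norm_fac (a u : ℝ) (j : ℕ) :
    ‖((a : ℂ) + I * u + (j : ℂ))‖ ^ 2 = (a + j) ^ 2 + u ^ 2 := by
  rw [← Complex.normSq_eq_norm_sq, Complex.normSq_apply]
  simp
  ring

lemma norm_seq (a u : ℝ) {n : ℕ} (hn : 1 ≤ n) :
    ‖GammaSeq ((a : ℂ) + I * u) n‖ ^ 2
      = ((n : ℝ) ^ (2 * a) * (n.factorial : ℝ) ^ 2)
        / ∏ j ∈ Finset.range (n + 1), ((a + (j : ℝ)) ^ 2 + u ^ 2) := by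
  unfold GammaSeq
  rw [norm_div, norm_mul, Complex.norm_natCast_cpow_of_pos hn, Complex.norm_natCast, norm_prod, div_pow,
    mul_pow, ← Finset.prod_pow]
  have h1 : (((a : ℂ) + I * u).re) = a := by simp
  rw [h1]
  have hn0 : (0 : ℝ) < n := by exact_mod_cast hn
  congr 1
  · congr 1
    rw [← Real.rpow_natCast, ← Real.rpow_mul hn0.le]
    congr 1
    push_cast; ring
  · exact Finset.prod_congr rfl fun j _ => norm_fac a u j

lemma seq_le {u x : ℝ} (hu : 1 ≤ |u|) (hx : 0 ≤ x) (hx' : x ≤ 1 / 4) {n : ℕ} (hn : 1 ≤ n) :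
    ‖GammaSeq (((1 / 4 + x / 2 : ℝ) : ℂ) + I * u) n‖
      ≤ Real.exp (4 * x) * |u| ^ x * ‖GammaSeq (((1 / 4 - x / 2 : ℝ) : ℂ) + I * u) n‖ := by
  have hu2 : 1 ≤ u ^ 2 := by rw [← sq_abs]; nlinarith
  have hu0 : 0 < |u| := by linarith
  have hn0 : (0 : ℝ) < n := by exact_mod_cast hn
  refine le_of_sq_le_sq ?_ (by positivity)
  have hP := prod_le hu2 hx (by linarith) (n + 1)
  set P₁ : ℝ := ∏ j ∈ Finset.range (n + 1), ((1 / 4 + (j : ℝ) - x / 2) ^ 2 + u ^ 2) with hP1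
  set P₂ : ℝ := ∏ j ∈ Finset.range (n + 1), ((1 / 4 + (j : ℝ) + x / 2) ^ 2 + u ^ 2) with hP2
  have hP1p : 0 < P₁ := Finset.prod_pos fun j _ => by positivity
  have hP2p : 0 < P₂ := Finset.prod_pos fun j _ => by positivity
  have e1 : ‖GammaSeq (((1 / 4 + x / 2 : ℝ) : ℂ) + I * u) n‖ ^ 2
      = ((n : ℝ) ^ (1 / 2 + x) * (n.factorial : ℝ) ^ 2) / P₂ := by
    rw [norm_seq _ _ hn]
    congr 1
    · congr 2; ring
    · exact Finset.prod_congr rfl fun j _ => by ring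
  have e2 : ‖GammaSeq (((1 / 4 - x / 2 : ℝ) : ℂ) + I * u) n‖ ^ 2
      = ((n : ℝ) ^ (1 / 2 - x) * (n.factorial : ℝ) ^ 2) / P₁ := by
    rw [norm_seq _ _ hn]
    congr 1
    · congr 2; ring
    · exact Finset.prod_congr rfl fun j _ => by ring
  rw [mul_pow, mul_pow, e1, e2]
  have h1 : Real.exp (x * (2 * Real.log n - 2 * Real.log |u| - 8))
      ≤ Real.exp (x * (Real.log (((n + 1 : ℕ) : ℝ) ^ 2 + u ^ 2) - Real.log (u ^ 2)
        - 15 / 2 * (1 - 1 / (((n + 1 : ℕ) : ℝ) + 1)))) := by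
    refine Real.exp_le_exp.mpr (mul_le_mul_of_nonneg_left ?_ hx)
    have h2 : 2 * Real.log n ≤ Real.log (((n + 1 : ℕ) : ℝ) ^ 2 + u ^ 2) := by
      rw [show 2 * Real.log (n : ℝ) = Real.log ((n : ℝ) ^ 2) by rw [Real.log_pow]; norm_num]
      refine Real.log_le_log (by positivity) ?_
      push_cast
      nlinarith [sq_nonneg u]
    have h3 : Real.log (u ^ 2) = 2 * Real.log |u| := by
      rw [← sq_abs, Real.log_pow]; norm_num
    have h4 : 0 ≤ 1 / (((n + 1 : ℕ) : ℝ) + 1) := by positivity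
    rw [h3]; linarith
  have h2 : P₁ * Real.exp (x * (2 * Real.log n - 2 * Real.log |u| - 8)) ≤ P₂ :=
    (mul_le_mul_of_nonneg_left h1 hP1p.le).trans hP
  have h3 : (n : ℝ) ^ (1 / 2 + x)
      = (Real.exp (4 * x) ^ 2 * (|u| ^ x) ^ 2 * (n : ℝ) ^ (1 / 2 - x))
        * Real.exp (x * (2 * Real.log n - 2 * Real.log |u| - 8)) := by
    rw [Real.rpow_def_of_pos hn0, Real.rpow_def_of_pos hn0, Real.rpow_def_of_pos hu0, ← Real.exp_nat_mul,
      ← Real.exp_nat_mul, ← Real.exp_add, ← Real.exp_add, ← Real.exp_add]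
    congr 1
    push_cast
    ring
  have h4 : 0 ≤ Real.exp (4 * x) ^ 2 * (|u| ^ x) ^ 2 * (n : ℝ) ^ (1 / 2 - x) * (n.factorial : ℝ) ^ 2 := by
    positivity
  rw [div_le_iff₀ hP2p, h3]
  calc Real.exp (4 * x) ^ 2 * (|u| ^ x) ^ 2 * (n : ℝ) ^ (1 / 2 - x)
        * Real.exp (x * (2 * Real.log n - 2 * Real.log |u| - 8)) * (n.factorial : ℝ) ^ 2
      = (Real.exp (4 * x) ^ 2 * (|u| ^ x) ^ 2 * (n : ℝ) ^ (1 / 2 - x) * (n.factorial : ℝ) ^ 2) / P₁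
        * (P₁ * Real.exp (x * (2 * Real.log n - 2 * Real.log |u| - 8))) := by
        field_simp
    _ ≤ (Real.exp (4 * x) ^ 2 * (|u| ^ x) ^ 2 * (n : ℝ) ^ (1 / 2 - x) * (n.factorial : ℝ) ^ 2) / P₁ * P₂ := by
        gcongr
    _ = _ := by ring

lemma gamma_le {u x : ℝ} (hu : 1 ≤ |u|) (hx : 0 ≤ x) (hx' : x ≤ 1 / 4) :
    ‖Complex.Gamma (((1 / 4 + x / 2 : ℝ) : ℂ) + I * u)‖
      ≤ Real.exp (4 * x) * |u| ^ x * ‖Complex.Gamma (((1 / 4 - x / 2 : ℝ) : ℂ) + I * u)‖ := by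
  have h1 := (GammaSeq_tendsto_Gamma (((1 / 4 + x / 2 : ℝ) : ℂ) + I * u)).norm
  have h2 := ((GammaSeq_tendsto_Gamma (((1 / 4 - x / 2 : ℝ) : ℂ) + I * u)).norm).const_mul
    (Real.exp (4 * x) * |u| ^ x)
  refine le_of_tendsto_of_tendsto h1 h2 ?_
  filter_upwards [eventually_ge_atTop 1] with n hn
  exact seq_le hu hx hx' hn

lemma gR_conj (s : ℂ) : Gammaℝ (conj s) = conj (Gammaℝ s) := by
  rw [Gammaℝ_def, Gammaℝ_def, map_mul, ← Complex.Gamma_conj]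
  have e0 : conj (2 : ℂ) = 2 := Complex.conj_ofNat 2
  have e1 : conj s / 2 = conj (s / 2) := by rw [map_div₀, e0]
  have e2 : -conj s / 2 = conj (-s / 2) := by rw [map_div₀, map_neg, e0]
  rw [e1, e2]
  congr 1
  rw [Complex.cpow_conj _ _ ?_, Complex.conj_ofReal]
  rw [Complex.arg_ofReal_of_nonneg Real.pi_pos.le]
  exact Real.pi_pos.ne

lemma gammaR_le {t x : ℝ} (ht : 2 ≤ |t|) (hx : 0 ≤ x) (hx' : x ≤ 1 / 4) :
    ‖Gammaℝ (1 / 2 + x + I * t)‖ ≤ Real.exp (4 * x) * |t| ^ x * ‖Gammaℝ (1 / 2 - x + I * t)‖ := by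
  have hu : 1 ≤ |t / 2| := by
    rw [abs_div, abs_of_pos (by norm_num : (0 : ℝ) < 2)]; linarith
  have h1 := gamma_le hu hx hx'
  have e1 : ((1 / 2 + x + I * t) / 2 : ℂ) = ((1 / 4 + x / 2 : ℝ) : ℂ) + I * ((t / 2 : ℝ) : ℂ) := by
    push_cast; ring
  have e2 : ((1 / 2 - x + I * t) / 2 : ℂ) = ((1 / 4 - x / 2 : ℝ) : ℂ) + I * ((t / 2 : ℝ) : ℂ) := by
    push_cast; ring
  rw [Gammaℝ_def, Gammaℝ_def, e1, e2, norm_mul, norm_mul, Complex.norm_cpow_eq_rpow_re_of_pos Real.pi_pos,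
    Complex.norm_cpow_eq_rpow_re_of_pos Real.pi_pos]
  have e3 : (-(1 / 2 + x + I * t) / 2 : ℂ).re = -(1 / 4) - x / 2 := by
    simp; ring
  have e4 : (-(1 / 2 - x + I * t) / 2 : ℂ).re = -(1 / 4) + x / 2 := by
    simp; ring
  rw [e3, e4]
  have h2 : Real.pi ^ (-(1 / 4) - x / 2) ≤ Real.pi ^ (-(1 / 4) + x / 2) :=
    Real.rpow_le_rpow_of_exponent_le (by linarith [Real.pi_gt_three]) (by linarith)
  have h3 : |t / 2| ^ x ≤ |t| ^ x := by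
    refine Real.rpow_le_rpow (abs_nonneg _) ?_ hx
    rw [abs_div, abs_of_pos (by norm_num : (0 : ℝ) < 2)]
    linarith [abs_nonneg t]
  calc Real.pi ^ (-(1 / 4) - x / 2) * ‖Complex.Gamma (((1 / 4 + x / 2 : ℝ) : ℂ) + I * ((t / 2 : ℝ) : ℂ))‖
      ≤ Real.pi ^ (-(1 / 4) + x / 2) * (Real.exp (4 * x) * |t| ^ x
        * ‖Complex.Gamma (((1 / 4 - x / 2 : ℝ) : ℂ) + I * ((t / 2 : ℝ) : ℂ))‖) := by
        refine mul_le_mul h2 (h1.trans ?_) (norm_nonneg _) (by positivity)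
        gcongr
    _ = _ := by ring

end LeftI

/-- zeta to the left of the critical line is bounded by zeta to the right -/
theorem zeta_left_le {t x : ℝ} (ht : 2 ≤ |t|) (hx : 0 ≤ x) (hx' : x ≤ 1 / 4) :
    ‖riemannZeta (1 / 2 - x + I * t)‖
      ≤ Real.exp (4 * x) * |t| ^ x * ‖riemannZeta (1 / 2 + x + I * t)‖ := by
  have ht0 : t ≠ 0 := by
    intro h; rw [h, abs_zero] at ht; linarith
  set s : ℂ := 1 / 2 + x + I * t with hs
  have hsim : s.im = t := by simp [hs]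
  have hs0 : s ≠ 0 := by
    intro h; rw [h] at hsim; simp at hsim; exact ht0 hsim.symm
  have h1s : (1 : ℂ) - s ≠ 0 := by
    intro h
    have := congrArg Complex.im h
    rw [Complex.sub_im, hsim] at this
    simp at this
    exact ht0 this
  have hsre : 0 < s.re := by simp [hs]; linarith
  have h1sre : 0 < ((1 : ℂ) - s).re := by simp [hs]; linarith
  have hl : (1 / 2 - x + I * t : ℂ) = conj (1 - s) := by
    apply Complex.ext <;> simp [hs]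
    ring
  have e1 : ‖riemannZeta (1 / 2 - x + I * t)‖ = ‖riemannZeta (1 - s)‖ := by
    rw [hl, riemannZeta_conj, Complex.norm_conj]
  have e2 : riemannZeta (1 - s) * Gammaℝ (1 - s) = riemannZeta s * Gammaℝ s := by
    rw [riemannZeta_def_of_ne_zero hs0, riemannZeta_def_of_ne_zero h1s, completedRiemannZeta_one_sub,
      div_mul_cancel₀ _ (Gammaℝ_ne_zero_of_re_pos h1sre), div_mul_cancel₀ _ (Gammaℝ_ne_zero_of_re_pos hsre)]
  have e3 : ‖riemannZeta (1 - s)‖ * ‖Gammaℝ (1 - s)‖ = ‖riemannZeta s‖ * ‖Gammaℝ s‖ := by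
    rw [← norm_mul, e2, norm_mul]
  have e4 : ‖Gammaℝ (1 - s)‖ = ‖Gammaℝ (1 / 2 - x + I * t)‖ := by
    rw [hl, LeftI.gR_conj, Complex.norm_conj]
  have h3 := LeftI.gammaR_le ht hx hx'
  rw [← hs, ← e4] at h3
  have h4 : 0 < ‖Gammaℝ (1 - s)‖ := norm_pos_iff.mpr (Gammaℝ_ne_zero_of_re_pos h1sre)
  rw [e1]
  refine le_of_mul_le_mul_right ?_ h4
  rw [e3]
  calc ‖riemannZeta s‖ * ‖Gammaℝ s‖ ≤ ‖riemannZeta s‖ * (Real.exp (4 * x) * |t| ^ x * ‖Gammaℝ (1 - s)‖) := by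
        gcongr
    _ = _ := by ring

/-- near the critical line -/
theorem zeta_left (A : ℝ) : ∃ C t0 : ℝ, 0 < C ∧ 2 ≤ t0 ∧ ∀ t x : ℝ, t0 ≤ |t| → 0 ≤ x →
    x ≤ A / Real.log |t| →
    ‖riemannZeta (1 / 2 - x + I * t)‖ ≤ C * ‖riemannZeta (1 / 2 + x + I * t)‖ := by
  refine ⟨Real.exp (1 + A), max 2 (Real.exp (4 * A)), Real.exp_pos _, le_max_left _ _,
    fun t x ht hx hx' => ?_⟩
  have ht2 : 2 ≤ |t| := (le_max_left _ _).trans ht
  have ht3 : Real.exp (4 * A) ≤ |t| := (le_max_right _ _).trans ht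
  have hlog : 0 < Real.log |t| := Real.log_pos (by linarith)
  have hlog2 : 4 * A ≤ Real.log |t| := by
    rw [Real.le_log_iff_exp_le (by linarith)]; exact ht3
  have hx4 : x ≤ 1 / 4 := by
    refine hx'.trans ?_
    rw [div_le_iff₀ hlog]; linarith
  refine (zeta_left_le ht2 hx hx4).trans ?_
  have h1 : Real.exp (4 * x) * |t| ^ x ≤ Real.exp (1 + A) := by
    rw [Real.rpow_def_of_pos (by linarith), ← Real.exp_add]
    refine Real.exp_le_exp.mpr ?_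
    rw [le_div_iff₀ hlog] at hx'
    nlinarith
  gcongr

end Pool.Agent.Lib.MP2
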