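import Mathlib
import Pool.Agent.Lib.MP_f9aece_nt_ms.StmtsZ

/-!
Moments of the plain average of zeta over short windows: definitions and statements of the modules.
Module `X` proves `theorem x : X`; modules using `X` take it as a hypothesis.
-/

set_option autoImplicit false

namespace Pool.Agent.Lib.MP2

open MeasureTheory Set Filter Topology Complex
open Pool.Agent.Lib.MS (psi Adm ZW MomentsT2)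

/-- rapid decay -/
def RD (f : ℝ → ℂ) : Prop := ∀ n : ℕ, ∃ C : ℝ, ∀ y : ℝ, ‖f y‖ * (1 + |y|) ^ n ≤ C

/-- average of the `p`-th power over `[x, x + T]` -/
noncomputable def Av (p x T : ℝ) (f : ℝ → ℂ) : ℝ := T⁻¹ * ∫ t in x..(x + T), ‖f t‖ ^ p

/-- the plain average of zeta over a window of length `H` -/
noncomputable def PA (H t : ℝ) : ℂ :=
  ∫ v in (0 : ℝ)..1, riemannZeta (1 / 2 + I * ((t + H * v : ℝ) : ℂ))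

/-! ### kernels -/

/-- entire functions, rapidly decreasing in the strip `|Im z| ≤ 1`, with integral one and Fourier
transform supported in `[-1, 1]` -/
structure BumpFn (g : ℂ → ℂ) : Prop where
  diff : Differentiable ℂ g
  decay : ∀ n : ℕ, ∃ C : ℝ, ∀ z : ℂ, |z.im| ≤ 1 → ‖g z‖ * (1 + |z.re|) ^ n ≤ C
  one : ∫ v : ℝ, g v = 1
  supp : ∀ r : ℝ, 1 ≤ |r| → psi (fun v : ℝ => g v) r = 0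

/-- the primitive -/
noncomputable def Th (g : ℂ → ℂ) (y : ℝ) : ℂ := ∫ u in Set.Iic y, g (u : ℂ)

/-- the kernel of the dyadic pieces -/
noncomputable def Kk (g : ℂ → ℂ) (y : ℝ) : ℂ := Th g (2 * y) - Th g y

/-- the kernel of the high frequencies -/
noncomputable def Ss (g : ℂ → ℂ) (y : ℝ) : ℂ := (if 0 ≤ y then 1 else 0) - Th g y

/-- the indicator of `[0,1]`, smoothed at scale `1/R` -/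
noncomputable def ph (g : ℂ → ℂ) (R v : ℝ) : ℂ := Th g (R * v) - Th g (R * (v - 1))

/-- K1 -/
def Bump : Prop := ∃ g : ℂ → ℂ, BumpFn g

/-- K2 -/
def Prim : Prop := ∀ g : ℂ → ℂ, BumpFn g → (∀ y : ℝ, HasDerivAt (Th g) (g (y : ℂ)) y) ∧ RD (Kk g) ∧
  RD (Ss g) ∧ ∀ R : ℝ, 0 < R → RD (ph g R)

/-- K3 -/
def PhAdm : Prop := ∀ g : ℂ → ℂ, BumpFn g → ∀ R : ℝ, 0 < R → Adm (ph g R) R

/-- K4 -/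
def KkSupp : Prop := ∀ g : ℂ → ℂ, BumpFn g → ∀ r : ℝ, 2 ≤ |r| → psi (Kk g) r = 0

/-- K5: upper bound for kernels without normalisation -/
def UpClass : Prop := ∀ (κ : ℝ → ℂ) (R : ℝ), 0 < R → RD κ → Continuous κ →
  (∀ r : ℝ, R ≤ |r| → psi κ r = 0) → ∀ p : ℝ, 0 < p → ∃ C : ℝ, 1 ≤ C ∧ ∀ H T : ℝ, 0 < H →
  C * H ≤ 1 → 1 ≤ T → C ≤ H * Real.log T → ∀ x : ℝ, Av p x T (ZW κ H) ≤ C * H ^ (-(p ^ 2 / 4))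

/-- K6: continuity -/
def Cont : Prop := (∀ H : ℝ, Continuous (PA H)) ∧
  ∀ κ : ℝ → ℂ, AEStronglyMeasurable κ volume → RD κ → ∀ H : ℝ, Continuous (ZW κ H)

/-! ### decomposition -/

/-- D1 -/
def Ident : Prop := ∀ g : ℂ → ℂ, BumpFn g → ∀ (M H : ℝ), 0 < M → 0 < H → ∀ (N : ℕ) (t : ℝ),
  PA H t = ZW (ph g M) H t
    + ∑ j ∈ Finset.range N, ((2 ^ j * M : ℝ) : ℂ)⁻¹ * (ZW (Kk g) (H / (2 ^ j * M)) t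
        - ZW (Kk g) (H / (2 ^ j * M)) (t + H))
    + ((2 ^ N * M : ℝ) : ℂ)⁻¹ * (ZW (Ss g) (H / (2 ^ N * M)) t - ZW (Ss g) (H / (2 ^ N * M)) (t + H))

/-- N1: powers of sums -/
def PowSum : Prop := ∀ p η : ℝ, 0 < p → 0 < η → ∃ C : ℝ, 1 ≤ C ∧ ∀ (n : ℕ) (z : ℕ → ℂ),
  ‖∑ j ∈ Finset.range n, z j‖ ^ p ≤ C * ∑ j ∈ Finset.range n, (2 : ℝ) ^ (η * j) * ‖z j‖ ^ p

/-! ### analytic functions -/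

/-- C1: sub-mean value property of the powers -/
def SubMean : Prop := ∀ (p : ℝ), 0 < p → ∀ (f : ℂ → ℂ) (c : ℂ) (r R : ℝ), 0 < r → r < R →
  DifferentiableOn ℂ f (Metric.ball c R) →
  ‖f c‖ ^ p ≤ (2 * Real.pi)⁻¹ * ∫ θ in (0 : ℝ)..(2 * Real.pi), ‖f (circleMap c r θ)‖ ^ p

/-- C2: the same over a square -/
def DiscMean : Prop := ∀ (p : ℝ), 0 < p → ∀ (f : ℂ → ℂ) (σ t r R : ℝ), 0 < r → r < R →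
  DifferentiableOn ℂ f (Metric.ball (σ + I * t) R) → ContinuousOn f {z : ℂ | |z.re - σ| ≤ r} →
  ‖f (σ + I * t)‖ ^ p ≤ (r ^ 2)⁻¹ * ∫ x in (-r)..r, ∫ u in (t - r)..(t + r),
    ‖f (((σ + x : ℝ) : ℂ) + I * u)‖ ^ p

/-- C3: maximum principle in one real variable -/
def MaxPrinc : Prop := ∀ (M : ℝ → ℝ) (a b : ℝ), a < b → ContinuousOn M (Icc a b) →
  (∀ x r : ℝ, 0 < r → a ≤ x - r → x + r ≤ b →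
    M x ≤ (2 * Real.pi)⁻¹ * ∫ θ in (0 : ℝ)..(2 * Real.pi), M (x + r * Real.cos θ)) →
  ∀ x ∈ Icc a b, M x ≤ M a + (x - a) / (b - a) * (M b - M a)

/-- the weight on the `t`-axis -/
noncomputable def GW (p τ1 τ2 t : ℝ) : ℝ := ∫ τ in τ1..τ2, Real.exp (-(p * (t - τ) ^ 2))

/-- C4: convexity of means -/
def Convex : Prop := ∀ (p : ℝ), 0 < p → ∀ (f : ℂ → ℂ) (a b δ : ℝ), a < b → b ≤ a + 2 → 0 < δ →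
  DifferentiableOn ℂ f {z : ℂ | a - δ < z.re ∧ z.re < b + δ} →
  (∃ (C : ℝ) (N : ℕ), ∀ z : ℂ, a ≤ z.re → z.re ≤ b → ‖f z‖ ≤ C * (1 + |z.im|) ^ N) →
  ∀ τ1 τ2 : ℝ, τ1 ≤ τ2 → ∀ x : ℝ, a ≤ x → x ≤ b →
  ∫ t : ℝ, ‖f ((x : ℂ) + I * t)‖ ^ p * GW p τ1 τ2 t
    ≤ Real.exp (4 * p) * ((∫ t : ℝ, ‖f ((a : ℂ) + I * t)‖ ^ p * GW p τ1 τ2 t)
      + (x - a) / (b - a) * ∫ t : ℝ, ‖f ((b : ℂ) + I * t)‖ ^ p * GW p τ1 τ2 t)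

/-- C5: the weight -/
def GWBd : Prop := ∀ p : ℝ, 0 < p → ∃ c C : ℝ, 0 < c ∧ 1 ≤ C ∧
  (∀ τ1 τ2 t : ℝ, τ1 + 1 ≤ τ2 → τ1 ≤ t → t ≤ τ2 → c ≤ GW p τ1 τ2 t) ∧
  (∀ τ1 τ2 t : ℝ, τ1 ≤ τ2 → 0 ≤ GW p τ1 τ2 t ∧ GW p τ1 τ2 t ≤ C) ∧
  (∀ τ1 τ2 t d : ℝ, τ1 ≤ τ2 → 0 ≤ d → (t ≤ τ1 - d ∨ τ2 + d ≤ t) →
    GW p τ1 τ2 t ≤ C * Real.exp (-(p * d ^ 2 / 2)))

/-- C6: convexity of means over intervals -/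
def ConvexInt : Prop := ∀ (p : ℝ), 0 < p → ∀ (Cg : ℝ) (N : ℕ), ∃ C : ℝ, 1 ≤ C ∧
  ∀ f : ℂ → ℂ, DifferentiableOn ℂ f {z : ℂ | 1 / 4 < z.re ∧ z.re < 2} →
  (∀ z : ℂ, 1 / 2 ≤ z.re → z.re ≤ 3 / 2 → ‖f z‖ ≤ Cg * (1 + |z.im|) ^ N) →
  ∀ T x0 x : ℝ, C ≤ T → |x0| ≤ 4 * T → 0 ≤ x → x ≤ 1 →
  ∫ t in x0..(x0 + T), ‖f (((1 / 2 + x : ℝ) : ℂ) + I * t)‖ ^ p
    ≤ C * ((∫ t in (x0 - T)..(x0 + 2 * T), ‖f (((1 / 2 : ℝ) : ℂ) + I * t)‖ ^ p)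
      + x * (∫ t in (x0 - T)..(x0 + 2 * T), ‖f (((3 / 2 : ℝ) : ℂ) + I * t)‖ ^ p) + 1)

/-- C7: pointwise bound for smooth averages -/
def DiscPt : Prop := ∀ (p : ℝ), 0 < p → ∀ S : ℝ → ℂ, AEStronglyMeasurable S volume → RD S →
  ∀ (n N : ℕ), p * N + 2 ≤ n → ∃ C : ℝ, 1 ≤ C ∧ ∀ (f : ℂ → ℂ) (σ r t Cg : ℝ), 0 < r → r ≤ 1 →
  DifferentiableOn ℂ f {z : ℂ | |z.re - σ| < 2 * r} →
  (∀ z : ℂ, |z.re - σ| ≤ r → ‖f z‖ ≤ Cg * (1 + |z.im|) ^ N) →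
  ‖∫ y : ℝ, f ((σ : ℂ) + I * ((t + r * y : ℝ) : ℂ)) * S y‖ ^ p
    ≤ C * r⁻¹ * ∫ x in (-r)..r, ∫ y : ℝ,
      ‖f (((σ + x : ℝ) : ℂ) + I * ((t + r * y : ℝ) : ℂ))‖ ^ p * ((1 + |y|) ^ n)⁻¹

/-! ### zeta -/

/-- zeta without its pole -/
structure ZeroPole (Z0 : ℂ → ℂ) (C : ℝ) : Prop where
  diff : Differentiable ℂ Z0
  eq : ∀ s : ℂ, s ≠ 1 → Z0 s = riemannZeta s - 1 / (s - 1)
  bd : ∀ s : ℂ, 1 / 4 ≤ s.re → s.re ≤ 2 → ‖Z0 s‖ ≤ C * (1 + |s.im|)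

/-- Z1 -/
def ExZ0 : Prop := ∃ (Z0 : ℂ → ℂ) (C : ℝ), 1 ≤ C ∧ ZeroPole Z0 C

/-- Z2: on the line -/
def LineUp : Prop := ∀ p : ℝ, 0 < p → p ≤ 4 → ∃ C : ℝ, 3 ≤ C ∧ ∀ T : ℝ, C ≤ T →
  ∫ t in (-T)..T, ‖riemannZeta (1 / 2 + I * t)‖ ^ p ≤ C * (T * Real.log T ^ (p ^ 2 / 4))

/-- Z3: to the right of the line -/
def RightUp : Prop := ∀ p : ℝ, 0 < p → p ≤ 4 → ∃ C : ℝ, 3 ≤ C ∧ ∀ T x : ℝ, C ≤ T → 0 ≤ x →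
  x ≤ 1 / 4 → ∫ t in (-T)..T, ‖riemannZeta (((1 / 2 + x : ℝ) : ℂ) + I * t)‖ ^ p
    ≤ C * (T * Real.log T ^ (p ^ 2 / 4))

/-- Z4: the functional equation -/
def LeftSide : Prop := ∀ A : ℝ, 1 ≤ A → ∃ C : ℝ, 3 ≤ C ∧ ∀ t x : ℝ, C ≤ |t| → 0 ≤ x →
  x * Real.log |t| ≤ A →
  ‖riemannZeta (((1 / 2 - x : ℝ) : ℂ) + I * t)‖ ≤ C * ‖riemannZeta (((1 / 2 + x : ℝ) : ℂ) + I * t)‖

/-- Z5: near the line -/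
def LineAll : Prop := ∀ p A : ℝ, 0 < p → p ≤ 4 → 1 ≤ A → ∃ C : ℝ, 3 ≤ C ∧ ∀ T x : ℝ, C ≤ T →
  |x| * Real.log T ≤ A → ∫ t in (-T)..T, ‖riemannZeta (((1 / 2 + x : ℝ) : ℂ) + I * t)‖ ^ p
    ≤ C * (T * Real.log T ^ (p ^ 2 / 4))

/-- Z6: shifted intervals -/
def LineShift : Prop := ∀ p A : ℝ, 0 < p → p ≤ 4 → 1 ≤ A → ∃ C : ℝ, 3 ≤ C ∧ ∀ T Λ x0 x y : ℝ,
  C ≤ T → Real.log T ≤ A * Λ → Λ ≤ A * Real.log T → |x0| ≤ 2 * T → |x| * Λ ≤ 1 →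
  T⁻¹ * (∫ u in (x0 + y / Λ)..(x0 + y / Λ + T), ‖riemannZeta (((1 / 2 + x : ℝ) : ℂ) + I * u)‖ ^ p)
    ≤ C * Real.log T ^ (p ^ 2 / 4) * (1 + |y|) ^ 4

/-- Z7: the high frequencies -/
def Top : Prop := ∀ S : ℝ → ℂ, AEStronglyMeasurable S volume → RD S → ∀ p A : ℝ, 0 < p → p ≤ 4 →
  1 ≤ A → ∃ C : ℝ, 3 ≤ C ∧ ∀ T Λ x0 : ℝ, C ≤ T → Real.log T ≤ A * Λ → Λ ≤ A * Real.log T →
  |x0| ≤ 2 * T → Av p x0 T (ZW S Λ⁻¹) ≤ C * Real.log T ^ (p ^ 2 / 4)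

/-! ### final part -/

/-- E1: the plain average is close to a smooth average -/
def Err : Prop := ∀ g : ℂ → ℂ, BumpFn g → ∀ p : ℝ, 0 < p → p < 4 → ∀ δ : ℝ, 0 < δ → ∃ m0 : ℕ,
  ∀ m : ℕ, m0 ≤ m → ∃ C : ℝ, 1 ≤ C ∧ ∀ H T x : ℝ, 0 < H → C * H ≤ 1 → 1 ≤ T →
  C ≤ H * Real.log T → |x| ≤ T →
  Av p x T (fun t => PA H t - ZW (ph g (2 ^ m)) H t) ≤ δ * H ^ (-(p ^ 2 / 4))

/-- P0: the smooth average as an average of plain averages -/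
def PhConv : Prop := ∀ g : ℂ → ℂ, BumpFn g → ∀ H t : ℝ, 0 < H →
  ZW (ph g 1) H t = ∫ u : ℝ, PA H (t + H * u) * g (u : ℂ)

/-- P1: change of the line of integration -/
def ShiftLine : Prop := ∀ g : ℂ → ℂ, BumpFn g → ∀ f : ℂ → ℂ,
  DifferentiableOn ℂ f {z : ℂ | 1 / 4 < z.re ∧ z.re < 2} →
  (∃ (C : ℝ) (N : ℕ), ∀ z : ℂ, 1 / 2 ≤ z.re → z.re ≤ 1 → ‖f z‖ ≤ C * (1 + |z.im|) ^ N) →
  ∀ H t : ℝ, 0 < H → H ≤ 1 / 2 →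
  ∫ u : ℝ, f (((1 / 2 : ℝ) : ℂ) + I * ((t + H * u : ℝ) : ℂ)) * g (u : ℂ)
    = ∫ u : ℝ, f (((1 / 2 + H : ℝ) : ℂ) + I * ((t + H * u : ℝ) : ℂ)) * g ((u : ℂ) - I)

/-- P2: the smooth average is dominated by the plain average -/
def Pos : Prop := ∀ g : ℂ → ℂ, BumpFn g → ∀ p : ℝ, 0 < p → ∃ C0 : ℝ, 1 ≤ C0 ∧ ∀ H : ℝ, 0 < H →
  H ≤ 1 / 4 → ∃ T0 : ℝ, ∀ T : ℝ, T0 ≤ T →
  Av p 0 T (ZW (ph g 1) H) ≤ C0 * (Av p (-4 * T) (8 * T) (PA H) + 1)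

/-- the theorem -/
def Plain : Prop := ∀ p : ℝ, 0 < p → p < 4 → ∃ c : ℝ, 0 < c ∧ ∀ ε : ℝ, 0 < ε → ∃ C : ℝ, 0 < C ∧
  ∀ H T x : ℝ, 0 < H → C * H ≤ 1 → C ≤ H * Real.log T → |x| ≤ T →
  |Av p x T (PA H) - c * H ^ (-(p ^ 2 / 4))| ≤ ε * H ^ (-(p ^ 2 / 4))

end Pool.Agent.Lib.MP2
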