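import Mathlib
import Pool.Agent.Lib.MP_f9aece_nt_mp.StmtsP

/-!
Moments of the plain average of zeta over short windows, module C1.

If f c = 0 trivial. Otherwise Jensen: log ||f c|| <= circle average of log ||f|| (Mathlib:
AnalyticOnNhd.circleAverage_log_norm, the divisor part is >= 0), multiply by p and use the tangent
inequality for exp at the average. The zeros on the circle are finitely many.
-/

set_option autoImplicit false

namespace Pool.Agent.Lib.MP2

open MeasureTheory Set Filter Topology Complex
open Pool.Agent.Lib.MS (psi Adm ZW MomentsT2)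

private lemma subMean_log {f : ℂ → ℂ} {c : ℂ} {r : ℝ} (hr : 0 < r)
    (hf : AnalyticOnNhd ℂ f (Metric.closedBall c r)) (hc : f c ≠ 0) :
    Real.log ‖f c‖ ≤ Real.circleAverage (fun z => Real.log ‖f z‖) c r := by
  have habs : |r| = r := abs_of_pos hr
  have h1 := AnalyticOnNhd.circleAverage_log_norm (c := c) (R := r) (f := f) hr.ne'
    (by rw [habs]; exact hf) hc
  rw [h1]
  have h2 : 0 ≤ ∑ᶠ u, (MeromorphicOn.divisor f (Metric.closedBall c |r|) u : ℝ)
      * Real.log (r * ‖c - u‖⁻¹) := by
    apply finsum_nonneg
    intro u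
    by_cases hu : u ∈ Metric.closedBall c |r|
    · apply mul_nonneg
      · have h3 := MeromorphicOn.AnalyticOnNhd.divisor_nonneg (f := f) (U := Metric.closedBall c |r|)
          (by rw [habs]; exact hf)
        exact_mod_cast h3 u
      · by_cases hcu : c = u
        · subst hcu
          simp
        · apply Real.log_nonneg
          have h4 : 0 < ‖c - u‖ := norm_pos_iff.mpr (sub_ne_zero.mpr hcu)
          rw [habs, Metric.mem_closedBall, dist_comm, dist_eq_norm] at hu
          rw [← div_eq_mul_inv, le_div_iff₀ h4, one_mul]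
          exact hu
    · rw [Function.locallyFinsuppWithin.apply_eq_zero_of_notMem _ hu]
      simp
  linarith

theorem subMean : SubMean := by
  intro p hp f c r R hr hrR hf
  have hpi : (0 : ℝ) < 2 * Real.pi := by positivity
  have habs : |r| = r := abs_of_pos hr
  by_cases hc : f c = 0
  · rw [hc, norm_zero, Real.zero_rpow hp.ne']
    apply mul_nonneg (by positivity)
    apply intervalIntegral.integral_nonneg hpi.le
    intro θ _
    positivity
  have hsub : Metric.closedBall c r ⊆ Metric.ball c R := Metric.closedBall_subset_ball hrR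
  have han0 : AnalyticOnNhd ℂ f (Metric.ball c R) := hf.analyticOnNhd Metric.isOpen_ball
  have han : AnalyticOnNhd ℂ f (Metric.closedBall c r) := han0.mono hsub
  have hlog := subMean_log hr han hc
  have hmem : ∀ θ : ℝ, circleMap c r θ ∈ Metric.closedBall c r := fun θ =>
    circleMap_mem_closedBall c hr.le θ
  have hcirc : CircleIntegrable (fun z => Real.log ‖f z‖) c r := by
    apply MeromorphicOn.circleIntegrable_log_norm
    rw [habs]
    exact (han.mono Metric.sphere_subset_closedBall).meromorphicOn
  have hint : IntervalIntegrable (fun θ : ℝ => Real.log ‖f (circleMap c r θ)‖) volume 0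
      (2 * Real.pi) := hcirc
  rw [Real.circleAverage_def, smul_eq_mul] at hlog
  set A : ℝ := (2 * Real.pi)⁻¹ * ∫ (x : ℝ) in (0)..(2 * Real.pi),
    Real.log ‖f (circleMap c r x)‖ with hA
  have hcont : Continuous fun θ : ℝ => ‖f (circleMap c r θ)‖ ^ p := by
    apply Continuous.rpow_const
    · apply Continuous.norm
      exact (han.continuousOn).comp_continuous (continuous_circleMap c r) hmem
    · intro _
      exact Or.inr hp.le
  have hint2 : IntervalIntegrable (fun θ : ℝ => ‖f (circleMap c r θ)‖ ^ p) volume 0
      (2 * Real.pi) := hcont.intervalIntegrable _ _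
  have hint3 : IntervalIntegrable (fun θ : ℝ => Real.exp (p * A) *
      (1 - p * A + p * Real.log ‖f (circleMap c r θ)‖)) volume 0 (2 * Real.pi) :=
    ((_root_.intervalIntegrable_const).add (hint.const_mul p)).const_mul _
  have hfin : (Metric.closedBall c r \ f ⁻¹' {0}ᶜ).Finite := by
    apply IsCompact.finite_sdiff_of_mem_codiscreteWithin (isCompact_closedBall c r)
    apply AnalyticOnNhd.preimage_zero_mem_codiscreteWithin han hc
      (Metric.mem_closedBall_self hr.le)
    exact ⟨⟨c, Metric.mem_closedBall_self hr.le⟩, (convex_closedBall c r).isPreconnected⟩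
  have hzero : volume {θ : ℝ | f (circleMap c r θ) = 0} = 0 := by
    apply measure_mono_null _ ((hfin.countable.preimage_circleMap c hr.ne').measure_zero _)
    intro θ hθ
    refine ⟨hmem θ, ?_⟩
    simpa using hθ
  have hmono : ∫ θ in (0 : ℝ)..(2 * Real.pi), Real.exp (p * A) *
      (1 - p * A + p * Real.log ‖f (circleMap c r θ)‖) ≤
      ∫ θ in (0 : ℝ)..(2 * Real.pi), ‖f (circleMap c r θ)‖ ^ p := by
    apply intervalIntegral.integral_mono_ae hpi.le hint3 hint2
    have h1 : ∀ᵐ θ : ℝ, ¬ (f (circleMap c r θ) = 0) := by
      rw [ae_iff]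
      simpa using hzero
    filter_upwards [h1] with θ hθ
    have h2 : 0 < ‖f (circleMap c r θ)‖ := norm_pos_iff.mpr hθ
    rw [Real.rpow_def_of_pos h2]
    have h3 := Real.add_one_le_exp (Real.log ‖f (circleMap c r θ)‖ * p - p * A)
    have h4 : Real.exp (Real.log ‖f (circleMap c r θ)‖ * p) =
        Real.exp (p * A) * Real.exp (Real.log ‖f (circleMap c r θ)‖ * p - p * A) := by
      rw [← Real.exp_add]
      congr 1
      ring
    rw [h4]
    apply mul_le_mul_of_nonneg_left _ (Real.exp_pos _).le
    linarith
  have hval : (2 * Real.pi)⁻¹ * ∫ θ in (0 : ℝ)..(2 * Real.pi), Real.exp (p * A) *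
      (1 - p * A + p * Real.log ‖f (circleMap c r θ)‖) = Real.exp (p * A) := by
    rw [intervalIntegral.integral_const_mul, intervalIntegral.integral_add
      (_root_.intervalIntegrable_const) (hint.const_mul p),
      intervalIntegral.integral_const, intervalIntegral.integral_const_mul, smul_eq_mul, sub_zero]
    have h5 : (∫ (x : ℝ) in (0)..(2 * Real.pi), Real.log ‖f (circleMap c r x)‖) =
        2 * Real.pi * A := by
      rw [hA, ← mul_assoc, mul_inv_cancel₀ hpi.ne', one_mul]
    rw [h5]
    field_simp
    ring
  have hfc : ‖f c‖ ^ p ≤ Real.exp (p * A) := by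
    rw [Real.rpow_def_of_pos (norm_pos_iff.mpr hc)]
    apply Real.exp_le_exp.mpr
    rw [mul_comm]
    exact mul_le_mul_of_nonneg_left hlog hp.le
  refine hfc.trans ?_
  rw [← hval]
  exact mul_le_mul_of_nonneg_left hmono (by positivity)

end Pool.Agent.Lib.MP2
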