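import Mathlib
import Pool.Agent.Lib.MP_f9aece_nt_mp.StmtsP

/-!
Moments of the plain average of zeta over short windows, module C2.

By SubMean for every radius 0 < s <= r (centre c = sigma + I t): ||f c||^p <= (2 pi)^(-1) int_theta ||f(circleMap c s theta)||^p; multiply by 2 pi s, integrate over s in (0,r): pi r^2 ||f c||^p <= int over the disc (polar coordinates: integral_comp_polarCoord_symm or Complex.integral_comp_polarCoord_symm) <= int over the square (nonnegative, continuous on the strip so integrable on the closed square), Fubini (MeasureTheory.setIntegral_prod, Complex.volume_preserving_equiv_real_prod) and pi >= 1. (about 120 lines)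
-/

set_option autoImplicit false

namespace Pool.Agent.Lib.MP2

open MeasureTheory Set Filter Topology Complex
open Pool.Agent.Lib.MS (psi Adm ZW MomentsT2)

theorem discMean (h : SubMean) : DiscMean := by
  intro p hp f σ t r R hr hrR hdiff hcont
  set F : ℝ × ℝ → ℝ := fun q => ‖f (((σ + q.1 : ℝ) : ℂ) + I * ((t + q.2 : ℝ) : ℂ))‖ ^ p with hF
  have hF0 : ∀ q, 0 ≤ F q := fun q => Real.rpow_nonneg (norm_nonneg _) _
  have hFc : ContinuousOn F {q : ℝ × ℝ | |q.1| ≤ r} := by
    have h1 : ContinuousOn (fun q : ℝ × ℝ => f (((σ + q.1 : ℝ) : ℂ) + I * ((t + q.2 : ℝ) : ℂ)))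
        {q : ℝ × ℝ | |q.1| ≤ r} := by
      refine hcont.comp (Continuous.continuousOn (by fun_prop)) ?_
      intro q hq
      simp only [mem_setOf_eq] at hq ⊢
      simpa using hq
    exact h1.norm.rpow_const (fun q _ => Or.inr hp.le)
  have hcirc : ∀ s θ : ℝ, ‖f (circleMap (σ + I * t) s θ)‖ ^ p
      = F (s * Real.cos θ, s * Real.sin θ) := by
    intro s θ
    simp only [hF]
    congr 3
    rw [circleMap, Complex.exp_mul_I]
    push_cast
    ring
  have hsub : ∀ s : ℝ, 0 < s → s ≤ r → 2 * Real.pi * F (0, 0)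
      ≤ ∫ θ in Ioo (-Real.pi) Real.pi, F (s * Real.cos θ, s * Real.sin θ) := by
    intro s hs hsr
    have h1 := h p hp f (σ + I * t) s R hs (by linarith) hdiff
    have h2 : ∫ θ in (0 : ℝ)..(2 * Real.pi), ‖f (circleMap (σ + I * t) s θ)‖ ^ p
        = ∫ θ in Ioo (-Real.pi) Real.pi, F (s * Real.cos θ, s * Real.sin θ) := by
      have h3 : Function.Periodic (fun θ => ‖f (circleMap (σ + I * t) s θ)‖ ^ p)
          (2 * Real.pi) := by
        intro θ
        simp only
        rw [periodic_circleMap]
      have h4 := h3.intervalIntegral_add_eq 0 (-Real.pi)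
      rw [show (0 : ℝ) + 2 * Real.pi = 2 * Real.pi by ring,
        show -Real.pi + 2 * Real.pi = Real.pi by ring] at h4
      rw [h4, intervalIntegral.integral_of_le (by linarith [Real.pi_pos]),
        integral_Ioc_eq_integral_Ioo]
      exact setIntegral_congr_fun measurableSet_Ioo (fun θ _ => hcirc s θ)
    rw [h2] at h1
    have h5 : ‖f (σ + I * t)‖ ^ p = F (0, 0) := by
      simp only [hF]
      simp
    rw [h5] at h1
    have h6 : (0 : ℝ) < 2 * Real.pi := by positivity
    calc 2 * Real.pi * F (0, 0) ≤ 2 * Real.pi * ((2 * Real.pi)⁻¹ *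
          ∫ θ in Ioo (-Real.pi) Real.pi, F (s * Real.cos θ, s * Real.sin θ)) :=
          mul_le_mul_of_nonneg_left h1 h6.le
      _ = _ := by rw [← mul_assoc, mul_inv_cancel₀ h6.ne', one_mul]
  -- polar coordinates
  set D : Set (ℝ × ℝ) := {q : ℝ × ℝ | q.1 ^ 2 + q.2 ^ 2 < r ^ 2} with hD
  have hDm : MeasurableSet D := by
    apply measurableSet_lt <;> fun_prop
  have hpol := integral_comp_polarCoord_symm (D.indicator F)
  rw [integral_indicator hDm] at hpol
  have hDsq : D ⊆ Icc (-r) r ×ˢ Icc (-r) r := by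
    intro q hq
    simp only [hD, mem_setOf_eq] at hq
    refine ⟨abs_le.1 (abs_le_of_sq_le_sq (by nlinarith) hr.le),
      abs_le.1 (abs_le_of_sq_le_sq (by nlinarith) hr.le)⟩
  have hsqint : IntegrableOn F (Icc (-r) r ×ˢ Icc (-r) r) := by
    apply ContinuousOn.integrableOn_compact (isCompact_Icc.prod isCompact_Icc)
    refine hFc.mono ?_
    intro q hq
    exact abs_le.2 hq.1
  have hle1 : ∫ q in D, F q ≤ ∫ q in Icc (-r) r ×ˢ Icc (-r) r, F q := by
    apply setIntegral_mono_set hsqint
    · exact Eventually.of_forall hF0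
    · exact hDsq.eventuallyLE
  -- the left side of polar coordinates
  have hpolL : ∫ q in polarCoord.target, q.1 • D.indicator F (polarCoord.symm q)
      = ∫ q in Ioo 0 r ×ˢ Ioo (-Real.pi) Real.pi,
        q.1 * F (q.1 * Real.cos q.2, q.1 * Real.sin q.2) := by
    have h1 : ∀ q ∈ polarCoord.target, q.1 • D.indicator F (polarCoord.symm q)
        = (Iio r ×ˢ univ : Set (ℝ × ℝ)).indicator
          (fun q => q.1 * F (q.1 * Real.cos q.2, q.1 * Real.sin q.2)) q := by
      intro q hq
      rw [polarCoord_target] at hq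
      have hq0 : 0 < q.1 := hq.1
      rw [polarCoord_symm_apply]
      have hmem : ((q.1 * Real.cos q.2, q.1 * Real.sin q.2) : ℝ × ℝ) ∈ D ↔ q.1 < r := by
        simp only [hD, mem_setOf_eq]
        have : (q.1 * Real.cos q.2) ^ 2 + (q.1 * Real.sin q.2) ^ 2 = q.1 ^ 2 := by
          have := Real.cos_sq_add_sin_sq q.2
          calc _ = q.1 ^ 2 * (Real.cos q.2 ^ 2 + Real.sin q.2 ^ 2) := by ring
            _ = _ := by rw [this, mul_one]
        rw [this]
        exact sq_lt_sq₀ hq0.le hr.le
      by_cases hqr : q.1 < r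
      · rw [indicator_of_mem (hmem.2 hqr), indicator_of_mem]
        · rfl
        · exact ⟨hqr, mem_univ _⟩
      · rw [indicator_of_notMem (fun hh => hqr (hmem.1 hh)), indicator_of_notMem]
        · simp
        · exact fun hh => hqr hh.1
    have htm : MeasurableSet (polarCoord.target) := by
      rw [polarCoord_target]
      exact measurableSet_Ioi.prod measurableSet_Ioo
    rw [setIntegral_congr_fun htm h1, setIntegral_indicator (measurableSet_Iio.prod MeasurableSet.univ)]
    congr 2
    rw [polarCoord_target]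
    ext q
    simp only [mem_inter_iff, mem_prod, mem_Ioi, mem_Ioo, mem_Iio, mem_univ, and_true]
    tauto
  have hint2 : IntegrableOn (fun q : ℝ × ℝ => q.1 * F (q.1 * Real.cos q.2, q.1 * Real.sin q.2))
      (Ioo 0 r ×ˢ Ioo (-Real.pi) Real.pi) := by
    have h1 : IntegrableOn (fun q : ℝ × ℝ => q.1 * F (q.1 * Real.cos q.2, q.1 * Real.sin q.2))
        (Icc 0 r ×ˢ Icc (-Real.pi) Real.pi) := by
      apply ContinuousOn.integrableOn_compact (isCompact_Icc.prod isCompact_Icc)
      apply ContinuousOn.mul continuousOn_fst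
      refine hFc.comp (Continuous.continuousOn (by fun_prop)) ?_
      intro q hq
      simp only [mem_setOf_eq]
      rw [abs_mul, abs_of_nonneg hq.1.1]
      calc q.1 * |Real.cos q.2| ≤ q.1 * 1 :=
            mul_le_mul_of_nonneg_left (Real.abs_cos_le_one _) hq.1.1
        _ ≤ r := by linarith [hq.1.2]
    exact h1.mono_set (prod_mono Ioo_subset_Icc_self Ioo_subset_Icc_self)
  have hfub : ∫ q in Ioo 0 r ×ˢ Ioo (-Real.pi) Real.pi,
        q.1 * F (q.1 * Real.cos q.2, q.1 * Real.sin q.2)
      = ∫ s in Ioo 0 r, ∫ θ in Ioo (-Real.pi) Real.pi,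
        s * F (s * Real.cos θ, s * Real.sin θ) := by
    rw [Measure.volume_eq_prod] at hint2 ⊢
    rw [setIntegral_prod _ hint2]
  have hle2 : Real.pi * r ^ 2 * F (0, 0) ≤ ∫ s in Ioo 0 r, ∫ θ in Ioo (-Real.pi) Real.pi,
        s * F (s * Real.cos θ, s * Real.sin θ) := by
    have h1 : ∫ s in Ioo 0 r, (2 * Real.pi * F (0, 0)) * s = Real.pi * r ^ 2 * F (0, 0) := by
      rw [← integral_Ioc_eq_integral_Ioo, ← intervalIntegral.integral_of_le hr.le,
        intervalIntegral.integral_const_mul, integral_id]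
      ring
    rw [← h1]
    apply setIntegral_mono_on
    · exact (Continuous.integrableOn_Icc (by fun_prop)).mono_set Ioo_subset_Icc_self
    · rw [Measure.volume_eq_prod, IntegrableOn, ← Measure.prod_restrict] at hint2
      exact hint2.integral_prod_left
    · exact measurableSet_Ioo
    · intro s hs
      rw [integral_const_mul]
      have := hsub s hs.1 hs.2.le
      calc 2 * Real.pi * F (0, 0) * s = s * (2 * Real.pi * F (0, 0)) := by ring
        _ ≤ _ := mul_le_mul_of_nonneg_left this hs.1.le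
  have hsq : ∫ q in Icc (-r) r ×ˢ Icc (-r) r, F q
      = ∫ x in (-r)..r, ∫ u in (t - r)..(t + r), ‖f (((σ + x : ℝ) : ℂ) + I * u)‖ ^ p := by
    rw [Measure.volume_eq_prod] at hsqint ⊢
    rw [setIntegral_prod _ hsqint, integral_Icc_eq_integral_Ioc,
      ← intervalIntegral.integral_of_le (by linarith)]
    apply intervalIntegral.integral_congr
    intro x _
    simp only
    rw [integral_Icc_eq_integral_Ioc, ← intervalIntegral.integral_of_le (by linarith)]
    have := intervalIntegral.integral_comp_add_left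
      (a := -r) (b := r) (fun u : ℝ => ‖f (((σ + x : ℝ) : ℂ) + I * u)‖ ^ p) t
    rw [show t + -r = t - r by ring] at this
    rw [← this]
  have hfin : Real.pi * r ^ 2 * F (0, 0)
      ≤ ∫ x in (-r)..r, ∫ u in (t - r)..(t + r), ‖f (((σ + x : ℝ) : ℂ) + I * u)‖ ^ p := by
    rw [← hsq]
    refine le_trans hle2 ?_
    rw [← hfub, ← hpolL, hpol]
    exact hle1
  have h5 : ‖f (σ + I * t)‖ ^ p = F (0, 0) := by
    simp only [hF]
    simp
  rw [h5]
  have hr2 : 0 < r ^ 2 := by positivity
  rw [← div_eq_inv_mul, le_div_iff₀ hr2]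
  refine le_trans ?_ hfin
  have hpi : (1 : ℝ) ≤ Real.pi := by linarith [Real.pi_gt_three]
  nlinarith [mul_nonneg (hF0 (0, 0)) hr2.le]

end Pool.Agent.Lib.MP2
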