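import Mathlib
import Pool.Agent.Lib.MP_f9aece_nt_mp.StmtsP

/-!
Moments of the plain average of zeta over short windows, module C3.

l(x) = M a + (x-a)/(b-a) (M b - M a), D = M - l, continuous on [a,b], D a = D b = 0, D satisfies the same inequality since the average of l(x + r cos theta) is l(x) (int cos = 0). If D has a positive maximum m, let x0 be the largest point with D x0 = m (sSup of a compact set), x0 < b, x0 > a; with r = min(x0-a, b-x0): D(x0 + r cos theta) <= m, with strict inequality for cos theta > 0, both sides continuous in theta: the average is < m, contradiction (intervalIntegral.integral_lt_integral_of_continuousOn_of_le_of_exists_lt). (about 80 lines)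
-/

set_option autoImplicit false

namespace Pool.Agent.Lib.MP2

open MeasureTheory Set Filter Topology Complex
open Pool.Agent.Lib.MS (psi Adm ZW MomentsT2)

theorem maxPrinc : MaxPrinc := by
  intro M a b hab hM hsub x hx
  by_contra hcon
  rw [not_le] at hcon
  have hba : (0 : ℝ) < b - a := sub_pos.2 hab
  set K : ℝ := (M b - M a) / (b - a) with hK
  have hlin : ∀ y : ℝ, M a + (y - a) / (b - a) * (M b - M a) = M a + (y - a) * K := by
    intro y; rw [hK]; ring
  let D : ℝ → ℝ := fun y => M y - (M a + (y - a) * K)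
  have hDc : ContinuousOn D (Icc a b) := by
    apply hM.sub
    fun_prop
  have hDa : D a = 0 := by simp [D]
  have hDb : D b = 0 := by
    simp only [D, hK]
    field_simp
    ring
  have hDx : 0 < D x := by
    have := hcon
    rw [hlin] at this
    simp only [D]
    linarith
  obtain ⟨x1, hx1, hmax⟩ := isCompact_Icc.exists_isMaxOn ⟨x, hx⟩ hDc
  have hm : 0 < D x1 := lt_of_lt_of_le hDx (hmax hx)
  have hSc : IsCompact (Icc a b ∩ D ⁻¹' {D x1}) :=
    isCompact_Icc.of_isClosed_subset
      (hDc.preimage_isClosed_of_isClosed isClosed_Icc isClosed_singleton) inter_subset_left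
  obtain ⟨x0, hx0, hgr⟩ := hSc.exists_isGreatest ⟨x1, hx1, rfl⟩
  have hx0D : D x0 = D x1 := hx0.2
  have hx0a : a < x0 := by
    rcases hx0.1.1.lt_or_eq with h | h
    · exact h
    · exfalso; rw [← h, hDa] at hx0D; linarith
  have hx0b : x0 < b := by
    rcases hx0.1.2.lt_or_eq with h | h
    · exact h
    · exfalso; rw [h, hDb] at hx0D; linarith
  obtain ⟨r, hr, hra, hrb⟩ : ∃ r : ℝ, 0 < r ∧ r ≤ x0 - a ∧ r ≤ b - x0 :=
    ⟨min (x0 - a) (b - x0), lt_min (by linarith) (by linarith), min_le_left _ _, min_le_right _ _⟩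
  have h1 := hsub x0 r hr (by linarith) (by linarith)
  have hmem : ∀ θ : ℝ, x0 + r * Real.cos θ ∈ Icc a b := by
    intro θ
    have h3 := Real.cos_le_one θ
    have h4 := Real.neg_one_le_cos θ
    constructor <;> nlinarith
  have hcM : Continuous fun θ : ℝ => M (x0 + r * Real.cos θ) := by
    rw [← continuousOn_univ]
    exact hM.comp (by fun_prop) (fun θ _ => hmem θ)
  have hcD : Continuous fun θ : ℝ => D (x0 + r * Real.cos θ) := by
    rw [← continuousOn_univ]
    exact hDc.comp (by fun_prop) (fun θ _ => hmem θ)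
  have h2 : ∫ θ in (0 : ℝ)..(2 * Real.pi), M (x0 + r * Real.cos θ)
      = (∫ θ in (0 : ℝ)..(2 * Real.pi), D (x0 + r * Real.cos θ))
        + 2 * Real.pi * (M a + (x0 - a) * K) := by
    have e1 : ∀ θ : ℝ, M (x0 + r * Real.cos θ) = D (x0 + r * Real.cos θ)
        + ((M a + (x0 - a) * K) + (r * K) * Real.cos θ) := by
      intro θ; simp only [D]; ring
    rw [intervalIntegral.integral_congr (g := fun θ => D (x0 + r * Real.cos θ)
        + ((M a + (x0 - a) * K) + (r * K) * Real.cos θ)) (fun θ _ => e1 θ)]
    rw [intervalIntegral.integral_add (hcD.intervalIntegrable _ _)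
      ((by fun_prop : Continuous fun θ : ℝ => ((M a + (x0 - a) * K)
        + (r * K) * Real.cos θ)).intervalIntegrable _ _)]
    rw [intervalIntegral.integral_add (continuous_const.intervalIntegrable _ _)
      ((by fun_prop : Continuous fun θ : ℝ => (r * K) * Real.cos θ).intervalIntegrable _ _)]
    rw [intervalIntegral.integral_const, intervalIntegral.integral_const_mul, integral_cos]
    simp
  have hpi := Real.pi_pos
  have h3 : ∫ θ in (0 : ℝ)..(2 * Real.pi), D (x0 + r * Real.cos θ)
      < ∫ θ in (0 : ℝ)..(2 * Real.pi), D x1 := by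
    apply intervalIntegral.integral_lt_integral_of_continuousOn_of_le_of_exists_lt
      (by positivity) hcD.continuousOn continuousOn_const
    · intro θ _
      exact hmax (hmem θ)
    · refine ⟨0, ⟨le_refl _, by positivity⟩, ?_⟩
      have h5 : D (x0 + r * Real.cos 0) ≤ D x1 := hmax (hmem 0)
      rcases h5.lt_or_eq with h | h
      · exact h
      · exfalso
        have h6 : x0 + r * Real.cos 0 ≤ x0 := hgr ⟨hmem 0, h⟩
        rw [Real.cos_zero] at h6
        linarith
  rw [intervalIntegral.integral_const, smul_eq_mul, sub_zero] at h3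
  rw [h2, mul_add, ← mul_assoc, inv_mul_cancel₀ (by positivity), one_mul] at h1
  have h4 : (2 * Real.pi)⁻¹ * ∫ θ in (0 : ℝ)..(2 * Real.pi), D (x0 + r * Real.cos θ) < D x1 := by
    rw [inv_mul_lt_iff₀ (by positivity)]
    exact h3
  have h5 : D x0 = M x0 - (M a + (x0 - a) * K) := rfl
  linarith

end Pool.Agent.Lib.MP2
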