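import Mathlib
import Pool.Agent.Lib.MP_f9aece_nt_mp.StmtsP

/-!
Moments of the plain average of zeta over short windows, module C4: convexity of the means
of `‖f‖ ^ p` on vertical lines, against a Gaussian weight.
-/

set_option autoImplicit false

namespace Pool.Agent.Lib.MP2

open MeasureTheory Set Filter Topology Complex
open Pool.Agent.Lib.MS (psi Adm ZW MomentsT2)

private lemma bnd {p : ℝ} (hp : 0 < p) {C : ℝ} {N : ℕ} {y t τ u : ℝ} (hy : 0 ≤ y)
    (h : y ≤ C * (1 + |t|) ^ N) (hu : u ^ 2 ≤ 4) :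
    y ^ p * Real.exp (p * (u ^ 2 - (t - τ) ^ 2))
      ≤ (|C| ^ p * Real.exp (p * ((N : ℝ) ^ 2 + τ ^ 2 + 4))) * Real.exp (-(p / 4) * t ^ 2) := by
  have h1 : y ≤ |C| * Real.exp (N * |t|) := by
    refine h.trans ?_
    have h2 : (1 + |t|) ^ N ≤ Real.exp (N * |t|) := by
      rw [Real.exp_nat_mul]
      exact pow_le_pow_left₀ (by positivity) (by linarith [Real.add_one_le_exp |t|]) N
    exact mul_le_mul (le_abs_self C) h2 (by positivity) (abs_nonneg C)
  have h3 : y ^ p ≤ |C| ^ p * Real.exp (p * (N * |t|)) := by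
    refine (Real.rpow_le_rpow hy h1 hp.le).trans (le_of_eq ?_)
    rw [Real.mul_rpow (abs_nonneg C) (Real.exp_pos _).le, ← Real.exp_mul, mul_comm p]
  calc y ^ p * Real.exp (p * (u ^ 2 - (t - τ) ^ 2))
      ≤ (|C| ^ p * Real.exp (p * (N * |t|))) * Real.exp (p * (u ^ 2 - (t - τ) ^ 2)) :=
        mul_le_mul_of_nonneg_right h3 (Real.exp_pos _).le
    _ = |C| ^ p * Real.exp (p * (N * |t|) + p * (u ^ 2 - (t - τ) ^ 2)) := by
        rw [Real.exp_add]; ring
    _ ≤ |C| ^ p * Real.exp (p * ((N : ℝ) ^ 2 + τ ^ 2 + 4) + -(p / 4) * t ^ 2) := by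
        refine mul_le_mul_of_nonneg_left (Real.exp_le_exp.2 ?_) (by positivity)
        have h5 : (N : ℝ) * |t| ≤ t ^ 2 / 4 + (N : ℝ) ^ 2 := by
          nlinarith [sq_nonneg (|t| / 2 - N), sq_abs t]
        have h6 : -(t - τ) ^ 2 ≤ -(t ^ 2 / 2) + τ ^ 2 := by nlinarith [sq_nonneg (t - 2 * τ)]
        have h7 := mul_le_mul_of_nonneg_left (add_le_add (add_le_add h5 h6) hu) hp.le
        linarith
    _ = _ := by rw [Real.exp_add]; ring

private noncomputable def FF (p : ℝ) (f : ℂ → ℂ) (a τ x t : ℝ) : ℝ :=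
  ‖f ((x : ℂ) + I * t)‖ ^ p * Real.exp (p * ((x - a) ^ 2 - (t - τ) ^ 2))

private lemma FF_nonneg (p : ℝ) (f : ℂ → ℂ) (a τ x t : ℝ) : 0 ≤ FF p f a τ x t := by
  unfold FF; positivity

private lemma FF_eq (p : ℝ) (f : ℂ → ℂ) (a τ x t : ℝ) :
    FF p f a τ x t = ‖f ((x : ℂ) + I * t) * Complex.exp (((x : ℂ) + I * t - a - I * τ) ^ 2)‖ ^ p := by
  unfold FF
  rw [norm_mul, Real.mul_rpow (norm_nonneg _) (norm_nonneg _), Complex.norm_exp, ← Real.exp_mul]
  congr 2
  have h : (((x : ℂ) + I * t - a - I * τ) ^ 2).re = (x - a) ^ 2 - (t - τ) ^ 2 := by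
    have : ((x : ℂ) + I * t - a - I * τ) = (((x - a : ℝ) : ℂ) + ((t - τ : ℝ) : ℂ) * I) := by
      push_cast; ring
    rw [this, sq]
    simp [Complex.mul_re, Complex.add_re, Complex.add_im]
    ring
  rw [h]; ring

private lemma FF_cont {Y : Type*} [TopologicalSpace Y] {p : ℝ} (hp : 0 < p) {f : ℂ → ℂ}
    {a b δ : ℝ} (hδ : 0 < δ)
    (hf : DifferentiableOn ℂ f {z : ℂ | a - δ < z.re ∧ z.re < b + δ}) {S X T : Y → ℝ}
    (hS : Continuous S) (hX : Continuous X) (hT : Continuous T)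
    (h : ∀ y, X y ∈ Icc a b) : Continuous (fun y => FF p f a (S y) (X y) (T y)) := by
  have h1 : Continuous (fun y => f ((X y : ℂ) + I * (T y : ℂ))) := by
    refine hf.continuousOn.comp_continuous (by fun_prop) ?_
    intro y
    have h2 := h y
    have h3 : ((X y : ℂ) + I * (T y : ℂ)).re = X y := by simp
    refine ⟨?_, ?_⟩
    · rw [h3]; linarith [h2.1]
    · rw [h3]; linarith [h2.2]
  exact (h1.norm.rpow_const (fun _ => Or.inr hp.le)).mul (by fun_prop)

private lemma FF_bd {p : ℝ} (hp : 0 < p) {f : ℂ → ℂ} {a b : ℝ} (hab : b ≤ a + 2) {C : ℝ} {N : ℕ}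
    (hg : ∀ z : ℂ, a ≤ z.re → z.re ≤ b → ‖f z‖ ≤ C * (1 + |z.im|) ^ N) {τ x t : ℝ}
    (hx : x ∈ Icc a b) :
    FF p f a τ x t
      ≤ (|C| ^ p * Real.exp (p * ((N : ℝ) ^ 2 + τ ^ 2 + 4))) * Real.exp (-(p / 4) * t ^ 2) := by
  have h1 : ((x : ℂ) + I * (t : ℂ)).re = x := by simp
  have h2 : ((x : ℂ) + I * (t : ℂ)).im = t := by simp
  have h := hg ((x : ℂ) + I * (t : ℂ)) (by rw [h1]; exact hx.1) (by rw [h1]; exact hx.2)
  rw [h2] at h
  exact bnd hp (norm_nonneg _) h (by nlinarith [hx.1, hx.2])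

private lemma FF_int {p : ℝ} (hp : 0 < p) {f : ℂ → ℂ} {a b δ : ℝ} (hδ : 0 < δ) (hab : b ≤ a + 2)
    (hf : DifferentiableOn ℂ f {z : ℂ | a - δ < z.re ∧ z.re < b + δ}) {C : ℝ} {N : ℕ}
    (hg : ∀ z : ℂ, a ≤ z.re → z.re ≤ b → ‖f z‖ ≤ C * (1 + |z.im|) ^ N) (τ : ℝ) {x : ℝ}
    (hx : x ∈ Icc a b) : Integrable (FF p f a τ x) := by
  refine Integrable.mono' ((integrable_exp_neg_mul_sq (b := p / 4) (by positivity)).const_mul
    (|C| ^ p * Real.exp (p * ((N : ℝ) ^ 2 + τ ^ 2 + 4)))) ?_ ?_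
  · exact (FF_cont hp hδ hf continuous_const continuous_const continuous_id
      (fun _ => hx)).aestronglyMeasurable
  · refine Eventually.of_forall fun t => ?_
    rw [Real.norm_of_nonneg (FF_nonneg _ _ _ _ _ _)]
    exact FF_bd hp hab hg hx

private lemma conv1 (h1 : SubMean) (h3 : MaxPrinc) {p : ℝ} (hp : 0 < p) {f : ℂ → ℂ} {a b δ : ℝ}
    (hδ : 0 < δ) (ha : a < b) (hab : b ≤ a + 2)
    (hf : DifferentiableOn ℂ f {z : ℂ | a - δ < z.re ∧ z.re < b + δ}) {C : ℝ} {N : ℕ}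
    (hg : ∀ z : ℂ, a ≤ z.re → z.re ≤ b → ‖f z‖ ≤ C * (1 + |z.im|) ^ N) (τ : ℝ) {x : ℝ}
    (hx : x ∈ Icc a b) :
    ∫ t, FF p f a τ x t ≤ (∫ t, FF p f a τ a t)
      + (x - a) / (b - a) * ((∫ t, FF p f a τ b t) - ∫ t, FF p f a τ a t) := by
  refine h3 (fun x => ∫ t, FF p f a τ x t) a b ha ?_ ?_ x hx
  · refine continuousOn_of_dominated
      (bound := fun t => (|C| ^ p * Real.exp (p * ((N : ℝ) ^ 2 + τ ^ 2 + 4)))
        * Real.exp (-(p / 4) * t ^ 2)) ?_ ?_ ?_ ?_
    · intro y hy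
      exact (FF_int hp hδ hab hf hg τ hy).1
    · intro y hy
      refine Eventually.of_forall fun t => ?_
      rw [Real.norm_of_nonneg (FF_nonneg _ _ _ _ _ _)]
      exact FF_bd hp hab hg hy
    · exact (integrable_exp_neg_mul_sq (b := p / 4) (by positivity)).const_mul _
    · refine Eventually.of_forall fun t => ?_
      rw [continuousOn_iff_continuous_domRestrict]
      exact FF_cont (Y := Icc a b) hp hδ hf continuous_const continuous_subtype_val
        continuous_const (fun y => y.2)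
  · intro y r hr hy1 hy2
    set K : ℝ := |C| ^ p * Real.exp (p * ((N : ℝ) ^ 2 + τ ^ 2 + 4)) with hK
    have hK0 : 0 ≤ K := by positivity
    have hcos : ∀ θ : ℝ, y + r * Real.cos θ ∈ Icc a b := fun θ =>
      ⟨by nlinarith [Real.neg_one_le_cos θ], by nlinarith [Real.cos_le_one θ]⟩
    have hyI : y ∈ Icc a b := ⟨by linarith, by linarith⟩
    -- pointwise
    have hpt : ∀ t : ℝ, FF p f a τ y t
        ≤ (2 * Real.pi)⁻¹ * ∫ θ in (0 : ℝ)..(2 * Real.pi),
          FF p f a τ (y + r * Real.cos θ) (t + r * Real.sin θ) := by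
      intro t
      have hd : DifferentiableOn ℂ (fun z => f z * Complex.exp ((z - a - I * τ) ^ 2))
          (Metric.ball ((y : ℂ) + I * t) (r + δ)) := by
        refine DifferentiableOn.mul (hf.mono ?_) (by fun_prop)
        intro z hz
        have h5 : |z.re - y| < r + δ := by
          have h6 := Complex.abs_re_le_norm (z - ((y : ℂ) + I * t))
          have h7 : (z - ((y : ℂ) + I * t)).re = z.re - y := by simp
          rw [h7] at h6
          rw [Metric.mem_ball, dist_eq_norm] at hz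
          exact lt_of_le_of_lt h6 hz
        rw [abs_lt] at h5
        exact ⟨by linarith [h5.1], by linarith [h5.2]⟩
      have h8 := h1 p hp _ ((y : ℂ) + I * t) r (r + δ) hr (by linarith) hd
      rw [FF_eq]
      refine h8.trans (le_of_eq ?_)
      congr 1
      refine intervalIntegral.integral_congr fun θ _ => ?_
      have h9 : circleMap ((y : ℂ) + I * t) r θ
          = (((y + r * Real.cos θ : ℝ) : ℂ) + I * ((t + r * Real.sin θ : ℝ) : ℂ)) := by
        rw [circleMap, Complex.exp_mul_I]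
        push_cast
        ring
      rw [FF_eq, h9]
    -- joint integrability
    have hJ : Integrable (Function.uncurry fun (t θ : ℝ) =>
        FF p f a τ (y + r * Real.cos θ) (t + r * Real.sin θ))
        (volume.prod (volume.restrict (Ioc 0 (2 * Real.pi)))) := by
      have hG : Integrable (fun t : ℝ => K * Real.exp (p * r ^ 2 / 4) *
          Real.exp (-(p / 8) * t ^ 2)) volume :=
        (integrable_exp_neg_mul_sq (b := p / 8) (by positivity)).const_mul _
      refine Integrable.mono' (hG.comp_fst (volume.restrict (Ioc 0 (2 * Real.pi)))) ?_ ?_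
      · exact (FF_cont (Y := ℝ × ℝ) (S := fun _ => τ) (X := fun q => y + r * Real.cos q.2)
          (T := fun q => q.1 + r * Real.sin q.2) hp hδ hf continuous_const (by fun_prop)
          (by fun_prop) (fun q => hcos q.2)).aestronglyMeasurable
      · refine Eventually.of_forall fun q => ?_
        obtain ⟨t, θ⟩ := q
        simp only [Function.uncurry_apply_pair]
        rw [Real.norm_of_nonneg (FF_nonneg _ _ _ _ _ _)]
        refine (FF_bd hp hab hg (hcos θ)).trans ?_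
        rw [← hK, mul_assoc K, ← Real.exp_add]
        refine mul_le_mul_of_nonneg_left (Real.exp_le_exp.2 ?_) hK0
        have h10 : t ^ 2 / 2 - r ^ 2 ≤ (t + r * Real.sin θ) ^ 2 := by
          have h11 : (r * Real.sin θ) ^ 2 ≤ r ^ 2 := by
            rw [mul_pow]
            exact mul_le_of_le_one_right (sq_nonneg r) (Real.sin_sq_le_one θ)
          nlinarith [sq_nonneg (t + 2 * (r * Real.sin θ))]
        have h12 := mul_le_mul_of_nonneg_left h10 (by positivity : 0 ≤ p / 4)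
        linarith
    have hswap : ∫ t : ℝ, ∫ θ in (0 : ℝ)..(2 * Real.pi),
          FF p f a τ (y + r * Real.cos θ) (t + r * Real.sin θ)
        = ∫ θ in (0 : ℝ)..(2 * Real.pi), ∫ t : ℝ, FF p f a τ (y + r * Real.cos θ) t := by
      have hpi : (0 : ℝ) ≤ 2 * Real.pi := by positivity
      simp only [intervalIntegral.integral_of_le hpi]
      rw [integral_integral_swap hJ]
      refine integral_congr_ae (Eventually.of_forall fun θ => ?_)
      exact integral_add_right_eq_self (fun t => FF p f a τ (y + r * Real.cos θ) t)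
        (r * Real.sin θ)
    have hpi : (0 : ℝ) ≤ 2 * Real.pi := by positivity
    have hJ1 : Integrable (fun t : ℝ => ∫ θ in (0 : ℝ)..(2 * Real.pi),
        FF p f a τ (y + r * Real.cos θ) (t + r * Real.sin θ)) := by
      simp only [intervalIntegral.integral_of_le hpi]
      exact hJ.integral_prod_left
    calc ∫ t, FF p f a τ y t
        ≤ ∫ t : ℝ, (2 * Real.pi)⁻¹ * ∫ θ in (0 : ℝ)..(2 * Real.pi),
            FF p f a τ (y + r * Real.cos θ) (t + r * Real.sin θ) :=
          integral_mono (FF_int hp hδ hab hf hg τ hyI) (hJ1.const_mul _) hpt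
      _ = _ := by rw [integral_const_mul, hswap]

private lemma jint {p : ℝ} (hp : 0 < p) {f : ℂ → ℂ} {a b δ : ℝ} (hδ : 0 < δ) (hab : b ≤ a + 2)
    (hf : DifferentiableOn ℂ f {z : ℂ | a - δ < z.re ∧ z.re < b + δ}) {C : ℝ} {N : ℕ}
    (hg : ∀ z : ℂ, a ≤ z.re → z.re ≤ b → ‖f z‖ ≤ C * (1 + |z.im|) ^ N) (τ1 τ2 : ℝ) {x : ℝ}
    (hx : x ∈ Icc a b) :
    Integrable (Function.uncurry fun (t τ : ℝ) => FF p f a τ x t)
      (volume.prod (volume.restrict (Ioc τ1 τ2))) := by
  set B : ℝ := τ1 ^ 2 + τ2 ^ 2 with hB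
  have hG : Integrable (fun t : ℝ => (|C| ^ p * Real.exp (p * ((N : ℝ) ^ 2 + B + 4))) *
      Real.exp (-(p / 4) * t ^ 2)) volume :=
    (integrable_exp_neg_mul_sq (b := p / 4) (by positivity)).const_mul _
  refine Integrable.mono' (hG.comp_fst (volume.restrict (Ioc τ1 τ2))) ?_ ?_
  · exact (FF_cont (Y := ℝ × ℝ) (S := fun q => q.2) (X := fun _ => x)
      (T := fun q => q.1) hp hδ hf (by fun_prop) (by fun_prop)
      (by fun_prop) (fun _ => hx)).aestronglyMeasurable
  · have hm : ∀ᵐ q ∂((volume : Measure ℝ).prod ((volume : Measure ℝ).restrict (Ioc τ1 τ2))),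
        q.2 ∈ Ioc τ1 τ2 := by
      have h0 : (volume : Measure ℝ).prod ((volume : Measure ℝ).restrict (Ioc τ1 τ2))
          = ((volume : Measure ℝ).prod (volume : Measure ℝ)).restrict (univ ×ˢ Ioc τ1 τ2) := by
        rw [← Measure.prod_restrict, Measure.restrict_univ]
      rw [h0]
      filter_upwards [ae_restrict_mem (MeasurableSet.univ.prod measurableSet_Ioc)] with q hq
      exact hq.2
    filter_upwards [hm] with q hq
    obtain ⟨t, τ⟩ := q
    simp only [Function.uncurry_apply_pair]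
    rw [Real.norm_of_nonneg (FF_nonneg _ _ _ _ _ _)]
    refine (FF_bd hp hab hg hx).trans ?_
    refine mul_le_mul_of_nonneg_right ?_ (Real.exp_pos _).le
    refine mul_le_mul_of_nonneg_left (Real.exp_le_exp.2 ?_) (by positivity)
    have h1 : τ ^ 2 ≤ B := by
      simp only at hq
      rcases le_total 0 τ with h | h
      · nlinarith [hq.1, hq.2, sq_nonneg τ1]
      · nlinarith [hq.1, hq.2, sq_nonneg τ2]
    exact mul_le_mul_of_nonneg_left (by linarith) hp.le

private lemma swp {p : ℝ} (hp : 0 < p) {f : ℂ → ℂ} {a b δ : ℝ} (hδ : 0 < δ) (hab : b ≤ a + 2)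
    (hf : DifferentiableOn ℂ f {z : ℂ | a - δ < z.re ∧ z.re < b + δ}) {C : ℝ} {N : ℕ}
    (hg : ∀ z : ℂ, a ≤ z.re → z.re ≤ b → ‖f z‖ ≤ C * (1 + |z.im|) ^ N) {τ1 τ2 : ℝ}
    (hτ : τ1 ≤ τ2) {x : ℝ} (hx : x ∈ Icc a b) :
    ∫ t : ℝ, ‖f ((x : ℂ) + I * t)‖ ^ p * GW p τ1 τ2 t
      = Real.exp (-(p * (x - a) ^ 2)) * ∫ τ in τ1..τ2, ∫ t : ℝ, FF p f a τ x t := by
  have h1 : ∀ t : ℝ, ‖f ((x : ℂ) + I * t)‖ ^ p * GW p τ1 τ2 t
      = Real.exp (-(p * (x - a) ^ 2)) * ∫ τ in τ1..τ2, FF p f a τ x t := by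
    intro t
    rw [GW, ← intervalIntegral.integral_const_mul, ← intervalIntegral.integral_const_mul]
    refine intervalIntegral.integral_congr fun τ _ => ?_
    simp only [FF]
    rw [mul_comm (Real.exp (-(p * (x - a) ^ 2))), mul_assoc, ← Real.exp_add]
    congr 2
    ring
  simp only [h1]
  rw [integral_const_mul]
  simp only [intervalIntegral.integral_of_le hτ]
  rw [integral_integral_swap (jint hp hδ hab hf hg τ1 τ2 hx)]

theorem convex (h1 : SubMean) (h3 : MaxPrinc) : Convex := by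
  intro p hp f a b δ ha hab hδ hf hg τ1 τ2 hτ x hx1 hx2
  obtain ⟨C, N, hg⟩ := hg
  have hx : x ∈ Icc a b := ⟨hx1, hx2⟩
  have haI : a ∈ Icc a b := ⟨le_refl _, ha.le⟩
  have hbI : b ∈ Icc a b := ⟨ha.le, le_refl _⟩
  rw [swp hp hδ hab hf hg hτ hx, swp hp hδ hab hf hg hτ haI, swp hp hδ hab hf hg hτ hbI]
  have hI : ∀ y ∈ Icc a b, IntervalIntegrable (fun τ => ∫ t : ℝ, FF p f a τ y t) volume τ1 τ2 := by
    intro y hy
    rw [intervalIntegrable_iff_integrableOn_Ioc_of_le hτ]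
    exact (jint hp hδ hab hf hg τ1 τ2 hy).integral_prod_right
  have hnn : ∀ y, 0 ≤ ∫ τ in τ1..τ2, ∫ t : ℝ, FF p f a τ y t := fun y =>
    intervalIntegral.integral_nonneg hτ fun τ _ => integral_nonneg fun t => FF_nonneg _ _ _ _ _ _
  set l : ℝ := (x - a) / (b - a) with hl
  have hl0 : 0 ≤ l := div_nonneg (by linarith) (by linarith)
  have hmain : ∫ τ in τ1..τ2, ∫ t : ℝ, FF p f a τ x t
      ≤ (∫ τ in τ1..τ2, ∫ t : ℝ, FF p f a τ a t)
        + l * ((∫ τ in τ1..τ2, ∫ t : ℝ, FF p f a τ b t)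
          - ∫ τ in τ1..τ2, ∫ t : ℝ, FF p f a τ a t) := by
    rw [← intervalIntegral.integral_sub (hI b hbI) (hI a haI),
      ← intervalIntegral.integral_const_mul, ← intervalIntegral.integral_add (hI a haI)
        (((hI b hbI).sub (hI a haI)).const_mul l)]
    refine intervalIntegral.integral_mono_on hτ (hI x hx)
      ((hI a haI).add (((hI b hbI).sub (hI a haI)).const_mul l)) ?_
    intro τ _
    exact conv1 h1 h3 hp hδ ha hab hf hg τ hx
  have hXnn := hnn x
  have hAnn := hnn a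
  have hBnn := hnn b
  set X := ∫ τ in τ1..τ2, ∫ t : ℝ, FF p f a τ x t with hX
  set A := ∫ τ in τ1..τ2, ∫ t : ℝ, FF p f a τ a t with hA
  set B := ∫ τ in τ1..τ2, ∫ t : ℝ, FF p f a τ b t with hB
  have e1 : Real.exp (-(p * (x - a) ^ 2)) * X ≤ X := by
    refine mul_le_of_le_one_left hXnn (Real.exp_le_one_iff.2 ?_)
    have : 0 ≤ p * (x - a) ^ 2 := by positivity
    linarith
  have e2 : Real.exp (-(p * (a - a) ^ 2)) = 1 := by simp
  have e3 : A ≤ Real.exp (4 * p) * A :=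
    le_mul_of_one_le_left hAnn (Real.one_le_exp (by positivity))
  have e4 : B ≤ Real.exp (4 * p) * (Real.exp (-(p * (b - a) ^ 2)) * B) := by
    rw [← mul_assoc, ← Real.exp_add]
    refine le_mul_of_one_le_left hBnn (Real.one_le_exp ?_)
    have h5 : (b - a) ^ 2 ≤ 4 := by nlinarith
    nlinarith [mul_le_mul_of_nonneg_left h5 hp.le]
  have e5 := mul_le_mul_of_nonneg_left e4 hl0
  rw [e2, one_mul]
  nlinarith [mul_nonneg hl0 hAnn]

end Pool.Agent.Lib.MP2
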