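import Mathlib
import Pool.Agent.Lib.MP_f9aece_nt_mp.StmtsP

/-!
Moments of the plain average of zeta over short windows, module C5.

GW >= 0 clear; GW <= int_R exp(-p s^2) ds = sqrt(pi/p); lower bound: an interval of length 1/2 around t inside [tau1,tau2] (tau1 + 1 <= tau2), integrand >= exp(-p/4). Decay: |t - tau| >= d on the range, exp(-p s^2) <= exp(-p d^2/2) exp(-p s^2/2). (about 70 lines)
-/

set_option autoImplicit false

namespace Pool.Agent.Lib.MP2

open MeasureTheory Set Filter Topology Complex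
open Pool.Agent.Lib.MS (psi Adm ZW MomentsT2)

namespace PC5

theorem cont (p t : ℝ) : Continuous fun τ : ℝ => Real.exp (-(p * (t - τ) ^ 2)) := by
  fun_prop

theorem upper {p : ℝ} (hp : 0 < p) {τ1 τ2 t d : ℝ} (h12 : τ1 ≤ τ2) (hd : 0 ≤ d)
    (h : ∀ τ ∈ Icc τ1 τ2, d ≤ |t - τ|) :
    GW p τ1 τ2 t ≤ (∫ s : ℝ, Real.exp (-(p / 2) * s ^ 2)) * Real.exp (-(p * d ^ 2 / 2)) := by
  have hI : Integrable (fun s : ℝ => Real.exp (-(p / 2) * s ^ 2)) :=
    integrable_exp_neg_mul_sq (by positivity)
  have hI2 : Integrable (fun τ : ℝ => Real.exp (-(p / 2) * (t - τ) ^ 2)) := hI.comp_sub_left t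
  unfold GW
  rw [intervalIntegral.integral_of_le h12]
  calc ∫ τ in Ioc τ1 τ2, Real.exp (-(p * (t - τ) ^ 2))
      ≤ ∫ τ in Ioc τ1 τ2, Real.exp (-(p * d ^ 2 / 2)) * Real.exp (-(p / 2) * (t - τ) ^ 2) := by
        refine setIntegral_mono_on ?_ ?_ measurableSet_Ioc fun τ hτ => ?_
        · exact ((cont p t).continuousOn.integrableOn_Icc (a := τ1) (b := τ2)).mono_set
            Ioc_subset_Icc_self
        · exact (hI2.const_mul _).integrableOn
        · rw [← Real.exp_add]
          refine Real.exp_le_exp.2 ?_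
          have h1 := h τ (Ioc_subset_Icc_self hτ)
          have h2 : d ^ 2 ≤ (t - τ) ^ 2 := by
            rw [← sq_abs (t - τ)]
            exact pow_le_pow_left₀ hd h1 2
          nlinarith
    _ ≤ ∫ τ, Real.exp (-(p * d ^ 2 / 2)) * Real.exp (-(p / 2) * (t - τ) ^ 2) :=
        setIntegral_le_integral (hI2.const_mul _) (Eventually.of_forall fun τ => by positivity)
    _ = _ := by
        rw [integral_const_mul, integral_sub_left_eq_self (fun s : ℝ => Real.exp (-(p / 2) * s ^ 2))
          volume t, mul_comm]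

theorem lower {p : ℝ} (hp : 0 < p) {τ1 τ2 t a : ℝ} (h1 : τ1 ≤ a) (h2 : a + 1 / 2 ≤ τ2)
    (h : ∀ τ ∈ Icc a (a + 1 / 2), |t - τ| ≤ 1 / 2) :
    Real.exp (-(p / 4)) / 2 ≤ GW p τ1 τ2 t := by
  unfold GW
  have h12 : τ1 ≤ τ2 := by linarith
  calc Real.exp (-(p / 4)) / 2 = ∫ _τ in a..(a + 1 / 2), Real.exp (-(p / 4)) := by
        rw [intervalIntegral.integral_const, smul_eq_mul]
        ring
    _ ≤ ∫ τ in a..(a + 1 / 2), Real.exp (-(p * (t - τ) ^ 2)) := by
        refine intervalIntegral.integral_mono_on (by linarith) intervalIntegrable_const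
          ((cont p t).intervalIntegrable _ _) fun τ hτ => ?_
        refine Real.exp_le_exp.2 ?_
        have h3 := h τ hτ
        have h4 : (t - τ) ^ 2 ≤ (1 / 2) ^ 2 := by
          rw [← sq_abs (t - τ)]
          exact pow_le_pow_left₀ (abs_nonneg _) h3 2
        nlinarith
    _ ≤ ∫ τ in τ1..τ2, Real.exp (-(p * (t - τ) ^ 2)) := by
        refine intervalIntegral.integral_mono_interval h1 (by linarith) h2
          (Eventually.of_forall fun τ => (Real.exp_pos _).le) ((cont p t).intervalIntegrable _ _)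

end PC5

theorem gwBd : GWBd := by
  intro p hp
  refine ⟨Real.exp (-(p / 4)) / 2, max 1 (∫ s : ℝ, Real.exp (-(p / 2) * s ^ 2)), by positivity,
    le_max_left _ _, ?_, ?_, ?_⟩
  · intro τ1 τ2 t h h1 h2
    rcases le_total (t + 1 / 2) τ2 with h3 | h3
    · refine PC5.lower hp (a := t) h1 h3 fun τ hτ => ?_
      rw [abs_le]
      constructor <;> linarith [hτ.1, hτ.2]
    · refine PC5.lower hp (a := t - 1 / 2) (by linarith) (by linarith) fun τ hτ => ?_
      rw [abs_le]
      constructor <;> linarith [hτ.1, hτ.2]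
  · intro τ1 τ2 t h12
    constructor
    · exact intervalIntegral.integral_nonneg h12 fun τ _ => (Real.exp_pos _).le
    · refine (PC5.upper hp h12 le_rfl fun τ _ => abs_nonneg _).trans ?_
      simp
  · intro τ1 τ2 t d h12 hd h
    refine (PC5.upper hp h12 hd fun τ hτ => ?_).trans ?_
    · rcases h with h | h
      · rw [abs_sub_comm]
        exact le_trans (by linarith [hτ.1]) (le_abs_self _)
      · exact le_trans (by linarith [hτ.2]) (le_abs_self _)
    · exact mul_le_mul_of_nonneg_right (le_max_right _ _) (Real.exp_pos _).le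

end Pool.Agent.Lib.MP2
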