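import Mathlib
import Pool.Agent.Lib.MP_f9aece_nt_mp.StmtsP

/-!
Moments of the plain average of zeta over short windows, module C6: convexity of the means over
intervals, from the convexity against the Gaussian weight.
-/

set_option autoImplicit false

namespace Pool.Agent.Lib.MP2

open MeasureTheory Set Filter Topology Complex
open Pool.Agent.Lib.MS (psi Adm ZW MomentsT2)

private lemma GW_cont (p a b : ℝ) : Continuous (GW p a b) := by
  unfold GW
  exact intervalIntegral.continuous_parametric_intervalIntegral_of_continuous'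
    (f := fun t τ : ℝ => Real.exp (-(p * (t - τ) ^ 2))) (by unfold Function.uncurry; fun_prop) a b

private lemma G_int {p : ℝ} (hp : 0 < p) (m : ℝ) :
    Integrable (fun t : ℝ => Real.exp (-(p / 9) * (t - m) ^ 2)) :=
  (integrable_exp_neg_mul_sq (b := p / 9) (by positivity)).comp_sub_right m

private lemma G_val (p m : ℝ) :
    (∫ t : ℝ, Real.exp (-(p / 9) * (t - m) ^ 2)) = ∫ t : ℝ, Real.exp (-(p / 9) * t ^ 2) :=
  integral_sub_right_eq_self (fun t : ℝ => Real.exp (-(p / 9) * t ^ 2)) m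

/-- pointwise bound of the weighted function -/
private lemma ptw {p : ℝ} (hp : 0 < p) {Cg : ℝ} {N : ℕ} {C : ℝ} (hC : 1 ≤ C)
    (hup : ∀ τ1 τ2 t : ℝ, τ1 ≤ τ2 → 0 ≤ GW p τ1 τ2 t ∧ GW p τ1 τ2 t ≤ C)
    (hdec : ∀ τ1 τ2 t d : ℝ, τ1 ≤ τ2 → 0 ≤ d → (t ≤ τ1 - d ∨ τ2 + d ≤ t) →
      GW p τ1 τ2 t ≤ C * Real.exp (-(p * d ^ 2 / 2)))
    {T x0 : ℝ} (hT : 1 ≤ T) (hx0 : |x0| ≤ 4 * T) {y t : ℝ} (hy : 0 ≤ y)
    (h : y ≤ Cg * (1 + |t|) ^ N) :
    y ^ p * GW p x0 (x0 + T) t ≤ C * (Icc (x0 - T) (x0 + 2 * T)).indicator (fun _ => y ^ p) t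
      + |Cg| ^ p * Real.exp (36 * (N : ℝ) ^ 2 * p) * C
        * Real.exp (-(p / 9) * (t - (x0 + T / 2)) ^ 2) := by
  have hyp : 0 ≤ y ^ p := Real.rpow_nonneg hy p
  by_cases ht : t ∈ Icc (x0 - T) (x0 + 2 * T)
  · rw [indicator_of_mem ht]
    have h1 := mul_le_mul_of_nonneg_left (hup x0 (x0 + T) t (by linarith)).2 hyp
    have h2 : 0 ≤ |Cg| ^ p * Real.exp (36 * (N : ℝ) ^ 2 * p) * C
        * Real.exp (-(p / 9) * (t - (x0 + T / 2)) ^ 2) := by positivity
    linarith
  · rw [indicator_of_notMem ht, mul_zero, zero_add]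
    set u : ℝ := |t - (x0 + T / 2)| with hu
    have hu1 : 3 / 2 * T ≤ u := by
      rw [mem_Icc, not_and_or, not_le, not_le] at ht
      rcases ht with ht | ht
      · rw [hu, abs_of_nonpos (by linarith)]; linarith
      · rw [hu, abs_of_nonneg (by linarith)]; linarith
    have hu0 : 0 ≤ u := by linarith
    have hW : GW p x0 (x0 + T) t ≤ C * Real.exp (-(p * (u - T / 2) ^ 2 / 2)) := by
      refine hdec x0 (x0 + T) t (u - T / 2) (by linarith) (by linarith) ?_
      rw [mem_Icc, not_and_or, not_le, not_le] at ht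
      rcases ht with ht | ht
      · left; rw [hu, abs_of_nonpos (by linarith)]; linarith
      · right; rw [hu, abs_of_nonneg (by linarith)]; linarith
    have hW0 := (hup x0 (x0 + T) t (by linarith)).1
    have ht1 : |t| ≤ 4 * u := by
      have h1 : |t| ≤ u + |x0 + T / 2| := by
        have := abs_add_le (t - (x0 + T / 2)) (x0 + T / 2)
        rw [sub_add_cancel] at this
        exact this
      have h2 : |x0 + T / 2| ≤ |x0| + T / 2 := by
        have := abs_add_le x0 (T / 2)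
        rwa [abs_of_nonneg (show (0 : ℝ) ≤ T / 2 by linarith)] at this
      linarith
    have h1 : y ≤ |Cg| * Real.exp (N * (4 * u)) := by
      refine h.trans ?_
      have h2 : (1 + |t|) ^ N ≤ Real.exp (N * (4 * u)) := by
        rw [Real.exp_nat_mul]
        exact pow_le_pow_left₀ (by positivity) (by linarith [Real.add_one_le_exp (4 * u)]) N
      exact mul_le_mul (le_abs_self Cg) h2 (by positivity) (abs_nonneg Cg)
    have h3 : y ^ p ≤ |Cg| ^ p * Real.exp (p * (N * (4 * u))) := by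
      refine (Real.rpow_le_rpow hy h1 hp.le).trans (le_of_eq ?_)
      rw [Real.mul_rpow (abs_nonneg Cg) (Real.exp_pos _).le, ← Real.exp_mul, mul_comm p]
    calc y ^ p * GW p x0 (x0 + T) t
        ≤ (|Cg| ^ p * Real.exp (p * (N * (4 * u)))) * (C * Real.exp (-(p * (u - T / 2) ^ 2 / 2))) :=
          mul_le_mul h3 hW hW0 (by positivity)
      _ = |Cg| ^ p * C * Real.exp (p * (N * (4 * u)) + -(p * (u - T / 2) ^ 2 / 2)) := by
          rw [Real.exp_add]; ring
      _ ≤ |Cg| ^ p * C * Real.exp (36 * (N : ℝ) ^ 2 * p + -(p / 9) * (t - (x0 + T / 2)) ^ 2) := by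
          refine mul_le_mul_of_nonneg_left (Real.exp_le_exp.2 ?_) (by positivity)
          have h5 : (t - (x0 + T / 2)) ^ 2 = u ^ 2 := by rw [hu, sq_abs]
          rw [h5]
          have h6 : (2 / 3 * u) ^ 2 ≤ (u - T / 2) ^ 2 :=
            pow_le_pow_left₀ (by positivity) (by linarith) 2
          have h7 : 0 ≤ p * (u / 3 - 6 * N) ^ 2 := by positivity
          have h8 := mul_le_mul_of_nonneg_left h6 hp.le
          nlinarith
      _ = _ := by rw [Real.exp_add]; ring

theorem convexInt (h4 : Convex) (h5 : GWBd) : ConvexInt := by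
  intro p hp Cg N
  obtain ⟨c, C, hc, hC1, hlow, hup, hdec⟩ := h5 p hp
  set G : ℝ := ∫ t : ℝ, Real.exp (-(p / 9) * t ^ 2) with hG
  have hG0 : 0 ≤ G := integral_nonneg fun t => (Real.exp_pos _).le
  set K : ℝ := |Cg| ^ p * Real.exp (36 * (N : ℝ) ^ 2 * p) * C with hK
  have hK0 : 0 ≤ K := by positivity
  refine ⟨1 + c⁻¹ * (Real.exp (4 * p) * (C + 2 * K * G)), ?_, ?_⟩
  · have : 0 ≤ c⁻¹ * (Real.exp (4 * p) * (C + 2 * K * G)) := by positivity
    linarith
  intro f hf hg T x0 x hT hx0 hx hx1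
  have hT1 : 1 ≤ T := by
    have : 0 ≤ c⁻¹ * (Real.exp (4 * p) * (C + 2 * K * G)) := by positivity
    linarith
  set W : ℝ → ℝ := GW p x0 (x0 + T) with hW
  have hWc : Continuous W := GW_cont _ _ _
  have hW0 : ∀ t, 0 ≤ W t := fun t => (hup x0 (x0 + T) t (by linarith)).1
  set m : ℝ := x0 + T / 2 with hm
  -- the functions on the vertical lines
  have hFc : ∀ s : ℝ, 1 / 2 ≤ s → s ≤ 3 / 2 →
      Continuous (fun t : ℝ => ‖f ((s : ℂ) + I * t)‖ ^ p) := by
    intro s hs1 hs2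
    have h1 : Continuous (fun t : ℝ => f ((s : ℂ) + I * (t : ℂ))) := by
      refine hf.continuousOn.comp_continuous (by fun_prop) ?_
      intro t
      have h3 : ((s : ℂ) + I * (t : ℂ)).re = s := by simp
      refine ⟨?_, ?_⟩
      · rw [h3]; linarith
      · rw [h3]; linarith
    exact h1.norm.rpow_const (fun _ => Or.inr hp.le)
  have hpt : ∀ s : ℝ, 1 / 2 ≤ s → s ≤ 3 / 2 → ∀ t : ℝ,
      ‖f ((s : ℂ) + I * t)‖ ^ p * W t
        ≤ C * (Icc (x0 - T) (x0 + 2 * T)).indicator (fun t : ℝ => ‖f ((s : ℂ) + I * t)‖ ^ p) t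
          + K * Real.exp (-(p / 9) * (t - m) ^ 2) := by
    intro s hs1 hs2 t
    have h3 : ((s : ℂ) + I * (t : ℂ)).re = s := by simp
    have h4 : ((s : ℂ) + I * (t : ℂ)).im = t := by simp
    have h := hg ((s : ℂ) + I * (t : ℂ)) (by rw [h3]; exact hs1) (by rw [h3]; exact hs2)
    rw [h4] at h
    have h6 := ptw hp hC1 hup hdec hT1 hx0 (norm_nonneg (f ((s : ℂ) + I * (t : ℂ)))) h
    refine h6.trans (le_of_eq ?_)
    congr 2
  have hbint : ∀ s : ℝ, 1 / 2 ≤ s → s ≤ 3 / 2 → Integrable (fun t : ℝ =>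
      C * (Icc (x0 - T) (x0 + 2 * T)).indicator (fun t : ℝ => ‖f ((s : ℂ) + I * t)‖ ^ p) t
          + K * Real.exp (-(p / 9) * (t - m) ^ 2)) := by
    intro s hs1 hs2
    refine Integrable.add ?_ ((G_int hp m).const_mul K)
    refine Integrable.const_mul ?_ C
    rw [integrable_indicator_iff measurableSet_Icc]
    exact (hFc s hs1 hs2).continuousOn.integrableOn_Icc
  have hFWint : ∀ s : ℝ, 1 / 2 ≤ s → s ≤ 3 / 2 →
      Integrable (fun t : ℝ => ‖f ((s : ℂ) + I * t)‖ ^ p * W t) := by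
    intro s hs1 hs2
    refine (hbint s hs1 hs2).mono' ((hFc s hs1 hs2).mul hWc).aestronglyMeasurable ?_
    refine Eventually.of_forall fun t => ?_
    rw [Real.norm_of_nonneg (mul_nonneg (Real.rpow_nonneg (norm_nonneg _) p) (hW0 t))]
    exact hpt s hs1 hs2 t
  have hFWle : ∀ s : ℝ, 1 / 2 ≤ s → s ≤ 3 / 2 →
      ∫ t : ℝ, ‖f ((s : ℂ) + I * t)‖ ^ p * W t
        ≤ C * (∫ t in (x0 - T)..(x0 + 2 * T), ‖f ((s : ℂ) + I * t)‖ ^ p) + K * G := by
    intro s hs1 hs2
    refine (integral_mono (hFWint s hs1 hs2) (hbint s hs1 hs2) (hpt s hs1 hs2)).trans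
      (le_of_eq ?_)
    have hi : Integrable (fun t : ℝ => C * (Icc (x0 - T) (x0 + 2 * T)).indicator
        (fun t : ℝ => ‖f ((s : ℂ) + I * t)‖ ^ p) t) := by
      refine Integrable.const_mul ?_ C
      rw [integrable_indicator_iff measurableSet_Icc]
      exact (hFc s hs1 hs2).continuousOn.integrableOn_Icc
    rw [integral_add hi ((G_int hp m).const_mul K), integral_const_mul, integral_const_mul,
      G_val p m, integral_indicator measurableSet_Icc, integral_Icc_eq_integral_Ioc,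
      ← intervalIntegral.integral_of_le (by linarith)]
  -- lower bound
  have hs1 : 1 / 2 ≤ 1 / 2 + x := by linarith
  have hs2 : 1 / 2 + x ≤ 3 / 2 := by linarith
  have hlo : c * (∫ t in x0..(x0 + T), ‖f (((1 / 2 + x : ℝ) : ℂ) + I * t)‖ ^ p)
      ≤ ∫ t : ℝ, ‖f (((1 / 2 + x : ℝ) : ℂ) + I * t)‖ ^ p * W t := by
    rw [← intervalIntegral.integral_const_mul, intervalIntegral.integral_of_le (by linarith)]
    refine le_trans ?_ (setIntegral_le_integral (s := Ioc x0 (x0 + T)) (hFWint _ hs1 hs2)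
      (Eventually.of_forall fun t =>
        mul_nonneg (Real.rpow_nonneg (norm_nonneg _) p) (hW0 t)))
    refine setIntegral_mono_on ?_ (hFWint _ hs1 hs2).integrableOn measurableSet_Ioc ?_
    · exact ((continuous_const.mul (hFc _ hs1 hs2)).continuousOn.integrableOn_Icc).mono_set
        Ioc_subset_Icc_self
    · intro t ht
      rw [mul_comm]
      exact mul_le_mul_of_nonneg_left (hlow x0 (x0 + T) t (by linarith) ht.1.le ht.2)
        (Real.rpow_nonneg (norm_nonneg _) p)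
  -- convexity
  have hcv := h4 p hp f (1 / 2) (3 / 2) (1 / 4) (by norm_num) (by norm_num) (by norm_num)
    (hf.mono (by
      intro z hz
      refine ⟨?_, ?_⟩
      · have := hz.1; norm_num at this ⊢; linarith
      · have := hz.2; norm_num at this ⊢; linarith))
    ⟨Cg, N, fun z h1 h2 => hg z h1 h2⟩ x0 (x0 + T) (by linarith) (1 / 2 + x) hs1 hs2
  have hxx : (1 / 2 + x - 1 / 2) / (3 / 2 - 1 / 2) = x := by ring
  rw [hxx] at hcv
  have hA := hFWle (1 / 2) (by norm_num) (by norm_num)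
  have hB := hFWle (3 / 2) (by norm_num) (by norm_num)
  set IA : ℝ := ∫ t in (x0 - T)..(x0 + 2 * T), ‖f (((1 / 2 : ℝ) : ℂ) + I * t)‖ ^ p with hIA
  set IB : ℝ := ∫ t in (x0 - T)..(x0 + 2 * T), ‖f (((3 / 2 : ℝ) : ℂ) + I * t)‖ ^ p with hIB
  have hIA0 : 0 ≤ IA := intervalIntegral.integral_nonneg (by linarith) fun t _ => by positivity
  have hIB0 : 0 ≤ IB := intervalIntegral.integral_nonneg (by linarith) fun t _ => by positivity
  set J : ℝ := ∫ t in x0..(x0 + T), ‖f (((1 / 2 + x : ℝ) : ℂ) + I * t)‖ ^ p with hJ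
  have hfin : c * J ≤ Real.exp (4 * p) * ((C * IA + K * G) + x * (C * IB + K * G)) := by
    refine hlo.trans (hcv.trans ?_)
    refine mul_le_mul_of_nonneg_left ?_ (Real.exp_pos _).le
    exact add_le_add hA (mul_le_mul_of_nonneg_left hB hx)
  have hKG : 0 ≤ K * G := mul_nonneg hK0 hG0
  have hS0 : 0 ≤ IA + x * IB + 1 := by positivity
  have hmid : (C * IA + K * G) + x * (C * IB + K * G) ≤ (C + 2 * K * G) * (IA + x * IB + 1) := by
    have h1 : 0 ≤ K * G * (IA + x * IB) := by positivity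
    have h2 : x * (K * G) ≤ K * G := by nlinarith
    nlinarith
  have hJ2 : J ≤ c⁻¹ * (Real.exp (4 * p) * ((C + 2 * K * G) * (IA + x * IB + 1))) := by
    rw [inv_mul_eq_div, le_div_iff₀ hc, mul_comm J c]
    exact hfin.trans (mul_le_mul_of_nonneg_left hmid (Real.exp_pos _).le)
  calc J ≤ c⁻¹ * (Real.exp (4 * p) * ((C + 2 * K * G) * (IA + x * IB + 1))) := hJ2
    _ ≤ (1 + c⁻¹ * (Real.exp (4 * p) * (C + 2 * K * G))) * (IA + x * IB + 1) := by
        nlinarith

end Pool.Agent.Lib.MP2
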