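import Mathlib
import Pool.Agent.Lib.MP_f9aece_nt_mp.StmtsP

/-!
Moments of the plain average of zeta over short windows, module C7.

G = r^(-1) int_{-r..r} int_y ||f(sigma+x+i(t+ry))||^p (1+|y|)^(-n) dy dx, finite since p N + 2 <= n. For real y0, DiscMean at sigma + I (t + r y0), radius r, R = 2 r (the ball is inside the strip |Re - sigma| < 2r), substitution u = t + r y: ||f(sigma+I(t+r y0))||^p <= r^(-1) int_x int_{y0-1..y0+1} ||f||^p dy dx <= 2^n (1+|y0|)^n G, because 1+|y| <= 2 (1+|y0|). Hence ||f(sigma+I(t+ry0))|| <= (2^n (1+|y0|)^n G)^(1/p), so ||int f S|| <= (2^n G)^(1/p) int (1+|y|)^(n/p) ||S y|| dy = C' G^(1/p) (RD S with a large exponent); take p-th powers. (about 150 lines)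
-/

set_option autoImplicit false

namespace Pool.Agent.Lib.MP2

open MeasureTheory Set Filter Topology Complex
open Pool.Agent.Lib.MS (psi Adm ZW MomentsT2)

private theorem c7_weight : Integrable (fun y : ℝ => ((1 + |y|) ^ 2)⁻¹) := by
  have h := integrable_one_add_norm (E := ℝ) (μ := volume) (r := 2) (by simp)
  refine h.congr ?_
  filter_upwards with y
  have h1 : (0 : ℝ) ≤ 1 + |y| := by positivity
  rw [Real.norm_eq_abs, Real.rpow_neg h1]
  congr 1
  exact_mod_cast Real.rpow_natCast (1 + |y|) 2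

theorem discPt (h2 : DiscMean) : DiscPt := by
  intro p hp S hSm hS n N hnN
  have hw := c7_weight
  obtain ⟨m, hm⟩ : ∃ m : ℕ, (n : ℝ) / p + 2 ≤ m := exists_nat_ge _
  obtain ⟨CS, hCS⟩ := hS m
  have hone : ∀ y : ℝ, 1 ≤ 1 + |y| := fun y => by linarith [abs_nonneg y]
  have hpos : ∀ y : ℝ, 0 < 1 + |y| := fun y => by linarith [abs_nonneg y]
  have hSI : Integrable (fun y : ℝ => (1 + |y|) ^ ((n : ℝ) / p) * ‖S y‖) := by
    refine (hw.const_mul CS).mono' ?_ ?_
    · refine AEStronglyMeasurable.mul ?_ hSm.norm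
      refine Continuous.aestronglyMeasurable ?_
      exact Continuous.rpow_const (by fun_prop) (fun y => Or.inl (hpos y).ne')
    · filter_upwards with y
      have h1 := hone y
      have h0 := hpos y
      rw [Real.norm_of_nonneg (by positivity), ← div_eq_mul_inv, le_div_iff₀ (by positivity)]
      calc (1 + |y|) ^ ((n : ℝ) / p) * ‖S y‖ * (1 + |y|) ^ 2
          = ‖S y‖ * ((1 + |y|) ^ ((n : ℝ) / p) * (1 + |y|) ^ 2) := by ring
        _ ≤ ‖S y‖ * (1 + |y|) ^ m := by
          refine mul_le_mul_of_nonneg_left ?_ (norm_nonneg _)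
          rw [← Real.rpow_natCast (1 + |y|) 2, ← Real.rpow_add h0, ← Real.rpow_natCast (1 + |y|) m]
          exact Real.rpow_le_rpow_of_exponent_le h1 (by exact_mod_cast hm)
        _ ≤ CS := hCS y
  set J : ℝ := ∫ y : ℝ, (1 + |y|) ^ ((n : ℝ) / p) * ‖S y‖ with hJdef
  have hJ : 0 ≤ J := integral_nonneg fun y => by
    have := hpos y
    positivity
  refine ⟨max 1 (2 ^ n * J ^ p), le_max_left _ _, ?_⟩
  intro f σ r t Cg hr hr1 hf hfb
  -- the two functions
  set A : ℝ → ℝ → ℝ := fun x y => ‖f (((σ + x : ℝ) : ℂ) + I * ((t + r * y : ℝ) : ℂ))‖ ^ p with hA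
  set F : ℝ → ℝ → ℝ := fun x y => A x y * ((1 + |y|) ^ n)⁻¹ with hF
  have hre : ∀ x y : ℝ, (((σ + x : ℝ) : ℂ) + I * ((t + r * y : ℝ) : ℂ)).re = σ + x := by
    intro x y
    simp
  have him : ∀ x y : ℝ, (((σ + x : ℝ) : ℂ) + I * ((t + r * y : ℝ) : ℂ)).im = t + r * y := by
    intro x y
    simp
  have hA0 : ∀ x y, 0 ≤ A x y := fun x y => by
    show 0 ≤ ‖f (((σ + x : ℝ) : ℂ) + I * ((t + r * y : ℝ) : ℂ))‖ ^ p
    positivity
  have hF0 : ∀ x y, 0 ≤ F x y := fun x y => by
    have := hpos y
    exact mul_nonneg (hA0 x y) (by positivity)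
  have hCg : 0 ≤ Cg := by
    have h1 := hfb (σ : ℂ) (by simpa using hr.le)
    have h2 : (0 : ℝ) ≤ Cg * (1 + |((σ : ℂ)).im|) ^ N := le_trans (norm_nonneg _) h1
    have h3 : (0 : ℝ) < (1 + |((σ : ℂ)).im|) ^ N := by positivity
    exact nonneg_of_mul_nonneg_left h2 h3
  have hAcy : ∀ x ∈ Icc (-r) r, Continuous (A x) := by
    intro x hx
    have h1 : Continuous (fun y : ℝ => f (((σ + x : ℝ) : ℂ) + I * ((t + r * y : ℝ) : ℂ))) := by
      refine hf.continuousOn.comp_continuous (by fun_prop) ?_
      intro y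
      show |(((σ + x : ℝ) : ℂ) + I * ((t + r * y : ℝ) : ℂ)).re - σ| < 2 * r
      rw [hre, add_sub_cancel_left]
      have := abs_le.2 hx
      linarith
    exact h1.norm.rpow_const (fun _ => Or.inr hp.le)
  have hAcx : ∀ y : ℝ, ContinuousOn (fun x => A x y) (Icc (-r) r) := by
    intro y
    have h1 : ContinuousOn (fun x : ℝ => f (((σ + x : ℝ) : ℂ) + I * ((t + r * y : ℝ) : ℂ)))
        (Icc (-r) r) := by
      refine hf.continuousOn.comp (Continuous.continuousOn (by fun_prop)) ?_
      intro x hx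
      show |(((σ + x : ℝ) : ℂ) + I * ((t + r * y : ℝ) : ℂ)).re - σ| < 2 * r
      rw [hre, add_sub_cancel_left]
      have := abs_le.2 hx
      linarith
    exact h1.norm.rpow_const (fun _ _ => Or.inr hp.le)
  have hFcy : ∀ x ∈ Icc (-r) r, Continuous (F x) := by
    intro x hx
    refine (hAcy x hx).mul ?_
    exact Continuous.inv₀ (by fun_prop) (fun y => by have := hpos y; positivity)
  have hFcx : ∀ y : ℝ, ContinuousOn (fun x => F x y) (Icc (-r) r) := fun y =>
    (hAcx y).mul continuousOn_const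
  set K : ℝ := (Cg * (1 + |t|) ^ N) ^ p with hK
  have hbd : ∀ x ∈ Icc (-r) r, ∀ y : ℝ, F x y ≤ K * ((1 + |y|) ^ 2)⁻¹ := by
    intro x hx y
    have h0 := hpos y
    have h1 := hone y
    have h3 : ‖f (((σ + x : ℝ) : ℂ) + I * ((t + r * y : ℝ) : ℂ))‖
        ≤ Cg * (1 + |t|) ^ N * (1 + |y|) ^ N := by
      have h4 := hfb (((σ + x : ℝ) : ℂ) + I * ((t + r * y : ℝ) : ℂ)) (by
        rw [hre, add_sub_cancel_left]
        exact abs_le.2 hx)
      rw [him] at h4
      refine h4.trans ?_
      rw [mul_assoc, ← mul_pow]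
      refine mul_le_mul_of_nonneg_left ?_ hCg
      refine pow_le_pow_left₀ (by positivity) ?_ N
      have h5 : |t + r * y| ≤ |t| + |y| := by
        refine (abs_add_le _ _).trans ?_
        rw [abs_mul, abs_of_pos hr]
        have : r * |y| ≤ 1 * |y| := mul_le_mul_of_nonneg_right hr1 (abs_nonneg _)
        linarith
      nlinarith [abs_nonneg t, abs_nonneg y, mul_nonneg (abs_nonneg t) (abs_nonneg y)]
    have h6 : A x y ≤ K * (1 + |y|) ^ (p * N) := by
      have h7 : A x y ≤ (Cg * (1 + |t|) ^ N * (1 + |y|) ^ N) ^ p :=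
        Real.rpow_le_rpow (norm_nonneg _) h3 hp.le
      refine h7.trans (le_of_eq ?_)
      rw [Real.mul_rpow (by positivity) (by positivity), ← Real.rpow_natCast (1 + |y|) N,
        ← Real.rpow_mul h0.le, mul_comm (N : ℝ) p]
    have hK0 : 0 ≤ K := by positivity
    calc F x y ≤ K * (1 + |y|) ^ (p * N) * ((1 + |y|) ^ n)⁻¹ :=
          mul_le_mul_of_nonneg_right h6 (by positivity)
      _ = K * ((1 + |y|) ^ (p * N) * ((1 + |y|) ^ n)⁻¹) := by ring
      _ ≤ K * ((1 + |y|) ^ 2)⁻¹ := by
          refine mul_le_mul_of_nonneg_left ?_ hK0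
          rw [← div_eq_mul_inv, div_le_iff₀ (by positivity), ← div_eq_inv_mul,
            le_div_iff₀ (by positivity), ← Real.rpow_natCast (1 + |y|) 2,
            ← Real.rpow_add h0, ← Real.rpow_natCast (1 + |y|) n]
          exact Real.rpow_le_rpow_of_exponent_le h1 (by exact_mod_cast hnN)
  have hFint : ∀ x ∈ Icc (-r) r, Integrable (F x) := by
    intro x hx
    refine (hw.const_mul K).mono' (hFcy x hx).aestronglyMeasurable ?_
    filter_upwards with y
    rw [Real.norm_of_nonneg (hF0 x y)]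
    exact hbd x hx y
  have hG1 : ContinuousOn (fun x => ∫ y : ℝ, F x y) (Icc (-r) r) := by
    refine continuousOn_of_dominated (bound := fun y => K * ((1 + |y|) ^ 2)⁻¹) ?_ ?_
      (hw.const_mul K) ?_
    · intro x hx
      exact (hFcy x hx).aestronglyMeasurable
    · intro x hx
      filter_upwards with y
      rw [Real.norm_of_nonneg (hF0 x y)]
      exact hbd x hx y
    · filter_upwards with y
      exact hFcx y
  set G : ℝ := r⁻¹ * ∫ x in (-r)..r, ∫ y : ℝ, F x y with hG
  have hrr : -r ≤ r := by linarith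
  have hG0 : 0 ≤ G := by
    refine mul_nonneg (by positivity) ?_
    refine intervalIntegral.integral_nonneg hrr ?_
    intro x _
    exact integral_nonneg (hF0 x)
  -- pointwise bound
  have hpt : ∀ y0 : ℝ, ‖f ((σ : ℂ) + I * ((t + r * y0 : ℝ) : ℂ))‖ ^ p
      ≤ 2 ^ n * (1 + |y0|) ^ n * G := by
    intro y0
    have h3 := h2 p hp f σ (t + r * y0) r (2 * r) hr (by linarith) (hf.mono (by
      intro z hz
      show |z.re - σ| < 2 * r
      rw [Metric.mem_ball, dist_eq_norm] at hz
      refine lt_of_le_of_lt ?_ hz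
      have h4 := Complex.abs_re_le_norm (z - (σ + I * ((t + r * y0 : ℝ) : ℂ)))
      simpa using h4)) (hf.continuousOn.mono (by
      intro z hz
      have hz' : |z.re - σ| ≤ r := hz
      show |z.re - σ| < 2 * r
      linarith))
    refine h3.trans ?_
    have h5 : ∀ x : ℝ, ∫ u in (t + r * y0 - r)..(t + r * y0 + r),
        ‖f (((σ + x : ℝ) : ℂ) + I * (u : ℂ))‖ ^ p = r * ∫ y in (y0 - 1)..(y0 + 1), A x y := by
      intro x
      have h6 := intervalIntegral.smul_integral_comp_add_mul
        (f := fun u : ℝ => ‖f (((σ + x : ℝ) : ℂ) + I * (u : ℂ))‖ ^ p)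
        (a := y0 - 1) (b := y0 + 1) r t
      rw [show t + r * (y0 - 1) = t + r * y0 - r by ring,
        show t + r * (y0 + 1) = t + r * y0 + r by ring] at h6
      rw [← h6, smul_eq_mul]
    have h7 : (r ^ 2)⁻¹ * ∫ x in (-r)..r, ∫ u in (t + r * y0 - r)..(t + r * y0 + r),
        ‖f (((σ + x : ℝ) : ℂ) + I * (u : ℂ))‖ ^ p
        = r⁻¹ * ∫ x in (-r)..r, ∫ y in (y0 - 1)..(y0 + 1), A x y := by
      simp_rw [h5]
      rw [intervalIntegral.integral_const_mul, ← mul_assoc]
      congr 1
      field_simp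
    rw [h7]
    have h8 : ∀ x ∈ Icc (-r) r, ∫ y in (y0 - 1)..(y0 + 1), A x y
        ≤ 2 ^ n * (1 + |y0|) ^ n * ∫ y : ℝ, F x y := by
      intro x hx
      rw [intervalIntegral.integral_of_le (by linarith), ← integral_const_mul]
      have h9 : ∫ y in Ioc (y0 - 1) (y0 + 1), A x y
          ≤ ∫ y in Ioc (y0 - 1) (y0 + 1), 2 ^ n * (1 + |y0|) ^ n * F x y := by
        refine setIntegral_mono_on ?_ ?_ measurableSet_Ioc ?_
        · exact ((hAcy x hx).integrableOn_Icc).mono_set Ioc_subset_Icc_self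
        · exact ((hFint x hx).const_mul _).integrableOn
        · intro y hy
          have h10 := hpos y
          have h11 : (1 + |y|) ^ n ≤ 2 ^ n * (1 + |y0|) ^ n := by
            rw [← mul_pow]
            refine pow_le_pow_left₀ h10.le ?_ n
            have h12 : |y| ≤ |y0| + 1 := by
              have h13 : |y - y0| ≤ 1 := abs_le.2 ⟨by linarith [hy.1], by linarith [hy.2]⟩
              have h14 : |y| ≤ |y0| + |y - y0| := by
                have := abs_add_le y0 (y - y0)
                rwa [add_sub_cancel] at this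
              linarith
            linarith [abs_nonneg y0]
          show A x y ≤ 2 ^ n * (1 + |y0|) ^ n * (A x y * ((1 + |y|) ^ n)⁻¹)
          calc A x y = (1 + |y|) ^ n * (A x y * ((1 + |y|) ^ n)⁻¹) := by
                field_simp
            _ ≤ 2 ^ n * (1 + |y0|) ^ n * (A x y * ((1 + |y|) ^ n)⁻¹) :=
                mul_le_mul_of_nonneg_right h11 (mul_nonneg (hA0 x y) (by positivity))
      refine h9.trans ?_
      refine setIntegral_le_integral ((hFint x hx).const_mul _) ?_
      filter_upwards with y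
      exact mul_nonneg (by have := hpos y0; positivity) (hF0 x y)
    have h15 : ∫ x in (-r)..r, ∫ y in (y0 - 1)..(y0 + 1), A x y
        ≤ ∫ x in (-r)..r, 2 ^ n * (1 + |y0|) ^ n * ∫ y : ℝ, F x y := by
      refine intervalIntegral.integral_mono_on hrr ?_ ?_ h8
      · have h16 : ContinuousOn (fun x => ∫ y in (y0 - 1)..(y0 + 1), A x y) (Icc (-r) r) := by
          obtain ⟨B, hB⟩ : ∃ B : ℝ, ∀ x ∈ Icc (-r) r, ∀ y ∈ Icc (y0 - 1) (y0 + 1), A x y ≤ B := by
            refine ⟨K * (2 + |y0|) ^ n, ?_⟩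
            intro x hx y hy
            have h10 := hpos y
            have h17 := hbd x hx y
            have h18 : A x y = (1 + |y|) ^ n * F x y := by
              show A x y = (1 + |y|) ^ n * (A x y * ((1 + |y|) ^ n)⁻¹)
              field_simp
            have hK0 : 0 ≤ K := by positivity
            have h19 : ((1 + |y|) ^ 2)⁻¹ ≤ 1 := inv_le_one_of_one_le₀ (one_le_pow₀ (hone y))
            have h20 : F x y ≤ K := h17.trans (by nlinarith)
            have h12 : |y| ≤ |y0| + 1 := by
              have h13 : |y - y0| ≤ 1 := abs_le.2 ⟨by linarith [hy.1], by linarith [hy.2]⟩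
              have h14 : |y| ≤ |y0| + |y - y0| := by
                have := abs_add_le y0 (y - y0)
                rwa [add_sub_cancel] at this
              linarith
            rw [h18, mul_comm]
            refine mul_le_mul h20 (pow_le_pow_left₀ h10.le (by linarith) n) (by positivity) hK0
          have h26 : (fun x => ∫ y in (y0 - 1)..(y0 + 1), A x y)
              = fun x => ∫ y in Ioc (y0 - 1) (y0 + 1), A x y := by
            funext x
            rw [intervalIntegral.integral_of_le (by linarith)]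
          rw [h26]
          refine continuousOn_of_dominated (bound := fun _ => B) ?_ ?_ ?_ ?_
          · intro x hx
            exact (hAcy x hx).aestronglyMeasurable
          · intro x hx
            filter_upwards [ae_restrict_mem measurableSet_Ioc] with y hy
            rw [Real.norm_of_nonneg (hA0 x y)]
            exact hB x hx y (Ioc_subset_Icc_self hy)
          · exact integrable_const _
          · filter_upwards with y
            exact hAcx y
        rw [← uIcc_of_le hrr] at h16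
        exact h16.intervalIntegrable
      · have h16 : ContinuousOn (fun x => 2 ^ n * (1 + |y0|) ^ n * ∫ y : ℝ, F x y) (Icc (-r) r) :=
          continuousOn_const.mul hG1
        rw [← uIcc_of_le hrr] at h16
        exact h16.intervalIntegrable
    rw [intervalIntegral.integral_const_mul] at h15
    have h21 := mul_le_mul_of_nonneg_left h15 (inv_nonneg.2 hr.le)
    refine h21.trans (le_of_eq ?_)
    rw [hG]
    ring
  -- the integral
  have hpt2 : ∀ y0 : ℝ, ‖f ((σ : ℂ) + I * ((t + r * y0 : ℝ) : ℂ))‖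
      ≤ (2 ^ n * G) ^ (1 / p) * (1 + |y0|) ^ ((n : ℝ) / p) := by
    intro y0
    have h0 := hpos y0
    have h3 := Real.rpow_le_rpow (by positivity) (hpt y0) (by positivity : (0 : ℝ) ≤ 1 / p)
    rw [← Real.rpow_mul (norm_nonneg _), mul_one_div_cancel hp.ne', Real.rpow_one] at h3
    refine h3.trans (le_of_eq ?_)
    rw [show (2 : ℝ) ^ n * (1 + |y0|) ^ n * G = 2 ^ n * G * (1 + |y0|) ^ n by ring,
      Real.mul_rpow (by positivity) (by positivity), ← Real.rpow_natCast (1 + |y0|) n,
      ← Real.rpow_mul h0.le, mul_one_div]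
  have h22 : ‖∫ y : ℝ, f ((σ : ℂ) + I * ((t + r * y : ℝ) : ℂ)) * S y‖ ≤ (2 ^ n * G) ^ (1 / p) * J := by
    refine (norm_integral_le_integral_norm _).trans ?_
    rw [hJdef, ← integral_const_mul]
    refine integral_mono_of_nonneg ?_ (hSI.const_mul _) ?_
    · filter_upwards with y
      exact norm_nonneg _
    · filter_upwards with y
      show ‖f ((σ : ℂ) + I * ((t + r * y : ℝ) : ℂ)) * S y‖
        ≤ (2 ^ n * G) ^ (1 / p) * ((1 + |y|) ^ ((n : ℝ) / p) * ‖S y‖)
      rw [norm_mul, ← mul_assoc]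
      exact mul_le_mul_of_nonneg_right (hpt2 y) (norm_nonneg _)
  have h23 := Real.rpow_le_rpow (norm_nonneg _) h22 hp.le
  refine h23.trans ?_
  rw [Real.mul_rpow (by positivity) hJ, ← Real.rpow_mul (by positivity), one_div_mul_cancel hp.ne',
    Real.rpow_one]
  have h24 : (2 : ℝ) ^ n * G * J ^ p = (2 ^ n * J ^ p) * G := by ring
  rw [h24]
  have h25 : max 1 (2 ^ n * J ^ p) * r⁻¹ * (∫ x in (-r)..r, ∫ y : ℝ, F x y)
      = max 1 (2 ^ n * J ^ p) * G := by
    rw [hG, mul_assoc]
  refine le_trans ?_ (le_of_eq h25.symm)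
  exact mul_le_mul_of_nonneg_right (le_max_right _ _) hG0

end Pool.Agent.Lib.MP2
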