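import Mathlib
import Pool.Agent.Lib.MP_f9aece_nt_mp.StmtsP
import Pool.Agent.Lib.MP_f9aece_nt_h40.Growth

/-!
Moments of the plain average of zeta over short windows, module K6.

zeta(1/2+iu) is continuous in u and bounded by C (1+|u|) (find the bound used in MP_f9aece_nt_ms/Z1Approx or Z2Ident). PA: intervalIntegral.continuous_parametric_intervalIntegral_of_continuous. ZW kappa H: continuous_of_dominated near t0 with bound C (2+|t0|+|H||v|) ||kappa v||, integrable by RD (n = 3). (about 60 lines)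
-/

set_option autoImplicit false

namespace Pool.Agent.Lib.MP2

open MeasureTheory Set Filter Topology Complex
open Pool.Agent.Lib.MS (psi Adm ZW MomentsT2)

namespace K6C

open Pool.Agent.Lib.MP_f9aece_nt_h40

lemma line_ne (τ : ℝ) : (1 / 2 + I * (τ : ℂ)) ≠ 1 := by
  intro h
  have := congrArg Complex.re h
  simp at this

lemma cont_zeta : Continuous (fun τ : ℝ => riemannZeta (1 / 2 + I * (τ : ℂ))) := by
  rw [continuous_iff_continuousAt]
  intro τ
  have h1 : ContinuousAt riemannZeta (1 / 2 + I * (τ : ℂ)) :=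
    (differentiableAt_riemannZeta (line_ne τ)).continuousAt
  exact ContinuousAt.comp (f := fun τ : ℝ => (1 / 2 + I * (τ : ℂ))) h1 (by fun_prop)

lemma bd_zeta (τ : ℝ) : ‖riemannZeta (1 / 2 + I * (τ : ℂ))‖ ≤ 90 * (1 + |τ|) := by
  set s : ℂ := 1 / 2 + I * (τ : ℂ) with hs
  have hre : s.re = 1 / 2 := by simp [hs]
  have him : s.im = τ := by simp [hs]
  have hr : 0 < s.re := by rw [hre]; norm_num
  have hne : s ≠ 1 := line_ne τ
  have h0 : s - 1 ≠ 0 := sub_ne_zero.mpr hne
  have hp : 1 / 2 ≤ ‖s - 1‖ := by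
    have h1 := Complex.abs_re_le_norm (s - 1)
    have h2 : (s - 1).re = -(1 / 2) := by simp [hre]; norm_num
    rw [h2, abs_neg, abs_of_pos (by norm_num : (0 : ℝ) < 1 / 2)] at h1
    exact h1
  have h3 : ‖s + 1‖ ≤ 5 * ‖s - 1‖ := by
    have : ‖s + 1‖ ≤ ‖s - 1‖ + 2 := by
      have := norm_add_le (s - 1) 2
      rw [show s - 1 + 2 = s + 1 by ring] at this
      simpa using this
    linarith
  have h4 : ‖s‖ ≤ 1 / 2 + |τ| := by
    have := Complex.norm_le_abs_re_add_abs_im s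
    rw [abs_of_pos hr, hre, him] at this
    exact this
  have h5 := F_bound hr
  have e1 : riemannZeta s = F s * (s + 1) / (s - 1) := by
    have ha := add_one_ne_zero hr
    rw [F, Z1_eq hne]
    field_simp
  rw [e1, norm_div, norm_mul, div_le_iff₀ (by linarith)]
  have h6 := abs_nonneg τ
  calc ‖F s‖ * ‖s + 1‖ ≤ (6 * (1 + ‖s‖)) * (5 * ‖s - 1‖) := by gcongr
    _ ≤ (6 * (1 + (1 / 2 + |τ|))) * (5 * ‖s - 1‖) := by gcongr
    _ ≤ 90 * (1 + |τ|) * ‖s - 1‖ := by nlinarith [norm_nonneg (s - 1)]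

lemma cont_PA (H : ℝ) : Continuous (PA H) := by
  unfold PA
  refine intervalIntegral.continuous_parametric_intervalIntegral_of_continuous' ?_ 0 1
  have h : Continuous (fun p : ℝ × ℝ => p.1 + H * p.2) := by fun_prop
  exact cont_zeta.comp h

lemma rd_bound {κ : ℝ → ℂ} (h : RD κ) : ∃ C : ℝ, 0 ≤ C ∧ ∀ v : ℝ, (1 + |v|) * ‖κ v‖ ≤ C * (1 + v ^ 2)⁻¹ := by
  obtain ⟨C, hC⟩ := h 3
  have hC0 : 0 ≤ C := le_trans (by positivity) (hC 0)
  refine ⟨C, hC0, fun v => ?_⟩
  have h1 := hC v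
  have h2 : 0 < 1 + v ^ 2 := by positivity
  have h3 : 1 + v ^ 2 ≤ (1 + |v|) ^ 2 := by
    have := sq_abs v
    nlinarith [abs_nonneg v]
  have h4 := abs_nonneg v
  rw [← div_eq_mul_inv, le_div_iff₀ h2]
  calc (1 + |v|) * ‖κ v‖ * (1 + v ^ 2) ≤ (1 + |v|) * ‖κ v‖ * (1 + |v|) ^ 2 := by gcongr
    _ = ‖κ v‖ * (1 + |v|) ^ 3 := by ring
    _ ≤ C := h1

lemma cont_ZW {κ : ℝ → ℂ} (hm : AEStronglyMeasurable κ volume) (h : RD κ) (H : ℝ) :
    Continuous (ZW κ H) := by
  obtain ⟨C, hC0, hC⟩ := rd_bound h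
  rw [continuous_iff_continuousAt]
  intro t0
  unfold ZW
  refine continuousAt_of_dominated (F := fun (t : ℝ) (v : ℝ) =>
    riemannZeta (1 / 2 + I * ((t + H * v : ℝ) : ℂ)) * κ v)
    (bound := fun v => 90 * (2 + |t0| + |H|) * (C * (1 + v ^ 2)⁻¹)) ?_ ?_ ?_ ?_
  · refine Eventually.of_forall fun t => ?_
    refine AEStronglyMeasurable.mul ?_ hm
    have h : Continuous (fun v : ℝ => t + H * v) := by fun_prop
    exact (cont_zeta.comp h).aestronglyMeasurable
  · have hn : Metric.ball t0 1 ∈ 𝓝 t0 := Metric.ball_mem_nhds _ one_pos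
    filter_upwards [hn] with t ht
    refine Eventually.of_forall fun v => ?_
    rw [Metric.mem_ball, Real.dist_eq] at ht
    have h1 : |t| ≤ |t0| + 1 := by
      have := abs_add_le (t - t0) t0
      rw [sub_add_cancel] at this
      linarith
    have h2 : |t + H * v| ≤ |t| + |H| * |v| := by
      have := abs_add_le t (H * v)
      rwa [abs_mul] at this
    have h3 := abs_nonneg H
    have h4 := abs_nonneg v
    have h5 := abs_nonneg t0
    have h6 : 1 + |t + H * v| ≤ (2 + |t0| + |H|) * (1 + |v|) := by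
      nlinarith [mul_nonneg h3 h4, mul_nonneg h5 h4]
    have h7 := bd_zeta (t + H * v)
    rw [norm_mul]
    calc ‖riemannZeta (1 / 2 + I * ((t + H * v : ℝ) : ℂ))‖ * ‖κ v‖
        ≤ (90 * (1 + |t + H * v|)) * ‖κ v‖ := by gcongr
      _ ≤ (90 * ((2 + |t0| + |H|) * (1 + |v|))) * ‖κ v‖ := by gcongr
      _ = 90 * (2 + |t0| + |H|) * ((1 + |v|) * ‖κ v‖) := by ring
      _ ≤ _ := by
        have := hC v
        gcongr
  · exact (integrable_inv_one_add_sq.const_mul C).const_mul _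
  · refine Eventually.of_forall fun v => ?_
    have h : Continuous (fun t : ℝ => t + H * v) := by fun_prop
    exact ((cont_zeta.comp h).continuousAt).mul continuousAt_const

end K6C

theorem cont : Cont :=
  ⟨fun H => K6C.cont_PA H, fun _ hm h H => K6C.cont_ZW hm h H⟩

end Pool.Agent.Lib.MP2
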