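import Mathlib
import Pool.Agent.Lib.MP_f9aece_nt_mp.StmtsP
import Pool.Agent.Lib.MP_f9aece_nt_mp.K6Cont

/-!
Moments of the plain average of zeta over short windows, module D1.

Pointwise for v: indicator of [0,1) v = ph g M v + sum_{j<N} (Kk g (R_j v) - Kk g (R_j (v-1))) + (Ss g (R_N v) - Ss g (R_N (v-1))), R_j = 2^j M (telescoping: ph g (2R) v - ph g R v = Kk g (R v) - Kk g (R(v-1)); Ss g (R v) - Ss g (R (v-1)) = 1_[0,1)(v) - ph g R v). Multiply by zeta(1/2+i(t+Hv)), integrate (all kernels RD and measurable, |zeta| <= C(1+|u|)); substitution v = y/R resp. v = 1 + y/R: int zeta(1/2+i(t+Hv)) K(Rv) dv = R^(-1) ZW K (H/R) t, int zeta(1/2+i(t+Hv)) K(R(v-1)) dv = R^(-1) ZW K (H/R) (t+H) (integral_comp_mul_left, integral_sub_right_eq_self). PA H t = int over R of the indicator of [0,1) (or (0,1]) times zeta. (about 120 lines)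
-/

set_option autoImplicit false

namespace Pool.Agent.Lib.MP2

open MeasureTheory Set Filter Topology Complex
open Pool.Agent.Lib.MS (psi Adm ZW MomentsT2)

/-- zeta on the line -/
private noncomputable def d1z (u : ℝ) : ℂ := riemannZeta (1 / 2 + I * (u : ℂ))

private theorem d1_cont : Continuous d1z := K6C.cont_zeta

private theorem d1_ZW (κ : ℝ → ℂ) (H t : ℝ) : ZW κ H t = ∫ v, d1z (t + H * v) * κ v := rfl

private theorem d1_int {κ : ℝ → ℂ} (hm : AEStronglyMeasurable κ volume) (h : RD κ) (H t : ℝ) :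
    Integrable (fun v => d1z (t + H * v) * κ v) := by
  obtain ⟨C, hC0, hC⟩ := K6C.rd_bound h
  refine Integrable.mono' ((integrable_inv_one_add_sq.const_mul C).const_mul
    (90 * (1 + |t| + |H|))) ?_ (Filter.Eventually.of_forall fun v => ?_)
  · have h1 : Continuous (fun v : ℝ => t + H * v) := by fun_prop
    exact (d1_cont.comp h1).aestronglyMeasurable.mul hm
  · have h2 : |t + H * v| ≤ |t| + |H| * |v| := by
      have := abs_add_le t (H * v)
      rwa [abs_mul] at this
    have h3 := abs_nonneg H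
    have h4 := abs_nonneg v
    have h5 := abs_nonneg t
    have h6 : 1 + |t + H * v| ≤ (1 + |t| + |H|) * (1 + |v|) := by
      nlinarith [mul_nonneg h3 h4, mul_nonneg h5 h4]
    have h7 := K6C.bd_zeta (t + H * v)
    rw [norm_mul]
    calc ‖d1z (t + H * v)‖ * ‖κ v‖
        ≤ (90 * (1 + |t + H * v|)) * ‖κ v‖ := by
          exact mul_le_mul_of_nonneg_right h7 (norm_nonneg _)
      _ ≤ (90 * ((1 + |t| + |H|) * (1 + |v|))) * ‖κ v‖ := by gcongr
      _ = 90 * (1 + |t| + |H|) * ((1 + |v|) * ‖κ v‖) := by ring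
      _ ≤ _ := by
        have := hC v
        gcongr

/-- scaling of the kernel -/
private theorem d1_int_scale {κ : ℝ → ℂ} (hm : AEStronglyMeasurable κ volume) (h : RD κ)
    (H t : ℝ) {R : ℝ} (hR : 0 < R) : Integrable (fun v => d1z (t + H * v) * κ (R * v)) := by
  have h1 := (d1_int hm h (H / R) t).comp_mul_left' hR.ne'
  refine h1.congr (Filter.Eventually.of_forall fun v => ?_)
  show d1z (t + H / R * (R * v)) * κ (R * v) = _
  rw [← mul_assoc, div_mul_cancel₀ _ hR.ne']

private theorem d1_scale (κ : ℝ → ℂ) (H t : ℝ) {R : ℝ} (hR : 0 < R) :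
    ∫ v, d1z (t + H * v) * κ (R * v) = (R : ℂ)⁻¹ * ZW κ (H / R) t := by
  have h1 := Measure.integral_comp_mul_left (fun y : ℝ => d1z (t + H / R * y) * κ y) R
  rw [d1_ZW]
  have h2 : ∀ v : ℝ, d1z (t + H * v) * κ (R * v) = d1z (t + H / R * (R * v)) * κ (R * v) := by
    intro v
    rw [← mul_assoc, div_mul_cancel₀ _ hR.ne']
  simp_rw [h2]
  rw [h1, abs_of_pos (inv_pos.mpr hR), Complex.real_smul, Complex.ofReal_inv]

private theorem d1_int_shift {κ : ℝ → ℂ} (hm : AEStronglyMeasurable κ volume) (h : RD κ)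
    (H t : ℝ) {R : ℝ} (hR : 0 < R) :
    Integrable (fun v => d1z (t + H * v) * κ (R * (v - 1))) := by
  have h1 := (d1_int_scale hm h H (t + H) hR).comp_sub_right 1
  refine h1.congr (Filter.Eventually.of_forall fun v => ?_)
  show d1z (t + H + H * (v - 1)) * κ (R * (v - 1)) = _
  congr 2
  ring

private theorem d1_shift (κ : ℝ → ℂ) (H t : ℝ) {R : ℝ} (hR : 0 < R) :
    ∫ v, d1z (t + H * v) * κ (R * (v - 1)) = (R : ℂ)⁻¹ * ZW κ (H / R) (t + H) := by
  rw [← d1_scale κ H (t + H) hR]
  have h1 := integral_sub_right_eq_self (μ := (volume : Measure ℝ))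
    (fun v : ℝ => d1z (t + H + H * v) * κ (R * v)) 1
  rw [← h1]
  congr 1
  ext v
  congr 2
  ring

/-- the difference of the kernel at the two end points -/
private theorem d1_diff {κ : ℝ → ℂ} (hm : AEStronglyMeasurable κ volume) (h : RD κ)
    (H t : ℝ) {R : ℝ} (hR : 0 < R) :
    ∫ v, d1z (t + H * v) * (κ (R * v) - κ (R * (v - 1)))
      = (R : ℂ)⁻¹ * (ZW κ (H / R) t - ZW κ (H / R) (t + H)) := by
  have h1 : ∀ v : ℝ, d1z (t + H * v) * (κ (R * v) - κ (R * (v - 1)))
      = d1z (t + H * v) * κ (R * v) - d1z (t + H * v) * κ (R * (v - 1)) := fun v =>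
    mul_sub _ _ _
  simp_rw [h1]
  rw [integral_sub (d1_int_scale hm h H t hR) (d1_int_shift hm h H t hR), d1_scale κ H t hR,
    d1_shift κ H t hR]
  ring

private theorem d1_int_diff {κ : ℝ → ℂ} (hm : AEStronglyMeasurable κ volume) (h : RD κ)
    (H t : ℝ) {R : ℝ} (hR : 0 < R) :
    Integrable (fun v => d1z (t + H * v) * (κ (R * v) - κ (R * (v - 1)))) := by
  refine ((d1_int_scale hm h H t hR).sub (d1_int_shift hm h H t hR)).congr
    (Filter.Eventually.of_forall fun v => ?_)
  exact (mul_sub _ _ _).symm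

theorem ident (hP : Prim) (hC : Cont) : Ident := by
  intro g hg M H hM hH N t
  obtain ⟨hT, hKk, hSs, hph⟩ := hP g hg
  have hTc : Continuous (Th g) := by
    rw [continuous_iff_continuousAt]
    exact fun v => (hT v).continuousAt
  have hKc : Continuous (Kk g) := by
    unfold Kk
    exact (hTc.comp (by fun_prop)).sub hTc
  have hSm : AEStronglyMeasurable (Ss g) volume := by
    have h1 : Measurable (fun y : ℝ => (if 0 ≤ y then (1 : ℂ) else 0)) :=
      Measurable.ite measurableSet_Ici measurable_const measurable_const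
    exact (h1.sub hTc.measurable).aestronglyMeasurable
  have hphc : ∀ R : ℝ, Continuous (ph g R) := fun R => by
    unfold ph
    exact (hTc.comp (by fun_prop)).sub (hTc.comp (by fun_prop))
  -- the last step
  have base : ∀ R : ℝ, 0 < R → PA H t = ZW (ph g R) H t
      + (R : ℂ)⁻¹ * (ZW (Ss g) (H / R) t - ZW (Ss g) (H / R) (t + H)) := by
    intro R hR
    rw [← d1_diff hSm hSs H t hR, d1_ZW,
      ← integral_add (d1_int (hphc R).aestronglyMeasurable (hph R hR) H t)
        (d1_int_diff hSm hSs H t hR)]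
    have h1 : PA H t = ∫ v, (Ico (0 : ℝ) 1).indicator (fun v => d1z (t + H * v)) v := by
      rw [integral_indicator measurableSet_Ico]
      unfold PA
      rw [intervalIntegral.integral_of_le zero_le_one, ← integral_Ico_eq_integral_Ioc]
      rfl
    rw [h1]
    congr 1
    ext v
    rw [← mul_add]
    have h2 : ph g R v + (Ss g (R * v) - Ss g (R * (v - 1)))
        = (if 0 ≤ R * v then 1 else 0) - (if 0 ≤ R * (v - 1) then 1 else 0) := by
      unfold ph Ss
      ring
    rw [h2]
    by_cases hv0 : 0 ≤ v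
    · have e0 : 0 ≤ R * v := mul_nonneg hR.le hv0
      rw [if_pos e0]
      by_cases hv1 : v < 1
      · have e1 : ¬ 0 ≤ R * (v - 1) := by
          rw [not_le]
          exact mul_neg_of_pos_of_neg hR (by linarith)
        rw [if_neg e1, Set.indicator_of_mem (show v ∈ Ico (0 : ℝ) 1 from ⟨hv0, hv1⟩)]
        ring
      · have e1 : 0 ≤ R * (v - 1) := mul_nonneg hR.le (by linarith)
        rw [if_pos e1, Set.indicator_of_notMem (fun h => hv1 h.2)]
        ring
    · have e0 : ¬ 0 ≤ R * v := by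
        rw [not_le]
        exact mul_neg_of_pos_of_neg hR (by linarith)
      have e1 : ¬ 0 ≤ R * (v - 1) := by
        rw [not_le]
        exact mul_neg_of_pos_of_neg hR (by linarith)
      rw [if_neg e0, if_neg e1, Set.indicator_of_notMem (fun h => hv0 h.1)]
      ring
  have step : ∀ R : ℝ, 0 < R → ZW (ph g (2 * R)) H t = ZW (ph g R) H t
      + (R : ℂ)⁻¹ * (ZW (Kk g) (H / R) t - ZW (Kk g) (H / R) (t + H)) := by
    intro R hR
    rw [← d1_diff hKc.aestronglyMeasurable hKk H t hR, d1_ZW, d1_ZW,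
      ← integral_add (d1_int (hphc R).aestronglyMeasurable (hph R hR) H t)
        (d1_int_diff hKc.aestronglyMeasurable hKk H t hR)]
    congr 1
    ext v
    rw [← mul_add]
    congr 1
    unfold ph Kk
    rw [show 2 * R * v = 2 * (R * v) by ring, show 2 * R * (v - 1) = 2 * (R * (v - 1)) by ring]
    ring
  have tele : ∀ n : ℕ, ZW (ph g (2 ^ n * M)) H t = ZW (ph g M) H t
      + ∑ j ∈ Finset.range n, ((2 ^ j * M : ℝ) : ℂ)⁻¹ * (ZW (Kk g) (H / (2 ^ j * M)) t
        - ZW (Kk g) (H / (2 ^ j * M)) (t + H)) := by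
    intro n
    induction n with
    | zero => simp
    | succ n ih =>
      rw [Finset.sum_range_succ, ← add_assoc, ← ih, ← step (2 ^ n * M) (by positivity)]
      rw [pow_succ, show (2 : ℝ) ^ n * 2 * M = 2 * (2 ^ n * M) by ring]
  rw [← tele N]
  exact base (2 ^ N * M) (by positivity)

end Pool.Agent.Lib.MP2
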