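import Mathlib
import Pool.Agent.Lib.MP_f9aece_nt_mp.StmtsP

/-!
Moments of the plain average of zeta over short windows, module E1: the plain average is close to
a smooth average.
-/

set_option autoImplicit false

namespace Pool.Agent.Lib.MP2

open MeasureTheory Set Filter Topology Complex
open Pool.Agent.Lib.MS (psi Adm ZW MomentsT2)

namespace E1

theorem pow_sub_le {p : ℝ} (hp : 0 < p) (a b : ℂ) :
    ‖a - b‖ ^ p ≤ 2 ^ p * (‖a‖ ^ p + ‖b‖ ^ p) := by
  have h1 : ‖a - b‖ ≤ 2 * max ‖a‖ ‖b‖ := by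
    have := norm_sub_le a b
    have h2 := le_max_left ‖a‖ ‖b‖
    have h3 := le_max_right ‖a‖ ‖b‖
    linarith
  have hm : 0 ≤ max ‖a‖ ‖b‖ := le_max_of_le_left (norm_nonneg _)
  have ha : 0 ≤ ‖a‖ ^ p := Real.rpow_nonneg (norm_nonneg _) _
  have hb : 0 ≤ ‖b‖ ^ p := Real.rpow_nonneg (norm_nonneg _) _
  calc ‖a - b‖ ^ p ≤ (2 * max ‖a‖ ‖b‖) ^ p := Real.rpow_le_rpow (norm_nonneg _) h1 hp.le
    _ = 2 ^ p * (max ‖a‖ ‖b‖) ^ p := Real.mul_rpow (by norm_num) hm
    _ ≤ 2 ^ p * (‖a‖ ^ p + ‖b‖ ^ p) := by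
        refine mul_le_mul_of_nonneg_left ?_ (Real.rpow_nonneg (by norm_num) _)
        rcases max_choice ‖a‖ ‖b‖ with h | h <;> rw [h] <;> linarith

theorem cont_pow {p : ℝ} (hp : 0 < p) {f : ℝ → ℂ} (hf : Continuous f) :
    Continuous fun t => ‖f t‖ ^ p := hf.norm.rpow_const fun _ => Or.inr hp.le

theorem av_mono {p x T : ℝ} (hp : 0 < p) (hT : 0 < T) {f : ℝ → ℂ} (hf : Continuous f)
    {g : ℝ → ℝ} (hg : Continuous g) (h : ∀ t, ‖f t‖ ^ p ≤ g t) :
    Av p x T f ≤ T⁻¹ * ∫ t in x..(x + T), g t := by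
  unfold Av
  refine mul_le_mul_of_nonneg_left ?_ (by positivity)
  exact intervalIntegral.integral_mono (by linarith) ((cont_pow hp hf).intervalIntegrable _ _)
    (hg.intervalIntegrable _ _) h

theorem av_shift {p x T H : ℝ} {f : ℝ → ℂ} :
    T⁻¹ * ∫ t in x..(x + T), ‖f (t + H)‖ ^ p = Av p (x + H) T f := by
  unfold Av
  rw [intervalIntegral.integral_comp_add_right (fun t => ‖f t‖ ^ p),
    show x + T + H = x + H + T by ring]

theorem av_term {p x T H c : ℝ} (hp : 0 < p) (hT : 0 < T) (hc : 0 < c) {f : ℝ → ℂ}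
    (hf : Continuous f) :
    Av p x T (fun t => ((c : ℝ) : ℂ)⁻¹ * (f t - f (t + H)))
      ≤ c ^ (-p) * (2 ^ p * (Av p x T f + Av p (x + H) T f)) := by
  have hf2 : Continuous fun t => f (t + H) := hf.comp (by fun_prop)
  have h1 := av_mono (x := x) hp hT
    (f := fun t => ((c : ℝ) : ℂ)⁻¹ * (f t - f (t + H)))
    (g := fun t => c ^ (-p) * (2 ^ p * (‖f t‖ ^ p + ‖f (t + H)‖ ^ p)))
    (by fun_prop)
    (by
      have h3 := cont_pow hp hf
      have h4 := cont_pow hp hf2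
      fun_prop)
    (fun t => by
      rw [norm_mul, Real.mul_rpow (norm_nonneg _) (norm_nonneg _)]
      have h5 : ‖((c : ℝ) : ℂ)⁻¹‖ ^ p = c ^ (-p) := by
        rw [norm_inv, Complex.norm_real, Real.norm_eq_abs, abs_of_pos hc, Real.rpow_neg hc.le,
          Real.inv_rpow hc.le]
      rw [h5]
      exact mul_le_mul_of_nonneg_left (pow_sub_le hp _ _) (Real.rpow_nonneg hc.le _))
  refine h1.trans (le_of_eq ?_)
  rw [← av_shift]
  unfold Av
  rw [intervalIntegral.integral_const_mul, intervalIntegral.integral_const_mul,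
    intervalIntegral.integral_add ((cont_pow hp hf).intervalIntegrable _ _)
      ((cont_pow hp hf2).intervalIntegrable _ _)]
  ring

theorem av_sum {p η C3 x T : ℝ} (hp : 0 < p) (hT : 0 < T)
    (h3 : ∀ (n : ℕ) (z : ℕ → ℂ),
      ‖∑ j ∈ Finset.range n, z j‖ ^ p ≤ C3 * ∑ j ∈ Finset.range n, (2 : ℝ) ^ (η * j) * ‖z j‖ ^ p)
    (n : ℕ) (z : ℕ → ℝ → ℂ) (hz : ∀ j, Continuous (z j)) :
    Av p x T (fun t => ∑ j ∈ Finset.range n, z j t)
      ≤ C3 * ∑ j ∈ Finset.range n, (2 : ℝ) ^ (η * j) * Av p x T (z j) := by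
  have h1 := av_mono (x := x) hp hT
    (f := fun t => ∑ j ∈ Finset.range n, z j t)
    (g := fun t => C3 * ∑ j ∈ Finset.range n, (2 : ℝ) ^ (η * j) * ‖z j t‖ ^ p)
    (by
      refine continuous_finsetSum _ fun j _ => hz j)
    (by
      refine continuous_const.mul (continuous_finsetSum _ fun j _ => ?_)
      exact continuous_const.mul (cont_pow hp (hz j)))
    (fun t => h3 n fun j => z j t)
  refine h1.trans (le_of_eq ?_)
  unfold Av
  rw [intervalIntegral.integral_const_mul, intervalIntegral.integral_finsetSum]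
  · rw [Finset.mul_sum, Finset.mul_sum, Finset.mul_sum]
    refine Finset.sum_congr rfl fun j _ => ?_
    rw [intervalIntegral.integral_const_mul]
    ring
  · intro j _
    exact (continuous_const.mul (cont_pow hp (hz j))).intervalIntegrable _ _

/-- finite geometric sums -/
theorem geo {η : ℝ} (hη : 0 < η) (n : ℕ) :
    ∑ j ∈ Finset.range n, (2 : ℝ) ^ (-(η * (j : ℝ))) ≤ (1 - 2 ^ (-η))⁻¹ := by
  have h1 : (2 : ℝ) ^ (-η) < 1 := Real.rpow_lt_one_of_one_lt_of_neg (by norm_num) (by linarith)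
  have h0 : 0 < (2 : ℝ) ^ (-η) := Real.rpow_pos_of_pos (by norm_num) _
  have h2 : ∀ j : ℕ, (2 : ℝ) ^ (-(η * (j : ℝ))) = ((2 : ℝ) ^ (-η)) ^ j := by
    intro j
    rw [← Real.rpow_natCast, ← Real.rpow_mul (by norm_num)]
    congr 1
    ring
  simp_rw [h2]
  have h3 := (summable_geometric_of_lt_one h0.le h1).sum_le_tsum (Finset.range n)
    (fun j _ => pow_nonneg h0.le j)
  rwa [tsum_geometric_of_lt_one h0.le h1] at h3

end E1

open E1 in
theorem err (hP : Prim) (hK : KkSupp) (hU : UpClass) (hC : Cont) (hI : Ident) (hN : PowSum) (hT : Top) : Err := by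
  intro g hg p hp hp4 δ hδ
  obtain ⟨hTd, hKr, hSr, hphr⟩ := hP g hg
  have hTc : Continuous (Th g) := continuous_iff_continuousAt.2 fun y => (hTd y).continuousAt
  have hKc : Continuous (Kk g) := by
    unfold Kk
    exact (hTc.comp (by fun_prop)).sub hTc
  have hSm : AEStronglyMeasurable (Ss g) volume := by
    have : Measurable (Ss g) := by
      unfold Ss
      refine Measurable.sub ?_ hTc.measurable
      exact Measurable.ite measurableSet_Ici measurable_const measurable_const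
    exact this.aestronglyMeasurable
  have hphc : ∀ R : ℝ, Continuous (ph g R) := by
    intro R
    unfold ph
    exact (hTc.comp (by fun_prop)).sub (hTc.comp (by fun_prop))
  obtain ⟨C0, hC0, h0⟩ := hU (Kk g) 2 (by norm_num) hKr hKc (hK g hg) p hp
  set k2 : ℝ := p ^ 2 / 4 with hk2
  set e : ℝ := p - k2 with he
  have he0 : 0 < e := by
    have : e = p * (4 - p) / 4 := by rw [he, hk2]; ring
    rw [this]
    have := mul_pos hp (sub_pos.2 hp4)
    positivity
  have hk20 : 0 < k2 := by rw [hk2]; positivity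
  set η : ℝ := e / 2 with hη
  have hη0 : 0 < η := by rw [hη]; positivity
  obtain ⟨C3, hC3, h3⟩ := hN p η hp hη0
  obtain ⟨C4, hC4, h4⟩ := hT (Ss g) hSm hSr p (2 * C0) hp hp4.le (by linarith)
  set G : ℝ := (1 - (2 : ℝ) ^ (-η))⁻¹ with hG
  have hG0 : 0 < G := by
    rw [hG]
    have h1 : (2 : ℝ) ^ (-η) < 1 := Real.rpow_lt_one_of_one_lt_of_neg (by norm_num) (by linarith)
    exact inv_pos.2 (by linarith)
  have h2p : 0 < (2 : ℝ) ^ p := Real.rpow_pos_of_pos (by norm_num) _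
  set c6 : ℝ := C3 * (2 ^ p * (2 * C0)) * G with hc6
  have hc60 : 0 < c6 := by rw [hc6]; positivity
  set c5 : ℝ := C3 * (2 ^ p * (2 * C4)) * (2 * C0) ^ p with hc5
  have hc50 : 0 < c5 := by
    rw [hc5]
    have : 0 < (2 * C0) ^ p := Real.rpow_pos_of_pos (by linarith) _
    positivity
  obtain ⟨m0, hm0⟩ := pow_unbounded_of_one_lt (2 * c6 / δ)
    (Real.one_lt_rpow (by norm_num : (1 : ℝ) < 2) he0)
  refine ⟨m0, fun m hm => ?_⟩
  set M : ℝ := 2 ^ m with hM
  have hM1 : 1 ≤ M := by rw [hM]; exact one_le_pow₀ (by norm_num)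
  have hM0 : 0 < M := by linarith
  -- the main terms are small
  have hMe : c6 * M ^ (-e) ≤ δ / 2 := by
    have h1 : (2 : ℝ) ^ e ^ 1 = 2 ^ e := by rw [pow_one]
    have h5 : ((2 : ℝ) ^ e) ^ m0 ≤ M ^ e := by
      have h6 : M ^ e = ((2 : ℝ) ^ e) ^ m := by
        rw [hM, ← Real.rpow_natCast, ← Real.rpow_mul (by norm_num), ← Real.rpow_natCast,
          ← Real.rpow_mul (by norm_num)]
        congr 1
        ring
      rw [h6]
      exact pow_le_pow_right₀ (Real.one_le_rpow (by norm_num) he0.le) hm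
    have h7 : 2 * c6 / δ ≤ M ^ e := hm0.le.trans h5
    rw [Real.rpow_neg hM0.le]
    have h8 : 0 < M ^ e := Real.rpow_pos_of_pos hM0 _
    rw [div_le_iff₀ hδ] at h7
    rw [← div_eq_mul_inv, div_le_iff₀ h8]
    linarith
  set C : ℝ := C0 * M + C4 + (2 * c5 / δ) ^ (1 / η) + 1 with hCdef
  have hr0 : 0 ≤ (2 * c5 / δ) ^ (1 / η) := Real.rpow_nonneg (by positivity) _
  have hC0M : 0 < C0 * M := by positivity
  refine ⟨C, by rw [hCdef]; nlinarith, ?_⟩
  intro H T x hH hCH hT1 hCK hx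
  set K : ℝ := H * Real.log T with hKdef
  have hCpos : 1 ≤ C := by rw [hCdef]; nlinarith
  have hK0 : 0 < K := by linarith
  have hH1 : H ≤ 1 := by nlinarith
  have hC0C : C0 ≤ C := by
    rw [hCdef]
    nlinarith
  have hT0 : 0 < T := by linarith
  have hlogT : Real.log T = K / H := by rw [hKdef]; field_simp
  have hlog0 : 0 ≤ Real.log T := Real.log_nonneg hT1
  have hKlog : K ≤ Real.log T := by rw [hKdef]; nlinarith
  have hCT : C ≤ T := by
    have h1 := Real.add_one_le_exp (Real.log T)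
    rw [Real.exp_log hT0] at h1
    linarith
  obtain ⟨N, hN1, hN2⟩ := exists_nat_pow_near (x := K / (C0 * M)) (y := 2)
    (by
      rw [le_div_iff₀ hC0M, one_mul]
      refine le_trans ?_ hCK
      rw [hCdef]; linarith) (by norm_num)
  rw [le_div_iff₀ hC0M] at hN1
  rw [div_lt_iff₀ hC0M] at hN2
  -- the pieces
  set cj : ℕ → ℝ := fun j => 2 ^ j * M with hcj
  have hcj0 : ∀ j, 0 < cj j := fun j => by rw [hcj]; positivity
  set z : ℕ → ℝ → ℂ := fun j t =>
    if j < N then ((cj j : ℝ) : ℂ)⁻¹ * (ZW (Kk g) (H / cj j) t - ZW (Kk g) (H / cj j) (t + H))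
    else ((cj j : ℝ) : ℂ)⁻¹ * (ZW (Ss g) (H / cj j) t - ZW (Ss g) (H / cj j) (t + H)) with hz
  have hKZ : ∀ h : ℝ, Continuous (ZW (Kk g) h) := hC.2 _ hKc.aestronglyMeasurable hKr
  have hSZ : ∀ h : ℝ, Continuous (ZW (Ss g) h) := hC.2 _ hSm hSr
  have hzc : ∀ j, Continuous (z j) := by
    intro j
    rw [hz]
    simp only
    split_ifs
    · exact continuous_const.mul ((hKZ _).sub ((hKZ _).comp (by fun_prop)))
    · exact continuous_const.mul ((hSZ _).sub ((hSZ _).comp (by fun_prop)))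
  have hid : (fun t => PA H t - ZW (ph g (2 ^ m)) H t)
      = fun t => ∑ j ∈ Finset.range (N + 1), z j t := by
    funext t
    rw [hI g hg M H hM0 hH N t, Finset.sum_range_succ, ← hM]
    have e1 : ∑ j ∈ Finset.range N, z j t = ∑ j ∈ Finset.range N, ((2 ^ j * M : ℝ) : ℂ)⁻¹ *
        (ZW (Kk g) (H / (2 ^ j * M)) t - ZW (Kk g) (H / (2 ^ j * M)) (t + H)) := by
      refine Finset.sum_congr rfl fun j hj => ?_
      rw [hz]
      simp only [Finset.mem_range.1 hj, if_true, hcj]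
    have e2 : z N t = ((2 ^ N * M : ℝ) : ℂ)⁻¹ *
        (ZW (Ss g) (H / (2 ^ N * M)) t - ZW (Ss g) (H / (2 ^ N * M)) (t + H)) := by
      rw [hz]
      simp only [lt_irrefl, if_false, hcj]
    rw [e1, e2]
    ring
  rw [hid]
  refine (av_sum (x := x) hp hT0 h3 (N + 1) z hzc).trans ?_
  rw [Finset.sum_range_succ, mul_add]
  have hHk : 0 < H ^ (-k2) := Real.rpow_pos_of_pos hH _
  -- the dyadic pieces
  have hmain : C3 * ∑ j ∈ Finset.range N, (2 : ℝ) ^ (η * j) * Av p x T (z j)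
      ≤ δ / 2 * H ^ (-k2) := by
    have hterm : ∀ j ∈ Finset.range N, (2 : ℝ) ^ (η * j) * Av p x T (z j)
        ≤ ((2 ^ p * (2 * C0)) * M ^ (-e) * H ^ (-k2)) * (2 : ℝ) ^ (-(η * (j : ℝ))) := by
      intro j hj
      have hjN : j < N := Finset.mem_range.1 hj
      have hcN : cj j * C0 ≤ K := by
        refine le_trans ?_ hN1
        have : (2 : ℝ) ^ j ≤ 2 ^ N := pow_le_pow_right₀ (by norm_num) hjN.le
        rw [hcj]
        calc 2 ^ j * M * C0 ≤ 2 ^ N * M * C0 := by gcongr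
          _ = 2 ^ N * (C0 * M) := by ring
      have hc1 : 1 ≤ cj j := by
        rw [hcj]
        exact one_le_mul_of_one_le_of_one_le (one_le_pow₀ (by norm_num)) hM1
      have hh0 : 0 < H / cj j := by have := hcj0 j; positivity
      have hh1 : C0 * (H / cj j) ≤ 1 := by
        have : H / cj j ≤ H := div_le_self hH.le hc1
        nlinarith
      have hh2 : C0 ≤ H / cj j * Real.log T := by
        rw [div_mul_eq_mul_div, le_div_iff₀ (hcj0 j), ← hKdef]
        linarith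
      have hA1 := h0 (H / cj j) T hh0 hh1 hT1 hh2 x
      have hA2 := h0 (H / cj j) T hh0 hh1 hT1 hh2 (x + H)
      have hzj : Av p x T (z j) ≤ cj j ^ (-p) * (2 ^ p * (Av p x T (ZW (Kk g) (H / cj j))
          + Av p (x + H) T (ZW (Kk g) (H / cj j)))) := by
        have e1 : z j = fun t => ((cj j : ℝ) : ℂ)⁻¹ *
            (ZW (Kk g) (H / cj j) t - ZW (Kk g) (H / cj j) (t + H)) := by
          funext t
          rw [hz]
          simp only [hjN, if_true]
        rw [e1]
        exact av_term hp hT0 (hcj0 j) (hKZ _)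
      have hcp : 0 < cj j ^ (-p) := Real.rpow_pos_of_pos (hcj0 j) _
      have h10 : Av p x T (z j) ≤ cj j ^ (-p) * (2 ^ p * (2 * C0 * (H / cj j) ^ (-k2))) := by
        refine hzj.trans ?_
        refine mul_le_mul_of_nonneg_left (mul_le_mul_of_nonneg_left ?_ h2p.le) hcp.le
        linarith
      have h11 : (H / cj j) ^ (-k2) = H ^ (-k2) * cj j ^ k2 := by
        rw [Real.div_rpow hH.le (hcj0 j).le, Real.rpow_neg (hcj0 j).le k2]
        have : cj j ^ k2 ≠ 0 := (Real.rpow_pos_of_pos (hcj0 j) _).ne'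
        field_simp
      have h12 : cj j ^ (-p) * cj j ^ k2 = (2 : ℝ) ^ (-(e * (j : ℝ))) * M ^ (-e) := by
        rw [← Real.rpow_add (hcj0 j)]
        have : -p + k2 = -e := by rw [he]; ring
        rw [this, hcj]
        simp only
        rw [Real.mul_rpow (by positivity) hM0.le]
        congr 1
        rw [← Real.rpow_natCast, ← Real.rpow_mul (by norm_num)]
        congr 1
        ring
      have h13 : (2 : ℝ) ^ (η * (j : ℝ)) * (2 : ℝ) ^ (-(e * (j : ℝ))) = 2 ^ (-(η * (j : ℝ))) := by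
        rw [← Real.rpow_add (by norm_num)]
        congr 1
        rw [hη]; ring
      have h14 : 0 ≤ (2 : ℝ) ^ (η * (j : ℝ)) := Real.rpow_nonneg (by norm_num) _
      calc (2 : ℝ) ^ (η * (j : ℝ)) * Av p x T (z j)
          ≤ (2 : ℝ) ^ (η * (j : ℝ)) * (cj j ^ (-p) * (2 ^ p * (2 * C0 * (H / cj j) ^ (-k2)))) :=
            mul_le_mul_of_nonneg_left h10 h14
        _ = (2 ^ p * (2 * C0)) * H ^ (-k2) * ((2 : ℝ) ^ (η * (j : ℝ)) * (cj j ^ (-p) * cj j ^ k2)) := by
            rw [h11]; ring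
        _ = (2 ^ p * (2 * C0)) * H ^ (-k2) * M ^ (-e)
              * ((2 : ℝ) ^ (η * (j : ℝ)) * (2 : ℝ) ^ (-(e * (j : ℝ)))) := by
            rw [h12]; ring
        _ = _ := by rw [h13]; ring
    have hMe0 : 0 < M ^ (-e) := Real.rpow_pos_of_pos hM0 _
    calc C3 * ∑ j ∈ Finset.range N, (2 : ℝ) ^ (η * j) * Av p x T (z j)
        ≤ C3 * ∑ j ∈ Finset.range N,
            ((2 ^ p * (2 * C0)) * M ^ (-e) * H ^ (-k2)) * (2 : ℝ) ^ (-(η * (j : ℝ))) :=
          mul_le_mul_of_nonneg_left (Finset.sum_le_sum hterm) (by linarith)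
      _ = (C3 * ((2 ^ p * (2 * C0)) * M ^ (-e) * H ^ (-k2)))
            * ∑ j ∈ Finset.range N, (2 : ℝ) ^ (-(η * (j : ℝ))) := by
          rw [← Finset.mul_sum]; ring
      _ ≤ (C3 * ((2 ^ p * (2 * C0)) * M ^ (-e) * H ^ (-k2))) * G :=
          mul_le_mul_of_nonneg_left (geo hη0 N) (by positivity)
      _ = (c6 * M ^ (-e)) * H ^ (-k2) := by rw [hc6]; ring
      _ ≤ δ / 2 * H ^ (-k2) := mul_le_mul_of_nonneg_right hMe hHk.le
  -- the last piece
  have hlast : C3 * ((2 : ℝ) ^ (η * (N : ℝ)) * Av p x T (z N)) ≤ δ / 2 * H ^ (-k2) := by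
    set R : ℝ := cj N with hR
    have hR0 : 0 < R := hcj0 N
    have hRK : R * C0 ≤ K := by
      rw [hR, hcj]
      calc 2 ^ N * M * C0 = 2 ^ N * (C0 * M) := by ring
        _ ≤ K := hN1
    have hKR : K ≤ 2 * C0 * R := by
      rw [hR, hcj]
      have : K < 2 ^ (N + 1) * (C0 * M) := hN2
      rw [pow_succ] at this
      nlinarith
    set Λ : ℝ := R / H with hΛ
    have hL1 : Real.log T ≤ 2 * C0 * Λ := by
      rw [hlogT, hΛ, ← mul_div_assoc]
      exact div_le_div_of_nonneg_right hKR hH.le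
    have hL2 : Λ ≤ 2 * C0 * Real.log T := by
      have h5 : Λ ≤ Real.log T := by
        rw [hlogT, hΛ]
        refine div_le_div_of_nonneg_right ?_ hH.le
        nlinarith
      nlinarith
    have hC4T : C4 ≤ T := by
      refine le_trans ?_ hCT
      rw [hCdef]; linarith
    have hx1 : |x| ≤ 2 * T := by linarith
    have hx2 : |x + H| ≤ 2 * T := by
      refine (abs_add_le _ _).trans ?_
      rw [abs_of_pos hH]
      linarith
    have hA1 := h4 T Λ x hC4T hL1 hL2 hx1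
    have hA2 := h4 T Λ (x + H) hC4T hL1 hL2 hx2
    have hLi : Λ⁻¹ = H / R := by rw [hΛ, inv_div]
    rw [hLi] at hA1 hA2
    have hzN : Av p x T (z N) ≤ R ^ (-p) * (2 ^ p * (Av p x T (ZW (Ss g) (H / R))
        + Av p (x + H) T (ZW (Ss g) (H / R)))) := by
      have e1 : z N = fun t => ((R : ℝ) : ℂ)⁻¹ *
          (ZW (Ss g) (H / R) t - ZW (Ss g) (H / R) (t + H)) := by
        funext t
        rw [hz]
        simp only [lt_irrefl, if_false]
        rfl
      rw [e1]
      exact av_term hp hT0 hR0 (hSZ _)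
    have hRp : 0 < R ^ (-p) := Real.rpow_pos_of_pos hR0 _
    have h10 : Av p x T (z N) ≤ R ^ (-p) * (2 ^ p * (2 * C4 * Real.log T ^ k2)) := by
      refine hzN.trans ?_
      refine mul_le_mul_of_nonneg_left (mul_le_mul_of_nonneg_left ?_ h2p.le) hRp.le
      linarith
    have h11 : Real.log T ^ k2 = K ^ k2 * H ^ (-k2) := by
      rw [hlogT, Real.div_rpow hK0.le hH.le, Real.rpow_neg hH.le, div_eq_mul_inv]
    have h12 : R ^ (-p) ≤ (2 * C0) ^ p * K ^ (-p) := by
      have h5 : K / (2 * C0) ≤ R := by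
        rw [div_le_iff₀ (by linarith)]
        linarith
      have h6 : R ^ (-p) ≤ (K / (2 * C0)) ^ (-p) :=
        Real.rpow_le_rpow_of_nonpos (by positivity) h5 (by linarith)
      refine h6.trans (le_of_eq ?_)
      rw [Real.div_rpow hK0.le (by linarith), Real.rpow_neg (by linarith : (0 : ℝ) ≤ 2 * C0) p,
        div_inv_eq_mul]
      ring
    have h13 : (2 : ℝ) ^ (η * (N : ℝ)) ≤ K ^ η := by
      have h5 : (2 : ℝ) ^ N ≤ K := by
        have h7 : 1 ≤ C0 * M := one_le_mul_of_one_le_of_one_le hC0 hM1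
        have h8 : (0 : ℝ) < 2 ^ N := by positivity
        nlinarith
      have h6 : (2 : ℝ) ^ (η * (N : ℝ)) = ((2 : ℝ) ^ N) ^ η := by
        rw [← Real.rpow_natCast, ← Real.rpow_mul (by norm_num)]
        congr 1
        ring
      rw [h6]
      exact Real.rpow_le_rpow (by positivity) h5 hη0.le
    have hKe : c5 * K ^ (-η) ≤ δ / 2 := by
      have h5 : (2 * c5 / δ) ^ (1 / η) ≤ K := by
        refine le_trans ?_ hCK
        rw [hCdef]; linarith
      have h6 : 2 * c5 / δ ≤ K ^ η := by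
        have h7 := Real.rpow_le_rpow hr0 h5 hη0.le
        rwa [← Real.rpow_mul (by positivity), one_div, inv_mul_cancel₀ hη0.ne', Real.rpow_one] at h7
      have h8 : 0 < K ^ η := Real.rpow_pos_of_pos hK0 _
      rw [Real.rpow_neg hK0.le, ← div_eq_mul_inv, div_le_iff₀ h8]
      rw [div_le_iff₀ hδ] at h6
      linarith
    have h14 : K ^ η * (K ^ (-p) * K ^ k2) = K ^ (-η) := by
      rw [← Real.rpow_add hK0, ← Real.rpow_add hK0]
      congr 1
      rw [hη, he]; ring
    have hK1 : 0 < K ^ k2 := Real.rpow_pos_of_pos hK0 _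
    have h2N : 0 ≤ (2 : ℝ) ^ (η * (N : ℝ)) := Real.rpow_nonneg (by norm_num) _
    have hfac : 0 ≤ 2 ^ p * (2 * C4 * Real.log T ^ k2) := by
      have : 0 ≤ Real.log T ^ k2 := Real.rpow_nonneg hlog0 _
      positivity
    calc C3 * ((2 : ℝ) ^ (η * (N : ℝ)) * Av p x T (z N))
        ≤ C3 * (K ^ η * (((2 * C0) ^ p * K ^ (-p)) * (2 ^ p * (2 * C4 * Real.log T ^ k2)))) := by
          refine mul_le_mul_of_nonneg_left ?_ (by linarith)
          have hKη : 0 ≤ K ^ η := Real.rpow_nonneg hK0.le _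
          calc (2 : ℝ) ^ (η * (N : ℝ)) * Av p x T (z N)
              ≤ (2 : ℝ) ^ (η * (N : ℝ)) * (R ^ (-p) * (2 ^ p * (2 * C4 * Real.log T ^ k2))) :=
                mul_le_mul_of_nonneg_left h10 h2N
            _ ≤ K ^ η * (((2 * C0) ^ p * K ^ (-p)) * (2 ^ p * (2 * C4 * Real.log T ^ k2))) := by
                refine mul_le_mul h13 (mul_le_mul_of_nonneg_right h12 hfac) ?_ hKη
                exact mul_nonneg hRp.le hfac
      _ = c5 * (K ^ η * (K ^ (-p) * K ^ k2)) * H ^ (-k2) := by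
          rw [h11, hc5]; ring
      _ = (c5 * K ^ (-η)) * H ^ (-k2) := by rw [h14]
      _ ≤ δ / 2 * H ^ (-k2) := mul_le_mul_of_nonneg_right hKe hHk.le
  linarith

end Pool.Agent.Lib.MP2
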