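import Mathlib
import Pool.Agent.Lib.MP_f9aece_nt_mp.StmtsP

/-!
Moments of averages of zeta over short windows, kernels which are the sum of a band-limited
function and a step function: definitions and statements of the modules.
-/

set_option autoImplicit false

namespace Pool.Agent.Lib.MP2

open MeasureTheory Set Filter Topology Complex
open Pool.Agent.Lib.MS (psi Adm ZW MomentsT2)

/-- integrability with the weight `1 + |v|` -/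
def W1 (φ : ℝ → ℂ) : Prop := Integrable (fun v : ℝ => ((1 + |v| : ℝ) : ℂ) * φ v)

/-- convolution -/
noncomputable def cvl (φ : ℝ → ℂ) (g : ℂ → ℂ) (w : ℝ) : ℂ := ∫ v : ℝ, φ v * g ((w - v : ℝ) : ℂ)

/-- the indicator of `[b, d]` -/
noncomputable def stp (b d v : ℝ) : ℂ := if b ≤ v ∧ v ≤ d then 1 else 0

/-- a kernel with a step part -/
noncomputable def ker (φ0 : ℝ → ℂ) (n : ℕ) (a : ℕ → ℂ) (b d : ℕ → ℝ) (v : ℝ) : ℂ :=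
  φ0 v + ∑ j ∈ Finset.range n, a j * stp (b j) (d j) v

/-- GC: continuity -/
def ContG : Prop := ∀ φ : ℝ → ℂ, W1 φ → ∀ H : ℝ, Continuous (ZW φ H)

/-- GA: the smoothed kernel is band-limited -/
def CvAdm : Prop := ∀ g : ℂ → ℂ, BumpFn g → ∀ φ : ℝ → ℂ, W1 φ → ∫ v, φ v = 1 → Adm (cvl φ g) 1

/-- GV: the smoothed average is an average of averages -/
def CvConv : Prop := ∀ g : ℂ → ℂ, BumpFn g → ∀ φ : ℝ → ℂ, W1 φ → ∀ H t : ℝ, 0 < H →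
  ZW (cvl φ g) H t = ∫ u : ℝ, ZW φ H (t + H * u) * g (u : ℂ)

/-- GP: the smoothed average is dominated by the average -/
def PosG : Prop := ∀ g : ℂ → ℂ, BumpFn g → ∀ φ : ℝ → ℂ, W1 φ → ∀ p : ℝ, 0 < p → ∃ C0 : ℝ, 1 ≤ C0 ∧
  ∀ H : ℝ, 0 < H → H ≤ 1 / 4 → ∃ T0 : ℝ, ∀ T : ℝ, T0 ≤ T →
  Av p 0 T (ZW (cvl φ g) H) ≤ C0 * (Av p (-4 * T) (8 * T) (ZW φ H) + 1)

/-- GS: steps are close to smooth steps -/
def StepErr : Prop := ∀ g : ℂ → ℂ, BumpFn g → ∀ b d : ℝ, b < d → ∀ p : ℝ, 0 < p → p < 4 →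
  ∀ δ : ℝ, 0 < δ → ∃ m0 : ℕ, ∀ m : ℕ, m0 ≤ m → ∃ C : ℝ, 1 ≤ C ∧ ∀ H T x : ℝ, 0 < H → C * H ≤ 1 →
  1 ≤ T → C ≤ H * Real.log T → |x| ≤ T →
  Av p x T (fun t => ZW (stp b d) H t - ZW (fun v => ph g (2 ^ m) ((v - b) / (d - b))) H t)
    ≤ δ * H ^ (-(p ^ 2 / 4))

/-- GL: the theorem -/
def General : Prop := ∀ (φ0 : ℝ → ℂ) (R : ℝ), W1 φ0 → (∀ r : ℝ, R ≤ |r| → psi φ0 r = 0) →
  ∀ (n : ℕ) (a : ℕ → ℂ) (b d : ℕ → ℝ), (∀ j, j < n → b j < d j) → ∫ v, ker φ0 n a b d v = 1 →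
  ∀ p : ℝ, 0 < p → (n = 0 ∨ p < 4) → ∃ c : ℝ, 0 < c ∧ ∀ ε : ℝ, 0 < ε → ∃ C : ℝ, 0 < C ∧
  ∀ H T x : ℝ, 0 < H → C * H ≤ 1 → 1 ≤ T → C ≤ H * Real.log T → (n = 0 ∨ |x| ≤ T) →
  |Av p x T (ZW (ker φ0 n a b d) H) - c * H ^ (-(p ^ 2 / 4))| ≤ ε * H ^ (-(p ^ 2 / 4))

end Pool.Agent.Lib.MP2
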