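import Mathlib
import Pool.Agent.Lib.MP_f9aece_nt_mp.StmtsG
import Pool.Agent.Lib.MP_f9aece_nt_h40.Growth

/-!
Moments of averages of zeta over short windows, general kernels, module GC.

As K6Cont.lean (helper25): zeta(1/2+iu) continuous, norm <= C (1+|u|) (Pool.Agent.Lib.MP_f9aece_nt_h40.Growth or ExZ0), continuous_of_dominated near t0 with bound C (2+|t0|+|H|) (1+|v|) ||phi v||. (about 40 lines)
-/

set_option autoImplicit false

namespace Pool.Agent.Lib.MP2

open MeasureTheory Set Filter Topology Complex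
open Pool.Agent.Lib.MS (psi Adm ZW MomentsT2)

namespace G1C

open Pool.Agent.Lib.MP_f9aece_nt_h40

lemma line_ne (τ : ℝ) : (1 / 2 + I * (τ : ℂ)) ≠ 1 := by
  intro h
  have := congrArg Complex.re h
  simp at this

lemma cont_zeta : Continuous (fun τ : ℝ => riemannZeta (1 / 2 + I * (τ : ℂ))) := by
  rw [continuous_iff_continuousAt]
  intro τ
  have h1 : ContinuousAt riemannZeta (1 / 2 + I * (τ : ℂ)) :=
    (differentiableAt_riemannZeta (line_ne τ)).continuousAt
  exact ContinuousAt.comp (f := fun τ : ℝ => (1 / 2 + I * (τ : ℂ))) h1 (by fun_prop)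

lemma bd_zeta (τ : ℝ) : ‖riemannZeta (1 / 2 + I * (τ : ℂ))‖ ≤ 90 * (1 + |τ|) := by
  set s : ℂ := 1 / 2 + I * (τ : ℂ) with hs
  have hre : s.re = 1 / 2 := by simp [hs]
  have him : s.im = τ := by simp [hs]
  have hr : 0 < s.re := by rw [hre]; norm_num
  have hne : s ≠ 1 := line_ne τ
  have h0 : s - 1 ≠ 0 := sub_ne_zero.mpr hne
  have hp : 1 / 2 ≤ ‖s - 1‖ := by
    have h1 := Complex.abs_re_le_norm (s - 1)
    have h2 : (s - 1).re = -(1 / 2) := by simp [hre]; norm_num
    rw [h2, abs_neg, abs_of_pos (by norm_num : (0 : ℝ) < 1 / 2)] at h1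
    exact h1
  have h3 : ‖s + 1‖ ≤ 5 * ‖s - 1‖ := by
    have : ‖s + 1‖ ≤ ‖s - 1‖ + 2 := by
      have := norm_add_le (s - 1) 2
      rw [show s - 1 + 2 = s + 1 by ring] at this
      simpa using this
    linarith
  have h4 : ‖s‖ ≤ 1 / 2 + |τ| := by
    have := Complex.norm_le_abs_re_add_abs_im s
    rw [abs_of_pos hr, hre, him] at this
    exact this
  have h5 := F_bound hr
  have e1 : riemannZeta s = F s * (s + 1) / (s - 1) := by
    have ha := add_one_ne_zero hr
    rw [F, Z1_eq hne]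
    field_simp
  rw [e1, norm_div, norm_mul, div_le_iff₀ (by linarith)]
  have h6 := abs_nonneg τ
  calc ‖F s‖ * ‖s + 1‖ ≤ (6 * (1 + ‖s‖)) * (5 * ‖s - 1‖) := by gcongr
    _ ≤ (6 * (1 + (1 / 2 + |τ|))) * (5 * ‖s - 1‖) := by gcongr
    _ ≤ 90 * (1 + |τ|) * ‖s - 1‖ := by nlinarith [norm_nonneg (s - 1)]

lemma cont_lin (H t : ℝ) : Continuous (fun v : ℝ => t + H * v) := by fun_prop

lemma w1_norm {φ : ℝ → ℂ} (h : W1 φ) : Integrable (fun v : ℝ => (1 + |v|) * ‖φ v‖) := by
  refine (Integrable.norm h).congr (Eventually.of_forall fun v => ?_)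
  simp only [norm_mul, Complex.norm_real]
  rw [Real.norm_of_nonneg (by positivity)]

lemma w1_int {φ : ℝ → ℂ} (h : W1 φ) : Integrable φ := by
  have h1 : Integrable (fun v : ℝ => (((1 + |v|)⁻¹ : ℝ) : ℂ) * (((1 + |v| : ℝ) : ℂ) * φ v)) := by
    refine Integrable.bdd_mul (c := 1) h ?_ ?_
    · exact (Complex.continuous_ofReal.comp (Continuous.inv₀ (by fun_prop)
        (fun v => by positivity))).aestronglyMeasurable
    · refine Eventually.of_forall fun v => ?_
      rw [Complex.norm_real, Real.norm_of_nonneg (by positivity)]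
      exact inv_le_one_of_one_le₀ (by linarith [abs_nonneg v])
  refine h1.congr (Eventually.of_forall fun v => ?_)
  have h2 : ((1 + |v| : ℝ) : ℂ) ≠ 0 := by
    rw [Complex.ofReal_ne_zero]; positivity
  simp only [Complex.ofReal_inv]
  field_simp

lemma cont_ZW {φ : ℝ → ℂ} (h : W1 φ) (H : ℝ) : Continuous (ZW φ H) := by
  rw [continuous_iff_continuousAt]
  intro t0
  unfold ZW
  refine continuousAt_of_dominated (F := fun (t : ℝ) (v : ℝ) =>
    riemannZeta (1 / 2 + I * ((t + H * v : ℝ) : ℂ)) * φ v)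
    (bound := fun v => 90 * (2 + |t0| + |H|) * ((1 + |v|) * ‖φ v‖)) ?_ ?_ ?_ ?_
  · refine Eventually.of_forall fun t => ?_
    refine AEStronglyMeasurable.mul ?_ (w1_int h).aestronglyMeasurable
    exact (cont_zeta.comp (cont_lin H t)).aestronglyMeasurable
  · have hn : Metric.ball t0 1 ∈ 𝓝 t0 := Metric.ball_mem_nhds _ one_pos
    filter_upwards [hn] with t ht
    refine Eventually.of_forall fun v => ?_
    rw [Metric.mem_ball, Real.dist_eq] at ht
    have h1 : |t| ≤ |t0| + 1 := by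
      have := abs_add_le (t - t0) t0
      rw [sub_add_cancel] at this
      linarith
    have h2 : |t + H * v| ≤ |t| + |H| * |v| := by
      have := abs_add_le t (H * v)
      rwa [abs_mul] at this
    have h3 := abs_nonneg H
    have h4 := abs_nonneg v
    have h5 := abs_nonneg t0
    have h6 : 1 + |t + H * v| ≤ (2 + |t0| + |H|) * (1 + |v|) := by
      nlinarith [mul_nonneg h3 h4, mul_nonneg h5 h4]
    have h7 := bd_zeta (t + H * v)
    rw [norm_mul]
    calc ‖riemannZeta (1 / 2 + I * ((t + H * v : ℝ) : ℂ))‖ * ‖φ v‖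
        ≤ (90 * (1 + |t + H * v|)) * ‖φ v‖ := by gcongr
      _ ≤ (90 * ((2 + |t0| + |H|) * (1 + |v|))) * ‖φ v‖ := by gcongr
      _ = 90 * (2 + |t0| + |H|) * ((1 + |v|) * ‖φ v‖) := by ring
  · exact (w1_norm h).const_mul _
  · refine Eventually.of_forall fun v => ?_
    have h : Continuous (fun t : ℝ => t + H * v) := by fun_prop
    exact ((cont_zeta.comp h).continuousAt).mul continuousAt_const

end G1C

theorem contG : ContG := fun _ h H => G1C.cont_ZW h H

end Pool.Agent.Lib.MP2
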