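import Mathlib
import Pool.Agent.Lib.MP_f9aece_nt_mp.StmtsG

/-!
Moments of averages of zeta over short windows, general kernels, module GA.

Fubini on R x R: |phi v| |g(w - v)| (1+|w|) <= |phi v| (1+|v|) |g(w-v)| (1+|w-v|), product of two integrable functions (MeasureTheory.Integrable.convolution_integrand or Integrable.prod_mul and the shear map). one: int cvl = (int phi)(int g) = 1. supp: psi (cvl phi g) r = psi phi r * psi g r, and psi g r = 0 for |r| >= 1. (about 100 lines)
-/

set_option autoImplicit false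

namespace Pool.Agent.Lib.MP2

open MeasureTheory Set Filter Topology Complex
open Pool.Agent.Lib.MS (psi Adm ZW MomentsT2)

namespace G2A

lemma w1_norm {φ : ℝ → ℂ} (h : W1 φ) : Integrable (fun v : ℝ => (1 + |v|) * ‖φ v‖) := by
  refine (Integrable.norm h).congr (Eventually.of_forall fun v => ?_)
  simp only [norm_mul, Complex.norm_real]
  rw [Real.norm_of_nonneg (by positivity)]

lemma w1_int {φ : ℝ → ℂ} (h : W1 φ) : Integrable φ := by
  have h1 : Integrable (fun v : ℝ => (((1 + |v|)⁻¹ : ℝ) : ℂ) * (((1 + |v| : ℝ) : ℂ) * φ v)) := by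
    refine Integrable.bdd_mul (c := 1) h ?_ ?_
    · exact (Complex.continuous_ofReal.comp (Continuous.inv₀ (by fun_prop)
        (fun v => by positivity))).aestronglyMeasurable
    · refine Eventually.of_forall fun v => ?_
      rw [Complex.norm_real, Real.norm_of_nonneg (by positivity)]
      exact inv_le_one_of_one_le₀ (by linarith [abs_nonneg v])
  refine h1.congr (Eventually.of_forall fun v => ?_)
  have h2 : ((1 + |v| : ℝ) : ℂ) ≠ 0 := by
    rw [Complex.ofReal_ne_zero]; positivity
  simp only [Complex.ofReal_inv]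
  field_simp

variable {g : ℂ → ℂ}

lemma cont_g (hg : BumpFn g) : Continuous (fun u : ℝ => g (u : ℂ)) :=
  hg.diff.continuous.comp Complex.continuous_ofReal

lemma int_pow (hg : BumpFn g) : Integrable (fun u : ℝ => (1 + |u|) * ‖g (u : ℂ)‖) := by
  obtain ⟨C, hC⟩ := hg.decay 3
  refine Integrable.mono' (integrable_inv_one_add_sq.const_mul C) ?_ ?_
  · have h1 : Continuous (fun u : ℝ => (1 + |u|)) := by fun_prop
    exact (h1.mul (cont_g hg).norm).aestronglyMeasurable
  · refine Eventually.of_forall fun u => ?_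
    have h0 := abs_nonneg u
    rw [Real.norm_of_nonneg (by positivity)]
    have h2 : 0 < 1 + u ^ 2 := by positivity
    have h3 : 1 + u ^ 2 ≤ (1 + |u|) ^ 2 := by
      have := sq_abs u
      nlinarith [abs_nonneg u]
    have h4 : ‖g (u : ℂ)‖ * (1 + |u|) ^ 3 ≤ C := by
      have := hC (u : ℂ) (by simp)
      simpa using this
    rw [← div_eq_mul_inv, le_div_iff₀ h2]
    calc (1 + |u|) * ‖g (u : ℂ)‖ * (1 + u ^ 2)
        ≤ (1 + |u|) * ‖g (u : ℂ)‖ * (1 + |u|) ^ 2 := by gcongr
      _ = ‖g (u : ℂ)‖ * (1 + |u|) ^ 3 := by ring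
      _ ≤ C := h4

lemma int_g (hg : BumpFn g) : Integrable (fun u : ℝ => g (u : ℂ)) := by
  refine Integrable.mono (int_pow hg) (cont_g hg).aestronglyMeasurable
    (Eventually.of_forall fun u => ?_)
  have h0 := abs_nonneg u
  rw [Real.norm_of_nonneg (by positivity)]
  nlinarith [norm_nonneg (g (u : ℂ))]

/-- the integral of the twisted convolution -/
lemma int_twist (hg : BumpFn g) {φ : ℝ → ℂ} (h : W1 φ) (r : ℝ) :
    ∫ w, cvl φ g w * cexp (-(I * ((r * w : ℝ) : ℂ))) = psi φ r * psi (fun v : ℝ => g v) r := by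
  have hn : ∀ w : ℝ, ‖cexp (-(I * ((r * w : ℝ) : ℂ)))‖ = 1 := by
    intro w
    rw [show -(I * ((r * w : ℝ) : ℂ)) = ((-(r * w) : ℝ) : ℂ) * I by push_cast; ring]
    exact Complex.norm_exp_ofReal_mul_I _
  have hc : Continuous (fun w : ℝ => cexp (-(I * ((r * w : ℝ) : ℂ)))) := by fun_prop
  have hf : Integrable (fun v : ℝ => φ v * cexp (-(I * ((r * v : ℝ) : ℂ)))) := by
    refine Integrable.mono (w1_int h)
      ((w1_int h).aestronglyMeasurable.mul hc.aestronglyMeasurable)
      (Eventually.of_forall fun v => ?_)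
    rw [norm_mul, hn, mul_one]
  have hk : Integrable (fun v : ℝ => g (v : ℂ) * cexp (-(I * ((r * v : ℝ) : ℂ)))) := by
    refine Integrable.mono (int_g hg)
      ((cont_g hg).aestronglyMeasurable.mul hc.aestronglyMeasurable)
      (Eventually.of_forall fun v => ?_)
    rw [norm_mul, hn, mul_one]
  have key := integral_convolution (L := ContinuousLinearMap.mul ℝ ℂ) hf hk
  simp only [ContinuousLinearMap.mul_apply'] at key
  unfold psi
  rw [← key]
  refine integral_congr_ae (Eventually.of_forall fun w => ?_)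
  simp only [convolution_def, ContinuousLinearMap.mul_apply']
  unfold cvl
  rw [← integral_mul_const]
  refine integral_congr_ae (Eventually.of_forall fun v => ?_)
  beta_reduce
  have e : cexp (-(I * ((r * w : ℝ) : ℂ)))
      = cexp (-(I * ((r * v : ℝ) : ℂ))) * cexp (-(I * ((r * (w - v) : ℝ) : ℂ))) := by
    rw [← Complex.exp_add]
    congr 1
    push_cast
    ring
  rw [e]
  ring

lemma int_cvl (hg : BumpFn g) {φ : ℝ → ℂ} (h : W1 φ) :
    Integrable (fun w : ℝ => ((1 + |w| : ℝ) : ℂ) * cvl φ g w) := by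
  have h1 := (w1_norm h).convolution_integrand (ContinuousLinearMap.mul ℝ ℝ) (int_pow hg)
    (μ := volume)
  have h2 := (w1_int h).convolution_integrand (ContinuousLinearMap.mul ℝ ℂ) (int_g hg)
    (μ := volume)
  simp only [ContinuousLinearMap.mul_apply'] at h1 h2
  have h3 : Integrable (fun p : ℝ × ℝ => ((1 + |p.1| : ℝ) : ℂ) * (φ p.2 * g ((p.1 - p.2 : ℝ) : ℂ)))
      (volume.prod volume) := by
    refine Integrable.mono h1 ?_ (Eventually.of_forall fun p => ?_)
    · have hc : Continuous (fun p : ℝ × ℝ => ((1 + |p.1| : ℝ) : ℂ)) := by fun_prop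
      exact hc.aestronglyMeasurable.mul h2.aestronglyMeasurable
    · have h4 := abs_nonneg p.1
      have h5 := abs_nonneg p.2
      have h6 := abs_nonneg (p.1 - p.2)
      rw [norm_mul, norm_mul, Complex.norm_real, Real.norm_of_nonneg (by positivity),
        Real.norm_of_nonneg (by positivity)]
      have h7 : 1 + |p.1| ≤ (1 + |p.2|) * (1 + |p.1 - p.2|) := by
        have := abs_add_le (p.1 - p.2) p.2
        rw [sub_add_cancel] at this
        nlinarith [mul_nonneg h5 h6]
      calc (1 + |p.1|) * (‖φ p.2‖ * ‖g ((p.1 - p.2 : ℝ) : ℂ)‖)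
          ≤ ((1 + |p.2|) * (1 + |p.1 - p.2|)) * (‖φ p.2‖ * ‖g ((p.1 - p.2 : ℝ) : ℂ)‖) := by
            gcongr
        _ = _ := by ring
  have h8 := h3.integral_prod_left
  refine h8.congr (Eventually.of_forall fun w => ?_)
  exact integral_const_mul ((1 + |w| : ℝ) : ℂ) (fun v : ℝ => φ v * g ((w - v : ℝ) : ℂ))

end G2A

theorem cvAdm : CvAdm := by
  intro g hg φ h h1
  refine ⟨one_pos, G2A.int_cvl hg h, ?_, ?_⟩
  · have h2 := G2A.int_twist hg h 0
    have e1 : psi φ 0 = 1 := by
      unfold psi
      simpa using h1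
    have e2 : psi (fun v : ℝ => g v) 0 = 1 := by
      unfold psi
      simpa using hg.one
    rw [e1, e2, one_mul] at h2
    simpa using h2
  · intro r hr
    unfold psi
    rw [G2A.int_twist hg h r, hg.supp r hr, mul_zero]

end Pool.Agent.Lib.MP2
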