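import Mathlib
import Pool.Agent.Lib.MP_f9aece_nt_mp.StmtsG
import Pool.Agent.Lib.MP_f9aece_nt_ms.Z1Approx

/-!
Moments of averages of zeta over short windows, general kernels, module GV.

As P0PhConv.lean (helper64): int_u g(u) int_v zeta(1/2+i(t+H(u+v))) phi(v) dv du = int_w zeta(1/2+i(t+Hw)) (int_v phi(v) g(w-v) dv) dw, substitution u = w - v. Integrability: |zeta(1/2+i(t+H(u+v)))| <= C (1+|t|)(1+H|u|)(1+H|v|), g rapidly decreasing, W1 phi. (about 80 lines)
-/

set_option autoImplicit false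

namespace Pool.Agent.Lib.MP2

open MeasureTheory Set Filter Topology Complex
open Pool.Agent.Lib.MS (psi Adm ZW MomentsT2)

private theorem gv_cont : Continuous fun τ : ℝ => riemannZeta (1 / 2 + I * (τ : ℂ)) := by
  rw [continuous_iff_continuousAt]
  intro τ
  have h1 : (1 / 2 + I * (τ : ℂ)) ≠ 1 := by
    intro h
    have := congrArg Complex.re h
    simp at this
  have h2 : ContinuousAt (fun τ : ℝ => (1 / 2 + I * (τ : ℂ))) τ := by fun_prop
  exact (differentiableAt_riemannZeta h1).continuousAt.comp (f := fun τ : ℝ => (1 / 2 + I * (τ : ℂ))) h2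

private theorem gv_bd (τ : ℝ) : ‖riemannZeta (1 / 2 + I * (τ : ℂ))‖ ≤ 53 * (1 + |τ|) := by
  have hne : ∀ τ : ℝ, τ ≠ 0 → ‖riemannZeta (1 / 2 + I * (τ : ℂ))‖ ≤ 53 * (1 + |τ|) := by
    intro τ hτ
    have h := Pool.Agent.Lib.MS.zApprox hτ (le_refl 1)
    rw [Finset.Icc_self, Finset.sum_singleton] at h
    simp only [Nat.cast_one, one_cpow, Real.one_rpow, mul_one] at h
    have h2 : 1 / 2 ≤ ‖(1 / 2 + I * τ : ℂ) - 1‖ := by
      have h3 := Complex.abs_re_le_norm ((1 / 2 + I * τ : ℂ) - 1)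
      have h4 : ((1 / 2 + I * τ : ℂ) - 1).re = -(1 / 2) := by simp; norm_num
      rw [h4, abs_neg, abs_of_pos (by norm_num)] at h3
      exact h3
    have h5 : ‖(1 : ℂ) / ((1 / 2 + I * τ : ℂ) - 1)‖ ≤ 2 := by
      rw [norm_div, norm_one, div_le_iff₀ (by linarith)]
      linarith
    have h6 : ‖(1 : ℂ) + 1 / ((1 / 2 + I * τ : ℂ) - 1)‖ ≤ 3 := by
      refine (norm_add_le _ _).trans ?_
      rw [norm_one]
      linarith
    have h7 : ‖riemannZeta (1 / 2 + I * (τ : ℂ))‖ ≤
        ‖riemannZeta (1 / 2 + I * (τ : ℂ)) - (1 + 1 / ((1 / 2 + I * τ : ℂ) - 1))‖ +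
          ‖(1 : ℂ) + 1 / ((1 / 2 + I * τ : ℂ) - 1)‖ := by
      have := norm_add_le (riemannZeta (1 / 2 + I * (τ : ℂ)) - (1 + 1 / ((1 / 2 + I * τ : ℂ) - 1)))
        ((1 : ℂ) + 1 / ((1 / 2 + I * τ : ℂ) - 1))
      rwa [sub_add_cancel] at this
    have h8 := abs_nonneg τ
    linarith
  have hd : Dense {τ : ℝ | τ ≠ 0} := dense_compl_singleton 0
  have hcl : IsClosed {τ : ℝ | ‖riemannZeta (1 / 2 + I * (τ : ℂ))‖ ≤ 53 * (1 + |τ|)} :=
    isClosed_le gv_cont.norm (by fun_prop)
  have := hcl.closure_subset_iff.2 (show {τ : ℝ | τ ≠ 0} ⊆ _ from fun τ h => hne τ h)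
  exact this (hd τ)

private theorem gv_int : Integrable (fun u : ℝ => ((1 + |u|) ^ 2)⁻¹) := by
  have h := integrable_one_add_norm (E := ℝ) (μ := volume) (r := 2) (by simp)
  refine h.congr (Eventually.of_forall fun u => ?_)
  show (1 + ‖u‖) ^ (-(2 : ℝ)) = ((1 + |u|) ^ 2)⁻¹
  rw [Real.rpow_neg (by positivity), Real.norm_eq_abs]
  congr 1
  exact_mod_cast Real.rpow_natCast (1 + |u|) 2

private theorem gv_w1 {φ : ℝ → ℂ} (h : W1 φ) : AEStronglyMeasurable φ volume ∧
    Integrable (fun v : ℝ => (1 + |v|) * ‖φ v‖) := by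
  constructor
  · have h1 : AEStronglyMeasurable (fun v : ℝ => (((1 + |v|)⁻¹ : ℝ) : ℂ) *
        (((1 + |v| : ℝ) : ℂ) * φ v)) volume := by
      refine AEStronglyMeasurable.mul ?_ h.aestronglyMeasurable
      refine Continuous.aestronglyMeasurable ?_
      refine continuous_ofReal.comp (Continuous.inv₀ (by fun_prop) fun v => ?_)
      positivity
    refine h1.congr (Eventually.of_forall fun v => ?_)
    show (((1 + |v|)⁻¹ : ℝ) : ℂ) * (((1 + |v| : ℝ) : ℂ) * φ v) = φ v
    rw [← mul_assoc, ← ofReal_mul, inv_mul_cancel₀ (by positivity), ofReal_one, one_mul]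
  · refine h.norm.congr (Eventually.of_forall fun v => ?_)
    show ‖((1 + |v| : ℝ) : ℂ) * φ v‖ = (1 + |v|) * ‖φ v‖
    rw [norm_mul, norm_real, Real.norm_eq_abs, abs_of_nonneg (by positivity)]

theorem cvConv (hC : ContG) : CvConv := by
  intro g hg φ hφ H t hH
  obtain ⟨hφm, hφi⟩ := gv_w1 hφ
  have hgc : Continuous fun u : ℝ => g (u : ℂ) := hg.diff.continuous.comp continuous_ofReal
  obtain ⟨C0, hC0⟩ := hg.decay 3
  have hgb : ∀ u : ℝ, ‖g (u : ℂ)‖ ≤ C0 / (1 + |u|) ^ 3 := by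
    intro u
    have := hC0 (u : ℂ) (by simp)
    rw [ofReal_re] at this
    rw [le_div_iff₀ (by positivity)]
    exact this
  have hC00 : 0 ≤ C0 := by
    have := hC0 0 (by simp)
    have h2 : 0 ≤ ‖g 0‖ * (1 + |(0 : ℂ).re|) ^ 3 := by positivity
    linarith
  set Z : ℝ → ℂ := fun τ => riemannZeta (1 / 2 + I * (τ : ℂ)) with hZ
  have hZc : Continuous Z := gv_cont
  have hZb : ∀ τ, ‖Z τ‖ ≤ 53 * (1 + |τ|) := gv_bd
  set K : ℝ := 53 * (1 + |t| + H) * C0 with hK
  have hK0 : 0 ≤ K := by positivity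
  -- the first integrand
  have hF : ∀ u v : ℝ, ‖Z (t + H * u + H * v) * φ v * g (u : ℂ)‖ ≤
      (K * ((1 + |u|) ^ 2)⁻¹) * ((1 + |v|) * ‖φ v‖) := by
    intro u v
    have h1 : |t + H * u + H * v| ≤ |t| + H * |u| + H * |v| := by
      refine (abs_add_le _ _).trans (add_le_add ((abs_add_le _ _).trans ?_) ?_)
      · rw [abs_mul, abs_of_pos hH]
      · rw [abs_mul, abs_of_pos hH]
    have h2 : 1 + (|t| + H * |u| + H * |v|) ≤ (1 + |t| + H) * ((1 + |u|) * (1 + |v|)) := by
      have a1 := abs_nonneg t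
      have a2 := abs_nonneg u
      have a3 := abs_nonneg v
      have a4 := mul_nonneg a2 a3
      have a5 : 0 ≤ (1 + |t|) * (|u| + |v| + |u| * |v|) := by positivity
      have a6 : 0 ≤ H * (1 + |u| * |v|) := by positivity
      nlinarith
    have h3 : ‖Z (t + H * u + H * v)‖ ≤ 53 * ((1 + |t| + H) * ((1 + |u|) * (1 + |v|))) := by
      refine (hZb _).trans ?_
      nlinarith
    have h4 : 0 < 1 + |u| := by positivity
    rw [norm_mul, norm_mul]
    calc ‖Z (t + H * u + H * v)‖ * ‖φ v‖ * ‖g (u : ℂ)‖ ≤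
        53 * ((1 + |t| + H) * ((1 + |u|) * (1 + |v|))) * ‖φ v‖ * (C0 / (1 + |u|) ^ 3) :=
          mul_le_mul (mul_le_mul_of_nonneg_right h3 (norm_nonneg _)) (hgb u) (norm_nonneg _)
            (by positivity)
      _ = (K * ((1 + |u|) ^ 2)⁻¹) * ((1 + |v|) * ‖φ v‖) := by
          rw [hK]
          field_simp
  -- the second integrand
  have hG : ∀ w v : ℝ, ‖Z (t + H * w) * φ v * g ((w - v : ℝ) : ℂ)‖ ≤
      ((1 + |v|) * ‖φ v‖) * (K * ((1 + |w - v|) ^ 2)⁻¹) := by
    intro w v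
    have h1 : |t + H * w| ≤ |t| + H * |w| := by
      refine (abs_add_le _ _).trans ?_
      rw [abs_mul, abs_of_pos hH]
    have h2 : 1 + (|t| + H * |w|) ≤ (1 + |t| + H) * (1 + |w|) := by
      nlinarith [abs_nonneg t, abs_nonneg w]
    have h5 : 1 + |w| ≤ (1 + |w - v|) * (1 + |v|) := by
      have h6 : |w| ≤ |w - v| + |v| := by
        have := abs_add_le (w - v) v
        rwa [sub_add_cancel] at this
      nlinarith [abs_nonneg (w - v), abs_nonneg v, mul_nonneg (abs_nonneg (w - v)) (abs_nonneg v)]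
    have h3 : ‖Z (t + H * w)‖ ≤ 53 * ((1 + |t| + H) * ((1 + |w - v|) * (1 + |v|))) := by
      refine (hZb _).trans ?_
      have h7 : (1 + |t| + H) * (1 + |w|) ≤ (1 + |t| + H) * ((1 + |w - v|) * (1 + |v|)) :=
        mul_le_mul_of_nonneg_left h5 (by positivity)
      linarith
    have h4 : 0 < 1 + |w - v| := by positivity
    rw [norm_mul, norm_mul]
    calc ‖Z (t + H * w)‖ * ‖φ v‖ * ‖g ((w - v : ℝ) : ℂ)‖ ≤
        53 * ((1 + |t| + H) * ((1 + |w - v|) * (1 + |v|))) * ‖φ v‖ *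
          (C0 / (1 + |w - v|) ^ 3) :=
          mul_le_mul (mul_le_mul_of_nonneg_right h3 (norm_nonneg _)) (hgb (w - v)) (norm_nonneg _)
            (by positivity)
      _ = ((1 + |v|) * ‖φ v‖) * (K * ((1 + |w - v|) ^ 2)⁻¹) := by
          rw [hK]
          field_simp
  have hKi : Integrable fun u : ℝ => K * ((1 + |u|) ^ 2)⁻¹ := gv_int.const_mul K
  have hφ2 : AEStronglyMeasurable (fun z : ℝ × ℝ => φ z.2) (volume.prod volume) :=
    hφm.comp_snd
  have hint1 : Integrable (Function.uncurry fun u v : ℝ => Z (t + H * u + H * v) * φ v * g (u : ℂ))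
      (volume.prod volume) := by
    refine (Integrable.mul_prod hKi hφi).mono' ?_ (Eventually.of_forall fun z => hF z.1 z.2)
    have h1 : Continuous fun z : ℝ × ℝ => Z (t + H * z.1 + H * z.2) := hZc.comp (by fun_prop)
    have h2 : Continuous fun z : ℝ × ℝ => g (z.1 : ℂ) := hgc.comp continuous_fst
    exact (h1.aestronglyMeasurable.mul hφ2).mul h2.aestronglyMeasurable
  have hint2 : Integrable (Function.uncurry fun w v : ℝ => Z (t + H * w) * φ v *
      g ((w - v : ℝ) : ℂ)) (volume.prod volume) := by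
    have h0 := Integrable.convolution_integrand (ContinuousLinearMap.mul ℝ ℝ) (μ := volume)
      (ν := volume) hφi hKi
    refine h0.mono' ?_ (Eventually.of_forall fun z => hG z.1 z.2)
    have h1 : Continuous fun z : ℝ × ℝ => Z (t + H * z.1) := hZc.comp (by fun_prop)
    have h2 : Continuous fun z : ℝ × ℝ => g ((z.1 - z.2 : ℝ) : ℂ) :=
      hgc.comp (continuous_fst.sub continuous_snd)
    exact (h1.aestronglyMeasurable.mul hφ2).mul h2.aestronglyMeasurable
  symm
  calc ∫ u : ℝ, ZW φ H (t + H * u) * g (u : ℂ)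
      = ∫ u : ℝ, (∫ v : ℝ, Z (t + H * u + H * v) * φ v * g (u : ℂ)) := by
        refine integral_congr_ae (Eventually.of_forall fun u => ?_)
        show ZW φ H (t + H * u) * g (u : ℂ) = ∫ v, Z (t + H * u + H * v) * φ v * g (u : ℂ)
        rw [integral_mul_const]
        rfl
    _ = ∫ v : ℝ, (∫ u : ℝ, Z (t + H * u + H * v) * φ v * g (u : ℂ)) :=
        integral_integral_swap hint1
    _ = ∫ v : ℝ, (∫ w : ℝ, Z (t + H * w) * φ v * g ((w - v : ℝ) : ℂ)) := by
        refine integral_congr_ae (Eventually.of_forall fun v => ?_)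
        show ∫ u : ℝ, Z (t + H * u + H * v) * φ v * g (u : ℂ) =
          ∫ w : ℝ, Z (t + H * w) * φ v * g ((w - v : ℝ) : ℂ)
        rw [← integral_sub_right_eq_self
          (fun u : ℝ => Z (t + H * u + H * v) * φ v * g (u : ℂ)) v]
        refine integral_congr_ae (Eventually.of_forall fun w => ?_)
        show Z (t + H * (w - v) + H * v) * φ v * g ((w - v : ℝ) : ℂ) =
          Z (t + H * w) * φ v * g ((w - v : ℝ) : ℂ)
        congr 3
        ring
    _ = ∫ w : ℝ, (∫ v : ℝ, Z (t + H * w) * φ v * g ((w - v : ℝ) : ℂ)) :=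
        (integral_integral_swap hint2).symm
    _ = ZW (cvl φ g) H t := by
        unfold ZW
        refine integral_congr_ae (Eventually.of_forall fun w => ?_)
        show ∫ v, Z (t + H * w) * φ v * g ((w - v : ℝ) : ℂ) = Z (t + H * w) * cvl φ g w
        unfold cvl
        rw [← integral_const_mul]
        refine integral_congr_ae (Eventually.of_forall fun v => ?_)
        show Z (t + H * w) * φ v * g ((w - v : ℝ) : ℂ) = Z (t + H * w) * (φ v * g ((w - v : ℝ) : ℂ))
        rw [mul_assoc]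

end Pool.Agent.Lib.MP2
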