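import Mathlib
import Pool.Agent.Lib.MP_f9aece_nt_mp.StmtsG

/-!
Moments of averages of zeta over short windows, general kernels, module GS.

l = d - b. ZW (stp b d) H t = l PA (l H) (t + b H) and ZW (fun v => ph g R ((v-b)/l)) H t = l ZW (ph g R) (l H) (t + b H) (substitution v = b + l w). So the left side is l^p Av p (x + b H) T (Err difference at H' = l H). For |b| H <= 1: |x + bH| <= 2T, [x+bH, x+bH+T] is inside [-2T, 3T], so Av p (x+bH) T f <= 5 Av p (-2T) (5T) f; Err with delta' = delta / (5 l^p l^(-(p^2/4)) ) at H' = lH, T' = 5T, x' = -2T; conditions C' H' <= 1, C' <= H' log(5T) from H log T >= C. (about 120 lines)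
-/

set_option autoImplicit false

namespace Pool.Agent.Lib.MP2

open MeasureTheory Set Filter Topology Complex
open Pool.Agent.Lib.MS (psi Adm ZW MomentsT2)

namespace G5S

lemma zw_stp {b d : ℝ} (hbd : b < d) (H t : ℝ) :
    ZW (stp b d) H t = ((d - b : ℝ) : ℂ) * PA ((d - b) * H) (t + b * H) := by
  have hl : (d - b) ≠ 0 := by linarith
  have h1 : ZW (stp b d) H t
      = ∫ v in Icc b d, riemannZeta (1 / 2 + I * ((t + H * v : ℝ) : ℂ)) := by
    unfold ZW
    rw [← integral_indicator measurableSet_Icc]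
    refine integral_congr_ae (Eventually.of_forall fun v => ?_)
    beta_reduce
    unfold stp
    by_cases hv : b ≤ v ∧ v ≤ d
    · rw [if_pos hv, mul_one, indicator_of_mem (show v ∈ Icc b d from hv)]
    · rw [if_neg hv, mul_zero, indicator_of_notMem (show v ∉ Icc b d from hv)]
  rw [h1, integral_Icc_eq_integral_Ioc, ← intervalIntegral.integral_of_le hbd.le]
  unfold PA
  have h2 := intervalIntegral.integral_comp_mul_add (a := 0) (b := 1)
    (fun v : ℝ => riemannZeta (1 / 2 + I * ((t + H * v : ℝ) : ℂ))) hl b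
  rw [show (d - b) * 0 + b = b by ring, show (d - b) * 1 + b = d by ring] at h2
  have h3 : ∫ v in (0 : ℝ)..1, riemannZeta (1 / 2 + I * ((t + b * H + (d - b) * H * v : ℝ) : ℂ))
      = ∫ v in (0 : ℝ)..1, riemannZeta (1 / 2 + I * ((t + H * ((d - b) * v + b) : ℝ) : ℂ)) := by
    congr 1
    funext v
    congr 3
    push_cast
    ring
  rw [h3, h2, Complex.real_smul, ← mul_assoc, ← Complex.ofReal_mul, mul_inv_cancel₀ hl]
  simp

lemma zw_scale (κ : ℝ → ℂ) {b d : ℝ} (hbd : b < d) (H t : ℝ) :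
    ZW (fun v => κ ((v - b) / (d - b))) H t
      = ((d - b : ℝ) : ℂ) * ZW κ ((d - b) * H) (t + b * H) := by
  have hl0 : 0 < d - b := by linarith
  have hl : (d - b) ≠ 0 := hl0.ne'
  unfold ZW
  have h2 := Measure.integral_comp_div
    (fun w : ℝ => riemannZeta (1 / 2 + I * ((t + b * H + (d - b) * H * w : ℝ) : ℂ)) * κ w) (d - b)
  rw [abs_of_pos hl0, Complex.real_smul] at h2
  rw [← h2]
  rw [← integral_sub_right_eq_self (fun v : ℝ =>
    riemannZeta (1 / 2 + I * ((t + b * H + (d - b) * H * (v / (d - b)) : ℝ) : ℂ))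
      * κ (v / (d - b))) b]
  refine integral_congr_ae (Eventually.of_forall fun v => ?_)
  beta_reduce
  have e : t + b * H + (d - b) * H * ((v - b) / (d - b)) = t + H * v := by
    field_simp
    ring
  rw [e]

end G5S

theorem stepErr (hE : Err) (hC : Cont) (hP : Prim) : StepErr := by
  intro g hg b d hbd p hp hp4 δ hδ
  set l : ℝ := d - b with hl
  have hl0 : 0 < l := by rw [hl]; linarith
  set δ' : ℝ := δ / (5 * (l ^ p * l ^ (-(p ^ 2 / 4)))) with hδ'
  have hlp : 0 < l ^ p := Real.rpow_pos_of_pos hl0 _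
  have hlq : 0 < l ^ (-(p ^ 2 / 4)) := Real.rpow_pos_of_pos hl0 _
  have hδ'0 : 0 < δ' := by positivity
  obtain ⟨m0, hm0⟩ := hE g hg p hp hp4 δ' hδ'0
  refine ⟨m0, fun m hm => ?_⟩
  obtain ⟨C', hC'1, hC'⟩ := hm0 m hm
  have hC'0 : 0 ≤ C' := by linarith
  have hb0 := abs_nonneg b
  have hdl : 0 ≤ C' / l := by positivity
  have hml : 0 ≤ C' * l := by positivity
  refine ⟨1 + C' * l + C' / l + |b|, by linarith, ?_⟩
  intro H T x hH hCH hT hHL hx
  set E : ℝ → ℂ := fun t => PA (l * H) t - ZW (ph g (2 ^ m)) (l * H) t with hEdef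
  have hR : (0 : ℝ) < 2 ^ m := by positivity
  obtain ⟨hd, -, -, hph⟩ := hP g hg
  have hTh : Continuous (Th g) := by
    rw [continuous_iff_continuousAt]
    exact fun y => (hd y).continuousAt
  have hcph : Continuous (ph g (2 ^ m)) := by
    unfold ph
    exact (hTh.comp (by fun_prop)).sub (hTh.comp (by fun_prop))
  have hcE : Continuous E :=
    (hC.1 (l * H)).sub (hC.2 _ hcph.aestronglyMeasurable (hph _ hR) (l * H))
  have hcEp : Continuous (fun t => ‖E t‖ ^ p) := hcE.norm.rpow_const (fun _ => Or.inr hp.le)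
  have hT0 : 0 < T := by linarith
  -- the conditions
  have h1 : C' * (l * H) ≤ 1 := by
    calc C' * (l * H) = (C' * l) * H := by ring
      _ ≤ (1 + C' * l + C' / l + |b|) * H := by gcongr; linarith
      _ ≤ 1 := hCH
  have hlogT : 0 ≤ Real.log T := Real.log_nonneg hT
  have h2 : C' ≤ l * H * Real.log (5 * T) := by
    have h3 : C' / l ≤ H * Real.log T := by linarith
    rw [div_le_iff₀ hl0] at h3
    have h4 : Real.log T ≤ Real.log (5 * T) := Real.log_le_log hT0 (by linarith)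
    calc C' ≤ H * Real.log T * l := h3
      _ = l * H * Real.log T := by ring
      _ ≤ l * H * Real.log (5 * T) := by gcongr
  have hbH : |b * H| ≤ 1 := by
    rw [abs_mul, abs_of_pos hH]
    calc |b| * H ≤ (1 + C' * l + C' / l + |b|) * H := by gcongr; linarith
      _ ≤ 1 := hCH
  have hbH' := abs_le.mp hbH
  have hx' := abs_le.mp hx
  have h3 := hC' (l * H) (5 * T) (-(2 * T)) (by positivity) h1 (by linarith) h2 (by
    rw [abs_neg, abs_of_pos (by linarith)]
    linarith)
  -- the identity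
  have h4 : ∀ t : ℝ, ‖ZW (stp b d) H t - ZW (fun v => ph g (2 ^ m) ((v - b) / (d - b))) H t‖ ^ p
      = l ^ p * ‖E (t + b * H)‖ ^ p := by
    intro t
    rw [G5S.zw_stp hbd, G5S.zw_scale (ph g (2 ^ m)) hbd, ← mul_sub, norm_mul, Complex.norm_real,
      Real.norm_of_nonneg (by linarith), Real.mul_rpow (by linarith) (norm_nonneg _)]
  have h5 : Av p x T (fun t => ZW (stp b d) H t - ZW (fun v => ph g (2 ^ m) ((v - b) / (d - b))) H t)
      = l ^ p * (T⁻¹ * ∫ t in (x + b * H)..(x + b * H + T), ‖E t‖ ^ p) := by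
    unfold Av
    have h6 : ∫ t in x..(x + T), ‖ZW (stp b d) H t - ZW (fun v => ph g (2 ^ m) ((v - b) / (d - b))) H t‖ ^ p
        = l ^ p * ∫ t in (x + b * H)..(x + b * H + T), ‖E t‖ ^ p := by
      have h7 := intervalIntegral.integral_comp_add_right (a := x) (b := x + T)
        (fun t => ‖E t‖ ^ p) (b * H)
      rw [show x + T + b * H = x + b * H + T by ring] at h7
      rw [← h7, ← intervalIntegral.integral_const_mul]
      exact intervalIntegral.integral_congr fun t _ => h4 t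
    rw [h6]
    ring
  have h8 : ∫ t in (x + b * H)..(x + b * H + T), ‖E t‖ ^ p
      ≤ ∫ t in (-(2 * T))..(-(2 * T) + 5 * T), ‖E t‖ ^ p := by
    refine intervalIntegral.integral_mono_interval ?_ ?_ ?_ ?_ ?_
    · linarith [hbH'.1, hx'.1]
    · linarith
    · linarith [hbH'.2, hx'.2]
    · exact Eventually.of_forall fun t => Real.rpow_nonneg (norm_nonneg _) _
    · exact hcEp.intervalIntegrable _ _
  have h9 : T⁻¹ * ∫ t in (-(2 * T))..(-(2 * T) + 5 * T), ‖E t‖ ^ p
      = 5 * Av p (-(2 * T)) (5 * T) E := by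
    unfold Av
    field_simp
  have h10 : (l * H) ^ (-(p ^ 2 / 4)) = l ^ (-(p ^ 2 / 4)) * H ^ (-(p ^ 2 / 4)) :=
    Real.mul_rpow hl0.le hH.le
  rw [h5]
  calc l ^ p * (T⁻¹ * ∫ t in (x + b * H)..(x + b * H + T), ‖E t‖ ^ p)
      ≤ l ^ p * (T⁻¹ * ∫ t in (-(2 * T))..(-(2 * T) + 5 * T), ‖E t‖ ^ p) := by gcongr
    _ = l ^ p * (5 * Av p (-(2 * T)) (5 * T) E) := by rw [h9]
    _ ≤ l ^ p * (5 * (δ' * (l * H) ^ (-(p ^ 2 / 4)))) := by gcongr
    _ = δ * H ^ (-(p ^ 2 / 4)) := by
        rw [h10, hδ']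
        field_simp

end Pool.Agent.Lib.MP2
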