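import Mathlib
import Pool.Agent.Lib.MP_f9aece_nt_mp.StmtsG
import Pool.Agent.Lib.MP_f9aece_nt_mp.K6Cont

/-!
Moments of the plain average of zeta over short windows, module GL: the limit argument for general kernels.
-/

set_option autoImplicit false

namespace Pool.Agent.Lib.MP2

open MeasureTheory Set Filter Topology Complex
open Pool.Agent.Lib.MS (psi Adm ZW MomentsT2)

/-- the filter `H → 0`, `H log T → ∞`, `|x| ≤ T` -/
private def lF : Filter (ℝ × ℝ × ℝ) where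
  sets := {s | ∃ C : ℝ, 1 ≤ C ∧ ∀ H T x : ℝ, 0 < H → C * H ≤ 1 → 1 ≤ T → C ≤ H * Real.log T →
    |x| ≤ T → (H, T, x) ∈ s}
  univ_sets := ⟨1, le_rfl, fun _ _ _ _ _ _ _ _ => mem_univ _⟩
  sets_of_superset := by
    rintro s t ⟨C, hC, h⟩ hst
    exact ⟨C, hC, fun H T x h1 h2 h3 h4 h5 => hst (h H T x h1 h2 h3 h4 h5)⟩
  inter_sets := by
    rintro s t ⟨C, hC, h⟩ ⟨D, hD, h'⟩
    refine ⟨max C D, hC.trans (le_max_left _ _), fun H T x h1 h2 h3 h4 h5 => ⟨?_, ?_⟩⟩
    · exact h H T x h1 ((mul_le_mul_of_nonneg_right (le_max_left _ _) h1.le).trans h2) h3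
        ((le_max_left _ _).trans h4) h5
    · exact h' H T x h1 ((mul_le_mul_of_nonneg_right (le_max_right _ _) h1.le).trans h2) h3
        ((le_max_right _ _).trans h4) h5

private lemma ev_iff (P : ℝ × ℝ × ℝ → Prop) : (∀ᶠ a in lF, P a) ↔ ∃ C : ℝ, 1 ≤ C ∧
    ∀ H T x : ℝ, 0 < H → C * H ≤ 1 → 1 ≤ T → C ≤ H * Real.log T → |x| ≤ T → P (H, T, x) :=
  Iff.rfl

private lemma lF_neBot : NeBot lF := by
  refine ⟨fun h => ?_⟩
  have h1 : (∅ : Set (ℝ × ℝ × ℝ)) ∈ lF := by rw [h]; trivial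
  obtain ⟨C, hC, h2⟩ := h1
  have hC0 : 0 < C := by linarith
  have h3 := h2 C⁻¹ (Real.exp (C * C)) 0 (inv_pos.2 hC0) (by rw [mul_inv_cancel₀ hC0.ne'])
    (Real.one_le_exp (by positivity)) (by rw [Real.log_exp]; field_simp; exact le_rfl)
    (by rw [abs_zero]; exact (Real.exp_pos _).le)
  exact h3

/-- abstract limit lemma -/
private lemma abs_lim {α : Type} (l : Filter α) [NeBot l] (F : α → ℝ) (G : ℕ → α → ℝ) (c : ℕ → ℝ)
    (hG : ∀ m, Tendsto (G m) l (𝓝 (c m))) (hc : ∀ m, 0 ≤ c m)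
    (hFG : ∀ ε : ℝ, 0 < ε → ∀ δ : ℝ, 0 < δ → ∃ m0 : ℕ, ∀ m, m0 ≤ m → ∀ᶠ a in l,
      F a ≤ (1 + ε) * G m a + δ ∧ G m a ≤ (1 + ε) * F a + δ) :
    ∃ c' : ℝ, Tendsto F l (𝓝 c') := by
  -- comparison of the constants
  have h1 : ∀ ε : ℝ, 0 < ε → ∀ δ : ℝ, 0 < δ → ∃ m0 : ℕ, ∀ m m', m0 ≤ m → m0 ≤ m' →
      c m ≤ (1 + ε) * ((1 + ε) * c m' + δ) + δ := by
    intro ε hε δ hδ
    obtain ⟨m0, hm0⟩ := hFG ε hε δ hδ
    refine ⟨m0, fun m m' hm hm' => ?_⟩
    have h2 : ∀ᶠ a in l, G m a ≤ (1 + ε) * ((1 + ε) * G m' a + δ) + δ := by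
      filter_upwards [hm0 m hm, hm0 m' hm'] with a h3 h4
      have := mul_le_mul_of_nonneg_left h4.1 (show (0 : ℝ) ≤ 1 + ε by linarith)
      linarith [h3.2]
    exact le_of_tendsto_of_tendsto (hG m)
      (((((hG m').const_mul (1 + ε)).add_const δ).const_mul (1 + ε)).add_const δ) h2
  -- boundedness
  obtain ⟨m1, hm1⟩ := h1 1 one_pos 1 one_pos
  set B : ℝ := (1 + 1) * ((1 + 1) * c m1 + 1) + 1 with hB
  have hBd : ∀ m, m1 ≤ m → c m ≤ B := fun m hm => hm1 m m1 hm le_rfl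
  have hB0 : 1 ≤ B := by rw [hB]; linarith [hc m1]
  -- Cauchy
  have h2 : CauchySeq c := by
    refine Metric.cauchySeq_iff.2 fun η hη => ?_
    set ε : ℝ := min 1 (η / (8 * B)) with hε
    have hε0 : 0 < ε := lt_min one_pos (by positivity)
    have hε1 : ε ≤ 1 := min_le_left _ _
    have hεB : ε * B ≤ η / 8 := by
      have : ε ≤ η / (8 * B) := min_le_right _ _
      calc ε * B ≤ η / (8 * B) * B := mul_le_mul_of_nonneg_right this (by linarith)
        _ = η / 8 := by field_simp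
    obtain ⟨m2, hm2⟩ := h1 ε hε0 (η / 16) (by positivity)
    have key : ∀ m m', max m1 m2 ≤ m → max m1 m2 ≤ m' → c m - c m' < η := by
      intro m m' hm hm'
      have e1 := hm2 m m' ((le_max_right _ _).trans hm) ((le_max_right _ _).trans hm')
      have e2 := hBd m' ((le_max_left _ _).trans hm')
      have e3 : ε * c m' ≤ η / 8 := (mul_le_mul_of_nonneg_left e2 hε0.le).trans hεB
      have e4 : ε * (ε * c m') ≤ η / 8 := by
        calc ε * (ε * c m') ≤ 1 * (ε * c m') :=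
              mul_le_mul_of_nonneg_right hε1 (mul_nonneg hε0.le (hc m'))
          _ = ε * c m' := one_mul _
          _ ≤ η / 8 := e3
      have e5 : ε * (η / 16) ≤ η / 16 := by
        have := mul_le_mul_of_nonneg_right hε1 (show 0 ≤ η / 16 by positivity)
        linarith
      nlinarith
    refine ⟨max m1 m2, fun m hm m' hm' => ?_⟩
    rw [Real.dist_eq, abs_lt]
    exact ⟨by linarith [key m' m hm' hm], key m m' hm hm'⟩
  obtain ⟨c', hc'⟩ := cauchySeq_tendsto_of_complete h2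
  have hc0 : 0 ≤ c' := ge_of_tendsto' hc' hc
  refine ⟨c', Metric.tendsto_nhds.2 fun η hη => ?_⟩
  set ε : ℝ := min (1 / 2) (η / (16 * (c' + 1))) with hε
  have hε0 : 0 < ε := lt_min (by norm_num) (by positivity)
  have hε1 : ε ≤ 1 / 2 := min_le_left _ _
  have hεc : ε * (c' + 1) ≤ η / 16 := by
    have : ε ≤ η / (16 * (c' + 1)) := min_le_right _ _
    calc ε * (c' + 1) ≤ η / (16 * (c' + 1)) * (c' + 1) :=
          mul_le_mul_of_nonneg_right this (by linarith)
      _ = η / 16 := by field_simp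
  obtain ⟨m2, hm2⟩ := hFG ε hε0 (η / 16) (by positivity)
  set θ : ℝ := min 1 (η / 16) with hθ
  have hθ0 : 0 < θ := lt_min one_pos (by positivity)
  have hθ1 : θ ≤ 1 := min_le_left _ _
  have hθ2 : θ ≤ η / 16 := min_le_right _ _
  obtain ⟨m3, hm3⟩ := (Metric.tendsto_atTop.1 hc') (θ / 2) (by positivity)
  set m := max m2 m3 with hm
  have e1 := hm3 m (le_max_right _ _)
  have e2 : ∀ᶠ a in l, dist (G m a) (c m) < θ / 2 := Metric.tendsto_nhds.1 (hG m) _ (by positivity)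
  filter_upwards [e2, hm2 m (le_max_left _ _)] with a e3 e4
  have e5 : |G m a - c'| < θ := by
    rw [← Real.dist_eq]
    calc dist (G m a) c' ≤ dist (G m a) (c m) + dist (c m) c' := dist_triangle _ _ _
      _ < θ / 2 + θ / 2 := add_lt_add e3 e1
      _ = θ := by ring
  rw [abs_lt] at e5
  obtain ⟨e6, e7⟩ := e5
  rw [Real.dist_eq, abs_lt]
  constructor
  · -- lower bound
    have e8 : G m a ≤ (1 + ε) * F a + η / 16 := e4.2
    by_contra hcon
    push Not at hcon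
    have e9 : F a ≤ c' - η := by linarith
    have e10 : (1 + ε) * F a ≤ (1 + ε) * (c' - η) :=
      mul_le_mul_of_nonneg_left e9 (by linarith)
    have e11 : ε * c' ≤ η / 16 := by nlinarith
    nlinarith
  · have e8 : F a ≤ (1 + ε) * G m a + η / 16 := e4.1
    have e9 : (1 + ε) * G m a ≤ (1 + ε) * (c' + θ) :=
      mul_le_mul_of_nonneg_left (by linarith) (by linarith)
    have e10 : ε * θ ≤ ε * 1 := mul_le_mul_of_nonneg_left hθ1 hε0.le
    nlinarith

private lemma av_le {p x T : ℝ} (hp : 0 < p) (hT : 1 ≤ T) {f1 f2 : ℝ → ℂ} (h1 : Continuous f1)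
    (h2 : Continuous f2) {ε C : ℝ} (hC : ∀ a b : ℂ, ‖a + b‖ ^ p ≤ (1 + ε) * ‖a‖ ^ p + C * ‖b‖ ^ p) :
    Av p x T f1 ≤ (1 + ε) * Av p x T f2 + C * Av p x T (fun t => f1 t - f2 t) := by
  have hT0 : 0 ≤ T⁻¹ := inv_nonneg.2 (by linarith)
  have hi : ∀ f : ℝ → ℂ, Continuous f → IntervalIntegrable (fun t => ‖f t‖ ^ p) volume x (x + T) :=
    fun f hf => ((hf.norm).rpow_const fun _ => Or.inr hp.le).intervalIntegrable _ _
  have e : ∫ t in x..(x + T), ‖f1 t‖ ^ p
      ≤ ∫ t in x..(x + T), ((1 + ε) * ‖f2 t‖ ^ p + C * ‖f1 t - f2 t‖ ^ p) := by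
    refine intervalIntegral.integral_mono_on (by linarith) (hi f1 h1)
      (((hi f2 h2).const_mul _).add ((hi (fun t => f1 t - f2 t) (h1.sub h2)).const_mul _)) fun t _ => ?_
    have := hC (f2 t) (f1 t - f2 t)
    rwa [add_sub_cancel] at this
  rw [intervalIntegral.integral_add ((hi f2 h2).const_mul _)
      ((hi (fun t => f1 t - f2 t) (h1.sub h2)).const_mul _),
    intervalIntegral.integral_const_mul, intervalIntegral.integral_const_mul] at e
  unfold Av
  calc T⁻¹ * ∫ t in x..(x + T), ‖f1 t‖ ^ p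
      ≤ T⁻¹ * ((1 + ε) * (∫ t in x..(x + T), ‖f2 t‖ ^ p)
        + C * ∫ t in x..(x + T), ‖f1 t - f2 t‖ ^ p) := mul_le_mul_of_nonneg_left e hT0
    _ = _ := by ring


/-! ### linearity -/

private lemma w1_int {φ : ℝ → ℂ} (h : W1 φ) : Integrable φ := by
  have h' : Integrable (fun v : ℝ => ‖((1 + |v| : ℝ) : ℂ) * φ v‖) := h.norm
  have hm : AEStronglyMeasurable φ volume := by
    have e : φ = fun v : ℝ => (((1 + |v| : ℝ) : ℂ))⁻¹ * (((1 + |v| : ℝ) : ℂ) * φ v) := by
      funext v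
      have : (((1 + |v| : ℝ) : ℂ)) ≠ 0 := by
        rw [Ne, Complex.ofReal_eq_zero]
        have := abs_nonneg v
        linarith
      rw [← mul_assoc, inv_mul_cancel₀ this, one_mul]
    rw [e]
    refine AEStronglyMeasurable.mul ?_ h.aestronglyMeasurable
    have hc : Continuous fun v : ℝ => (((1 + |v| : ℝ) : ℂ))⁻¹ := by
      refine Continuous.inv₀ (by fun_prop) fun v => ?_
      rw [Ne, Complex.ofReal_eq_zero]
      have := abs_nonneg v
      linarith
    exact hc.aestronglyMeasurable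
  refine h'.mono' hm (Eventually.of_forall fun v => ?_)
  rw [norm_mul, Complex.norm_real, Real.norm_eq_abs, abs_of_nonneg (by positivity)]
  have := abs_nonneg v
  have := norm_nonneg (φ v)
  nlinarith

private lemma zw_int {φ : ℝ → ℂ} (h : W1 φ) (H t : ℝ) :
    Integrable (fun v : ℝ => riemannZeta (1 / 2 + I * ((t + H * v : ℝ) : ℂ)) * φ v) := by
  have h' : Integrable (fun v : ℝ => (90 * (1 + |t| + |H|)) * ‖((1 + |v| : ℝ) : ℂ) * φ v‖) :=
    h.norm.const_mul _
  have hc : Continuous fun v : ℝ => riemannZeta (1 / 2 + I * ((t + H * v : ℝ) : ℂ)) :=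
    K6C.cont_zeta.comp (by fun_prop : Continuous fun v : ℝ => t + H * v)
  refine h'.mono' (hc.aestronglyMeasurable.mul (w1_int h).aestronglyMeasurable)
    (Eventually.of_forall fun v => ?_)
  rw [norm_mul, norm_mul, Complex.norm_real, Real.norm_eq_abs,
    abs_of_nonneg (show (0 : ℝ) ≤ 1 + |v| by positivity)]
  have h1 := K6C.bd_zeta (t + H * v)
  have h2 : 1 + |t + H * v| ≤ (1 + |t| + |H|) * (1 + |v|) := by
    have e1 : |t + H * v| ≤ |t| + |H| * |v| := by
      calc |t + H * v| ≤ |t| + |H * v| := abs_add_le _ _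
        _ = |t| + |H| * |v| := by rw [abs_mul]
    have := abs_nonneg t
    have := abs_nonneg H
    have := abs_nonneg v
    nlinarith [mul_nonneg (abs_nonneg t) (abs_nonneg v)]
  calc ‖riemannZeta (1 / 2 + I * ((t + H * v : ℝ) : ℂ))‖ * ‖φ v‖
      ≤ (90 * (1 + |t + H * v|)) * ‖φ v‖ := mul_le_mul_of_nonneg_right h1 (norm_nonneg _)
    _ ≤ (90 * ((1 + |t| + |H|) * (1 + |v|))) * ‖φ v‖ := by gcongr
    _ = 90 * (1 + |t| + |H|) * ((1 + |v|) * ‖φ v‖) := by ring

private lemma w1_add {φ χ : ℝ → ℂ} (h : W1 φ) (h' : W1 χ) : W1 (fun v => φ v + χ v) := by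
  have := h.add h'
  refine this.congr (Eventually.of_forall fun v => ?_)
  simp only [Pi.add_apply]
  ring

private lemma w1_smul {φ : ℝ → ℂ} (h : W1 φ) (a : ℂ) : W1 (fun v => a * φ v) := by
  have := h.const_mul a
  refine this.congr (Eventually.of_forall fun v => ?_)
  ring

private lemma w1_sum {χ : ℕ → ℝ → ℂ} {n : ℕ} (h : ∀ j ∈ Finset.range n, W1 (χ j)) :
    W1 (fun v => ∑ j ∈ Finset.range n, χ j v) := by
  have := integrable_finsetSum (Finset.range n) h
  refine this.congr (Eventually.of_forall fun v => ?_)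
  simp only
  rw [Finset.mul_sum]

private lemma zw_ker {φ0 : ℝ → ℂ} (h0 : W1 φ0) {χ : ℕ → ℝ → ℂ} {n : ℕ}
    (h : ∀ j ∈ Finset.range n, W1 (χ j)) (a : ℕ → ℂ) (H t : ℝ) :
    ZW (fun v => φ0 v + ∑ j ∈ Finset.range n, a j * χ j v) H t
      = ZW φ0 H t + ∑ j ∈ Finset.range n, a j * ZW (χ j) H t := by
  unfold ZW
  have e : ∀ v : ℝ, riemannZeta (1 / 2 + I * ((t + H * v : ℝ) : ℂ))
        * (φ0 v + ∑ j ∈ Finset.range n, a j * χ j v)
      = riemannZeta (1 / 2 + I * ((t + H * v : ℝ) : ℂ)) * φ0 v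
        + ∑ j ∈ Finset.range n, a j * (riemannZeta (1 / 2 + I * ((t + H * v : ℝ) : ℂ)) * χ j v) := by
    intro v
    rw [mul_add, Finset.mul_sum]
    congr 1
    refine Finset.sum_congr rfl fun j _ => ?_
    ring
  simp_rw [e]
  rw [integral_add (zw_int h0 H t) (integrable_finsetSum _ fun j hj => (zw_int (h j hj) H t).const_mul _),
    integral_finsetSum _ fun j hj => (zw_int (h j hj) H t).const_mul _]
  congr 1
  refine Finset.sum_congr rfl fun j _ => ?_
  rw [integral_const_mul]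

private lemma w1_stp (b d : ℝ) : W1 (stp b d) := by
  have h : IntegrableOn (fun v : ℝ => ((1 + |v| : ℝ) : ℂ)) (Icc b d) :=
    (by fun_prop : Continuous fun v : ℝ => ((1 + |v| : ℝ) : ℂ)).continuousOn.integrableOn_compact
      isCompact_Icc
  have h2 := h.integrable_indicator measurableSet_Icc
  refine h2.congr (Eventually.of_forall fun v => ?_)
  by_cases hv : v ∈ Icc b d
  · rw [indicator_of_mem hv]
    have : stp b d v = 1 := if_pos hv
    simp only [this, mul_one]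
  · rw [indicator_of_notMem hv]
    have : stp b d v = 0 := if_neg hv
    simp only [this, mul_zero]

private lemma int_stp {b d : ℝ} (h : b < d) : ∫ v, stp b d v = ((d - b : ℝ) : ℂ) := by
  have e : stp b d = (Icc b d).indicator fun _ => (1 : ℂ) := by
    funext v
    by_cases hv : v ∈ Icc b d
    · rw [indicator_of_mem hv]; exact if_pos hv
    · rw [indicator_of_notMem hv]; exact if_neg hv
  rw [e, integral_indicator measurableSet_Icc, setIntegral_const, measureReal_def,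
    Real.volume_Icc, ENNReal.toReal_ofReal (by linarith)]
  simp

/-- the smooth step on `[b, d]` -/
private noncomputable def sst (g : ℂ → ℂ) (R b d v : ℝ) : ℂ := ph g R ((v - b) / (d - b))

private lemma comp_eq {b d : ℝ} (hbd : b < d) (v : ℝ) : (v - b) / (d - b) = (d - b)⁻¹ * v - (d - b)⁻¹ * b := by
  have : d - b ≠ 0 := by linarith
  field_simp

private lemma w1_sst {g : ℂ → ℂ} (hA : PhAdm) (hg : BumpFn g) {R b d : ℝ} (hR : 0 < R) (hbd : b < d) :
    W1 (sst g R b d) := by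
  have hl : 0 < d - b := by linarith
  have h := (hA g hg R hR).int
  have h1 : Integrable (fun v : ℝ => ((1 + |v| : ℝ) : ℂ) * ph g R v) := h
  have h2 := (h1.comp_div hl.ne').comp_sub_right b
  have h3 : Integrable (fun v : ℝ => ((1 + |(v - b) / (d - b)| : ℝ) : ℂ) * ph g R ((v - b) / (d - b))) := h2
  have h4 := h3.norm.const_mul ((1 + |b|) * (1 + (d - b)))
  have hphi : Integrable (fun v : ℝ => ph g R ((v - b) / (d - b))) :=
    ((w1_int (φ := ph g R) h1).comp_div hl.ne').comp_sub_right b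
  refine h4.mono' ?_ (Eventually.of_forall fun v => ?_)
  · exact (by fun_prop : Continuous fun v : ℝ => ((1 + |v| : ℝ) : ℂ)).aestronglyMeasurable.mul
      hphi.aestronglyMeasurable
  · rw [norm_mul, norm_mul, Complex.norm_real, Complex.norm_real, Real.norm_eq_abs, Real.norm_eq_abs,
      abs_of_nonneg (show (0 : ℝ) ≤ 1 + |v| by positivity),
      abs_of_nonneg (show (0 : ℝ) ≤ 1 + |(v - b) / (d - b)| by positivity)]
    set w := (v - b) / (d - b) with hw
    have hv : v = (d - b) * w + b := by rw [hw]; field_simp; ring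
    have e1 : |v| ≤ (d - b) * |w| + |b| := by
      rw [hv]
      calc |(d - b) * w + b| ≤ |(d - b) * w| + |b| := abs_add_le _ _
        _ = (d - b) * |w| + |b| := by rw [abs_mul, abs_of_pos hl]
    have e2 : 1 + |v| ≤ (1 + |b|) * (1 + (d - b)) * (1 + |w|) := by
      have := abs_nonneg w
      have := abs_nonneg b
      have p1 : 0 ≤ |b| * (d - b) := mul_nonneg (abs_nonneg b) hl.le
      have p2 : 0 ≤ |b| * |w| := mul_nonneg (abs_nonneg b) (abs_nonneg w)
      have p3 : 0 ≤ (d - b) * |w| := mul_nonneg hl.le (abs_nonneg w)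
      have p4 : 0 ≤ |b| * (d - b) * |w| := mul_nonneg p1 (abs_nonneg w)
      nlinarith
    calc (1 + |v|) * ‖ph g R w‖ ≤ ((1 + |b|) * (1 + (d - b)) * (1 + |w|)) * ‖ph g R w‖ :=
          mul_le_mul_of_nonneg_right e2 (norm_nonneg _)
      _ = (1 + |b|) * (1 + (d - b)) * ((1 + |w|) * ‖ph g R w‖) := by ring

private lemma int_sst {g : ℂ → ℂ} (hA : PhAdm) (hg : BumpFn g) {R b d : ℝ} (hR : 0 < R) (hbd : b < d) :
    ∫ v, sst g R b d v = ((d - b : ℝ) : ℂ) := by
  have hl : 0 < d - b := by linarith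
  unfold sst
  have e1 : ∫ v : ℝ, ph g R ((v - b) / (d - b)) = ∫ v : ℝ, ph g R (v / (d - b)) :=
    integral_sub_right_eq_self (fun v => ph g R (v / (d - b))) b
  rw [e1, Measure.integral_comp_div (fun v => ph g R v) (d - b), (hA g hg R hR).one, abs_of_pos hl]
  simp

private lemma psi_sst {g : ℂ → ℂ} (hA : PhAdm) (hg : BumpFn g) {R b d : ℝ} (hR : 0 < R) (hbd : b < d)
    {r : ℝ} (hr : R / (d - b) ≤ |r|) : psi (sst g R b d) r = 0 := by
  have hl : 0 < d - b := by linarith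
  unfold psi sst
  have e1 : ∫ v : ℝ, ph g R ((v - b) / (d - b)) * cexp (-(I * ((r * v : ℝ) : ℂ)))
      = ∫ v : ℝ, ph g R (v / (d - b)) * cexp (-(I * ((r * (v + b) : ℝ) : ℂ))) := by
    rw [← integral_sub_right_eq_self
      (fun v : ℝ => ph g R (v / (d - b)) * cexp (-(I * ((r * (v + b) : ℝ) : ℂ)))) b]
    simp only [sub_add_cancel]
  have e2 : ∫ v : ℝ, ph g R (v / (d - b)) * cexp (-(I * ((r * (v + b) : ℝ) : ℂ)))
      = |d - b| • ∫ w : ℝ, ph g R w * cexp (-(I * ((r * ((d - b) * w + b) : ℝ) : ℂ))) := by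
    rw [← Measure.integral_comp_div
      (fun w : ℝ => ph g R w * cexp (-(I * ((r * ((d - b) * w + b) : ℝ) : ℂ)))) (d - b)]
    refine integral_congr_ae (Eventually.of_forall fun v => ?_)
    simp only
    have : (d - b) * (v / (d - b)) = v := by field_simp
    rw [this]
  have e3 : ∀ w : ℝ, ph g R w * cexp (-(I * ((r * ((d - b) * w + b) : ℝ) : ℂ)))
      = cexp (-(I * ((r * b : ℝ) : ℂ))) * (ph g R w * cexp (-(I * (((r * (d - b)) * w : ℝ) : ℂ)))) := by
    intro w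
    have : cexp (-(I * ((r * ((d - b) * w + b) : ℝ) : ℂ)))
        = cexp (-(I * ((r * b : ℝ) : ℂ))) * cexp (-(I * (((r * (d - b)) * w : ℝ) : ℂ))) := by
      rw [← Complex.exp_add]
      congr 1
      push_cast
      ring
    rw [this]
    ring
  rw [e1, e2]
  simp_rw [e3]
  rw [integral_const_mul]
  have h := (hA g hg R hR).supp (r * (d - b)) (by
    rw [abs_mul, abs_of_pos hl]
    rwa [div_le_iff₀ hl] at hr)
  unfold psi at h
  rw [h]
  simp

private lemma psi_add {φ χ : ℝ → ℂ} (h : W1 φ) (h' : W1 χ) (r : ℝ) :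
    psi (fun v => φ v + χ v) r = psi φ r + psi χ r := by
  have hb : ∀ f : ℝ → ℂ, Integrable f → Integrable fun v : ℝ => f v * cexp (-(I * ((r * v : ℝ) : ℂ))) := by
    intro f hf
    refine hf.norm.mono' (hf.aestronglyMeasurable.mul
      (by fun_prop : Continuous fun v : ℝ => cexp (-(I * ((r * v : ℝ) : ℂ)))).aestronglyMeasurable)
      (Eventually.of_forall fun v => ?_)
    rw [norm_mul]
    have : ‖cexp (-(I * ((r * v : ℝ) : ℂ)))‖ = 1 := by
      rw [Complex.norm_exp]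
      simp
    rw [this, mul_one]
  unfold psi
  rw [← integral_add (hb _ (w1_int h)) (hb _ (w1_int h'))]
  refine integral_congr_ae (Eventually.of_forall fun v => ?_)
  simp only
  ring

private lemma psi_smul (φ : ℝ → ℂ) (a : ℂ) (r : ℝ) : psi (fun v => a * φ v) r = a * psi φ r := by
  unfold psi
  rw [← integral_const_mul]
  refine integral_congr_ae (Eventually.of_forall fun v => ?_)
  simp only
  ring

private lemma psi_sum {χ : ℕ → ℝ → ℂ} {n : ℕ} (h : ∀ j ∈ Finset.range n, W1 (χ j)) {r : ℝ}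
    (h0 : ∀ j ∈ Finset.range n, psi (χ j) r = 0) :
    psi (fun v => ∑ j ∈ Finset.range n, χ j v) r = 0 := by
  induction n with
  | zero => simp [psi]
  | succ n ih =>
    have e : (fun v => ∑ j ∈ Finset.range (n + 1), χ j v)
        = fun v => (fun v => ∑ j ∈ Finset.range n, χ j v) v + χ n v := by
      funext v
      rw [Finset.sum_range_succ]
    have hm : ∀ j ∈ Finset.range n, j ∈ Finset.range (n + 1) := fun j hj =>
      Finset.mem_range.2 ((Finset.mem_range.1 hj).trans (Nat.lt_succ_self n))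
    rw [e, psi_add (w1_sum fun j hj => h j (hm j hj)) (h n (Finset.self_mem_range_succ n)),
      ih (fun j hj => h j (hm j hj)) (fun j hj => h0 j (hm j hj)),
      h0 n (Finset.self_mem_range_succ n), add_zero]

private lemma av_sum {p x T : ℝ} (hp : 0 < p) (hT : 1 ≤ T) {n : ℕ} {D : ℕ → ℝ → ℂ} {a : ℕ → ℂ}
    (hD : ∀ j ∈ Finset.range n, Continuous (D j)) {C : ℝ}
    (hC : ∀ (n : ℕ) (z : ℕ → ℂ),
      ‖∑ j ∈ Finset.range n, z j‖ ^ p ≤ C * ∑ j ∈ Finset.range n, (2 : ℝ) ^ (1 * (j : ℝ)) * ‖z j‖ ^ p)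
    (hC0 : 0 ≤ C) :
    Av p x T (fun t => ∑ j ∈ Finset.range n, a j * D j t)
      ≤ C * ∑ j ∈ Finset.range n, (2 : ℝ) ^ (1 * (j : ℝ)) * ‖a j‖ ^ p * Av p x T (D j) := by
  have hT0 : 0 ≤ T⁻¹ := inv_nonneg.2 (by linarith)
  have hi : ∀ f : ℝ → ℂ, Continuous f → IntervalIntegrable (fun t => ‖f t‖ ^ p) volume x (x + T) :=
    fun f hf => ((hf.norm).rpow_const fun _ => Or.inr hp.le).intervalIntegrable _ _
  have hsum : Continuous fun t => ∑ j ∈ Finset.range n, a j * D j t :=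
    continuous_finsetSum _ fun j hj => continuous_const.mul (hD j hj)
  have e : ∫ t in x..(x + T), ‖∑ j ∈ Finset.range n, a j * D j t‖ ^ p
      ≤ ∫ t in x..(x + T), ∑ j ∈ Finset.range n,
        C * ((2 : ℝ) ^ (1 * (j : ℝ)) * ‖a j‖ ^ p) * ‖D j t‖ ^ p := by
    refine intervalIntegral.integral_mono_on (by linarith) (hi _ hsum) ?_ fun t _ => ?_
    · exact (continuous_finsetSum _ fun j hj => continuous_const.mul
        (((hD j hj).norm).rpow_const fun _ => Or.inr hp.le)).intervalIntegrable _ _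
    · refine (hC n fun j => a j * D j t).trans_eq ?_
      rw [Finset.mul_sum]
      refine Finset.sum_congr rfl fun j _ => ?_
      rw [norm_mul, Real.mul_rpow (norm_nonneg _) (norm_nonneg _)]
      ring
  rw [intervalIntegral.integral_finsetSum fun j hj => (hi (D j) (hD j hj)).const_mul _] at e
  unfold Av
  calc T⁻¹ * ∫ t in x..(x + T), ‖∑ j ∈ Finset.range n, a j * D j t‖ ^ p
      ≤ T⁻¹ * ∑ j ∈ Finset.range n, ∫ t in x..(x + T),
          C * ((2 : ℝ) ^ (1 * (j : ℝ)) * ‖a j‖ ^ p) * ‖D j t‖ ^ p := mul_le_mul_of_nonneg_left e hT0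
    _ = C * ∑ j ∈ Finset.range n, (2 : ℝ) ^ (1 * (j : ℝ)) * ‖a j‖ ^ p
          * (T⁻¹ * ∫ t in x..(x + T), ‖D j t‖ ^ p) := by
        rw [Finset.mul_sum, Finset.mul_sum]
        refine Finset.sum_congr rfl fun j _ => ?_
        rw [intervalIntegral.integral_const_mul]
        ring

theorem general (h2 : MomentsT2) (hB : Bump) (h6 : Pool.Agent.Lib.MS.PowClose) (hN : PowSum) (hC : ContG) (hA : PhAdm) (hV : CvAdm) (hE : StepErr) (hp : PosG) : General := by
  intro φ0 R h0 hs n a b d hbd hone p hp0 hnp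
  set E : ℝ := -(p ^ 2 / 4) with hEdef
  -- form of MomentsT2
  have hT2 : ∀ (φ : ℝ → ℂ) (R : ℝ), Adm φ R → ∃ c : ℝ, 0 < c ∧ ∀ ε : ℝ, 0 < ε → ∃ C : ℝ, 0 < C ∧
      ∀ H T : ℝ, 0 < H → C * H ≤ 1 → 1 ≤ T → C ≤ H * Real.log T → ∀ x : ℝ,
      |Av p x T (ZW φ H) - c * H ^ E| ≤ ε * H ^ E := by
    intro φ R hφ
    obtain ⟨c, hc, h⟩ := h2 φ R hφ (p / 2) (by positivity)
    refine ⟨c, hc, fun ε hε => ?_⟩
    obtain ⟨C, hC, h⟩ := h ε hε
    refine ⟨C, hC, fun H T h1 h2 h3 h4 x => ?_⟩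
    have h5 := h H T h1 h2 h3 h4 x
    have e1 : 2 * (p / 2) = p := by ring
    have e2 : -((p / 2) ^ 2) = E := by rw [hEdef]; ring
    rw [e1, e2] at h5
    exact h5
  rcases Nat.eq_zero_or_pos n with hn0 | hnpos
  · -- band-limited kernels
    subst hn0
    have hk : ker φ0 0 a b d = φ0 := by
      funext v
      simp [ker]
    rw [hk] at hone ⊢
    obtain ⟨c, hc, h⟩ := hT2 φ0 (max R 1)
      { hR := lt_of_lt_of_le one_pos (le_max_right _ _)
        int := h0
        one := hone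
        supp := fun r hr => hs r ((le_max_left _ _).trans hr) }
    refine ⟨c, hc, fun ε hε => ?_⟩
    obtain ⟨C, hC, h⟩ := h ε hε
    exact ⟨C, hC, fun H T x h1 h2 h3 h4 _ => h H T h1 h2 h3 h4 x⟩
  have hp4 : p < 4 := by
    rcases hnp with h | h
    · omega
    · exact h
  obtain ⟨g, hg⟩ := hB
  have := lF_neBot
  -- the kernels
  have hWst : ∀ j ∈ Finset.range n, W1 (stp (b j) (d j)) := fun j _ => w1_stp _ _
  have hWss : ∀ m : ℕ, ∀ j ∈ Finset.range n, W1 (sst g (2 ^ m) (b j) (d j)) := fun m j hj =>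
    w1_sst hA hg (by positivity) (hbd j (Finset.mem_range.1 hj))
  have hW : W1 (ker φ0 n a b d) := w1_add h0 (w1_sum fun j hj => w1_smul (hWst j hj) (a j))
  set sm : ℕ → ℝ → ℂ := fun m v => φ0 v + ∑ j ∈ Finset.range n, a j * sst g (2 ^ m) (b j) (d j) v
    with hsm
  have hWm : ∀ m, W1 (sm m) := fun m => w1_add h0 (w1_sum fun j hj => w1_smul (hWss m j hj) (a j))
  have hadm : ∀ m : ℕ, ∃ Rm : ℝ, Adm (sm m) Rm := by
    intro m
    refine ⟨max 1 R + ∑ j ∈ Finset.range n, (2 : ℝ) ^ m / (d j - b j), ?_⟩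
    have hS : ∀ j ∈ Finset.range n, 0 ≤ (2 : ℝ) ^ m / (d j - b j) := fun j hj =>
      div_nonneg (by positivity) (by linarith [hbd j (Finset.mem_range.1 hj)])
    have hS0 := Finset.sum_nonneg hS
    refine ⟨?_, hWm m, ?_, ?_⟩
    · have := le_max_left 1 R
      linarith
    · have e1 : ∫ v, sm m v = (∫ v, φ0 v) + ∑ j ∈ Finset.range n, a j * ((d j - b j : ℝ) : ℂ) := by
        rw [hsm]
        simp only
        rw [integral_add (w1_int h0)
          (integrable_finsetSum _ fun j hj => (w1_int (hWss m j hj)).const_mul _),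
          integral_finsetSum _ fun j hj => (w1_int (hWss m j hj)).const_mul _]
        congr 1
        refine Finset.sum_congr rfl fun j hj => ?_
        rw [integral_const_mul, int_sst hA hg (by positivity) (hbd j (Finset.mem_range.1 hj))]
      have e2 : ∫ v, ker φ0 n a b d v
          = (∫ v, φ0 v) + ∑ j ∈ Finset.range n, a j * ((d j - b j : ℝ) : ℂ) := by
        unfold ker
        rw [integral_add (w1_int h0)
          (integrable_finsetSum _ fun j hj => (w1_int (hWst j hj)).const_mul _),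
          integral_finsetSum _ fun j hj => (w1_int (hWst j hj)).const_mul _]
        congr 1
        refine Finset.sum_congr rfl fun j hj => ?_
        rw [integral_const_mul, int_stp (hbd j (Finset.mem_range.1 hj))]
      rw [e1, ← e2, hone]
    · intro r hr
      have e1 : psi (sm m) r = psi φ0 r
          + psi (fun v => ∑ j ∈ Finset.range n, a j * sst g (2 ^ m) (b j) (d j) v) r :=
        psi_add h0 (w1_sum fun j hj => w1_smul (hWss m j hj) (a j)) r
      rw [e1, hs r (by have := le_max_right 1 R; linarith), zero_add]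
      refine psi_sum (χ := fun j v => a j * sst g (2 ^ m) (b j) (d j) v)
        (fun j hj => w1_smul (hWss m j hj) (a j)) fun j hj => ?_
      rw [psi_smul, psi_sst hA hg (by positivity) (hbd j (Finset.mem_range.1 hj)), mul_zero]
      have e2 := Finset.single_le_sum hS hj
      have := le_max_left 1 R
      linarith
  have hT2m : ∀ m : ℕ, ∃ c : ℝ, 0 < c ∧ ∀ ε : ℝ, 0 < ε → ∃ C : ℝ, 0 < C ∧
      ∀ H T : ℝ, 0 < H → C * H ≤ 1 → 1 ≤ T → C ≤ H * Real.log T → ∀ x : ℝ,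
      |Av p x T (ZW (sm m) H) - c * H ^ E| ≤ ε * H ^ E := fun m => by
    obtain ⟨Rm, h⟩ := hadm m
    exact hT2 _ _ h
  choose c hc hcT using hT2m
  have hcK : ∀ H : ℝ, Continuous (ZW (ker φ0 n a b d) H) := hC _ hW
  have hcm : ∀ (m : ℕ) (H : ℝ), Continuous (ZW (sm m) H) := fun m => hC _ (hWm m)
  -- the functions on the filter
  let F : ℝ × ℝ × ℝ → ℝ := fun q => Av p q.2.2 q.2.1 (ZW (ker φ0 n a b d) q.1) / q.1 ^ E
  let G : ℕ → ℝ × ℝ × ℝ → ℝ := fun m q => Av p q.2.2 q.2.1 (ZW (sm m) q.1) / q.1 ^ E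
  have hG : ∀ m, Tendsto (G m) lF (𝓝 (c m)) := by
    intro m
    refine Metric.tendsto_nhds.2 fun η hη => ?_
    obtain ⟨C, hC, h⟩ := hcT m (η / 2) (by positivity)
    refine (ev_iff _).2 ⟨max C 1, le_max_right _ _, fun H T x h1 h2 h3 h4 h5 => ?_⟩
    have hw : 0 < H ^ E := Real.rpow_pos_of_pos h1 _
    have h6 := h H T h1 ((mul_le_mul_of_nonneg_right (le_max_left _ _) h1.le).trans h2) h3
      ((le_max_left _ _).trans h4) x
    rw [Real.dist_eq]
    change |Av p x T (ZW (sm m) H) / H ^ E - c m| < η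
    have e : Av p x T (ZW (sm m) H) / H ^ E - c m
        = (Av p x T (ZW (sm m) H) - c m * H ^ E) / H ^ E := by
      field_simp
    rw [e, abs_div, abs_of_pos hw, div_lt_iff₀ hw]
    refine h6.trans_lt ?_
    have := mul_lt_mul_of_pos_right (show η / 2 < η by linarith) hw
    exact this
  -- the error
  have hErr : ∀ δ : ℝ, 0 < δ → ∃ m0 : ℕ, ∀ m, m0 ≤ m → ∀ᶠ q : ℝ × ℝ × ℝ in lF,
      Av p q.2.2 q.2.1 (fun t => ZW (ker φ0 n a b d) q.1 t - ZW (sm m) q.1 t) ≤ δ * q.1 ^ E := by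
    intro δ hδ
    obtain ⟨C1, hC1, hps⟩ := hN p 1 hp0 one_pos
    have hδj : ∀ j : ℕ, 0 < δ / (C1 * (n + 1) * ((2 : ℝ) ^ (1 * (j : ℝ)) * ‖a j‖ ^ p + 1)) := by
      intro j
      have : 0 ≤ (2 : ℝ) ^ (1 * (j : ℝ)) * ‖a j‖ ^ p := by positivity
      positivity
    have h3 : ∀ j : ℕ, ∃ m0 : ℕ, j < n → ∀ m, m0 ≤ m → ∀ᶠ q : ℝ × ℝ × ℝ in lF,
        Av p q.2.2 q.2.1 (fun t => ZW (stp (b j) (d j)) q.1 t
          - ZW (fun v => ph g (2 ^ m) ((v - b j) / (d j - b j))) q.1 t)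
        ≤ δ / (C1 * (n + 1) * ((2 : ℝ) ^ (1 * (j : ℝ)) * ‖a j‖ ^ p + 1)) * q.1 ^ E := by
      intro j
      by_cases hj : j < n
      · obtain ⟨m0, hm0⟩ := hE g hg (b j) (d j) (hbd j hj) p hp0 hp4 _ (hδj j)
        refine ⟨m0, fun _ m hm => ?_⟩
        obtain ⟨C, hC, h⟩ := hm0 m hm
        exact (ev_iff _).2 ⟨C, hC, fun H T x h1 h2 h3 h4 h5 => h H T x h1 h2 h3 h4 h5⟩
      · exact ⟨0, fun h => absurd h hj⟩
    choose m0 hm0 using h3
    refine ⟨(Finset.range n).sup m0, fun m hm => ?_⟩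
    have h4 : ∀ᶠ q : ℝ × ℝ × ℝ in lF, ∀ j ∈ Finset.range n,
        Av p q.2.2 q.2.1 (fun t => ZW (stp (b j) (d j)) q.1 t
          - ZW (fun v => ph g (2 ^ m) ((v - b j) / (d j - b j))) q.1 t)
        ≤ δ / (C1 * (n + 1) * ((2 : ℝ) ^ (1 * (j : ℝ)) * ‖a j‖ ^ p + 1)) * q.1 ^ E := by
      rw [Filter.eventually_all_finset]
      intro j hj
      exact hm0 j (Finset.mem_range.1 hj) m ((Finset.le_sup hj).trans hm)
    have h5 : ∀ᶠ q : ℝ × ℝ × ℝ in lF, 0 < q.1 ∧ 1 ≤ q.2.1 :=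
      (ev_iff _).2 ⟨1, le_rfl, fun H T x h1 h2 h3 h4 h5 => ⟨h1, h3⟩⟩
    filter_upwards [h4, h5] with q h6 h7
    obtain ⟨h8, h9⟩ := h7
    have hw : 0 < q.1 ^ E := Real.rpow_pos_of_pos h8 _
    have e1 : (fun t => ZW (ker φ0 n a b d) q.1 t - ZW (sm m) q.1 t)
        = fun t => ∑ j ∈ Finset.range n, a j * (ZW (stp (b j) (d j)) q.1 t
          - ZW (sst g (2 ^ m) (b j) (d j)) q.1 t) := by
      funext t
      have e2 : ZW (ker φ0 n a b d) q.1 t
          = ZW φ0 q.1 t + ∑ j ∈ Finset.range n, a j * ZW (stp (b j) (d j)) q.1 t :=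
        zw_ker h0 hWst a q.1 t
      have e3 : ZW (sm m) q.1 t
          = ZW φ0 q.1 t + ∑ j ∈ Finset.range n, a j * ZW (sst g (2 ^ m) (b j) (d j)) q.1 t :=
        zw_ker h0 (hWss m) a q.1 t
      rw [e2, e3, add_sub_add_left_eq_sub, ← Finset.sum_sub_distrib]
      refine Finset.sum_congr rfl fun j _ => ?_
      ring
    rw [e1]
    refine (av_sum hp0 h9 (D := fun j t => ZW (stp (b j) (d j)) q.1 t
      - ZW (sst g (2 ^ m) (b j) (d j)) q.1 t) (fun j hj => (hC _ (hWst j hj) q.1).sub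
        (hC _ (hWss m j hj) q.1)) hps (by linarith)).trans ?_
    have h10 : ∀ j ∈ Finset.range n, (2 : ℝ) ^ (1 * (j : ℝ)) * ‖a j‖ ^ p
          * Av p q.2.2 q.2.1 (fun t => ZW (stp (b j) (d j)) q.1 t
            - ZW (sst g (2 ^ m) (b j) (d j)) q.1 t)
        ≤ δ / (C1 * (n + 1)) * q.1 ^ E := by
      intro j hj
      have h11 := h6 j hj
      set A : ℝ := (2 : ℝ) ^ (1 * (j : ℝ)) * ‖a j‖ ^ p with hAdef
      have hA0 : 0 ≤ A := by positivity
      calc A * Av p q.2.2 q.2.1 (fun t => ZW (stp (b j) (d j)) q.1 t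
            - ZW (sst g (2 ^ m) (b j) (d j)) q.1 t)
          ≤ A * (δ / (C1 * (n + 1) * (A + 1)) * q.1 ^ E) := mul_le_mul_of_nonneg_left h11 hA0
        _ = (A / (A + 1)) * (δ / (C1 * (n + 1)) * q.1 ^ E) := by
            field_simp
        _ ≤ 1 * (δ / (C1 * (n + 1)) * q.1 ^ E) := by
            refine mul_le_mul_of_nonneg_right ?_ (by positivity)
            rw [div_le_one (by linarith)]
            linarith
        _ = _ := one_mul _
    have h12 := Finset.sum_le_sum h10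
    rw [Finset.sum_const, Finset.card_range, nsmul_eq_mul] at h12
    calc C1 * ∑ j ∈ Finset.range n, (2 : ℝ) ^ (1 * (j : ℝ)) * ‖a j‖ ^ p
          * Av p q.2.2 q.2.1 (fun t => ZW (stp (b j) (d j)) q.1 t
            - ZW (sst g (2 ^ m) (b j) (d j)) q.1 t)
        ≤ C1 * (n * (δ / (C1 * (n + 1)) * q.1 ^ E)) := mul_le_mul_of_nonneg_left h12 (by linarith)
      _ = ((n : ℝ) / (n + 1)) * (δ * q.1 ^ E) := by
          have : C1 ≠ 0 := by linarith
          field_simp
      _ ≤ 1 * (δ * q.1 ^ E) := by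
          refine mul_le_mul_of_nonneg_right ?_ (by positivity)
          rw [div_le_one (by positivity)]
          linarith
      _ = _ := one_mul _
  have hFG : ∀ ε : ℝ, 0 < ε → ∀ δ : ℝ, 0 < δ → ∃ m0 : ℕ, ∀ m, m0 ≤ m → ∀ᶠ q in lF,
      F q ≤ (1 + ε) * G m q + δ ∧ G m q ≤ (1 + ε) * F q + δ := by
    intro ε hε δ hδ
    obtain ⟨K, hK, hKK⟩ := h6 p ε hp0 hε
    obtain ⟨m0, hm0⟩ := hErr (δ / K) (by positivity)
    refine ⟨m0, fun m hm => ?_⟩
    have h5 : ∀ᶠ q : ℝ × ℝ × ℝ in lF, 0 < q.1 ∧ 1 ≤ q.2.1 :=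
      (ev_iff _).2 ⟨1, le_rfl, fun H T x h1 h2 h3 h4 h5 => ⟨h1, h3⟩⟩
    filter_upwards [hm0 m hm, h5] with q h6 hq
    obtain ⟨h1, h3⟩ := hq
    obtain ⟨H, T, x⟩ := q
    simp only at h1 h3 h6
    have hw : 0 < H ^ E := Real.rpow_pos_of_pos h1 _
    have h7 := av_le (x := x) hp0 h3 (hcK H) (hcm m H) hKK
    have h8 := av_le (x := x) hp0 h3 (hcm m H) (hcK H) hKK
    have h9 : Av p x T (fun t => ZW (sm m) H t - ZW (ker φ0 n a b d) H t)
        = Av p x T (fun t => ZW (ker φ0 n a b d) H t - ZW (sm m) H t) := by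
      unfold Av
      congr 1
      refine intervalIntegral.integral_congr fun t _ => ?_
      simp only
      rw [norm_sub_rev]
    rw [h9] at h8
    have h10 : K * Av p x T (fun t => ZW (ker φ0 n a b d) H t - ZW (sm m) H t) ≤ δ * H ^ E := by
      calc K * Av p x T (fun t => ZW (ker φ0 n a b d) H t - ZW (sm m) H t)
          ≤ K * (δ / K * H ^ E) := mul_le_mul_of_nonneg_left h6 (by linarith)
        _ = δ * H ^ E := by field_simp
    change Av p x T (ZW (ker φ0 n a b d) H) / H ^ E ≤ (1 + ε) * (Av p x T (ZW (sm m) H) / H ^ E) + δ ∧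
      Av p x T (ZW (sm m) H) / H ^ E ≤ (1 + ε) * (Av p x T (ZW (ker φ0 n a b d) H) / H ^ E) + δ
    constructor
    · rw [div_le_iff₀ hw]
      have e : ((1 + ε) * (Av p x T (ZW (sm m) H) / H ^ E) + δ) * H ^ E
          = (1 + ε) * Av p x T (ZW (sm m) H) + δ * H ^ E := by field_simp
      rw [e]
      linarith
    · rw [div_le_iff₀ hw]
      have e : ((1 + ε) * (Av p x T (ZW (ker φ0 n a b d) H) / H ^ E) + δ) * H ^ E
          = (1 + ε) * Av p x T (ZW (ker φ0 n a b d) H) + δ * H ^ E := by field_simp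
      rw [e]
      linarith
  obtain ⟨c', hc'⟩ := abs_lim lF F G c hG (fun m => (hc m).le) hFG
  have hlim : ∀ ε : ℝ, 0 < ε → ∃ C : ℝ, 1 ≤ C ∧ ∀ H T x : ℝ, 0 < H → C * H ≤ 1 → 1 ≤ T →
      C ≤ H * Real.log T → |x| ≤ T →
      |Av p x T (ZW (ker φ0 n a b d) H) - c' * H ^ E| ≤ ε * H ^ E := by
    intro ε hε
    obtain ⟨C, hC1, h⟩ := (ev_iff _).1 (Metric.tendsto_nhds.1 hc' ε hε)
    refine ⟨C, hC1, fun H T x h1 h2 h3 h4 h5 => ?_⟩
    have hw : 0 < H ^ E := Real.rpow_pos_of_pos h1 _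
    have h6 := h H T x h1 h2 h3 h4 h5
    rw [Real.dist_eq] at h6
    change |Av p x T (ZW (ker φ0 n a b d) H) / H ^ E - c'| < ε at h6
    have e : Av p x T (ZW (ker φ0 n a b d) H) - c' * H ^ E
        = (Av p x T (ZW (ker φ0 n a b d) H) / H ^ E - c') * H ^ E := by
      field_simp
    rw [e, abs_mul, abs_of_pos hw]
    exact mul_le_mul_of_nonneg_right h6.le hw.le
  -- positivity
  have hpos : 0 < c' := by
    obtain ⟨C0, hC0, h⟩ := hp g hg (ker φ0 n a b d) hW p hp0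
    obtain ⟨c0, hc0, hcT0⟩ := hT2 _ _ (hV g hg (ker φ0 n a b d) hW hone)
    obtain ⟨C1, hC1, h1⟩ := hcT0 (c0 / 4) (by positivity)
    obtain ⟨C2, hC2, h2'⟩ := hlim (c0 / (4 * C0)) (by positivity)
    -- choice of H
    have hE0 : E < 0 := by
      rw [hEdef]
      have : 0 < p ^ 2 := by positivity
      linarith
    have htop : Tendsto (fun H : ℝ => H ^ (-E)) (𝓝[>] 0) (𝓝 0) := by
      have h3 : ContinuousAt (fun H : ℝ => H ^ (-E)) 0 :=
        Real.continuousAt_rpow_const 0 (-E) (Or.inr (by linarith))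
      have h4 : Tendsto (fun H : ℝ => H ^ (-E)) (𝓝[>] 0) (𝓝 ((0 : ℝ) ^ (-E))) :=
        h3.tendsto.mono_left nhdsWithin_le_nhds
      rwa [Real.zero_rpow (by linarith : -E ≠ 0)] at h4
    have hsm : ∀ᶠ H : ℝ in 𝓝[>] 0, H ^ (-E) < c0 / (4 * C0) :=
      htop.eventually (gt_mem_nhds (by positivity))
    have hHs : ∀ᶠ H : ℝ in 𝓝[>] 0, H < min (1 / 4) (min C1⁻¹ C2⁻¹) := by
      have : (0 : ℝ) < min (1 / 4) (min C1⁻¹ C2⁻¹) :=
        lt_min (by norm_num) (lt_min (inv_pos.2 hC1) (inv_pos.2 (by linarith)))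
      exact nhdsWithin_le_nhds (gt_mem_nhds this)
    obtain ⟨H, hH1, hH2, hH3⟩ := (hsm.and (hHs.and self_mem_nhdsWithin)).exists
    have hH0 : 0 < H := hH3
    have hH4 : H ≤ 1 / 4 := (hH2.trans_le (min_le_left _ _)).le
    have hH5 : C1 * H ≤ 1 := by
      have : H ≤ C1⁻¹ := (hH2.trans_le ((min_le_right _ _).trans (min_le_left _ _))).le
      calc C1 * H ≤ C1 * C1⁻¹ := mul_le_mul_of_nonneg_left this hC1.le
        _ = 1 := mul_inv_cancel₀ hC1.ne'
    have hH6 : C2 * H ≤ 1 := by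
      have : H ≤ C2⁻¹ := (hH2.trans_le ((min_le_right _ _).trans (min_le_right _ _))).le
      calc C2 * H ≤ C2 * C2⁻¹ := mul_le_mul_of_nonneg_left this (by linarith)
        _ = 1 := mul_inv_cancel₀ (by linarith)
    obtain ⟨T0, hT0⟩ := h H hH0 hH4
    set T : ℝ := max (max 1 T0) (max (Real.exp (C1 / H)) (Real.exp (C2 / H))) with hTdef
    have hT1 : 1 ≤ T := (le_max_left _ _).trans (le_max_left _ _)
    have hT2 : T0 ≤ T := (le_max_right _ _).trans (le_max_left _ _)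
    have hT3 : Real.exp (C1 / H) ≤ T := (le_max_left _ _).trans (le_max_right _ _)
    have hT4 : Real.exp (C2 / H) ≤ T := (le_max_right _ _).trans (le_max_right _ _)
    have hT5 : C1 ≤ H * Real.log T := by
      have := (Real.le_log_iff_exp_le (by linarith)).2 hT3
      rw [div_le_iff₀ hH0] at this
      linarith
    have hT6 : C2 ≤ H * Real.log (8 * T) := by
      have e := (Real.le_log_iff_exp_le (by linarith)).2 hT4
      rw [div_le_iff₀ hH0] at e
      have e2 : Real.log T ≤ Real.log (8 * T) := Real.log_le_log (by linarith) (by linarith)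
      have := mul_le_mul_of_nonneg_left e2 hH0.le
      linarith
    have hw : 0 < H ^ E := Real.rpow_pos_of_pos hH0 _
    have g1 := hT0 T hT2
    have g2 := h1 H T hH0 hH5 hT1 hT5 0
    have g3 := h2' H (8 * T) (-4 * T) hH0 hH6 (by linarith) hT6
      (by rw [abs_of_nonpos (by linarith)]; linarith)
    have g4 : c0 * H ^ E - c0 / 4 * H ^ E ≤ Av p 0 T (ZW (cvl (ker φ0 n a b d) g) H) := by
      have := (abs_le.1 g2).1
      linarith
    have g5 : Av p (-4 * T) (8 * T) (ZW (ker φ0 n a b d) H) ≤ c' * H ^ E + c0 / (4 * C0) * H ^ E := by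
      have := (abs_le.1 g3).2
      linarith
    have g6 : 1 ≤ c0 / (4 * C0) * H ^ E := by
      have e : H ^ (-E) * H ^ E = 1 := by
        rw [← Real.rpow_add hH0]
        simp
      calc (1 : ℝ) = H ^ (-E) * H ^ E := e.symm
        _ ≤ c0 / (4 * C0) * H ^ E := mul_le_mul_of_nonneg_right hH1.le hw.le
    have g7 : C0 * (Av p (-4 * T) (8 * T) (ZW (ker φ0 n a b d) H) + 1)
        ≤ C0 * ((c' * H ^ E + c0 / (4 * C0) * H ^ E) + c0 / (4 * C0) * H ^ E) :=
      mul_le_mul_of_nonneg_left (by linarith) (by linarith)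
    have g8 : C0 * ((c' * H ^ E + c0 / (4 * C0) * H ^ E) + c0 / (4 * C0) * H ^ E)
        = (C0 * c' + c0 / 2) * H ^ E := by
      field_simp
      ring
    have g9 : (3 / 4 * c0) * H ^ E ≤ (C0 * c' + c0 / 2) * H ^ E := by linarith
    have g10 : 3 / 4 * c0 ≤ C0 * c' + c0 / 2 := le_of_mul_le_mul_right g9 hw
    have g11 : 0 < C0 * c' := by linarith
    exact (mul_pos_iff_of_pos_left (by linarith)).1 g11
  refine ⟨c', hpos, fun ε hε => ?_⟩
  obtain ⟨C, hC1, h⟩ := hlim ε hε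
  refine ⟨C, by linarith, fun H T x h1 h2 h3 h4 h5 => ?_⟩
  exact h H T x h1 h2 h3 h4 (h5.resolve_left (by omega))

end Pool.Agent.Lib.MP2
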