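import Mathlib
import Pool.Agent.Lib.MP_f9aece_nt_mp.StmtsP

/-!
Moments of the plain average of zeta over short windows, module K1.

theta := a smooth bump on R, theta 0 = 1, supported in [-1,1]; the function is
g z = (2 pi)^(-1) * int theta(r) exp(I r z) dr. It is entire, rapidly decreasing in the strip
|Im z| <= 1 by n integrations by parts, and by Fourier inversion psi g = theta.
-/

set_option autoImplicit false

namespace Pool.Agent.Lib.MP2

open MeasureTheory Set Filter Topology Complex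
open Pool.Agent.Lib.MS (psi Adm ZW MomentsT2)
open scoped FourierTransform ContDiff

/-- smooth, zero outside `[-1, 1]` -/
private structure K1SC (θ : ℝ → ℂ) : Prop where
  smooth : ContDiff ℝ ∞ θ
  zero : ∀ r : ℝ, 1 < |r| → θ r = 0

private noncomputable def k1G (θ : ℝ → ℂ) (z : ℂ) : ℂ := ∫ r : ℝ, θ r * cexp (I * r * z)

private theorem K1SC.cs {θ : ℝ → ℂ} (h : K1SC θ) : HasCompactSupport θ := by
  refine HasCompactSupport.intro (isCompact_Icc : IsCompact (Icc (-1 : ℝ) 1)) fun r hr => ?_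
  refine h.zero r ?_
  by_contra hc
  exact hr (abs_le.1 (not_lt.1 hc))

private theorem K1SC.int {θ : ℝ → ℂ} (h : K1SC θ) {e : ℝ → ℂ} (he : Continuous e) :
    Integrable fun r => θ r * e r :=
  (h.smooth.continuous.mul he).integrable_of_hasCompactSupport h.cs.mul_right

private theorem K1SC.deriv {θ : ℝ → ℂ} (h : K1SC θ) : K1SC (deriv θ) := by
  refine ⟨(contDiff_infty_iff_deriv.1 h.smooth).2, fun r hr => ?_⟩
  have h1 : θ =ᶠ[𝓝 r] fun _ => (0 : ℂ) := by
    have h2 : {r : ℝ | 1 < |r|} ∈ 𝓝 r := (isOpen_lt continuous_const continuous_abs).mem_nhds hr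
    filter_upwards [h2] with s hs using h.zero s hs
  rw [h1.deriv_eq]
  simp

private theorem k1_hasDeriv (z : ℂ) (r : ℝ) :
    HasDerivAt (fun r : ℝ => cexp (I * r * z)) (I * z * cexp (I * r * z)) r := by
  have h1 : HasDerivAt (fun r : ℝ => I * (r : ℂ) * z) (I * z) r := by
    have h2 : HasDerivAt (fun r : ℝ => (r : ℂ)) 1 r := Complex.ofRealCLM.hasDerivAt
    simpa using (h2.const_mul I).mul_const z
  have := h1.cexp
  rwa [mul_comm] at this

private theorem k1_cont (z : ℂ) : Continuous fun r : ℝ => cexp (I * r * z) := by fun_prop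

private theorem k1_parts {θ : ℝ → ℂ} (h : K1SC θ) (z : ℂ) :
    k1G (deriv θ) z = -(I * z) * k1G θ z := by
  have hd : ∀ r, HasDerivAt θ (deriv θ r) r := fun r =>
    ((h.smooth.differentiable (by simp)) r).hasDerivAt
  have h1 := integral_mul_deriv_eq_deriv_mul_of_integrable
    (u := fun r : ℝ => cexp (I * r * z)) (v := θ) (u' := fun r : ℝ => I * z * cexp (I * r * z))
    (v' := deriv θ) (fun r _ => k1_hasDeriv z r) (fun r _ => hd r)
    ((h.deriv.int (k1_cont z)).congr (Eventually.of_forall fun r => mul_comm _ _))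
    ((h.int ((k1_cont z).const_mul (I * z))).congr (Eventually.of_forall fun r => mul_comm _ _))
    ((h.int (k1_cont z)).congr (Eventually.of_forall fun r => mul_comm _ _))
  unfold k1G
  calc ∫ r : ℝ, deriv θ r * cexp (I * r * z) = ∫ r : ℝ, cexp (I * r * z) * deriv θ r := by
        congr 1
        funext r
        exact mul_comm _ _
    _ = -∫ r : ℝ, I * z * cexp (I * r * z) * θ r := h1
    _ = -(I * z * ∫ r : ℝ, θ r * cexp (I * r * z)) := by
        rw [← integral_const_mul]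
        congr 2
        funext r
        ring
    _ = _ := by ring

private theorem k1_bound {θ : ℝ → ℂ} (h : K1SC θ) (z : ℂ) (hz : |z.im| ≤ 1) :
    ‖k1G θ z‖ ≤ ∫ r : ℝ, Real.exp 1 * ‖θ r‖ := by
  unfold k1G
  refine norm_integral_le_of_norm_le ?_ (Eventually.of_forall fun r => ?_)
  · have : Integrable θ := h.smooth.continuous.integrable_of_hasCompactSupport h.cs
    exact this.norm.const_mul _
  · rw [norm_mul]
    by_cases hr : 1 < |r|
    · rw [h.zero r hr]
      simp
    · rw [mul_comm]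
      refine mul_le_mul_of_nonneg_right ?_ (norm_nonneg _)
      rw [Complex.norm_exp, Real.exp_le_exp]
      have e : (I * (r : ℂ) * z).re = -(r * z.im) := by simp
      rw [e]
      have h1 : |r * z.im| ≤ 1 := by
        rw [abs_mul]
        exact mul_le_one₀ (not_lt.1 hr) (abs_nonneg _) hz
      linarith [neg_abs_le (r * z.im)]

private theorem k1_iter {θ : ℝ → ℂ} (h : K1SC θ) (n : ℕ) :
    ∃ φ : ℝ → ℂ, K1SC φ ∧ ∀ z, k1G φ z = (-(I * z)) ^ n * k1G θ z := by
  induction n with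
  | zero => exact ⟨θ, h, fun z => by simp⟩
  | succ n ih =>
    obtain ⟨φ, h1, h2⟩ := ih
    refine ⟨deriv φ, h1.deriv, fun z => ?_⟩
    rw [k1_parts h1, h2]
    ring

private theorem k1_decay {θ : ℝ → ℂ} (h : K1SC θ) (n : ℕ) :
    ∃ C : ℝ, ∀ z : ℂ, |z.im| ≤ 1 → ‖k1G θ z‖ * (1 + |z.re|) ^ n ≤ C := by
  obtain ⟨φ, h1, h2⟩ := k1_iter h n
  refine ⟨2 ^ n * ((∫ r : ℝ, Real.exp 1 * ‖θ r‖) + ∫ r : ℝ, Real.exp 1 * ‖φ r‖),
    fun z hz => ?_⟩
  have e0 := k1_bound h z hz
  have e1 := k1_bound h1 z hz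
  rw [h2, norm_mul, norm_pow, norm_neg, norm_mul, Complex.norm_I, one_mul] at e1
  have e2 : (1 + |z.re|) ^ n ≤ 2 ^ n * (1 + ‖z‖ ^ n) := by
    have e3 : 1 + |z.re| ≤ 2 * max 1 ‖z‖ := by
      have := Complex.abs_re_le_norm z
      have := le_max_left (1 : ℝ) ‖z‖
      have := le_max_right (1 : ℝ) ‖z‖
      linarith
    have e4 : (max 1 ‖z‖) ^ n ≤ 1 + ‖z‖ ^ n := by
      rcases max_cases (1 : ℝ) ‖z‖ with h3 | h3
      · rw [h3.1, one_pow]
        have : (0 : ℝ) ≤ ‖z‖ ^ n := by positivity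
        linarith
      · rw [h3.1]
        linarith
    calc (1 + |z.re|) ^ n ≤ (2 * max 1 ‖z‖) ^ n := pow_le_pow_left₀ (by positivity) e3 n
      _ = 2 ^ n * (max 1 ‖z‖) ^ n := mul_pow _ _ _
      _ ≤ _ := mul_le_mul_of_nonneg_left e4 (by positivity)
  calc ‖k1G θ z‖ * (1 + |z.re|) ^ n ≤ ‖k1G θ z‖ * (2 ^ n * (1 + ‖z‖ ^ n)) :=
        mul_le_mul_of_nonneg_left e2 (norm_nonneg _)
    _ = 2 ^ n * (‖k1G θ z‖ + ‖z‖ ^ n * ‖k1G θ z‖) := by ring
    _ ≤ _ := mul_le_mul_of_nonneg_left (add_le_add e0 e1) (by positivity)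

private theorem k1_diff {θ : ℝ → ℂ} (h : K1SC θ) : Differentiable ℂ (k1G θ) := by
  intro z₀
  have h1 := hasDerivAt_integral_of_dominated_loc_of_deriv_le (μ := volume) (𝕜 := ℂ)
    (F := fun z (r : ℝ) => θ r * cexp (I * r * z))
    (F' := fun z (r : ℝ) => θ r * (I * r * cexp (I * r * z))) (x₀ := z₀)
    (s := Metric.ball z₀ 1) (bound := fun r => Real.exp (‖z₀‖ + 1) * ‖θ r‖)
    (Metric.ball_mem_nhds z₀ one_pos)
    (Eventually.of_forall fun z => (h.int (k1_cont z)).aestronglyMeasurable)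
    (h.int (k1_cont z₀))
    (h.int (e := fun r : ℝ => I * r * cexp (I * r * z₀)) (by fun_prop)).aestronglyMeasurable
    (Eventually.of_forall fun r z hz => ?_) ?_ (Eventually.of_forall fun r z _ => ?_)
  · exact h1.2.differentiableAt
  · rw [norm_mul]
    by_cases hr : 1 < |r|
    · rw [h.zero r hr]
      simp
    · rw [mul_comm]
      refine mul_le_mul_of_nonneg_right ?_ (norm_nonneg _)
      rw [not_lt] at hr
      rw [norm_mul, norm_mul, Complex.norm_I, one_mul, Complex.norm_real, Real.norm_eq_abs,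
        Complex.norm_exp]
      have e : (I * (r : ℂ) * z).re = -(r * z.im) := by simp
      rw [e]
      have h2 : |r * z.im| ≤ ‖z₀‖ + 1 := by
        rw [abs_mul]
        have h3 : ‖z‖ ≤ ‖z₀‖ + 1 := by
          have h4 : dist z z₀ < 1 := hz
          rw [dist_eq_norm] at h4
          have h5 : ‖z‖ ≤ ‖z₀‖ + ‖z - z₀‖ := by
            have := norm_add_le z₀ (z - z₀)
            rwa [add_sub_cancel] at this
          linarith
        calc |r| * |z.im| ≤ 1 * |z.im| := mul_le_mul_of_nonneg_right hr (abs_nonneg _)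
          _ ≤ ‖z‖ := by
            rw [one_mul]
            exact Complex.abs_im_le_norm z
          _ ≤ _ := h3
      calc |r| * Real.exp (-(r * z.im)) ≤ 1 * Real.exp (-(r * z.im)) :=
            mul_le_mul_of_nonneg_right hr (Real.exp_pos _).le
        _ ≤ _ := by
            rw [one_mul, Real.exp_le_exp]
            linarith [neg_abs_le (r * z.im)]
  · have : Integrable θ := h.smooth.continuous.integrable_of_hasCompactSupport h.cs
    exact this.norm.const_mul _
  · have h2 : HasDerivAt (fun z : ℂ => I * (r : ℂ) * z) (I * r) z := by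
      simpa using (hasDerivAt_id z).const_mul (I * (r : ℂ))
    have h3 := h2.cexp.const_mul (θ r)
    rwa [mul_comm (cexp (I * (r : ℂ) * z)) (I * (r : ℂ))] at h3

private theorem k1_fInv {θ : ℝ → ℂ} (u : ℝ) :
    𝓕⁻ θ u = k1G θ ((2 * Real.pi * u : ℝ) : ℂ) := by
  rw [Real.fourierInv_eq_fourier_neg, Real.fourier_real_eq_integral_exp_smul]
  unfold k1G
  congr 1
  funext r
  rw [smul_eq_mul, mul_comm]
  congr 2
  push_cast
  ring

private theorem k1_inv {θ : ℝ → ℂ} (h : K1SC θ) (r : ℝ) :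
    psi (fun v : ℝ => ((2 * Real.pi)⁻¹ : ℂ) * k1G θ v) r = θ r := by
  have hi : Integrable θ := h.smooth.continuous.integrable_of_hasCompactSupport h.cs
  have hF : Integrable (𝓕 θ) := by
    have := (𝓕 (h.cs.toSchwartzMap h.smooth)).integrable (μ := volume)
    rw [SchwartzMap.fourier_coe] at this
    exact this
  have h1 := congrFun (h.smooth.continuous.fourier_fourierInv_eq hi hF) r
  rw [Real.fourier_real_eq_integral_exp_smul] at h1
  rw [← h1]
  have h2 := Measure.integral_comp_mul_left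
    (fun v : ℝ => k1G θ v * cexp (-(I * ((r * v : ℝ) : ℂ)))) (2 * Real.pi)
  have h3 : ∫ v : ℝ, cexp (((-2 * Real.pi * v * r : ℝ) : ℂ) * I) • 𝓕⁻ θ v =
      ∫ v : ℝ, k1G θ ((2 * Real.pi * v : ℝ) : ℂ) *
        cexp (-(I * ((r * (2 * Real.pi * v) : ℝ) : ℂ))) := by
    congr 1
    funext v
    rw [k1_fInv, smul_eq_mul, mul_comm]
    congr 2
    push_cast
    ring
  rw [h3, h2]
  unfold psi
  have h4 : |(2 * Real.pi)⁻¹| = (2 * Real.pi)⁻¹ := abs_of_pos (by positivity)
  rw [h4, Complex.real_smul, ← integral_const_mul]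
  congr 1
  funext v
  push_cast
  ring

theorem bump : Bump := by
  let b : ContDiffBump (0 : ℝ) := ⟨1 / 4, 1 / 2, by norm_num, by norm_num⟩
  let θ : ℝ → ℂ := fun r => ((b r : ℝ) : ℂ)
  have h0 : ∀ r : ℝ, 1 ≤ |r| → θ r = 0 := fun r hr => by
    have : b r = 0 := b.zero_of_le_dist (by
      rw [Real.dist_eq, sub_zero]
      show (1 / 2 : ℝ) ≤ |r|
      linarith)
    show ((b r : ℝ) : ℂ) = 0
    rw [this, Complex.ofReal_zero]
  have h1 : θ 0 = 1 := by
    have : b 0 = 1 := b.one_of_mem_closedBall (by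
      rw [Metric.mem_closedBall, dist_self]
      exact b.rIn_pos.le)
    show ((b 0 : ℝ) : ℂ) = 1
    rw [this, Complex.ofReal_one]
  have hS : K1SC θ := ⟨Complex.ofRealCLM.contDiff.comp b.contDiff, fun r hr => h0 r hr.le⟩
  refine ⟨fun z => ((2 * Real.pi)⁻¹ : ℂ) * k1G θ z, ?_, fun n => ?_, ?_, fun r hr => ?_⟩
  · exact (k1_diff hS).const_mul _
  · obtain ⟨C, hC⟩ := k1_decay hS n
    refine ⟨‖((2 * Real.pi)⁻¹ : ℂ)‖ * C, fun z hz => ?_⟩
    rw [norm_mul, mul_assoc]
    exact mul_le_mul_of_nonneg_left (hC z hz) (norm_nonneg _)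
  · have h2 := k1_inv hS 0
    unfold psi at h2
    rw [h1] at h2
    rw [← h2]
    congr 1
    funext v
    simp
  · rw [k1_inv hS r, h0 r hr]

end Pool.Agent.Lib.MP2
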