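import Mathlib
import Pool.Agent.Lib.MP_f9aece_nt_mp.StmtsP

/-!
Moments of the plain average of zeta over short windows, module K2.

HasDerivAt: fundamental theorem for int over Iic y (g continuous and integrable on R). Decay: for y <= 0, ||Th g y|| <= int_{Iic y} C_n (1+|u|)^(-n-2) du <= C (1+|y|)^(-n); for y >= 0, Th g y = 1 - int_{Ioi y} g, same bound for 1 - Th g y. Then Kk, Ss, ph are differences of two such terms with the same sign of the argument up to bounded ranges (for ph g R: v <= 0 both small, v >= 1 both within small of 1, 0 <= v <= 1 bounded); constants may depend on R. (about 150 lines)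
-/

set_option autoImplicit false

namespace Pool.Agent.Lib.MP2

open MeasureTheory Set Filter Topology Complex
open Pool.Agent.Lib.MS (psi Adm ZW MomentsT2)

namespace K2P

lemma rd_add {f h : ℝ → ℂ} (hf : RD f) (hh : RD h) : RD (fun v => f v + h v) := by
  intro n
  obtain ⟨C, hC⟩ := hf n
  obtain ⟨D, hD⟩ := hh n
  refine ⟨C + D, fun v => ?_⟩
  have h0 : 0 ≤ (1 + |v|) ^ n := by positivity
  calc ‖f v + h v‖ * (1 + |v|) ^ n ≤ (‖f v‖ + ‖h v‖) * (1 + |v|) ^ n := by
        gcongr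
        exact norm_add_le _ _
    _ = ‖f v‖ * (1 + |v|) ^ n + ‖h v‖ * (1 + |v|) ^ n := by ring
    _ ≤ C + D := add_le_add (hC v) (hD v)

lemma rd_neg {f : ℝ → ℂ} (hf : RD f) : RD (fun v => -f v) := by
  intro n
  obtain ⟨C, hC⟩ := hf n
  exact ⟨C, fun v => by rw [norm_neg]; exact hC v⟩

lemma rd_comp {f : ℝ → ℂ} (hf : RD f) {a : ℝ} (ha : a ≠ 0) (b : ℝ) : RD (fun v => f (a * v + b)) := by
  intro n
  obtain ⟨C, hC⟩ := hf n
  have ha' : 0 < |a| := abs_pos.mpr ha
  set c : ℝ := 1 + (1 + |b|) / |a| with hc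
  have hb := abs_nonneg b
  have hc1 : 0 ≤ c := by positivity
  refine ⟨C * c ^ n, fun v => ?_⟩
  have h1 : |a| * |v| ≤ |a * v + b| + |b| := by
    rw [← abs_mul]
    have := abs_sub (a * v + b) b
    rwa [add_sub_cancel_right] at this
  have h2 : 1 + |v| ≤ c * (1 + |a * v + b|) := by
    have h3 : |v| ≤ (|a * v + b| + |b|) / |a| := by
      rw [le_div_iff₀ ha']
      linarith
    have h4 : (|a * v + b| + |b|) / |a| ≤ (1 + |b|) / |a| * (1 + |a * v + b|) := by
      rw [div_mul_eq_mul_div]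
      gcongr
      nlinarith [abs_nonneg (a * v + b)]
    have h5 := abs_nonneg (a * v + b)
    rw [hc]
    nlinarith
  have h6 := hC (a * v + b)
  calc ‖f (a * v + b)‖ * (1 + |v|) ^ n ≤ ‖f (a * v + b)‖ * (c * (1 + |a * v + b|)) ^ n := by
        gcongr
    _ = (‖f (a * v + b)‖ * (1 + |a * v + b|) ^ n) * c ^ n := by rw [mul_pow]; ring
    _ ≤ C * c ^ n := by gcongr

lemma rd_ind : RD (fun v : ℝ => if 0 ≤ v ∧ v < 1 then 1 else 0) := by
  intro n
  refine ⟨2 ^ n, fun v => ?_⟩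
  beta_reduce
  by_cases h : 0 ≤ v ∧ v < 1
  · rw [if_pos h, norm_one, one_mul]
    have h1 : |v| ≤ 1 := by
      rw [abs_of_nonneg h.1]; exact h.2.le
    have h2 : 1 + |v| ≤ 2 := by linarith
    exact pow_le_pow_left₀ (by positivity) h2 n
  · rw [if_neg h, norm_zero, zero_mul]
    positivity

variable {g : ℂ → ℂ}

lemma cont_g (hg : BumpFn g) : Continuous (fun u : ℝ => g (u : ℂ)) :=
  hg.diff.continuous.comp Complex.continuous_ofReal

lemma rd_g (hg : BumpFn g) : RD (fun u : ℝ => g (u : ℂ)) := by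
  intro n
  obtain ⟨C, hC⟩ := hg.decay n
  refine ⟨C, fun y => ?_⟩
  have := hC (y : ℂ) (by simp)
  simpa using this

lemma int_pow (hg : BumpFn g) (n : ℕ) :
    Integrable (fun u : ℝ => (1 + |u|) ^ n * ‖g (u : ℂ)‖) := by
  obtain ⟨C, hC⟩ := rd_g hg (n + 2)
  refine Integrable.mono' (integrable_inv_one_add_sq.const_mul C) ?_ ?_
  · have h1 : Continuous (fun u : ℝ => (1 + |u|) ^ n) := by fun_prop
    exact (h1.mul (cont_g hg).norm).aestronglyMeasurable
  · refine Eventually.of_forall fun u => ?_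
    have h0 := abs_nonneg u
    rw [Real.norm_of_nonneg (by positivity)]
    have h2 : 0 < 1 + u ^ 2 := by positivity
    have h3 : 1 + u ^ 2 ≤ (1 + |u|) ^ 2 := by
      have := sq_abs u
      nlinarith [abs_nonneg u]
    rw [← div_eq_mul_inv, le_div_iff₀ h2]
    calc (1 + |u|) ^ n * ‖g (u : ℂ)‖ * (1 + u ^ 2)
        ≤ (1 + |u|) ^ n * ‖g (u : ℂ)‖ * (1 + |u|) ^ 2 := by gcongr
      _ = ‖g (u : ℂ)‖ * (1 + |u|) ^ (n + 2) := by ring
      _ ≤ C := hC u

lemma int_g (hg : BumpFn g) : Integrable (fun u : ℝ => g (u : ℂ)) := by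
  have h := int_pow hg 0
  simp only [pow_zero, one_mul] at h
  exact (integrable_norm_iff (cont_g hg).aestronglyMeasurable).mp h

lemma tail (hg : BumpFn g) (n : ℕ) {S : Set ℝ} (hS : MeasurableSet S) {y : ℝ}
    (hy : ∀ u ∈ S, |y| ≤ |u|) :
    ‖∫ u in S, g (u : ℂ)‖ * (1 + |y|) ^ n ≤ ∫ u : ℝ, (1 + |u|) ^ n * ‖g (u : ℂ)‖ := by
  have h0 : 0 ≤ (1 + |y|) ^ n := by positivity
  calc ‖∫ u in S, g (u : ℂ)‖ * (1 + |y|) ^ n
      ≤ (∫ u in S, ‖g (u : ℂ)‖) * (1 + |y|) ^ n := by
        gcongr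
        exact norm_integral_le_integral_norm _
    _ = ∫ u in S, ‖g (u : ℂ)‖ * (1 + |y|) ^ n := by rw [integral_mul_const]
    _ ≤ ∫ u in S, (1 + |u|) ^ n * ‖g (u : ℂ)‖ := by
        refine setIntegral_mono_on ((int_g hg).norm.integrableOn.mul_const _)
          (int_pow hg n).integrableOn hS ?_
        intro u hu
        have := hy u hu
        rw [mul_comm]
        gcongr
    _ ≤ ∫ u : ℝ, (1 + |u|) ^ n * ‖g (u : ℂ)‖ :=
        setIntegral_le_integral (int_pow hg n) (Eventually.of_forall fun u => by positivity)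

lemma one_sub (hg : BumpFn g) (y : ℝ) : 1 - Th g y = ∫ u in Ioi y, g (u : ℂ) := by
  have h := integral_add_compl (μ := volume) (s := Iic y) (f := fun u : ℝ => g (u : ℂ))
    measurableSet_Iic (int_g hg)
  rw [hg.one, compl_Iic] at h
  unfold Th
  rw [← h]
  ring

lemma rd_Ss (hg : BumpFn g) : RD (Ss g) := by
  intro n
  refine ⟨∫ u : ℝ, (1 + |u|) ^ n * ‖g (u : ℂ)‖, fun y => ?_⟩
  unfold Ss
  by_cases hy : 0 ≤ y
  · rw [if_pos hy, one_sub hg]
    refine tail hg n measurableSet_Ioi fun u hu => ?_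
    rw [mem_Ioi] at hu
    rw [abs_of_nonneg hy, abs_of_nonneg (by linarith)]
    exact hu.le
  · rw [if_neg hy, zero_sub, norm_neg]
    push Not at hy
    unfold Th
    refine tail hg n measurableSet_Iic fun u hu => ?_
    rw [mem_Iic] at hu
    rw [abs_of_neg hy, abs_of_neg (by linarith)]
    linarith

lemma th_eq (y : ℝ) : Th g y = (if 0 ≤ y then 1 else 0) - Ss g y := by
  unfold Ss; ring

lemma rd_Kk (hg : BumpFn g) : RD (Kk g) := by
  have h1 := rd_add (rd_Ss hg) (rd_neg (rd_comp (rd_Ss hg) (two_ne_zero) 0))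
  have e : Kk g = fun v => Ss g v + -(Ss g (2 * v + 0)) := by
    funext v
    unfold Kk
    rw [th_eq, th_eq v, add_zero]
    have : (0 ≤ 2 * v) ↔ 0 ≤ v := by constructor <;> intro h <;> linarith
    simp only [this]
    ring
  rw [e]
  exact h1

lemma rd_ph (hg : BumpFn g) {R : ℝ} (hR : 0 < R) : RD (ph g R) := by
  have h1 := rd_add rd_ind (rd_add (rd_comp (rd_Ss hg) hR.ne' (-R))
    (rd_neg (rd_comp (rd_Ss hg) hR.ne' 0)))
  have e : ph g R = fun v : ℝ => (if 0 ≤ v ∧ v < 1 then 1 else 0)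
      + (Ss g (R * v + -R) + -(Ss g (R * v + 0))) := by
    funext v
    unfold ph
    rw [th_eq, th_eq (R * (v - 1)), add_zero, show R * v + -R = R * (v - 1) by ring]
    have h2 : (0 ≤ R * v) ↔ 0 ≤ v := mul_nonneg_iff_of_pos_left hR
    have h3 : (0 ≤ R * (v - 1)) ↔ 1 ≤ v := by
      rw [mul_nonneg_iff_of_pos_left hR, sub_nonneg]
    simp only [h2, h3]
    by_cases ha : 0 ≤ v
    · by_cases hb : 1 ≤ v
      · rw [if_pos ha, if_pos hb, if_neg (by intro h; linarith [h.2])]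
        ring
      · rw [if_pos ha, if_neg hb, if_pos ⟨ha, not_le.mp hb⟩]
        ring
    · have hb : ¬ 1 ≤ v := by intro h; apply ha; linarith
      rw [if_neg ha, if_neg hb, if_neg (by intro h; exact ha h.1)]
      ring
  rw [e]
  exact h1

lemma deriv_Th (hg : BumpFn g) (y : ℝ) : HasDerivAt (Th g) (g (y : ℂ)) y := by
  have h1 : Th g = fun z => Th g 0 + ∫ u in (0 : ℝ)..z, g (u : ℂ) := by
    funext z
    have := intervalIntegral.integral_Iic_sub_Iic (μ := volume) (f := fun u : ℝ => g (u : ℂ))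
      (a := 0) (b := z) (int_g hg).integrableOn (int_g hg).integrableOn
    unfold Th
    rw [← this]
    ring
  rw [h1]
  have h2 := ((cont_g hg).integral_hasStrictDerivAt 0 y).hasDerivAt
  exact h2.const_add _

end K2P

theorem prim : Prim := fun _ hg => ⟨K2P.deriv_Th hg, K2P.rd_Kk hg, K2P.rd_Ss hg, fun _ hR => K2P.rd_ph hg hR⟩

end Pool.Agent.Lib.MP2
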