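import Mathlib
import Pool.Agent.Lib.MP_f9aece_nt_mp.StmtsP

/-!
Moments of the plain average of zeta over short windows, module K3.

int: RD (ph g R) with n = 3 and continuity (HasDerivAt). one: int_R (F(v) - F(v-1)) dv with F(v) = Th g (R v), F -> 0 at -oo, F -> 1 at +oo: e.g. ph g R v = int_{R(v-1)..Rv} g(u) du and Fubini (int over v of the indicator of R(v-1) <= u <= Rv is 1/R, substitute), or by int_{-A..A} (F(v)-F(v-1)) = int_{A-1..A} F - int_{-A-1..-A} F and limits. supp: h(v) = ph g R v has derivative R g(Rv) - R g(R(v-1)), decaying; integration by parts on R (integral_mul_deriv_eq_deriv_mul_of_integrable or Fourier): I r psi h r = psi h' r = psi g (r/R) (1 - exp(-I r)) = 0 for |r| >= R, r != 0. (about 150 lines)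
-/

set_option autoImplicit false

namespace Pool.Agent.Lib.MP2

open MeasureTheory Set Filter Topology Complex
open Pool.Agent.Lib.MS (psi Adm ZW MomentsT2)

private theorem k3_int_two : Integrable (fun v : ℝ => ((1 + |v|) ^ 2)⁻¹) := by
  have h := integrable_one_add_norm (E := ℝ) (μ := volume) (r := 2) (by norm_num)
  refine h.congr (Filter.Eventually.of_forall fun v => ?_)
  have h1 : (0 : ℝ) < 1 + ‖v‖ := by positivity
  simp only [Real.norm_eq_abs] at h1 ⊢
  rw [Real.rpow_neg h1.le]
  norm_num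

/-- a continuous function with quadratic decay is integrable -/
private theorem k3_int_of_decay {f : ℝ → ℂ} (hf : Continuous f) {C : ℝ}
    (h : ∀ v, ‖f v‖ * (1 + |v|) ^ 2 ≤ C) : Integrable f := by
  refine Integrable.mono' (k3_int_two.const_mul C) hf.aestronglyMeasurable
    (Filter.Eventually.of_forall fun v => ?_)
  have h1 : (0 : ℝ) < (1 + |v|) ^ 2 := by positivity
  rw [← div_eq_mul_inv, le_div_iff₀ h1]
  exact h v

private theorem k3_g_cont {g : ℂ → ℂ} (hg : BumpFn g) : Continuous (fun v : ℝ => g (v : ℂ)) :=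
  hg.diff.continuous.comp Complex.continuous_ofReal

private theorem k3_g_int {g : ℂ → ℂ} (hg : BumpFn g) : Integrable (fun v : ℝ => g (v : ℂ)) := by
  obtain ⟨C, hC⟩ := hg.decay 2
  refine k3_int_of_decay (k3_g_cont hg) (C := C) fun v => ?_
  have := hC (v : ℂ) (by simp)
  simpa using this

/-- the exponential -/
private noncomputable def k3e (r v : ℝ) : ℂ := cexp (-(I * ((r * v : ℝ) : ℂ)))

private theorem k3e_norm (r v : ℝ) : ‖k3e r v‖ = 1 := by
  unfold k3e
  rw [Complex.norm_exp]
  simp

private theorem k3e_cont (r : ℝ) : Continuous (k3e r) := by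
  unfold k3e
  fun_prop

private theorem k3e_cont' (v : ℝ) : Continuous (fun r => k3e r v) := by
  unfold k3e
  fun_prop

private theorem k3e_deriv (r v : ℝ) : HasDerivAt (k3e r) (-(I * (r : ℂ)) * k3e r v) v := by
  have h1 : HasDerivAt (fun v : ℝ => -(I * ((r * v : ℝ) : ℂ))) (-(I * (r : ℂ))) v := by
    have h2 : HasDerivAt (fun v : ℝ => ((r * v : ℝ) : ℂ)) (r : ℂ) v := by
      have h3 : HasDerivAt (fun v : ℝ => r * v) r v := by
        simpa using (hasDerivAt_id v).const_mul r
      exact h3.ofReal_comp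
    exact (h2.const_mul I).neg
  have h4 := h1.cexp
  unfold k3e
  rw [mul_comm]
  exact h4

private theorem k3_int_mul {f : ℝ → ℂ} (hf : Integrable f) (r : ℝ) :
    Integrable (fun v => f v * k3e r v) := by
  refine Integrable.mono' hf.norm (hf.aestronglyMeasurable.mul (k3e_cont r).aestronglyMeasurable)
    (Filter.Eventually.of_forall fun v => ?_)
  rw [norm_mul, k3e_norm, mul_one]

private theorem k3_psi_eq (f : ℝ → ℂ) (r : ℝ) : psi f r = ∫ v, f v * k3e r v := rfl

/-- the derivative of the smoothed indicator -/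
private theorem k3_ph_deriv {g : ℂ → ℂ} (hT : ∀ y : ℝ, HasDerivAt (Th g) (g (y : ℂ)) y) (R v : ℝ) :
    HasDerivAt (ph g R) ((R : ℂ) * g ((R * v : ℝ) : ℂ) - (R : ℂ) * g ((R * (v - 1) : ℝ) : ℂ)) v := by
  have h1 : HasDerivAt (fun v : ℝ => Th g (R * v)) ((R : ℂ) * g ((R * v : ℝ) : ℂ)) v := by
    have h2 : HasDerivAt (fun v : ℝ => R * v) R v := by
      simpa using (hasDerivAt_id v).const_mul R
    have h3 := (hT (R * v)).scomp v h2
    simpa [Function.comp_def, Complex.real_smul] using h3
  have h4 : HasDerivAt (fun v : ℝ => Th g (R * (v - 1))) ((R : ℂ) * g ((R * (v - 1) : ℝ) : ℂ)) v := by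
    have h2 : HasDerivAt (fun v : ℝ => R * (v - 1)) R v := by
      simpa using ((hasDerivAt_id v).sub_const 1).const_mul R
    have h3 := (hT (R * (v - 1))).scomp v h2
    simpa [Function.comp_def, Complex.real_smul] using h3
  exact h1.sub h4

private theorem k3_psi_scale (g : ℂ → ℂ) {R : ℝ} (hR : 0 < R) (r : ℝ) :
    ∫ v : ℝ, (R : ℂ) * g ((R * v : ℝ) : ℂ) * k3e r v = psi (fun v : ℝ => g v) (r / R) := by
  have h1 := Measure.integral_comp_mul_left (fun u : ℝ => g (u : ℂ) * k3e (r / R) u) R
  rw [k3_psi_eq]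
  have h2 : ∀ v : ℝ, (R : ℂ) * g ((R * v : ℝ) : ℂ) * k3e r v
      = (R : ℂ) * (g ((R * v : ℝ) : ℂ) * k3e (r / R) (R * v)) := by
    intro v
    have : k3e (r / R) (R * v) = k3e r v := by
      unfold k3e
      congr 4
      field_simp
    rw [this]
    ring
  simp_rw [h2]
  rw [integral_const_mul, h1]
  rw [abs_of_pos (inv_pos.mpr hR)]
  rw [Complex.real_smul, ← mul_assoc]
  have : (R : ℂ) * ((R⁻¹ : ℝ) : ℂ) = 1 := by
    rw [← Complex.ofReal_mul, mul_inv_cancel₀ hR.ne', Complex.ofReal_one]
  rw [this, one_mul]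

private theorem k3_psi_scale' (g : ℂ → ℂ) {R : ℝ} (hR : 0 < R) (r : ℝ) :
    ∫ v : ℝ, (R : ℂ) * g ((R * (v - 1) : ℝ) : ℂ) * k3e r v
      = k3e r 1 * psi (fun v : ℝ => g v) (r / R) := by
  have h1 := integral_sub_right_eq_self (μ := (volume : Measure ℝ))
    (fun v : ℝ => (R : ℂ) * g ((R * v : ℝ) : ℂ) * (k3e r 1 * k3e r v)) 1
  have h2 : ∀ v : ℝ, (R : ℂ) * g ((R * (v - 1) : ℝ) : ℂ) * k3e r v
      = (R : ℂ) * g ((R * (v - 1) : ℝ) : ℂ) * (k3e r 1 * k3e r (v - 1)) := by
    intro v
    have : k3e r 1 * k3e r (v - 1) = k3e r v := by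
      unfold k3e
      rw [← Complex.exp_add]
      congr 1
      push_cast
      ring
    rw [this]
  simp_rw [h2]
  rw [h1]
  rw [← k3_psi_scale g hR r, ← integral_const_mul]
  congr 1
  ext v
  ring

theorem phAdm (hP : Prim) : PhAdm := by
  intro g hg R hR
  obtain ⟨hT, -, -, hRD⟩ := hP g hg
  have hph : RD (ph g R) := hRD R hR
  have hcont : Continuous (ph g R) := by
    rw [continuous_iff_continuousAt]
    intro v
    exact (k3_ph_deriv hT R v).continuousAt
  have hint : Integrable (ph g R) := by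
    obtain ⟨C, hC⟩ := hph 2
    exact k3_int_of_decay hcont hC
  have hgc := k3_g_cont hg
  have hgi := k3_g_int hg
  have hi1 : Integrable (fun v : ℝ => (R : ℂ) * g ((R * v : ℝ) : ℂ)) :=
    (hgi.comp_mul_left' hR.ne').const_mul _
  have hi2 : Integrable (fun v : ℝ => (R : ℂ) * g ((R * (v - 1) : ℝ) : ℂ)) :=
    hi1.comp_sub_right 1
  have key : ∀ r : ℝ, I * (r : ℂ) * psi (ph g R) r
      = (1 - k3e r 1) * psi (fun v : ℝ => g v) (r / R) := by
    intro r
    have hu := fun v => k3_ph_deriv hT R v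
    have hv := fun v => k3e_deriv r v
    have h1 := integral_mul_deriv_eq_deriv_mul_of_integrable (A := ℂ) (u := ph g R) (v := k3e r)
      (u' := fun v => (R : ℂ) * g ((R * v : ℝ) : ℂ) - (R : ℂ) * g ((R * (v - 1) : ℝ) : ℂ))
      (v' := fun v => -(I * (r : ℂ)) * k3e r v) (fun v _ => hu v) (fun v _ => hv v)
      (by
        have := (k3_int_mul hint r).const_mul (-(I * (r : ℂ)))
        refine this.congr (Filter.Eventually.of_forall fun v => ?_)
        simp only [Pi.mul_apply]
        ring)
      (k3_int_mul (hi1.sub hi2) r) (k3_int_mul hint r)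
    have h2 : ∫ v, ph g R v * (-(I * (r : ℂ)) * k3e r v) = -(I * (r : ℂ)) * psi (ph g R) r := by
      rw [k3_psi_eq, ← integral_const_mul]
      congr 1
      ext v
      ring
    rw [h2] at h1
    have h3 : ∫ v, ((R : ℂ) * g ((R * v : ℝ) : ℂ) - (R : ℂ) * g ((R * (v - 1) : ℝ) : ℂ)) * k3e r v
        = psi (fun v : ℝ => g v) (r / R) - k3e r 1 * psi (fun v : ℝ => g v) (r / R) := by
      simp_rw [sub_mul]
      rw [integral_sub (k3_int_mul hi1 r) (k3_int_mul hi2 r), k3_psi_scale g hR, k3_psi_scale' g hR]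
    rw [h3] at h1
    linear_combination -h1
  refine ⟨hR, ?_, ?_, ?_⟩
  · obtain ⟨C, hC⟩ := hph 3
    refine k3_int_of_decay (C := C) ?_ fun v => ?_
    · exact (Complex.continuous_ofReal.comp (by fun_prop)).mul hcont
    · have h1 : (0 : ℝ) ≤ 1 + |v| := by positivity
      rw [norm_mul, Complex.norm_real, Real.norm_eq_abs, abs_of_nonneg h1]
      calc (1 + |v|) * ‖ph g R v‖ * (1 + |v|) ^ 2 = ‖ph g R v‖ * (1 + |v|) ^ 3 := by ring
        _ ≤ C := hC v
  · -- continuity of the transforms at zero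
    have hc1 : ∀ f : ℝ → ℂ, Integrable f → Continuous (psi f) := by
      intro f hf
      have : psi f = fun r => ∫ v, f v * k3e r v := rfl
      rw [this]
      refine continuous_of_dominated (F := fun r v => f v * k3e r v) (bound := fun v => ‖f v‖) ?_ ?_ hf.norm ?_
      · intro r
        exact (k3_int_mul hf r).aestronglyMeasurable
      · intro r
        refine Filter.Eventually.of_forall fun v => ?_
        rw [norm_mul, k3e_norm, mul_one]
      · refine Filter.Eventually.of_forall fun v => ?_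
        exact continuous_const.mul (k3e_cont' v)
    have h0 : psi (ph g R) 0 = ∫ v, ph g R v := by
      rw [k3_psi_eq]
      congr 1
      ext v
      simp [k3e]
    have hg0 : psi (fun v : ℝ => g v) 0 = 1 := by
      rw [k3_psi_eq, ← hg.one]
      congr 1
      ext v
      simp [k3e]
    have hl1 : Tendsto (psi (ph g R)) (𝓝[≠] 0) (𝓝 (psi (ph g R) 0)) :=
      ((hc1 _ hint).tendsto 0).mono_left nhdsWithin_le_nhds
    have hl2 : Tendsto (fun r : ℝ => psi (fun v : ℝ => g v) (r / R)) (𝓝[≠] 0) (𝓝 1) := by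
      have hc : Continuous (fun r : ℝ => psi (fun v : ℝ => g v) (r / R)) :=
        (hc1 _ hgi).comp (continuous_id.div_const R)
      have := (hc.tendsto 0).mono_left (nhdsWithin_le_nhds (s := {0}ᶜ))
      simpa [hg0] using this
    have hl3 : Tendsto (fun r : ℝ => (1 - k3e r 1) / (I * (r : ℂ))) (𝓝[≠] 0) (𝓝 1) := by
      have hd : HasDerivAt (fun r : ℝ => k3e r 1) (-I) 0 := by
        have h := k3e_deriv 1 0
        have h' : (fun r : ℝ => k3e r 1) = k3e 1 := by
          ext r
          simp [k3e]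
        rw [h']
        simpa [k3e] using h
      have hs := hd.tendsto_slope
      have hs2 := hs.mul_const (-(I⁻¹))
      have e1 : (-I) * (-(I⁻¹)) = 1 := by
        rw [neg_mul_neg, mul_inv_cancel₀ Complex.I_ne_zero]
      rw [e1] at hs2
      refine hs2.congr' ?_
      filter_upwards [self_mem_nhdsWithin] with r hr
      have hr' : (r : ℂ) ≠ 0 := by
        simpa using hr
      rw [slope_def_module]
      have h00 : k3e 0 1 = 1 := by simp [k3e]
      rw [h00, sub_zero, Complex.real_smul]
      have hI := Complex.I_ne_zero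
      push_cast
      field_simp
      ring
    have hl4 : Tendsto (psi (ph g R)) (𝓝[≠] 0) (𝓝 1) := by
      have := hl3.mul hl2
      rw [one_mul] at this
      refine this.congr' ?_
      filter_upwards [self_mem_nhdsWithin] with r hr
      have hr' : (r : ℂ) ≠ 0 := by
        simpa using hr
      have hI := Complex.I_ne_zero
      rw [div_mul_eq_mul_div, ← key r]
      field_simp
    have := tendsto_nhds_unique hl1 hl4
    rw [← h0, this]
  · intro r hr
    have hr0 : r ≠ 0 := by
      intro h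
      rw [h, abs_zero] at hr
      linarith
    have h1 : 1 ≤ |r / R| := by
      rw [abs_div, abs_of_pos hR, le_div_iff₀ hR, one_mul]
      exact hr
    have h2 := key r
    rw [hg.supp _ h1, mul_zero] at h2
    have h3 : I * (r : ℂ) ≠ 0 := mul_ne_zero Complex.I_ne_zero (by exact_mod_cast hr0)
    exact (mul_eq_zero.mp h2).resolve_left h3

end Pool.Agent.Lib.MP2
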