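import Mathlib
import Pool.Agent.Lib.MP_f9aece_nt_mp.StmtsP

/-!
Moments of the plain average of zeta over short windows, module K4.

Kk g has derivative 2 g(2y) - g(y), rapidly decreasing, Kk g rapidly decreasing; integration by parts: I r psi (Kk g) r = psi (2 g(2 .) - g) r = psi g (r/2) - psi g r = 0 for |r| >= 2. (about 80 lines; same technique as PK3)
-/

set_option autoImplicit false

namespace Pool.Agent.Lib.MP2

open MeasureTheory Set Filter Topology Complex
open Pool.Agent.Lib.MS (psi Adm ZW MomentsT2)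

private theorem k4_int_two : Integrable (fun v : ℝ => ((1 + |v|) ^ 2)⁻¹) := by
  have h := integrable_one_add_norm (E := ℝ) (μ := volume) (r := 2) (by norm_num)
  refine h.congr (Filter.Eventually.of_forall fun v => ?_)
  have h1 : (0 : ℝ) < 1 + ‖v‖ := by positivity
  simp only [Real.norm_eq_abs] at h1 ⊢
  rw [Real.rpow_neg h1.le]
  norm_num

/-- a continuous function with quadratic decay is integrable -/
private theorem k4_int_of_decay {f : ℝ → ℂ} (hf : Continuous f) {C : ℝ}
    (h : ∀ v, ‖f v‖ * (1 + |v|) ^ 2 ≤ C) : Integrable f := by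
  refine Integrable.mono' (k4_int_two.const_mul C) hf.aestronglyMeasurable
    (Filter.Eventually.of_forall fun v => ?_)
  have h1 : (0 : ℝ) < (1 + |v|) ^ 2 := by positivity
  rw [← div_eq_mul_inv, le_div_iff₀ h1]
  exact h v

private theorem k4_g_cont {g : ℂ → ℂ} (hg : BumpFn g) : Continuous (fun v : ℝ => g (v : ℂ)) :=
  hg.diff.continuous.comp Complex.continuous_ofReal

private theorem k4_g_int {g : ℂ → ℂ} (hg : BumpFn g) : Integrable (fun v : ℝ => g (v : ℂ)) := by
  obtain ⟨C, hC⟩ := hg.decay 2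
  refine k4_int_of_decay (k4_g_cont hg) (C := C) fun v => ?_
  have := hC (v : ℂ) (by simp)
  simpa using this

/-- the exponential -/
private noncomputable def k4e (r v : ℝ) : ℂ := cexp (-(I * ((r * v : ℝ) : ℂ)))

private theorem k4e_norm (r v : ℝ) : ‖k4e r v‖ = 1 := by
  unfold k4e
  rw [Complex.norm_exp]
  simp

private theorem k4e_cont (r : ℝ) : Continuous (k4e r) := by
  unfold k4e
  fun_prop

private theorem k4e_deriv (r v : ℝ) : HasDerivAt (k4e r) (-(I * (r : ℂ)) * k4e r v) v := by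
  have h1 : HasDerivAt (fun v : ℝ => -(I * ((r * v : ℝ) : ℂ))) (-(I * (r : ℂ))) v := by
    have h2 : HasDerivAt (fun v : ℝ => ((r * v : ℝ) : ℂ)) (r : ℂ) v := by
      have h3 : HasDerivAt (fun v : ℝ => r * v) r v := by
        simpa using (hasDerivAt_id v).const_mul r
      exact h3.ofReal_comp
    exact (h2.const_mul I).neg
  have h4 := h1.cexp
  unfold k4e
  rw [mul_comm]
  exact h4

private theorem k4_int_mul {f : ℝ → ℂ} (hf : Integrable f) (r : ℝ) :
    Integrable (fun v => f v * k4e r v) := by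
  refine Integrable.mono' hf.norm (hf.aestronglyMeasurable.mul (k4e_cont r).aestronglyMeasurable)
    (Filter.Eventually.of_forall fun v => ?_)
  rw [norm_mul, k4e_norm, mul_one]

private theorem k4_psi_eq (f : ℝ → ℂ) (r : ℝ) : psi f r = ∫ v, f v * k4e r v := rfl

private theorem k4_scale_deriv {g : ℂ → ℂ} (hT : ∀ y : ℝ, HasDerivAt (Th g) (g (y : ℂ)) y)
    (R v : ℝ) : HasDerivAt (fun v : ℝ => Th g (R * v)) ((R : ℂ) * g ((R * v : ℝ) : ℂ)) v := by
  have h2 : HasDerivAt (fun v : ℝ => R * v) R v := by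
    simpa using (hasDerivAt_id v).const_mul R
  have h3 := (hT (R * v)).scomp v h2
  simpa [Function.comp_def, Complex.real_smul] using h3

private theorem k4_psi_scale (g : ℂ → ℂ) {R : ℝ} (hR : 0 < R) (r : ℝ) :
    ∫ v : ℝ, (R : ℂ) * g ((R * v : ℝ) : ℂ) * k4e r v = psi (fun v : ℝ => g v) (r / R) := by
  have h1 := Measure.integral_comp_mul_left (fun u : ℝ => g (u : ℂ) * k4e (r / R) u) R
  rw [k4_psi_eq]
  have h2 : ∀ v : ℝ, (R : ℂ) * g ((R * v : ℝ) : ℂ) * k4e r v
      = (R : ℂ) * (g ((R * v : ℝ) : ℂ) * k4e (r / R) (R * v)) := by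
    intro v
    have : k4e (r / R) (R * v) = k4e r v := by
      unfold k4e
      congr 4
      field_simp
    rw [this]
    ring
  simp_rw [h2]
  rw [integral_const_mul, h1]
  rw [abs_of_pos (inv_pos.mpr hR)]
  rw [Complex.real_smul, ← mul_assoc]
  have : (R : ℂ) * ((R⁻¹ : ℝ) : ℂ) = 1 := by
    rw [← Complex.ofReal_mul, mul_inv_cancel₀ hR.ne', Complex.ofReal_one]
  rw [this, one_mul]

theorem kkSupp (hP : Prim) : KkSupp := by
  intro g hg r hr
  obtain ⟨hT, hKk, -, -⟩ := hP g hg
  have hder : ∀ v : ℝ, HasDerivAt (Kk g)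
      (((2 : ℝ) : ℂ) * g ((2 * v : ℝ) : ℂ) - g (v : ℂ)) v := fun v =>
    (k4_scale_deriv hT 2 v).sub (hT v)
  have hcont : Continuous (Kk g) := by
    rw [continuous_iff_continuousAt]
    intro v
    exact (hder v).continuousAt
  have hint : Integrable (Kk g) := by
    obtain ⟨C, hC⟩ := hKk 2
    exact k4_int_of_decay hcont hC
  have hgi := k4_g_int hg
  have hi1 : Integrable (fun v : ℝ => ((2 : ℝ) : ℂ) * g ((2 * v : ℝ) : ℂ)) :=
    (hgi.comp_mul_left' (two_ne_zero)).const_mul _
  have key : I * (r : ℂ) * psi (Kk g) r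
      = psi (fun v : ℝ => g v) (r / 2) - psi (fun v : ℝ => g v) r := by
    have hv := fun v => k4e_deriv r v
    have h1 := integral_mul_deriv_eq_deriv_mul_of_integrable (A := ℂ) (u := Kk g) (v := k4e r)
      (u' := fun v => ((2 : ℝ) : ℂ) * g ((2 * v : ℝ) : ℂ) - g (v : ℂ))
      (v' := fun v => -(I * (r : ℂ)) * k4e r v) (fun v _ => hder v) (fun v _ => hv v)
      (by
        have := (k4_int_mul hint r).const_mul (-(I * (r : ℂ)))
        refine this.congr (Filter.Eventually.of_forall fun v => ?_)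
        simp only [Pi.mul_apply]
        ring)
      (k4_int_mul (hi1.sub hgi) r) (k4_int_mul hint r)
    have h2 : ∫ v, Kk g v * (-(I * (r : ℂ)) * k4e r v) = -(I * (r : ℂ)) * psi (Kk g) r := by
      rw [k4_psi_eq, ← integral_const_mul]
      congr 1
      ext v
      ring
    rw [h2] at h1
    have h3 : ∫ v, (((2 : ℝ) : ℂ) * g ((2 * v : ℝ) : ℂ) - g (v : ℂ)) * k4e r v
        = psi (fun v : ℝ => g v) (r / 2) - psi (fun v : ℝ => g v) r := by
      simp_rw [sub_mul]
      rw [integral_sub (k4_int_mul hi1 r) (k4_int_mul hgi r),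
        k4_psi_scale g (by norm_num : (0 : ℝ) < 2)]
      rfl
    rw [h3] at h1
    linear_combination -h1
  have hr1 : 1 ≤ |r / 2| := by
    rw [abs_div, abs_two, le_div_iff₀ (by norm_num : (0 : ℝ) < 2)]
    linarith
  rw [hg.supp _ hr1, hg.supp r (by linarith), sub_zero] at key
  have hr0 : r ≠ 0 := by
    rintro rfl
    norm_num at hr
  rcases mul_eq_zero.1 key with h | h
  · rcases mul_eq_zero.1 h with h | h
    · exact absurd h I_ne_zero
    · exact absurd (Complex.ofReal_eq_zero.1 h) hr0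
  · exact h

end Pool.Agent.Lib.MP2
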