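import Mathlib
import Pool.Agent.Lib.MP_f9aece_nt_mp.StmtsP
import Pool.Agent.Lib.MP_f9aece_nt_mp.K6Cont
import Pool.Agent.Lib.MP_f9aece_nt_ms.Z2Ident

/-!
Moments of the plain average of zeta over short windows, module K5.

Take g from Bump, psi0 v = g v, c = int kappa, kappa1 = kappa + (1 - c) psi0: Adm kappa1 (max R 1) and Adm psi0 1 (integrable with weight 1+|v| from RD n = 3; int = 1; supports). kappa = kappa1 - (1-c) psi0, ZW is linear (integrability of zeta(1/2+i(t+Hv)) times RD kernels: |zeta(1/2+iu)| <= C (1+|u|), see MP_f9aece_nt_ms/Z1Approx, Z2Ident), so ||ZW kappa H t||^p <= 2^p (||ZW kappa1||^p + ||(1-c) ZW psi0||^p), both averages <= (c_i + 1) H^(-k^2) with k = p/2 by MomentsT2 with eps = 1 (exponent (p/2)^2 = p^2/4). Interval integrability by continuity (ZW is continuous in t). (about 100 lines)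
-/

set_option autoImplicit false

namespace Pool.Agent.Lib.MP2

open MeasureTheory Set Filter Topology Complex
open Pool.Agent.Lib.MS (psi Adm ZW MomentsT2)

private theorem k5_int_two : Integrable (fun v : ℝ => ((1 + |v|) ^ 2)⁻¹) := by
  have h := integrable_one_add_norm (E := ℝ) (μ := volume) (r := 2) (by norm_num)
  refine h.congr (Filter.Eventually.of_forall fun v => ?_)
  have h1 : (0 : ℝ) < 1 + ‖v‖ := by positivity
  simp only [Real.norm_eq_abs] at h1 ⊢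
  rw [Real.rpow_neg h1.le]
  norm_num

private theorem k5_int_of_decay {f : ℝ → ℂ} (hf : Continuous f) {C : ℝ}
    (h : ∀ v, ‖f v‖ * (1 + |v|) ^ 2 ≤ C) : Integrable f := by
  refine Integrable.mono' (k5_int_two.const_mul C) hf.aestronglyMeasurable
    (Filter.Eventually.of_forall fun v => ?_)
  have h1 : (0 : ℝ) < (1 + |v|) ^ 2 := by positivity
  rw [← div_eq_mul_inv, le_div_iff₀ h1]
  exact h v

private theorem k5_weight {f : ℝ → ℂ} (hf : Continuous f) (h : RD f) :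
    Integrable (fun v : ℝ => ((1 + |v| : ℝ) : ℂ) * f v) := by
  obtain ⟨C, hC⟩ := h 3
  refine k5_int_of_decay (C := C) ?_ fun v => ?_
  · exact (Complex.continuous_ofReal.comp (by fun_prop)).mul hf
  · have h1 : (0 : ℝ) ≤ 1 + |v| := by positivity
    rw [norm_mul, Complex.norm_real, Real.norm_eq_abs, abs_of_nonneg h1]
    calc (1 + |v|) * ‖f v‖ * (1 + |v|) ^ 2 = ‖f v‖ * (1 + |v|) ^ 3 := by ring
      _ ≤ C := hC v

private theorem k5_int {f : ℝ → ℂ} (hf : Continuous f) (h : RD f) : Integrable f := by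
  obtain ⟨C, hC⟩ := h 2
  exact k5_int_of_decay hf hC

private theorem k5_psi_int {f : ℝ → ℂ} (hf : Integrable f) (r : ℝ) :
    Integrable (fun v => f v * cexp (-(I * ((r * v : ℝ) : ℂ)))) := by
  refine Integrable.mono' hf.norm (hf.aestronglyMeasurable.mul
    (Continuous.aestronglyMeasurable (by fun_prop))) (Filter.Eventually.of_forall fun v => ?_)
  rw [norm_mul, Complex.norm_exp]
  simp

private theorem k5_rd_add {f g : ℝ → ℂ} (hf : RD f) (hg : RD g) (c : ℂ) :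
    RD (fun v => f v + c * g v) := by
  intro n
  obtain ⟨A, hA⟩ := hf n
  obtain ⟨B, hB⟩ := hg n
  refine ⟨A + ‖c‖ * B, fun y => ?_⟩
  have h1 : (0 : ℝ) ≤ (1 + |y|) ^ n := by positivity
  have h2 := hA y
  have h3 := mul_le_mul_of_nonneg_left (hB y) (norm_nonneg c)
  calc ‖f y + c * g y‖ * (1 + |y|) ^ n ≤ (‖f y‖ + ‖c‖ * ‖g y‖) * (1 + |y|) ^ n := by
        refine mul_le_mul_of_nonneg_right ?_ h1
        exact (norm_add_le _ _).trans (by rw [norm_mul])
    _ = ‖f y‖ * (1 + |y|) ^ n + ‖c‖ * (‖g y‖ * (1 + |y|) ^ n) := by ring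
    _ ≤ _ := by linarith

private theorem k5_norm_pow (a b : ℂ) {p : ℝ} (hp : 0 < p) :
    ‖a - b‖ ^ p ≤ 2 ^ p * (‖a‖ ^ p + ‖b‖ ^ p) := by
  have h0 : ‖a - b‖ ≤ 2 * max ‖a‖ ‖b‖ := by
    have h1 := norm_sub_le a b
    have h2 := le_max_left ‖a‖ ‖b‖
    have h3 := le_max_right ‖a‖ ‖b‖
    linarith
  have hm : 0 ≤ max ‖a‖ ‖b‖ := (norm_nonneg a).trans (le_max_left _ _)
  calc ‖a - b‖ ^ p ≤ (2 * max ‖a‖ ‖b‖) ^ p := Real.rpow_le_rpow (norm_nonneg _) h0 hp.le
    _ = 2 ^ p * (max ‖a‖ ‖b‖) ^ p := Real.mul_rpow (by norm_num) hm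
    _ ≤ 2 ^ p * (‖a‖ ^ p + ‖b‖ ^ p) := by
        refine mul_le_mul_of_nonneg_left ?_ (by positivity)
        have h1 : 0 ≤ ‖a‖ ^ p := Real.rpow_nonneg (norm_nonneg _) _
        have h2 : 0 ≤ ‖b‖ ^ p := Real.rpow_nonneg (norm_nonneg _) _
        rcases max_cases ‖a‖ ‖b‖ with h | h
        · rw [h.1]; linarith
        · rw [h.1]; linarith

theorem upClass (h2 : MomentsT2) (hB : Bump) : UpClass := by
  intro κ R hR hRD hκ hsupp p hp
  obtain ⟨g, hg⟩ := hB
  have hgc : Continuous (fun v : ℝ => g (v : ℂ)) := hg.diff.continuous.comp Complex.continuous_ofReal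
  have hgRD : RD (fun v : ℝ => g (v : ℂ)) := by
    intro n
    obtain ⟨C, hC⟩ := hg.decay n
    refine ⟨C, fun y => ?_⟩
    have := hC (y : ℂ) (by simp)
    simpa using this
  have hA0 : Adm (fun v : ℝ => g (v : ℂ)) 1 :=
    ⟨one_pos, k5_weight hgc hgRD, hg.one, hg.supp⟩
  obtain ⟨c, hc⟩ : ∃ c : ℂ, c = 1 - ∫ v, κ v := ⟨_, rfl⟩
  have hκ1c : Continuous (fun v => κ v + c * g (v : ℂ)) := hκ.add (continuous_const.mul hgc)
  have hκ1RD : RD (fun v => κ v + c * g (v : ℂ)) := k5_rd_add hRD hgRD c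
  have hκi := k5_int hκ hRD
  have hgi := k5_int hgc hgRD
  have hA1 : Adm (fun v => κ v + c * g (v : ℂ)) (max R 1) := by
    refine ⟨lt_of_lt_of_le hR (le_max_left _ _), k5_weight hκ1c hκ1RD, ?_, ?_⟩
    · rw [integral_add hκi (hgi.const_mul c), integral_const_mul, hg.one, mul_one, hc]
      ring
    · intro r hr
      have h3 : psi (fun v => κ v + c * g (v : ℂ)) r
          = psi κ r + c * psi (fun v : ℝ => g (v : ℂ)) r := by
        unfold psi
        rw [← integral_const_mul, ← integral_add (k5_psi_int hκi r)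
          ((k5_psi_int hgi r).const_mul c)]
        congr 1
        ext v
        ring
      rw [h3, hsupp r ((le_max_left _ _).trans hr), hg.supp r ((le_max_right _ _).trans hr),
        mul_zero, add_zero]
  obtain ⟨c1, hc1, h21⟩ := h2 _ _ hA1 (p / 2) (by positivity)
  obtain ⟨C1, hC1, h21⟩ := h21 1 one_pos
  obtain ⟨c0, hc0, h20⟩ := h2 _ _ hA0 (p / 2) (by positivity)
  obtain ⟨C0, hC0, h20⟩ := h20 1 one_pos
  have hlin : ∀ H t : ℝ, 0 < H → ZW κ H t
      = ZW (fun v => κ v + c * g (v : ℂ)) H t - c * ZW (fun v : ℝ => g (v : ℂ)) H t := by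
    intro H t hH
    have i1 := Pool.Agent.Lib.MS.Z2I.int_zeta hA1 hH t
    have i0 := Pool.Agent.Lib.MS.Z2I.int_zeta hA0 hH t
    unfold ZW
    rw [← integral_const_mul, ← integral_sub i1 (i0.const_mul c)]
    congr 1
    ext v
    ring
  have hcont1 : ∀ H : ℝ, Continuous (ZW (fun v => κ v + c * g (v : ℂ)) H) := fun H =>
    K6C.cont_ZW hκ1c.aestronglyMeasurable hκ1RD H
  have hcont0 : ∀ H : ℝ, Continuous (ZW (fun v : ℝ => g (v : ℂ)) H) := fun H =>
    K6C.cont_ZW hgc.aestronglyMeasurable hgRD H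
  have hcontκ : ∀ H : ℝ, Continuous (ZW κ H) := fun H =>
    K6C.cont_ZW hκ.aestronglyMeasurable hRD H
  obtain ⟨D, hD⟩ : ∃ D : ℝ, D = 2 ^ p * ((c1 + 1) + ‖c‖ ^ p * (c0 + 1)) := ⟨_, rfl⟩
  refine ⟨max 1 (max (max C1 C0) D), le_max_left _ _, ?_⟩
  intro H T hH hCH hT hCT x
  have hCC1 : C1 ≤ max 1 (max (max C1 C0) D) :=
    (le_max_left C1 C0).trans ((le_max_left _ _).trans (le_max_right _ _))
  have hCC0 : C0 ≤ max 1 (max (max C1 C0) D) :=
    (le_max_right C1 C0).trans ((le_max_left _ _).trans (le_max_right _ _))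
  have hCD : D ≤ max 1 (max (max C1 C0) D) := (le_max_right _ _).trans (le_max_right _ _)
  have e1 := h21 H T hH ((mul_le_mul_of_nonneg_right hCC1 hH.le).trans hCH) hT (hCC1.trans hCT) x
  have e0 := h20 H T hH ((mul_le_mul_of_nonneg_right hCC0 hH.le).trans hCH) hT (hCC0.trans hCT) x
  have hexp : (-((p / 2) ^ 2) : ℝ) = -(p ^ 2 / 4) := by ring
  have h2p : (2 * (p / 2) : ℝ) = p := by ring
  rw [hexp, h2p] at e1 e0
  have hHp : 0 ≤ H ^ (-(p ^ 2 / 4)) := Real.rpow_nonneg hH.le _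
  have a1 : T⁻¹ * (∫ t in x..(x + T), ‖ZW (fun v => κ v + c * g (v : ℂ)) H t‖ ^ p)
      ≤ (c1 + 1) * H ^ (-(p ^ 2 / 4)) := by
    have := (abs_le.1 e1).2
    linarith
  have a0 : T⁻¹ * (∫ t in x..(x + T), ‖ZW (fun v : ℝ => g (v : ℂ)) H t‖ ^ p)
      ≤ (c0 + 1) * H ^ (-(p ^ 2 / 4)) := by
    have := (abs_le.1 e0).2
    linarith
  have hT0 : 0 < T := by linarith
  have hpc : ∀ f : ℝ → ℂ, Continuous f → Continuous (fun t => ‖f t‖ ^ p) := fun f hf =>
    hf.norm.rpow_const (fun _ => Or.inr hp.le)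
  have hmono : ∫ t in x..(x + T), ‖ZW κ H t‖ ^ p ≤ ∫ t in x..(x + T),
      (2 ^ p * ‖ZW (fun v => κ v + c * g (v : ℂ)) H t‖ ^ p
        + 2 ^ p * ‖c‖ ^ p * ‖ZW (fun v : ℝ => g (v : ℂ)) H t‖ ^ p) := by
    refine intervalIntegral.integral_mono_on (by linarith)
      ((hpc _ (hcontκ H)).intervalIntegrable _ _)
      (Continuous.intervalIntegrable (((hpc _ (hcont1 H)).const_mul _).add
        ((hpc _ (hcont0 H)).const_mul _)) _ _) fun t _ => ?_
    rw [hlin H t hH]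
    refine (k5_norm_pow _ _ hp).trans (le_of_eq ?_)
    rw [norm_mul, Real.mul_rpow (norm_nonneg _) (norm_nonneg _)]
    ring
  have hsplit : ∫ t in x..(x + T),
      (2 ^ p * ‖ZW (fun v => κ v + c * g (v : ℂ)) H t‖ ^ p
        + 2 ^ p * ‖c‖ ^ p * ‖ZW (fun v : ℝ => g (v : ℂ)) H t‖ ^ p)
      = 2 ^ p * (∫ t in x..(x + T), ‖ZW (fun v => κ v + c * g (v : ℂ)) H t‖ ^ p)
        + 2 ^ p * ‖c‖ ^ p * ∫ t in x..(x + T), ‖ZW (fun v : ℝ => g (v : ℂ)) H t‖ ^ p := by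
    rw [intervalIntegral.integral_add
      (((hpc _ (hcont1 H)).const_mul _).intervalIntegrable _ _)
      (((hpc _ (hcont0 H)).const_mul _).intervalIntegrable _ _),
      intervalIntegral.integral_const_mul, intervalIntegral.integral_const_mul]
  have hcp : 0 ≤ ‖c‖ ^ p := Real.rpow_nonneg (norm_nonneg _) _
  have h2p0 : (0 : ℝ) < 2 ^ p := by positivity
  calc Av p x T (ZW κ H) = T⁻¹ * ∫ t in x..(x + T), ‖ZW κ H t‖ ^ p := rfl
    _ ≤ T⁻¹ * (2 ^ p * (∫ t in x..(x + T), ‖ZW (fun v => κ v + c * g (v : ℂ)) H t‖ ^ p)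
        + 2 ^ p * ‖c‖ ^ p * ∫ t in x..(x + T), ‖ZW (fun v : ℝ => g (v : ℂ)) H t‖ ^ p) := by
        rw [← hsplit]
        exact mul_le_mul_of_nonneg_left hmono (by positivity)
    _ = 2 ^ p * (T⁻¹ * ∫ t in x..(x + T), ‖ZW (fun v => κ v + c * g (v : ℂ)) H t‖ ^ p)
        + 2 ^ p * ‖c‖ ^ p *
          (T⁻¹ * ∫ t in x..(x + T), ‖ZW (fun v : ℝ => g (v : ℂ)) H t‖ ^ p) := by ring
    _ ≤ 2 ^ p * ((c1 + 1) * H ^ (-(p ^ 2 / 4)))
        + 2 ^ p * ‖c‖ ^ p * ((c0 + 1) * H ^ (-(p ^ 2 / 4))) := by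
        refine add_le_add (mul_le_mul_of_nonneg_left a1 h2p0.le)
          (mul_le_mul_of_nonneg_left a0 (mul_nonneg h2p0.le hcp))
    _ = D * H ^ (-(p ^ 2 / 4)) := by rw [hD]; ring
    _ ≤ _ := mul_le_mul_of_nonneg_right hCD hHp

end Pool.Agent.Lib.MP2
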