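import Mathlib
import Pool.Agent.Lib.MP_f9aece_nt_mp.StmtsP

/-!
Moments of the plain average of zeta over short windows, module P1: change of the line of integration.
-/

set_option autoImplicit false

namespace Pool.Agent.Lib.MP2

open MeasureTheory Set Filter Topology Complex
open Pool.Agent.Lib.MS (psi Adm ZW MomentsT2)

namespace P1I

/-- the integrand -/
noncomputable def G (f g : ℂ → ℂ) (H t : ℝ) (z : ℂ) : ℂ := f (1 / 2 + I * (t + H * z)) * g z

lemma arg_re (H t : ℝ) (z : ℂ) : (1 / 2 + I * (t + H * z) : ℂ).re = 1 / 2 - H * z.im := by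
  simp
  ring

lemma arg_im (H t : ℝ) (z : ℂ) : (1 / 2 + I * (t + H * z) : ℂ).im = t + H * z.re := by
  simp

lemma G_diff {f g : ℂ → ℂ} (hg : Differentiable ℂ g)
    (hf : DifferentiableOn ℂ f {z : ℂ | 1 / 4 < z.re ∧ z.re < 2}) {H t : ℝ} (hH : 0 < H) (hH2 : H ≤ 1 / 2) :
    DifferentiableOn ℂ (G f g H t) {z : ℂ | -1 ≤ z.im ∧ z.im ≤ 0} := by
  unfold G
  refine DifferentiableOn.mul ?_ hg.differentiableOn
  refine DifferentiableOn.comp (g := f) (f := fun z : ℂ => 1 / 2 + I * (t + H * z)) hf (by fun_prop) ?_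
  intro z hz
  obtain ⟨h1, h2⟩ : -1 ≤ z.im ∧ z.im ≤ 0 := hz
  change 1 / 4 < (1 / 2 + I * (t + H * z) : ℂ).re ∧ (1 / 2 + I * (t + H * z) : ℂ).re < 2
  rw [arg_re]
  constructor <;> nlinarith

lemma G_bd {f g : ℂ → ℂ} (hb : BumpFn g)
    (hf : ∃ (C : ℝ) (N : ℕ), ∀ z : ℂ, 1 / 2 ≤ z.re → z.re ≤ 1 → ‖f z‖ ≤ C * (1 + |z.im|) ^ N)
    {H t : ℝ} (hH : 0 < H) (hH2 : H ≤ 1 / 2) :
    ∃ C : ℝ, 0 ≤ C ∧ ∀ z : ℂ, -1 ≤ z.im → z.im ≤ 0 → ‖G f g H t z‖ ≤ C * (1 + z.re ^ 2)⁻¹ := by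
  obtain ⟨C, N, hC⟩ := hf
  obtain ⟨D, hD⟩ := hb.decay (N + 2)
  have hD0 : 0 ≤ D := le_trans (by positivity) (hD 0 (by simp))
  refine ⟨|C| * (1 + |t| + H) ^ N * D, by positivity, fun z h1 h2 => ?_⟩
  have h3 := hC (1 / 2 + I * (t + H * z)) (by rw [arg_re]; nlinarith) (by rw [arg_re]; nlinarith)
  rw [arg_im] at h3
  have h4 : 1 + |t + H * z.re| ≤ (1 + |t| + H) * (1 + |z.re|) := by
    have h5 := abs_add_le t (H * z.re)
    rw [abs_mul, abs_of_pos hH] at h5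
    nlinarith [abs_nonneg t, abs_nonneg z.re, mul_nonneg (abs_nonneg t) (abs_nonneg z.re)]
  have h6 := hD z (by rw [abs_le]; constructor <;> linarith)
  have h7 : 0 < (1 + |z.re|) ^ 2 := by positivity
  have h8 : ‖g z‖ * (1 + |z.re|) ^ N ≤ D * ((1 + |z.re|) ^ 2)⁻¹ := by
    rw [← div_eq_mul_inv, le_div_iff₀ h7]
    calc ‖g z‖ * (1 + |z.re|) ^ N * (1 + |z.re|) ^ 2 = ‖g z‖ * (1 + |z.re|) ^ (N + 2) := by ring
      _ ≤ D := h6
  have h9 : ((1 + |z.re|) ^ 2)⁻¹ ≤ (1 + z.re ^ 2)⁻¹ := by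
    refine inv_anti₀ (by positivity) ?_
    rw [← sq_abs z.re]
    nlinarith [abs_nonneg z.re]
  unfold G
  rw [norm_mul]
  calc ‖f (1 / 2 + I * (t + H * z))‖ * ‖g z‖
      ≤ (|C| * ((1 + |t| + H) * (1 + |z.re|)) ^ N) * ‖g z‖ := by
        gcongr
        refine h3.trans ?_
        gcongr
        exact le_abs_self C
    _ = |C| * (1 + |t| + H) ^ N * (‖g z‖ * (1 + |z.re|) ^ N) := by rw [mul_pow]; ring
    _ ≤ |C| * (1 + |t| + H) ^ N * (D * ((1 + |z.re|) ^ 2)⁻¹) := by gcongr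
    _ ≤ |C| * (1 + |t| + H) ^ N * (D * (1 + z.re ^ 2)⁻¹) := by gcongr
    _ = _ := by ring

lemma G_int {f g : ℂ → ℂ} (hb : BumpFn g)
    (hfd : DifferentiableOn ℂ f {z : ℂ | 1 / 4 < z.re ∧ z.re < 2})
    (hf : ∃ (C : ℝ) (N : ℕ), ∀ z : ℂ, 1 / 2 ≤ z.re → z.re ≤ 1 → ‖f z‖ ≤ C * (1 + |z.im|) ^ N)
    {H t : ℝ} (hH : 0 < H) (hH2 : H ≤ 1 / 2) {y : ℝ} (hy : -1 ≤ y) (hy' : y ≤ 0) :
    Integrable (fun u : ℝ => G f g H t ((u : ℂ) + y * I)) := by
  obtain ⟨C, hC0, hC⟩ := G_bd hb hf (H := H) (t := t) hH hH2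
  have him : ∀ u : ℝ, ((u : ℂ) + y * I).im = y := fun u => by simp
  have hre : ∀ u : ℝ, ((u : ℂ) + y * I).re = u := fun u => by simp
  have hcon : Continuous (fun u : ℝ => G f g H t ((u : ℂ) + y * I)) := by
    refine ((G_diff hb.diff hfd hH hH2).continuousOn).comp_continuous (by fun_prop) fun u => ?_
    change -1 ≤ ((u : ℂ) + y * I).im ∧ ((u : ℂ) + y * I).im ≤ 0
    rw [him]
    exact ⟨hy, hy'⟩
  refine Integrable.mono' (integrable_inv_one_add_sq.const_mul C) hcon.aestronglyMeasurable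
    (Eventually.of_forall fun u => ?_)
  have h1 := hC ((u : ℂ) + y * I) (by rw [him]; exact hy) (by rw [him]; exact hy')
  rw [hre] at h1
  exact h1

end P1I

open P1I

theorem shiftLine : ShiftLine := by
  intro g hb f hfd hf H t hH hH2
  obtain ⟨C, hC0, hC⟩ := G_bd hb hf (H := H) (t := t) hH hH2
  have hI0 := G_int hb hfd hf (t := t) hH hH2 (y := 0) (by norm_num) le_rfl
  have hI1 := G_int hb hfd hf (t := t) hH hH2 (y := -1) le_rfl (by norm_num)
  -- the rectangles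
  have hrect : ∀ A : ℝ, 0 ≤ A →
      ‖(∫ u in (-A)..A, G f g H t ((u : ℂ) + (0 : ℝ) * I)) - ∫ u in (-A)..A, G f g H t ((u : ℂ) + (-1 : ℝ) * I)‖
        ≤ 2 * (C * (1 + A ^ 2)⁻¹) := by
    intro A hA
    have h1 := Complex.integral_boundary_rect_eq_zero_of_differentiableOn (G f g H t)
      ((-A : ℝ) + (-1 : ℝ) * I) ((A : ℝ) + (0 : ℝ) * I) ?_
    · have er1 : (((-A : ℝ) : ℂ) + ((-1 : ℝ) : ℂ) * I).re = -A := by simp
      have ei1 : (((-A : ℝ) : ℂ) + ((-1 : ℝ) : ℂ) * I).im = -1 := by simp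
      have er2 : (((A : ℝ) : ℂ) + ((0 : ℝ) : ℂ) * I).re = A := by simp
      have ei2 : (((A : ℝ) : ℂ) + ((0 : ℝ) : ℂ) * I).im = 0 := by simp
      rw [er1, ei1, er2, ei2] at h1
      have hside : ∀ B : ℝ, |B| = A → ‖∫ y : ℝ in (-1 : ℝ)..0, G f g H t ((B : ℂ) + y * I)‖ ≤ C * (1 + A ^ 2)⁻¹ := by
        intro B hB
        have h2 := intervalIntegral.norm_integral_le_of_norm_le_const (a := -1) (b := 0)
          (f := fun y : ℝ => G f g H t ((B : ℂ) + y * I)) (C := C * (1 + A ^ 2)⁻¹) ?_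
        · have e : |(0 : ℝ) - -1| = 1 := by norm_num
          rw [e, mul_one] at h2
          exact h2
        · intro y hy
          rw [uIoc_of_le (by norm_num)] at hy
          have him : ((B : ℂ) + y * I).im = y := by simp
          have hre : ((B : ℂ) + y * I).re = B := by simp
          have h3 := hC ((B : ℂ) + y * I) (by rw [him]; exact hy.1.le) (by rw [him]; exact hy.2)
          rw [hre, ← sq_abs, hB] at h3
          exact h3
      have hs1 := hside A (abs_of_nonneg hA)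
      have hs2 := hside (-A) (by rw [abs_neg, abs_of_nonneg hA])
      have h4 : (∫ u in (-A)..A, G f g H t ((u : ℂ) + (0 : ℝ) * I))
          - ∫ u in (-A)..A, G f g H t ((u : ℂ) + (-1 : ℝ) * I)
          = I • (∫ y : ℝ in (-1 : ℝ)..0, G f g H t ((A : ℂ) + y * I))
            - I • (∫ y : ℝ in (-1 : ℝ)..0, G f g H t (((-A : ℝ) : ℂ) + y * I)) := by
        linear_combination -h1
      rw [h4]
      refine (norm_sub_le _ _).trans ?_
      rw [norm_smul, norm_smul, Complex.norm_I, one_mul, one_mul]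
      linarith
    · refine (G_diff hb.diff hfd hH hH2).mono ?_
      intro z hz
      have hz2 := hz.2
      simp only [mem_preimage] at hz2
      have e : uIcc (((-A : ℝ) : ℂ) + ((-1 : ℝ) : ℂ) * I).im (((A : ℝ) : ℂ) + ((0 : ℝ) : ℂ) * I).im
          = Icc (-1 : ℝ) 0 := by
        rw [← uIcc_of_le (by norm_num : (-1 : ℝ) ≤ 0)]
        simp
      rw [e] at hz2
      exact hz2
  have hl0 := intervalIntegral_tendsto_integral hI0 (tendsto_neg_atTop_atBot (G := ℝ)) tendsto_id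
  have hl1 := intervalIntegral_tendsto_integral hI1 (tendsto_neg_atTop_atBot (G := ℝ)) tendsto_id
  have hl := (hl0.sub hl1).norm
  have hz : Tendsto (fun A : ℝ => 2 * (C * (1 + A ^ 2)⁻¹)) atTop (𝓝 (2 * (C * 0))) := by
    refine Tendsto.const_mul _ (Tendsto.const_mul _ ?_)
    exact tendsto_inv_atTop_zero.comp (tendsto_atTop_add_const_left _ _ (tendsto_pow_atTop (by norm_num)))
  have hle : ‖(∫ u : ℝ, G f g H t ((u : ℂ) + (0 : ℝ) * I)) - ∫ u : ℝ, G f g H t ((u : ℂ) + (-1 : ℝ) * I)‖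
      ≤ 2 * (C * 0) := by
    refine le_of_tendsto_of_tendsto hl hz ?_
    filter_upwards [eventually_ge_atTop (0 : ℝ)] with A hA
    exact hrect A hA
  have heq : (∫ u : ℝ, G f g H t ((u : ℂ) + (0 : ℝ) * I)) = ∫ u : ℝ, G f g H t ((u : ℂ) + (-1 : ℝ) * I) := by
    rw [← sub_eq_zero, ← norm_eq_zero]
    refine le_antisymm (hle.trans (by simp)) (norm_nonneg _)
  convert heq using 1
  · congr 1
    funext u
    unfold G
    congr 2
    · push_cast; ring
    · push_cast; ring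
  · congr 1
    funext u
    unfold G
    congr 2
    · push_cast
      linear_combination (H : ℂ) * Complex.I_sq
    · push_cast; ring

end Pool.Agent.Lib.MP2
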