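import Mathlib
import Pool.Agent.Lib.MP_f9aece_nt_mp.StmtsP
import Pool.Agent.Lib.MP_f9aece_nt_h40.Growth

/-!
Moments of the plain average of zeta over short windows, module Z1.

Z0 = Function.update (fun s => zeta s - 1/(s-1)) 1 gamma (or the limit): entire (Mathlib: riemannZeta differentiable off 1, tendsto_riemannZeta_sub_one_div; removable singularity differentiableOn_update_limUnder_of_... or analyticAt; or via differentiable_completedZeta0; the library has similar statements, grep for riemannZeta_sub_one_div). Bound for 1/4 <= Re s <= 2: for |Im s| <= 1 compactness; for |Im s| >= 1 the formula zeta(s) = s/(s-1) - s int_1^oo {x} x^(-s-1) dx valid for Re s > 0 (grep the library: MP_f9aece_nt_ms/Z1Approx, h20, ZetaAsymp in Mathlib) gives |zeta(s)| <= 5 + 4 |s|. (about 120 lines)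
-/

set_option autoImplicit false

namespace Pool.Agent.Lib.MP2

open MeasureTheory Set Filter Topology Complex
open Pool.Agent.Lib.MS (psi Adm ZW MomentsT2)

namespace Z1E

open Pool.Agent.Lib.MP_f9aece_nt_h40

lemma z1_one : Z1 1 = 1 := by
  unfold Z1
  rw [DirichletCharacter.LFunctionTrivChar₁, Function.update_self]
  simp

/-- zeta without its pole -/
noncomputable def z0 : ℂ → ℂ := dslope Z1 1

lemma z0_diff : Differentiable ℂ z0 := by
  have h := (differentiableOn_dslope (E := ℂ) (f := Z1) (c := 1) (s := univ) univ_mem).mpr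
    Z1_differentiable.differentiableOn
  exact differentiableOn_univ.mp h

lemma z0_eq {s : ℂ} (hs : s ≠ 1) : z0 s = riemannZeta s - 1 / (s - 1) := by
  have h1 : s - 1 ≠ 0 := sub_ne_zero.mpr hs
  unfold z0
  rw [dslope_of_ne _ hs, slope_def_field, Z1_eq hs, z1_one]
  field_simp

lemma z0_bd : ∃ C : ℝ, 1 ≤ C ∧ ∀ s : ℂ, 1 / 4 ≤ s.re → s.re ≤ 2 → ‖z0 s‖ ≤ C * (1 + |s.im|) := by
  obtain ⟨K, hK⟩ := (isCompact_closedBall (1 : ℂ) (1 / 2)).exists_bound_of_continuousOn
    z0_diff.continuous.continuousOn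
  refine ⟨max 100 K, le_trans (by norm_num) (le_max_left _ _), fun s h1 h2 => ?_⟩
  by_cases hs : s ∈ Metric.closedBall (1 : ℂ) (1 / 2)
  · have h3 := hK s hs
    have h4 := abs_nonneg s.im
    have h5 : K ≤ max 100 K := le_max_right _ _
    have h6 : (100 : ℝ) ≤ max 100 K := le_max_left _ _
    nlinarith
  · rw [Metric.mem_closedBall, dist_eq_norm, not_le] at hs
    have hne : s ≠ 1 := by
      intro h
      rw [h] at hs
      simp at hs
      linarith
    have hre : 0 < s.re := by linarith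
    have hp : 0 < ‖s - 1‖ := by linarith
    have hp' := one_le_norm_add_one hre
    have e1 : z0 s = F s * (s + 1) / (s - 1) - 1 / (s - 1) := by
      have ha := add_one_ne_zero hre
      rw [z0_eq hne, F, Z1_eq hne]
      have : s - 1 ≠ 0 := sub_ne_zero.mpr hne
      field_simp
    have h3 : ‖s + 1‖ ≤ 5 * ‖s - 1‖ := by
      have : ‖s + 1‖ ≤ ‖s - 1‖ + 2 := by
        have := norm_add_le (s - 1) 2
        rw [show s - 1 + 2 = s + 1 by ring] at this
        simpa using this
      linarith
    have h4 : ‖s‖ ≤ 2 + |s.im| := by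
      have := Complex.norm_le_abs_re_add_abs_im s
      rw [abs_of_pos hre] at this
      linarith
    have h5 := F_bound hre
    have h6 : ‖F s * (s + 1) / (s - 1)‖ ≤ 30 * (3 + |s.im|) := by
      rw [norm_div, norm_mul, div_le_iff₀ hp]
      calc ‖F s‖ * ‖s + 1‖ ≤ (6 * (1 + ‖s‖)) * (5 * ‖s - 1‖) := by gcongr
        _ ≤ (6 * (1 + (2 + |s.im|))) * (5 * ‖s - 1‖) := by gcongr
        _ = _ := by ring
    have h7 : ‖1 / (s - 1)‖ ≤ 2 := by
      rw [norm_div, norm_one, div_le_iff₀ hp]
      linarith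
    have h8 : ‖z0 s‖ ≤ 30 * (3 + |s.im|) + 2 := by
      rw [e1]
      exact (norm_sub_le _ _).trans (by linarith)
    have h9 := abs_nonneg s.im
    have h10 : (100 : ℝ) ≤ max 100 K := le_max_left _ _
    nlinarith

end Z1E

theorem exZ0 : ExZ0 := by
  obtain ⟨C, hC, h⟩ := Z1E.z0_bd
  exact ⟨Z1E.z0, C, hC, ⟨Z1E.z0_diff, fun s hs => Z1E.z0_eq hs, h⟩⟩

end Pool.Agent.Lib.MP2
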