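import Mathlib
import Pool.Agent.Lib.MP_f9aece_nt_mp.StmtsP
import Pool.Agent.Lib.MP_f9aece_nt_n4.LineFinal

/-!
Moments of the plain average of zeta over short windows, module Z2: the upper bound on the line.
-/

set_option autoImplicit false

namespace Pool.Agent.Lib.MP2

open MeasureTheory Set Filter Topology Complex
open Pool.Agent.Lib.MS (psi Adm ZW MomentsT2)

private lemma z2conj (t : ℝ) : ‖riemannZeta (1 / 2 + I * ((-t : ℝ) : ℂ))‖
    = ‖riemannZeta (1 / 2 + I * (t : ℂ))‖ := by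
  have h : (1 / 2 + I * ((-t : ℝ) : ℂ) : ℂ) = (starRingEnd ℂ) (1 / 2 + I * (t : ℂ)) := by
    simp [Complex.ext_iff]
  rw [h, riemannZeta_conj, RCLike.norm_conj]

private lemma z2cont : Continuous fun t : ℝ => riemannZeta (1 / 2 + I * (t : ℂ)) := by
  refine continuous_iff_continuousAt.2 fun t => ?_
  have h1 : (1 / 2 + I * (t : ℂ) : ℂ) ≠ 1 := by
    intro h
    have := congrArg Complex.re h
    norm_num at this
  exact (differentiableAt_riemannZeta h1).continuousAt.comp
    (f := fun t : ℝ => (1 / 2 + I * (t : ℂ) : ℂ)) (by fun_prop)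

theorem lineUp : LineUp := by
  intro p hp hp4
  obtain ⟨C, c, hC, hc, h⟩ := Pool.Agent.Lib.N4.lineFinal
  obtain ⟨T₀, hT₀⟩ := h 0
  set D : ℝ := Real.exp (C * (p * |p - 2| + 1)) with hD
  refine ⟨max (max 3 T₀) (2 * D), (le_max_left _ _).trans (le_max_left _ _), fun T hT => ?_⟩
  have hT3 : 3 ≤ T := ((le_max_left _ _).trans (le_max_left _ _)).trans hT
  have hTT : T₀ ≤ T := ((le_max_right _ _).trans (le_max_left _ _)).trans hT
  have hT0 : (0 : ℝ) < T := by linarith
  have hlog : 1 ≤ Real.log T := by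
    rw [Real.le_log_iff_exp_le hT0]
    exact (Real.exp_one_lt_d9.le.trans (by norm_num)).trans hT3
  have h1 := (hT₀ p T hp hp4 hTT).2
  have h2 : Real.log T ^ (-c) ≤ 1 := by
    rw [Real.rpow_neg (by linarith)]
    exact inv_le_one_of_one_le₀ (Real.one_le_rpow hlog hc.le)
  have h3 : Real.exp (C * (p * |p - 2| + Real.log T ^ (-c))) ≤ D := by
    rw [hD]
    refine Real.exp_le_exp.2 ?_
    gcongr
  have h4 : (0 : ℝ) ≤ Real.log T ^ (p ^ 2 / 4) := by positivity
  have h5 : Pool.Agent.Lib.N4.mo p 0 T ≤ D * Real.log T ^ (p ^ 2 / 4) :=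
    h1.trans (mul_le_mul_of_nonneg_right h3 h4)
  have h6 : ∫ t in (0 : ℝ)..T, ‖riemannZeta (1 / 2 + I * t)‖ ^ p
      = T * Pool.Agent.Lib.N4.mo p 0 T := by
    have e := intervalIntegral.integral_comp_mul_right
      (fun t : ℝ => ‖riemannZeta (1 / 2 + I * t)‖ ^ p) (a := 0) (b := 1) hT0.ne'
    simp only [zero_mul, one_mul, smul_eq_mul] at e
    have e2 : Pool.Agent.Lib.N4.mo p 0 T
        = ∫ u in (0 : ℝ)..1, ‖riemannZeta (1 / 2 + I * ((u * T : ℝ) : ℂ))‖ ^ p := by
      unfold Pool.Agent.Lib.N4.mo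
      refine intervalIntegral.integral_congr fun u _ => ?_
      congr 3
      push_cast
      ring
    rw [e2, e]
    field_simp
  have hi : ∀ a b : ℝ, IntervalIntegrable (fun t : ℝ => ‖riemannZeta (1 / 2 + I * t)‖ ^ p)
      volume a b := fun a b =>
    ((z2cont.norm).rpow_const fun _ => Or.inr hp.le).intervalIntegrable a b
  have h7 : ∫ t in (-T)..0, ‖riemannZeta (1 / 2 + I * t)‖ ^ p
      = ∫ t in (0 : ℝ)..T, ‖riemannZeta (1 / 2 + I * t)‖ ^ p := by
    have e := intervalIntegral.integral_comp_neg (a := (0 : ℝ)) (b := T)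
      (fun t : ℝ => ‖riemannZeta (1 / 2 + I * t)‖ ^ p)
    rw [neg_zero] at e
    rw [← e]
    refine intervalIntegral.integral_congr fun u _ => ?_
    rw [z2conj]
  rw [← intervalIntegral.integral_add_adjacent_intervals (hi (-T) 0) (hi 0 T), h7, h6]
  have h8 : T * Pool.Agent.Lib.N4.mo p 0 T ≤ T * (D * Real.log T ^ (p ^ 2 / 4)) :=
    mul_le_mul_of_nonneg_left h5 hT0.le
  have h9 : (2 * D) * (T * Real.log T ^ (p ^ 2 / 4))
      ≤ max (max 3 T₀) (2 * D) * (T * Real.log T ^ (p ^ 2 / 4)) :=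
    mul_le_mul_of_nonneg_right (le_max_right _ _) (mul_nonneg hT0.le h4)
  linarith

end Pool.Agent.Lib.MP2
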