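import Mathlib
import Pool.Agent.Lib.MP_f9aece_nt_mp.StmtsP
import Pool.Agent.Lib.MP_f9aece_nt_mp.LeftCore

/-!
Moments of the plain average of zeta over short windows, module Z4.
-/

set_option autoImplicit false

namespace Pool.Agent.Lib.MP2

open MeasureTheory Set Filter Topology Complex
open Pool.Agent.Lib.MS (psi Adm ZW MomentsT2)

theorem leftSide : LeftSide := by
  intro A _
  obtain ⟨C, t0, hC, ht0, h⟩ := zeta_left A
  refine ⟨max C (max t0 3), (le_max_right _ _).trans (le_max_right _ _), fun t x ht hx hxA => ?_⟩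
  have ht1 : t0 ≤ |t| := ((le_max_left t0 3).trans (le_max_right _ _)).trans ht
  have hlog : 0 < Real.log |t| := Real.log_pos (by linarith)
  have h1 := h t x ht1 hx (by rw [le_div_iff₀ hlog]; exact hxA)
  have e1 : (((1 / 2 - x : ℝ) : ℂ) + I * t) = (1 / 2 - x + I * t : ℂ) := by push_cast; ring
  have e2 : (((1 / 2 + x : ℝ) : ℂ) + I * t) = (1 / 2 + x + I * t : ℂ) := by push_cast; ring
  rw [e1, e2]
  refine h1.trans ?_
  gcongr
  exact le_max_left _ _

end Pool.Agent.Lib.MP2
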