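import Mathlib
import Pool.Agent.Lib.MP_f9aece_nt_mp.StmtsP

/-!
Moments of the plain average of zeta over short windows, module Z5.

x >= 0: RightUp (x <= A/log T <= 1/4 for T >= C). x < 0: on |t| >= C0 LeftSide with -x ((-x) log|t| <= A as |t| <= T), on |t| <= C0 zeta is bounded near Re s = 1/2 (Z0 bound, Re s >= 1/4). (about 70 lines)
-/

set_option autoImplicit false

namespace Pool.Agent.Lib.MP2

open MeasureTheory Set Filter Topology Complex
open Pool.Agent.Lib.MS (psi Adm ZW MomentsT2)

private theorem lineAll_cont (a p : ℝ) (hp : 0 < p) (ha : a ≠ 1) :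
    Continuous (fun t : ℝ => ‖riemannZeta (((a : ℝ) : ℂ) + I * t)‖ ^ p) := by
  have h1 : Continuous (fun t : ℝ => riemannZeta (((a : ℝ) : ℂ) + I * t)) := by
    rw [continuous_iff_continuousAt]
    intro t
    have h2 : ((a : ℝ) : ℂ) + I * t ≠ 1 := by
      intro h
      apply ha
      have := congrArg Complex.re h
      simpa using this
    have h3 : ContinuousAt riemannZeta (((a : ℝ) : ℂ) + I * t) :=
      (differentiableAt_riemannZeta h2).continuousAt
    exact ContinuousAt.comp (f := fun t : ℝ => ((a : ℝ) : ℂ) + I * t) (g := riemannZeta) h3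
      (Continuous.continuousAt (by fun_prop))
  exact h1.norm.rpow_const (fun _ => Or.inr hp.le)

theorem lineAll (hz : ExZ0) (hr : RightUp) (hl : LeftSide) : LineAll := by
  intro p A hp hp4 hA
  obtain ⟨Z0, CZ, hCZ, hZ⟩ := hz
  obtain ⟨C1, hC1, hr1⟩ := hr p hp hp4
  obtain ⟨C0, hC0, hl0⟩ := hl A hA
  set B : ℝ := CZ * (1 + C0) + 2 with hB
  have hB0 : 0 < B := by positivity
  have hBp : 0 < B ^ p := Real.rpow_pos_of_pos hB0 _
  have hC0p : 0 < C0 ^ p := Real.rpow_pos_of_pos (by linarith) _
  set E : ℝ := Real.exp (4 * A) with hE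
  have hE0 : 0 < E := Real.exp_pos _
  refine ⟨C1 + C0 ^ p * C1 + 2 * B ^ p + E, ?_, ?_⟩
  · have : 0 ≤ C0 ^ p * C1 := by positivity
    linarith
  intro T x hT hx
  have hq1 : 0 ≤ C0 ^ p * C1 := by positivity
  have hTC1 : C1 ≤ T := by linarith
  have hTE : E ≤ T := by linarith
  have hT3 : 3 ≤ T := by linarith
  have hlog : 4 * A ≤ Real.log T := by
    rw [← Real.log_exp (4 * A)]
    exact Real.log_le_log hE0 hTE
  have hlog1 : 1 ≤ Real.log T := by linarith
  have hL : 1 ≤ Real.log T ^ (p ^ 2 / 4) := Real.one_le_rpow hlog1 (by positivity)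
  have hTL : 0 ≤ T * Real.log T ^ (p ^ 2 / 4) := by positivity
  have hx4 : |x| ≤ 1 / 4 := by
    by_contra hcon
    push Not at hcon
    have : 1 / 4 * (4 * A) < |x| * Real.log T := by
      calc 1 / 4 * (4 * A) ≤ 1 / 4 * Real.log T := by linarith
        _ < |x| * Real.log T := mul_lt_mul_of_pos_right hcon (by linarith)
    linarith
  rcases le_or_gt 0 x with h0 | h0
  · have hx4' : x ≤ 1 / 4 := le_trans (le_abs_self x) hx4
    refine le_trans (hr1 T x hTC1 h0 hx4') ?_
    apply mul_le_mul_of_nonneg_right _ hTL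
    linarith
  · obtain ⟨y, hy⟩ : ∃ y : ℝ, y = -x := ⟨-x, rfl⟩
    have hy0 : 0 < y := by linarith
    have hxy : x = -y := by linarith
    have habs : |x| = y := by rw [hxy, abs_neg, abs_of_pos hy0]
    rw [habs] at hx hx4
    have hpt : ∀ t ∈ Icc (-T) T, ‖riemannZeta (((1 / 2 + x : ℝ) : ℂ) + I * t)‖ ^ p
        ≤ C0 ^ p * ‖riemannZeta (((1 / 2 + y : ℝ) : ℂ) + I * t)‖ ^ p + B ^ p := by
      intro t ht
      have htT : |t| ≤ T := abs_le.2 ht
      have hn0 : 0 ≤ ‖riemannZeta (((1 / 2 + y : ℝ) : ℂ) + I * t)‖ ^ p := by positivity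
      rcases le_or_gt C0 |t| with h1 | h1
      · have h2 : y * Real.log |t| ≤ A := by
          refine le_trans ?_ hx
          apply mul_le_mul_of_nonneg_left _ hy0.le
          exact Real.log_le_log (by linarith) htT
        have h3 := hl0 t y h1 hy0.le h2
        have h4 : ‖riemannZeta (((1 / 2 + x : ℝ) : ℂ) + I * t)‖ ^ p
            ≤ (C0 * ‖riemannZeta (((1 / 2 + y : ℝ) : ℂ) + I * t)‖) ^ p := by
          apply Real.rpow_le_rpow (norm_nonneg _) _ hp.le
          rw [show 1 / 2 + x = 1 / 2 - y by linarith]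
          exact h3
        rw [Real.mul_rpow (by linarith) (norm_nonneg _)] at h4
        linarith
      · have h2 : ‖riemannZeta (((1 / 2 + x : ℝ) : ℂ) + I * t)‖ ≤ B := by
          have hne : ((1 / 2 + x : ℝ) : ℂ) + I * t ≠ 1 := by
            intro h
            have := congrArg Complex.re h
            simp at this
            linarith
          have h5 := hZ.eq _ hne
          have h6 : riemannZeta (((1 / 2 + x : ℝ) : ℂ) + I * t)
              = Z0 (((1 / 2 + x : ℝ) : ℂ) + I * t) + 1 / (((1 / 2 + x : ℝ) : ℂ) + I * t - 1) := by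
            rw [h5]; ring
          have hre : (((1 / 2 + x : ℝ) : ℂ) + I * t).re = 1 / 2 + x := by simp
          have him : (((1 / 2 + x : ℝ) : ℂ) + I * t).im = t := by simp
          have h7 := hZ.bd (((1 / 2 + x : ℝ) : ℂ) + I * t) (by rw [hre]; linarith)
            (by rw [hre]; linarith)
          rw [him] at h7
          have h8 : ‖1 / (((1 / 2 + x : ℝ) : ℂ) + I * t - 1)‖ ≤ 2 := by
            rw [norm_div, norm_one]
            have h9 : 1 / 2 ≤ ‖((1 / 2 + x : ℝ) : ℂ) + I * t - 1‖ := by
              refine le_trans ?_ (Complex.abs_re_le_norm _)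
              rw [Complex.sub_re, hre, Complex.one_re]
              rw [abs_of_neg (by linarith)]
              linarith
            rw [div_le_iff₀ (by linarith)]
            linarith
          rw [h6]
          refine le_trans (norm_add_le _ _) ?_
          rw [hB]
          refine add_le_add (le_trans h7 ?_) h8
          apply mul_le_mul_of_nonneg_left _ (by linarith)
          linarith
        have h4 : ‖riemannZeta (((1 / 2 + x : ℝ) : ℂ) + I * t)‖ ^ p ≤ B ^ p :=
          Real.rpow_le_rpow (norm_nonneg _) h2 hp.le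
        have : 0 ≤ C0 ^ p * ‖riemannZeta (((1 / 2 + y : ℝ) : ℂ) + I * t)‖ ^ p := by positivity
        linarith
    have hc1 := lineAll_cont (1 / 2 + x) p hp (by linarith)
    have hc2 := lineAll_cont (1 / 2 + y) p hp (by linarith)
    have hi2 : IntervalIntegrable
        (fun t : ℝ => C0 ^ p * ‖riemannZeta (((1 / 2 + y : ℝ) : ℂ) + I * t)‖ ^ p) volume (-T) T :=
      (hc2.const_mul _).intervalIntegrable _ _
    have hi3 : IntervalIntegrable (fun _ : ℝ => B ^ p) volume (-T) T :=
      continuous_const.intervalIntegrable _ _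
    calc ∫ t in (-T)..T, ‖riemannZeta (((1 / 2 + x : ℝ) : ℂ) + I * t)‖ ^ p
        ≤ ∫ t in (-T)..T, (C0 ^ p * ‖riemannZeta (((1 / 2 + y : ℝ) : ℂ) + I * t)‖ ^ p + B ^ p) :=
          intervalIntegral.integral_mono_on (by linarith) (hc1.intervalIntegrable _ _)
            (hi2.add hi3) hpt
      _ = C0 ^ p * (∫ t in (-T)..T, ‖riemannZeta (((1 / 2 + y : ℝ) : ℂ) + I * t)‖ ^ p)
          + (2 * T) * B ^ p := by
          rw [intervalIntegral.integral_add hi2 hi3, intervalIntegral.integral_const_mul,
            intervalIntegral.integral_const]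
          simp only [smul_eq_mul]
          ring
      _ ≤ C0 ^ p * (C1 * (T * Real.log T ^ (p ^ 2 / 4)))
          + (2 * B ^ p) * (T * Real.log T ^ (p ^ 2 / 4)) := by
          refine add_le_add ?_ ?_
          · exact mul_le_mul_of_nonneg_left (hr1 T y hTC1 hy0.le hx4) hC0p.le
          · have : T * 1 ≤ T * Real.log T ^ (p ^ 2 / 4) :=
              mul_le_mul_of_nonneg_left hL (by linarith)
            have h2 : (2 * B ^ p) * (T * 1) ≤ (2 * B ^ p) * (T * Real.log T ^ (p ^ 2 / 4)) :=
              mul_le_mul_of_nonneg_left this (by linarith)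
            linarith
      _ = (C0 ^ p * C1 + 2 * B ^ p) * (T * Real.log T ^ (p ^ 2 / 4)) := by ring
      _ ≤ _ := by
          apply mul_le_mul_of_nonneg_right _ hTL
          linarith

end Pool.Agent.Lib.MP2
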