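import Mathlib
import Pool.Agent.Lib.MP_f9aece_nt_mp.StmtsP

/-!
Moments of the plain average of zeta over short windows, module Z6.

|x| log T <= A (from |x| Lam <= 1, log T <= A Lam). If |y|/Lam <= T: the interval is inside [-4T,4T], LineAll at 4T with constant 2A (log 4T <= 2 log T), result <= 4 C log(4T)^(p^2/4). If |y| > Lam T: for u in the interval |u| <= 3T + |y|/Lam <= C(1+|y|), ||zeta(1/2+x+iu)|| <= C (1+|u|) (Z0 bound, |s-1| >= 1/4), p-th power <= C (1+|y|)^4 since p <= 4 and the base can be taken >= 1; log T^(..) >= 1. (about 90 lines)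
-/

set_option autoImplicit false

namespace Pool.Agent.Lib.MP2

open MeasureTheory Set Filter Topology Complex
open Pool.Agent.Lib.MS (psi Adm ZW MomentsT2)

namespace Z6S

lemma re_eq (x u : ℝ) : (((1 / 2 + x : ℝ) : ℂ) + I * (u : ℂ)).re = 1 / 2 + x := by simp

lemma im_eq (x u : ℝ) : (((1 / 2 + x : ℝ) : ℂ) + I * (u : ℂ)).im = u := by simp

lemma ne_one {x : ℝ} (hx : |x| ≤ 1 / 4) (u : ℝ) : ((1 / 2 + x : ℝ) : ℂ) + I * (u : ℂ) ≠ 1 := by
  intro h
  have h1 := congrArg Complex.re h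
  rw [re_eq, Complex.one_re] at h1
  have := (abs_le.mp hx).2
  linarith

lemma sub_ge {x : ℝ} (hx : |x| ≤ 1 / 4) (u : ℝ) :
    1 / 4 ≤ ‖((1 / 2 + x : ℝ) : ℂ) + I * (u : ℂ) - 1‖ := by
  have h1 := Complex.abs_re_le_norm (((1 / 2 + x : ℝ) : ℂ) + I * (u : ℂ) - 1)
  rw [Complex.sub_re, re_eq, Complex.one_re] at h1
  have h2 := (abs_le.mp hx).2
  rw [abs_of_nonpos (by linarith)] at h1
  linarith

lemma cont_line {x : ℝ} (hx : |x| ≤ 1 / 4) :
    Continuous (fun u : ℝ => riemannZeta (((1 / 2 + x : ℝ) : ℂ) + I * (u : ℂ))) := by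
  rw [continuous_iff_continuousAt]
  intro u
  have h1 : ContinuousAt riemannZeta (((1 / 2 + x : ℝ) : ℂ) + I * (u : ℂ)) :=
    (differentiableAt_riemannZeta (ne_one hx u)).continuousAt
  exact ContinuousAt.comp (f := fun u : ℝ => (((1 / 2 + x : ℝ) : ℂ) + I * (u : ℂ))) h1 (by fun_prop)

lemma cont_pow {x p : ℝ} (hx : |x| ≤ 1 / 4) (hp : 0 < p) :
    Continuous (fun u : ℝ => ‖riemannZeta (((1 / 2 + x : ℝ) : ℂ) + I * (u : ℂ))‖ ^ p) :=
  (cont_line hx).norm.rpow_const (fun _ => Or.inr hp.le)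

lemma pt_bound {Z0 : ℂ → ℂ} {C0 : ℝ} (hz : ZeroPole Z0 C0) {x : ℝ} (hx : |x| ≤ 1 / 4) (u : ℝ) :
    ‖riemannZeta (((1 / 2 + x : ℝ) : ℂ) + I * (u : ℂ))‖ ≤ C0 * (1 + |u|) + 4 := by
  have hx' := abs_le.mp hx
  have h1 := hz.eq _ (ne_one hx u)
  have h2 := hz.bd (((1 / 2 + x : ℝ) : ℂ) + I * (u : ℂ)) (by rw [re_eq]; linarith)
    (by rw [re_eq]; linarith)
  rw [im_eq] at h2
  have h3 := sub_ge hx u
  have h4 : ‖1 / (((1 / 2 + x : ℝ) : ℂ) + I * (u : ℂ) - 1)‖ ≤ 4 := by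
    rw [norm_div, norm_one, div_le_iff₀ (by linarith)]
    linarith
  have h5 : riemannZeta (((1 / 2 + x : ℝ) : ℂ) + I * (u : ℂ))
      = Z0 (((1 / 2 + x : ℝ) : ℂ) + I * (u : ℂ))
        + 1 / (((1 / 2 + x : ℝ) : ℂ) + I * (u : ℂ) - 1) := by
    rw [h1]; ring
  rw [h5]
  exact (norm_add_le _ _).trans (by linarith)

end Z6S

open Z6S in
theorem lineShift (hz : ExZ0) (ha : LineAll) : LineShift := by
  obtain ⟨Z0, C0, hC0, hZ⟩ := hz
  intro p A hp hp4 hA
  obtain ⟨C1, hC1, hL⟩ := ha p (2 * A) hp hp4 (by linarith)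
  have hp0 : 0 ≤ p ^ 2 / 4 := by positivity
  have hpp : p ^ 2 / 4 ≤ 4 := by nlinarith
  set K : ℝ := (4 * (C0 + 4)) ^ 4 with hK
  have hK0 : 0 ≤ K := by positivity
  have hE : 0 < Real.exp (4 * A) := Real.exp_pos _
  refine ⟨64 * C1 + K + Real.exp (4 * A) + 4, by linarith, ?_⟩
  intro T Λ x0 x y hT h1 h2 hx0 hxΛ
  have hT4 : 4 ≤ T := by linarith
  have hT0 : 0 < T := by linarith
  have hLA : 4 * A ≤ Real.log T := by
    rw [Real.le_log_iff_exp_le hT0]
    linarith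
  have hL1 : 1 ≤ Real.log T := by linarith
  have hΛ0 : 0 < Λ := by
    by_contra h
    push Not at h
    have : A * Λ ≤ 0 := mul_nonpos_of_nonneg_of_nonpos (by linarith) h
    linarith
  have hΛ1 : 1 ≤ Λ := by
    by_contra h
    push Not at h
    have : A * Λ < A * 1 := by
      apply mul_lt_mul_of_pos_left h
      linarith
    linarith
  have hxA : |x| * Real.log T ≤ A := by
    calc |x| * Real.log T ≤ |x| * (A * Λ) := by gcongr
      _ = A * (|x| * Λ) := by ring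
      _ ≤ A * 1 := by gcongr
      _ = A := mul_one _
  have hx4 : |x| ≤ 1 / 4 := by
    by_contra h
    push Not at h
    have : 1 / 4 * (4 * A) < |x| * Real.log T := by
      calc 1 / 4 * (4 * A) < |x| * (4 * A) := by
            apply mul_lt_mul_of_pos_right h
            linarith
        _ ≤ |x| * Real.log T := by gcongr
    linarith
  have hlog1 : 1 ≤ Real.log T ^ (p ^ 2 / 4) := Real.one_le_rpow hL1 hp0
  have hy0 := abs_nonneg y
  have hy1 : (1 : ℝ) ≤ (1 + |y|) ^ 4 := one_le_pow₀ (by linarith)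
  have hx0' := abs_le.mp hx0
  have hnn : ∀ u : ℝ, 0 ≤ ‖riemannZeta (((1 / 2 + x : ℝ) : ℂ) + I * (u : ℂ))‖ ^ p :=
    fun u => Real.rpow_nonneg (norm_nonneg _) _
  by_cases hy : |y| / Λ ≤ T
  · have hy' : |y / Λ| ≤ T := by rwa [abs_div, abs_of_pos hΛ0]
    have hy'' := abs_le.mp hy'
    have hlog4 : Real.log (4 * T) ≤ 2 * Real.log T := by
      rw [Real.log_mul (by norm_num) hT0.ne']
      have : Real.log 4 ≤ Real.log T := Real.log_le_log (by norm_num) hT4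
      linarith
    have hlog40 : 0 ≤ Real.log (4 * T) := Real.log_nonneg (by linarith)
    have h3 := hL (4 * T) x (by linarith) (by
      calc |x| * Real.log (4 * T) ≤ |x| * (2 * Real.log T) := by gcongr
        _ = 2 * (|x| * Real.log T) := by ring
        _ ≤ 2 * A := by gcongr)
    have h4 : ∫ u in (x0 + y / Λ)..(x0 + y / Λ + T),
        ‖riemannZeta (((1 / 2 + x : ℝ) : ℂ) + I * (u : ℂ))‖ ^ p
        ≤ ∫ u in (-(4 * T))..(4 * T), ‖riemannZeta (((1 / 2 + x : ℝ) : ℂ) + I * (u : ℂ))‖ ^ p := by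
      refine intervalIntegral.integral_mono_interval ?_ ?_ ?_ ?_ ?_
      · linarith [hy''.1, hx0'.1]
      · linarith
      · linarith [hy''.2, hx0'.2]
      · exact Eventually.of_forall hnn
      · exact (cont_pow hx4 hp).intervalIntegrable _ _
    have h5 : Real.log (4 * T) ^ (p ^ 2 / 4) ≤ 16 * Real.log T ^ (p ^ 2 / 4) := by
      calc Real.log (4 * T) ^ (p ^ 2 / 4) ≤ (2 * Real.log T) ^ (p ^ 2 / 4) :=
            Real.rpow_le_rpow hlog40 hlog4 hp0
        _ = 2 ^ (p ^ 2 / 4) * Real.log T ^ (p ^ 2 / 4) :=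
            Real.mul_rpow (by norm_num) (by linarith)
        _ ≤ 16 * Real.log T ^ (p ^ 2 / 4) := by
            have : (2 : ℝ) ^ (p ^ 2 / 4) ≤ 2 ^ (4 : ℝ) :=
              Real.rpow_le_rpow_of_exponent_le (by norm_num) hpp
            have e : (2 : ℝ) ^ (4 : ℝ) = 16 := by
              rw [show (4 : ℝ) = ((4 : ℕ) : ℝ) by norm_num, Real.rpow_natCast]; norm_num
            rw [e] at this
            gcongr
    have h6 : ∫ u in (x0 + y / Λ)..(x0 + y / Λ + T),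
        ‖riemannZeta (((1 / 2 + x : ℝ) : ℂ) + I * (u : ℂ))‖ ^ p
        ≤ 64 * C1 * (T * Real.log T ^ (p ^ 2 / 4)) := by
      calc _ ≤ _ := h4
        _ ≤ C1 * (4 * T * Real.log (4 * T) ^ (p ^ 2 / 4)) := h3
        _ ≤ C1 * (4 * T * (16 * Real.log T ^ (p ^ 2 / 4))) := by gcongr
        _ = _ := by ring
    rw [inv_mul_le_iff₀ hT0]
    have h7 : 64 * C1 ≤ (64 * C1 + K + Real.exp (4 * A) + 4) := by linarith
    calc _ ≤ _ := h6
      _ ≤ (64 * C1 + K + Real.exp (4 * A) + 4) * (T * Real.log T ^ (p ^ 2 / 4)) := by gcongr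
      _ = T * ((64 * C1 + K + Real.exp (4 * A) + 4) * Real.log T ^ (p ^ 2 / 4) * 1) := by ring
      _ ≤ _ := by gcongr
  · push Not at hy
    have hyΛ : |y| / Λ ≤ |y| := div_le_self hy0 hΛ1
    have hyy : |y / Λ| = |y| / Λ := by rw [abs_div, abs_of_pos hΛ0]
    have h3 : ∀ u ∈ Set.uIoc (x0 + y / Λ) (x0 + y / Λ + T),
        ‖‖riemannZeta (((1 / 2 + x : ℝ) : ℂ) + I * (u : ℂ))‖ ^ p‖ ≤ K * (1 + |y|) ^ 4 := by
      intro u hu
      rw [Set.uIoc_of_le (by linarith)] at hu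
      have hya := abs_le.mp (le_of_eq hyy)
      have hu1 : |u| ≤ 4 * |y| := by
        rw [abs_le]
        constructor
        · linarith [hu.1, hya.1, hx0'.1]
        · linarith [hu.2, hya.2, hx0'.2]
      have h4 := pt_bound hZ hx4 u
      have h5 : ‖riemannZeta (((1 / 2 + x : ℝ) : ℂ) + I * (u : ℂ))‖ ≤ 4 * (C0 + 4) * (1 + |y|) := by
        nlinarith
      have hb : 1 ≤ 4 * (C0 + 4) * (1 + |y|) := by nlinarith
      rw [Real.norm_of_nonneg (hnn u)]
      calc ‖riemannZeta (((1 / 2 + x : ℝ) : ℂ) + I * (u : ℂ))‖ ^ p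
          ≤ (4 * (C0 + 4) * (1 + |y|)) ^ p := Real.rpow_le_rpow (norm_nonneg _) h5 hp.le
        _ ≤ (4 * (C0 + 4) * (1 + |y|)) ^ (4 : ℝ) := Real.rpow_le_rpow_of_exponent_le hb hp4
        _ = (4 * (C0 + 4) * (1 + |y|)) ^ 4 := by
            exact_mod_cast Real.rpow_natCast (4 * (C0 + 4) * (1 + |y|)) 4
        _ = K * (1 + |y|) ^ 4 := by rw [hK]; ring
    have h4 := intervalIntegral.norm_integral_le_of_norm_le_const h3
    have h5 : ∫ u in (x0 + y / Λ)..(x0 + y / Λ + T),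
        ‖riemannZeta (((1 / 2 + x : ℝ) : ℂ) + I * (u : ℂ))‖ ^ p ≤ K * (1 + |y|) ^ 4 * T := by
      refine (le_abs_self _).trans ?_
      rw [← Real.norm_eq_abs]
      refine h4.trans (le_of_eq ?_)
      rw [show x0 + y / Λ + T - (x0 + y / Λ) = T by ring, abs_of_pos hT0]
    rw [inv_mul_le_iff₀ hT0]
    have h7 : K ≤ (64 * C1 + K + Real.exp (4 * A) + 4) := by linarith
    calc _ ≤ _ := h5
      _ = T * (K * 1 * (1 + |y|) ^ 4) := by ring
      _ ≤ T * ((64 * C1 + K + Real.exp (4 * A) + 4) * Real.log T ^ (p ^ 2 / 4) * (1 + |y|) ^ 4) := by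
          gcongr

end Pool.Agent.Lib.MP2
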