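import Mathlib
import Pool.Agent.Lib.MP_f9aece_nt_mp.StmtsP

/-!
Moments of the plain average of zeta over short windows, module Z7: the high frequencies.
-/

set_option autoImplicit false

namespace Pool.Agent.Lib.MP2

open MeasureTheory Set Filter Topology Complex
open Pool.Agent.Lib.MS (psi Adm ZW MomentsT2)

namespace Z7

/-- zeta near the line, with the real part cut off -/
noncomputable def Gc (p : ℝ) (q : ℝ × ℝ) : ℝ :=
  ‖riemannZeta (((1 / 2 + max (-(1 / 8)) (min q.1 (1 / 8)) : ℝ) : ℂ) + I * (q.2 : ℂ))‖ ^ p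

theorem cl_le (x : ℝ) : max (-(1 / 8 : ℝ)) (min x (1 / 8)) ≤ 1 / 8 :=
  max_le (by norm_num) (min_le_right _ _)

theorem le_cl (x : ℝ) : -(1 / 8 : ℝ) ≤ max (-(1 / 8)) (min x (1 / 8)) := le_max_left _ _

theorem re_eq (x u : ℝ) : (((x : ℝ) : ℂ) + I * (u : ℂ)).re = x := by simp

theorem im_eq (x u : ℝ) : (((x : ℝ) : ℂ) + I * (u : ℂ)).im = u := by simp

theorem ne_one {z : ℂ} (hz : z.re < 1) : z ≠ 1 := by
  intro h
  rw [h] at hz
  simp at hz

theorem gc_cont (p : ℝ) (hp : 0 < p) : Continuous (Gc p) := by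
  unfold Gc
  refine Continuous.rpow_const ?_ (fun _ => Or.inr hp.le)
  refine Continuous.norm ?_
  rw [continuous_iff_continuousAt]
  intro q
  have h1 : ContinuousAt riemannZeta
      (((1 / 2 + max (-(1 / 8)) (min q.1 (1 / 8)) : ℝ) : ℂ) + I * (q.2 : ℂ)) := by
    refine (differentiableAt_riemannZeta (ne_one ?_)).continuousAt
    rw [re_eq]
    linarith [cl_le q.1]
  have h2 : ContinuousAt (fun q : ℝ × ℝ =>
      (((1 / 2 + max (-(1 / 8)) (min q.1 (1 / 8)) : ℝ) : ℂ) + I * (q.2 : ℂ))) q := by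
    have : Continuous (fun q : ℝ × ℝ =>
      (((1 / 2 + max (-(1 / 8)) (min q.1 (1 / 8)) : ℝ) : ℂ) + I * (q.2 : ℂ))) := by fun_prop
    exact this.continuousAt
  exact ContinuousAt.comp (f := fun q : ℝ × ℝ =>
      (((1 / 2 + max (-(1 / 8)) (min q.1 (1 / 8)) : ℝ) : ℂ) + I * (q.2 : ℂ))) h1 h2

theorem gc_nonneg (p : ℝ) (q : ℝ × ℝ) : 0 ≤ Gc p q := Real.rpow_nonneg (norm_nonneg _) _

theorem gc_eq (p : ℝ) {x : ℝ} (h1 : -(1 / 8) ≤ x) (h2 : x ≤ 1 / 8) (u : ℝ) :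
    Gc p (x, u) = ‖riemannZeta (((1 / 2 + x : ℝ) : ℂ) + I * (u : ℂ))‖ ^ p := by
  have : max (-(1 / 8 : ℝ)) (min x (1 / 8)) = x := by
    rw [min_eq_left h2, max_eq_right h1]
  unfold Gc
  simp only [this]

theorem zeta_bd {Z0 : ℂ → ℂ} {C0 : ℝ} (h : ZeroPole Z0 C0) {z : ℂ}
    (hz : |z.re - 1 / 2| ≤ 1 / 8) : ‖riemannZeta z‖ ≤ (C0 + 3) * (1 + |z.im|) := by
  have hr := abs_le.1 hz
  have hne : z ≠ 1 := ne_one (by linarith [hr.2])
  have h1 := h.eq z hne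
  have h2 := h.bd z (by linarith [hr.1]) (by linarith [hr.2])
  have h3 : riemannZeta z = Z0 z + 1 / (z - 1) := by rw [h1]; ring
  have h4 : (3 / 8 : ℝ) ≤ ‖z - 1‖ := by
    have := abs_re_le_norm (z - 1)
    have h5 : (z - 1).re = z.re - 1 := by simp
    rw [h5, abs_of_nonpos (by linarith [hr.2])] at this
    linarith [hr.2]
  have h6 : ‖1 / (z - 1)‖ ≤ 3 := by
    rw [norm_div, norm_one, div_le_iff₀ (by linarith)]
    linarith
  have h7 : (0 : ℝ) ≤ |z.im| := abs_nonneg _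
  calc ‖riemannZeta z‖ ≤ ‖Z0 z‖ + ‖1 / (z - 1)‖ := by rw [h3]; exact norm_add_le _ _
    _ ≤ C0 * (1 + |z.im|) + 3 := add_le_add h2 h6
    _ ≤ (C0 + 3) * (1 + |z.im|) := by nlinarith

theorem gc_le {Z0 : ℂ → ℂ} {C0 : ℝ} (h : ZeroPole Z0 C0) (hC0 : 1 ≤ C0) {p : ℝ} (hp : 0 < p)
    (hp4 : p ≤ 4) (x t y B r : ℝ) (hB : 0 ≤ B) (ht : |t| ≤ B) (hr : 0 < r) (hr1 : r ≤ 1) :
    Gc p (x, t + r * y) ≤ ((C0 + 3) * (1 + B)) ^ p * (1 + |y|) ^ 4 := by
  have h1 : ‖riemannZeta (((1 / 2 + max (-(1 / 8)) (min x (1 / 8)) : ℝ) : ℂ)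
      + I * ((t + r * y : ℝ) : ℂ))‖ ≤ (C0 + 3) * (1 + |t + r * y|) := by
    have := zeta_bd h (z := (((1 / 2 + max (-(1 / 8)) (min x (1 / 8)) : ℝ) : ℂ)
      + I * ((t + r * y : ℝ) : ℂ))) (by
        rw [re_eq, abs_le]
        constructor <;> linarith [cl_le x, le_cl x])
    rwa [im_eq] at this
  have h2 : |t + r * y| ≤ B + |y| := by
    refine (abs_add_le _ _).trans (add_le_add ht ?_)
    rw [abs_mul, abs_of_pos hr]
    nlinarith [abs_nonneg y]
  have hy : (0 : ℝ) ≤ |y| := abs_nonneg y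
  have h3 : (C0 + 3) * (1 + |t + r * y|) ≤ ((C0 + 3) * (1 + B)) * (1 + |y|) := by
    have : 1 + |t + r * y| ≤ (1 + B) * (1 + |y|) := by nlinarith
    calc (C0 + 3) * (1 + |t + r * y|) ≤ (C0 + 3) * ((1 + B) * (1 + |y|)) :=
          mul_le_mul_of_nonneg_left this (by linarith)
      _ = _ := by ring
  have h4 : (0 : ℝ) ≤ (C0 + 3) * (1 + B) := by positivity
  unfold Gc
  calc ‖riemannZeta (((1 / 2 + max (-(1 / 8)) (min x (1 / 8)) : ℝ) : ℂ)
      + I * ((t + r * y : ℝ) : ℂ))‖ ^ p ≤ (((C0 + 3) * (1 + B)) * (1 + |y|)) ^ p :=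
        Real.rpow_le_rpow (norm_nonneg _) (h1.trans h3) hp.le
    _ = ((C0 + 3) * (1 + B)) ^ p * (1 + |y|) ^ p := Real.mul_rpow h4 (by linarith)
    _ ≤ ((C0 + 3) * (1 + B)) ^ p * (1 + |y|) ^ 4 := by
        refine mul_le_mul_of_nonneg_left ?_ (Real.rpow_nonneg h4 _)
        calc (1 + |y|) ^ p ≤ (1 + |y|) ^ (4 : ℝ) :=
              Real.rpow_le_rpow_of_exponent_le (by linarith) hp4
          _ = (1 + |y|) ^ 4 := by norm_cast

theorem int4 : Integrable (fun y : ℝ => ((1 + |y|) ^ 4)⁻¹) := by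
  have h := integrable_one_add_norm (E := ℝ) (μ := volume) (r := 4)
    (by rw [Module.finrank_self]; norm_num)
  refine h.congr (Filter.Eventually.of_forall fun y => ?_)
  simp only [Real.norm_eq_abs]
  rw [Real.rpow_neg (by positivity)]
  norm_cast

theorem p8 (y : ℝ) : (1 + |y|) ^ 4 * ((1 + |y|) ^ 8)⁻¹ = ((1 + |y|) ^ 4)⁻¹ := by
  have h : (0 : ℝ) < 1 + |y| := by positivity
  field_simp

end Z7

open Z7 in
theorem top (hz : ExZ0) (hs : LineShift) (hd : DiscPt) (hC : Cont) : Top := by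
  intro S hSm hSr p A hp hp4 hA
  obtain ⟨Z0, C0, hC0, hz0⟩ := hz
  obtain ⟨C1, hC1, h1⟩ := hd p hp S hSm hSr 8 1 (by norm_num; linarith)
  obtain ⟨C2, hC2, h2⟩ := hs p A hp hp4 hA
  set K : ℝ := ∫ y : ℝ, ((1 + |y|) ^ 4)⁻¹ with hK
  have hK0 : 0 ≤ K := integral_nonneg fun y => by positivity
  have hE : 0 < Real.exp (8 * A) := Real.exp_pos _
  refine ⟨C2 + Real.exp (8 * A) + C1 * 2 * C2 * K, ?_, ?_⟩
  · have : 0 ≤ C1 * 2 * C2 * K := by positivity
    linarith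
  intro T Λ x0 hT hL1 hL2 hx0
  have hnn : 0 ≤ C1 * 2 * C2 * K := by positivity
  have hTC2 : C2 ≤ T := by linarith
  have hTE : Real.exp (8 * A) ≤ T := by linarith
  have hT0 : 0 < T := by linarith
  have hlog : 8 * A ≤ Real.log T := by
    rw [Real.le_log_iff_exp_le hT0]; exact hTE
  have hL8 : 8 ≤ Λ := by
    by_contra hcon
    push Not at hcon
    have : A * Λ < A * 8 := mul_lt_mul_of_pos_left hcon (by linarith)
    linarith
  set r : ℝ := Λ⁻¹ with hr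
  have hr0 : 0 < r := by rw [hr]; positivity
  have hr8 : r ≤ 1 / 8 := by
    rw [hr, inv_le_comm₀ (by linarith) (by norm_num)]
    linarith
  have hrinv : r⁻¹ = Λ := by rw [hr, inv_inv]
  -- the integrand
  set F : ℝ → ℝ × ℝ → ℝ := fun t q => Gc p (q.1, t + r * q.2) * ((1 + |q.2|) ^ 8)⁻¹ with hF
  set μ : Measure (ℝ × ℝ) := (volume.restrict (Ioc (-r) r)).prod volume with hμ
  set ν : Measure ℝ := volume.restrict (Ioc x0 (x0 + T)) with hν
  have hFcont : Continuous (Function.uncurry F) := by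
    have hg := gc_cont p hp
    have : Continuous fun z : ℝ × (ℝ × ℝ) =>
        Gc p (z.2.1, z.1 + r * z.2.2) * ((1 + |z.2.2|) ^ 8)⁻¹ := by
      refine Continuous.mul (hg.comp (by fun_prop)) ?_
      refine Continuous.inv₀ (by fun_prop) fun z => ?_
      positivity
    exact this
  set B : ℝ := |x0| + T with hB
  have hB0 : 0 ≤ B := by positivity
  set M : ℝ := ((C0 + 3) * (1 + B)) ^ p with hM
  have hM0 : 0 ≤ M := Real.rpow_nonneg (by positivity) _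
  have htB : ∀ t ∈ Ioc x0 (x0 + T), |t| ≤ B := by
    intro t ht
    rw [abs_le]
    constructor
    · have := neg_abs_le x0
      linarith [ht.1]
    · have := le_abs_self x0
      linarith [ht.2]
  have hFle : ∀ t, |t| ≤ B → ∀ q : ℝ × ℝ, F t q ≤ M * ((1 + |q.2|) ^ 4)⁻¹ := by
    intro t ht q
    have h := gc_le hz0 hC0 hp hp4 q.1 t q.2 B r hB0 ht hr0 (by linarith)
    have h8 : 0 ≤ ((1 + |q.2|) ^ 8)⁻¹ := by positivity
    calc F t q ≤ (M * (1 + |q.2|) ^ 4) * ((1 + |q.2|) ^ 8)⁻¹ :=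
          mul_le_mul_of_nonneg_right h h8
      _ = M * ((1 + |q.2|) ^ 4)⁻¹ := by rw [mul_assoc, p8]
  have hF0 : ∀ t q, 0 ≤ F t q := fun t q => mul_nonneg (gc_nonneg _ _) (by positivity)
  have : IsFiniteMeasure (volume.restrict (Ioc (-r) r)) := by
    refine ⟨?_⟩
    rw [Measure.restrict_apply_univ, Real.volume_Ioc]
    exact ENNReal.ofReal_lt_top
  have : IsFiniteMeasure ν := by
    refine ⟨?_⟩
    rw [hν, Measure.restrict_apply_univ, Real.volume_Ioc]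
    exact ENNReal.ofReal_lt_top
  have hg4 : Integrable (fun q : ℝ × ℝ => (1 : ℝ) * ((1 + |q.2|) ^ 4)⁻¹) μ := by
    refine Integrable.mul_prod (f := fun _ : ℝ => (1 : ℝ)) (g := fun y : ℝ => ((1 + |y|) ^ 4)⁻¹) ?_ ?_
    · exact integrable_const _
    · exact int4
  have hFi : Integrable (Function.uncurry F) (ν.prod μ) := by
    have hdom : Integrable (fun z : ℝ × (ℝ × ℝ) => M * ((1 : ℝ) * ((1 + |z.2.2|) ^ 4)⁻¹))
        (ν.prod μ) := by
      refine Integrable.mul_prod (f := fun _ : ℝ => M)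
        (g := fun q : ℝ × ℝ => (1 : ℝ) * ((1 + |q.2|) ^ 4)⁻¹) ?_ hg4
      exact integrable_const _
    refine hdom.mono' hFcont.aestronglyMeasurable ?_
    have hfst : ∀ᵐ z ∂(ν.prod μ), z.1 ∈ Ioc x0 (x0 + T) :=
      Measure.quasiMeasurePreserving_fst.ae (ae_restrict_mem measurableSet_Ioc)
    filter_upwards [hfst] with z hz1
    show ‖F z.1 z.2‖ ≤ _
    rw [Real.norm_eq_abs, abs_of_nonneg (hF0 _ _), one_mul]
    exact hFle z.1 (htB z.1 hz1) z.2
  -- pointwise bound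
  have hpt : ∀ t ∈ Ioc x0 (x0 + T), ‖ZW S r t‖ ^ p ≤ C1 * r⁻¹ * ∫ q, F t q ∂μ := by
    intro t ht
    have h := h1 riemannZeta (1 / 2) r t (C0 + 3) hr0 (by linarith) ?_ ?_
    · have e1 : ZW S r t = ∫ y : ℝ, riemannZeta (((1 / 2 : ℝ) : ℂ) + I * ((t + r * y : ℝ) : ℂ)) * S y := by
        unfold ZW
        push_cast
        rfl
      have hFt : Integrable (F t) μ := by
        have hdom : Integrable (fun q : ℝ × ℝ => M * ((1 : ℝ) * ((1 + |q.2|) ^ 4)⁻¹)) μ :=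
          hg4.const_mul M
        have hc : Continuous (F t) := hFcont.comp (by fun_prop : Continuous fun q : ℝ × ℝ => (t, q))
        refine hdom.mono' hc.aestronglyMeasurable (Filter.Eventually.of_forall fun q => ?_)
        rw [Real.norm_eq_abs, abs_of_nonneg (hF0 _ _), one_mul]
        exact hFle t (htB t ht) q
      have e2 : ∫ q, F t q ∂μ = ∫ x in (-r)..r, ∫ y : ℝ,
          ‖riemannZeta (((1 / 2 + x : ℝ) : ℂ) + I * ((t + r * y : ℝ) : ℂ))‖ ^ p
            * ((1 + |y|) ^ 8)⁻¹ := by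
        rw [intervalIntegral.integral_of_le (by linarith), hμ, integral_prod _ hFt]
        refine setIntegral_congr_fun measurableSet_Ioc fun x hx => ?_
        simp only [hF]
        refine integral_congr_ae (Filter.Eventually.of_forall fun y => ?_)
        simp only
        rw [gc_eq p (by linarith [hx.1]) (by linarith [hx.2])]
      rw [e1, e2]
      exact h
    · intro z hz
      refine (differentiableAt_riemannZeta (ne_one ?_)).differentiableWithinAt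
      have := (abs_lt.1 (show |z.re - 1 / 2| < 2 * r from hz)).2
      linarith
    · intro z hz
      rw [pow_one]
      exact zeta_bd hz0 (hz.trans hr8)
  -- integration
  have hZc : Continuous fun t => ‖ZW S r t‖ ^ p :=
    ((hC.2 S hSm hSr r).norm).rpow_const fun _ => Or.inr hp.le
  have hxT : x0 ≤ x0 + T := by linarith
  have hstep1 : ∫ t in x0..(x0 + T), ‖ZW S r t‖ ^ p ≤ C1 * r⁻¹ * ∫ t, ∫ q, F t q ∂μ ∂ν := by
    rw [intervalIntegral.integral_of_le hxT, ← integral_const_mul]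
    refine setIntegral_mono_on (hZc.integrableOn_Icc.mono_set Ioc_subset_Icc_self) ?_
      measurableSet_Ioc hpt
    exact (hFi.integral_prod_left).const_mul _
  have hswap : ∫ t, ∫ q, F t q ∂μ ∂ν = ∫ q, ∫ t, F t q ∂ν ∂μ := integral_integral_swap hFi
  have hfin : ∫ q, ∫ t, F t q ∂ν ∂μ
      ≤ ∫ q : ℝ × ℝ, (T * (C2 * Real.log T ^ (p ^ 2 / 4))) * ((1 : ℝ) * ((1 + |q.2|) ^ 4)⁻¹) ∂μ := by
    refine integral_mono_ae hFi.integral_prod_right (hg4.const_mul _) ?_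
    have hfst : ∀ᵐ q ∂μ, q.1 ∈ Ioc (-r) r :=
      Measure.quasiMeasurePreserving_fst.ae (ae_restrict_mem measurableSet_Ioc)
    filter_upwards [hfst] with q hq
    have hxq : |q.1| * Λ ≤ 1 := by
      have : |q.1| ≤ r := abs_le.2 ⟨hq.1.le, hq.2⟩
      calc |q.1| * Λ ≤ r * Λ := mul_le_mul_of_nonneg_right this (by linarith)
        _ = 1 := by rw [hr]; exact inv_mul_cancel₀ (by linarith)
    have h := h2 T Λ x0 q.1 q.2 hTC2 hL1 hL2 hx0 hxq
    have e3 : ∫ t, F t q ∂ν = (∫ u in (x0 + q.2 / Λ)..(x0 + q.2 / Λ + T),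
        ‖riemannZeta (((1 / 2 + q.1 : ℝ) : ℂ) + I * u)‖ ^ p) * ((1 + |q.2|) ^ 8)⁻¹ := by
      simp only [hF]
      rw [integral_mul_const]
      congr 1
      rw [hν, ← intervalIntegral.integral_of_le hxT]
      have e4 : ∀ t : ℝ, Gc p (q.1, t + r * q.2)
          = (fun u : ℝ => ‖riemannZeta (((1 / 2 + q.1 : ℝ) : ℂ) + I * u)‖ ^ p) (t + r * q.2) := by
        intro t
        rw [gc_eq p (by linarith [hq.1]) (by linarith [hq.2])]
      simp_rw [e4]
      rw [intervalIntegral.integral_comp_add_right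
        (fun u : ℝ => ‖riemannZeta (((1 / 2 + q.1 : ℝ) : ℂ) + I * u)‖ ^ p)]
      have e5 : x0 + r * q.2 = x0 + q.2 / Λ := by rw [hr]; field_simp
      have e6 : x0 + T + r * q.2 = x0 + q.2 / Λ + T := by rw [hr]; field_simp; ring
      rw [e5, e6]
    have h8 : 0 ≤ ((1 + |q.2|) ^ 8)⁻¹ := by positivity
    have h9 : (∫ u in (x0 + q.2 / Λ)..(x0 + q.2 / Λ + T),
        ‖riemannZeta (((1 / 2 + q.1 : ℝ) : ℂ) + I * u)‖ ^ p)
        ≤ T * (C2 * Real.log T ^ (p ^ 2 / 4) * (1 + |q.2|) ^ 4) := by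
      rw [inv_mul_le_iff₀ hT0] at h
      exact h
    show (∫ t, F t q ∂ν) ≤ _
    rw [e3]
    calc (∫ u in (x0 + q.2 / Λ)..(x0 + q.2 / Λ + T),
        ‖riemannZeta (((1 / 2 + q.1 : ℝ) : ℂ) + I * u)‖ ^ p) * ((1 + |q.2|) ^ 8)⁻¹
        ≤ (T * (C2 * Real.log T ^ (p ^ 2 / 4) * (1 + |q.2|) ^ 4)) * ((1 + |q.2|) ^ 8)⁻¹ :=
          mul_le_mul_of_nonneg_right h9 h8
      _ = T * (C2 * Real.log T ^ (p ^ 2 / 4)) * ((1 + |q.2|) ^ 4 * ((1 + |q.2|) ^ 8)⁻¹) := by ring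
      _ = _ := by rw [p8, one_mul]
  have hval : ∫ q : ℝ × ℝ, (T * (C2 * Real.log T ^ (p ^ 2 / 4))) * ((1 : ℝ) * ((1 + |q.2|) ^ 4)⁻¹) ∂μ
      = (T * (C2 * Real.log T ^ (p ^ 2 / 4))) * (2 * r * K) := by
    rw [integral_const_mul]
    congr 1
    rw [hμ, integral_prod_mul (fun _ : ℝ => (1 : ℝ)) (fun y : ℝ => ((1 + |y|) ^ 4)⁻¹), ← hK]
    congr 1
    rw [← intervalIntegral.integral_of_le (by linarith)]
    simp
    ring
  have hlog0 : 0 ≤ Real.log T := by linarith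
  have hlp : 0 ≤ Real.log T ^ (p ^ 2 / 4) := Real.rpow_nonneg hlog0 _
  unfold Av
  have hC1r : 0 ≤ C1 * r⁻¹ := by positivity
  calc T⁻¹ * ∫ t in x0..(x0 + T), ‖ZW S r t‖ ^ p
      ≤ T⁻¹ * (C1 * r⁻¹ * ((T * (C2 * Real.log T ^ (p ^ 2 / 4))) * (2 * r * K))) := by
        refine mul_le_mul_of_nonneg_left ?_ (by positivity)
        refine hstep1.trans (mul_le_mul_of_nonneg_left ?_ hC1r)
        rw [hswap, ← hval]
        exact hfin
    _ = (C1 * 2 * C2 * K) * Real.log T ^ (p ^ 2 / 4) := by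
        field_simp
    _ ≤ (C2 + Real.exp (8 * A) + C1 * 2 * C2 * K) * Real.log T ^ (p ^ 2 / 4) := by
        refine mul_le_mul_of_nonneg_right ?_ hlp
        linarith

end Pool.Agent.Lib.MP2
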