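import Mathlib
import Pool.Agent.Lib.MP_f9aece_nt_mt.All
import Pool.Agent.Lib.MP_f9aece_nt_ms.Z6PowClose
import Pool.Agent.Lib.MP_f9aece_nt_mp.K1Bump
import Pool.Agent.Lib.MP_f9aece_nt_mp.K2Prim
import Pool.Agent.Lib.MP_f9aece_nt_mp.K3PhAdm
import Pool.Agent.Lib.MP_f9aece_nt_mp.K4KkSupp
import Pool.Agent.Lib.MP_f9aece_nt_mp.K5UpClass
import Pool.Agent.Lib.MP_f9aece_nt_mp.K6Cont
import Pool.Agent.Lib.MP_f9aece_nt_mp.D1Ident
import Pool.Agent.Lib.MP_f9aece_nt_mp.N1PowSum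
import Pool.Agent.Lib.MP_f9aece_nt_mp.C1SubMean
import Pool.Agent.Lib.MP_f9aece_nt_mp.C2DiscMean
import Pool.Agent.Lib.MP_f9aece_nt_mp.C3MaxPrinc
import Pool.Agent.Lib.MP_f9aece_nt_mp.C4Convex
import Pool.Agent.Lib.MP_f9aece_nt_mp.C5GWBd
import Pool.Agent.Lib.MP_f9aece_nt_mp.C6ConvexInt
import Pool.Agent.Lib.MP_f9aece_nt_mp.C7DiscPt
import Pool.Agent.Lib.MP_f9aece_nt_mp.Z1ExZ0
import Pool.Agent.Lib.MP_f9aece_nt_mp.Z2LineUp
import Pool.Agent.Lib.MP_f9aece_nt_mp.Z3RightUp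
import Pool.Agent.Lib.MP_f9aece_nt_mp.Z4LeftSide
import Pool.Agent.Lib.MP_f9aece_nt_mp.Z5LineAll
import Pool.Agent.Lib.MP_f9aece_nt_mp.Z6LineShift
import Pool.Agent.Lib.MP_f9aece_nt_mp.Z7Top
import Pool.Agent.Lib.MP_f9aece_nt_mp.E1Err
import Pool.Agent.Lib.MP_f9aece_nt_mp.P1ShiftLine
import Pool.Agent.Lib.MP_f9aece_nt_mp.G1ContG
import Pool.Agent.Lib.MP_f9aece_nt_mp.G2CvAdm
import Pool.Agent.Lib.MP_f9aece_nt_mp.G3CvConv
import Pool.Agent.Lib.MP_f9aece_nt_mp.G4PosG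
import Pool.Agent.Lib.MP_f9aece_nt_mp.G5StepErr
import Pool.Agent.Lib.MP_f9aece_nt_mp.G6General

/-!
Moments of averages of zeta over short windows, general kernels: everything together.
-/

set_option autoImplicit false

namespace Pool.Agent.Lib.MP2

open Pool.Agent.Lib.MS (psi Adm ZW MomentsT2)

theorem xConvexInt : ConvexInt := convexInt (convex subMean maxPrinc) gwBd

theorem xDiscPt : DiscPt := discPt (discMean subMean)

theorem xLineShift : LineShift :=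
  lineShift exZ0 (lineAll exZ0 (rightUp exZ0 lineUp xConvexInt) leftSide)

theorem xErr : Err :=
  err prim (kkSupp prim) (upClass Pool.Agent.Lib.MT.xThmTwo bump) cont (ident prim cont) powSum
    (top exZ0 xLineShift xDiscPt cont)

theorem xPosG : PosG := posG exZ0 xConvexInt xDiscPt contG (cvConv contG) shiftLine

theorem xGeneral : General :=
  general Pool.Agent.Lib.MT.xThmTwo bump Pool.Agent.Lib.MS.powClose powSum contG (phAdm prim) cvAdm
    (stepErr xErr cont prim) xPosG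

end Pool.Agent.Lib.MP2
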