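import Mathlib
import Pool.Agent.Lib.MP_f9aece_nt_mp.StmtsG
import Pool.Agent.Lib.MP_f9aece_nt_mp.G2CvAdm

/-!
Moments of averages of zeta over short windows, general kernels, module GP.

Same proof as P2Pos.lean (helper42) with PA H t replaced by ZW phi H t: F(s) = int_v Z0(s + i H v) phi(v) dv, analytic in 1/4 < Re s < 2, ||F|| <= C (1+|Im s|) uniformly in H <= 1 (W1 phi); ZW phi H t = F(1/2+it) + q(t), |q| <= 2 int|phi|; CvConv instead of PhConv; ||F(3/2+it)|| <= C.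
-/

set_option autoImplicit false

namespace Pool.Agent.Lib.MP2

open MeasureTheory Set Filter Topology Complex
open Pool.Agent.Lib.MS (psi Adm ZW MomentsT2)

private theorem gp_zeta_bd : ∃ C : ℝ, 0 ≤ C ∧ ∀ t : ℝ, ‖riemannZeta (((3 / 2 : ℝ) : ℂ) + I * t)‖ ≤ C := by
  refine ⟨∑' n : ℕ, ‖(1 : ℂ) / (n : ℂ) ^ ((3 / 2 : ℝ) : ℂ)‖, tsum_nonneg fun _ => norm_nonneg _, ?_⟩
  intro t
  have hre : (((3 / 2 : ℝ) : ℂ) + I * t).re = 3 / 2 := by simp
  have h1 : ∀ n : ℕ, ‖(1 : ℂ) / (n : ℂ) ^ (((3 / 2 : ℝ) : ℂ) + I * t)‖ =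
      ‖(1 : ℂ) / (n : ℂ) ^ ((3 / 2 : ℝ) : ℂ)‖ := by
    intro n
    rcases Nat.eq_zero_or_pos n with rfl | hn
    · have h2 : (((3 / 2 : ℝ) : ℂ) + I * t) ≠ 0 := by
        intro h; rw [h] at hre; norm_num at hre
      have h3 : (((3 / 2 : ℝ) : ℂ)) ≠ 0 := by norm_num
      rw [Nat.cast_zero, zero_cpow h2, zero_cpow h3]
    · rw [norm_div, norm_div, norm_natCast_cpow_of_pos hn, norm_natCast_cpow_of_pos hn, hre,
        ofReal_re]
  have hsum : Summable fun n : ℕ => ‖(1 : ℂ) / (n : ℂ) ^ ((3 / 2 : ℝ) : ℂ)‖ := by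
    have h2 : Summable fun n : ℕ => 1 / (n : ℝ) ^ (3 / 2 : ℝ) :=
      Real.summable_one_div_nat_rpow.2 (by norm_num)
    refine h2.congr fun n => ?_
    rcases Nat.eq_zero_or_pos n with rfl | hn
    · have h3 : (((3 / 2 : ℝ) : ℂ)) ≠ 0 := by norm_num
      rw [Nat.cast_zero, Nat.cast_zero, zero_cpow h3, Real.zero_rpow (by norm_num)]
      simp
    · rw [norm_div, norm_natCast_cpow_of_pos hn, ofReal_re, norm_one]
  rw [zeta_eq_tsum_one_div_nat_cpow (by rw [hre]; norm_num)]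
  refine (norm_tsum_le_tsum_norm ?_).trans (le_of_eq (tsum_congr h1))
  exact hsum.congr fun n => (h1 n).symm

private theorem gp_pow_add {p a b : ℝ} (hp : 0 < p) (ha : 0 ≤ a) (hb : 0 ≤ b) :
    (a + b) ^ p ≤ 2 ^ p * (a ^ p + b ^ p) := by
  rcases le_total a b with h | h
  · have h1 : (a + b) ^ p ≤ (2 * b) ^ p := Real.rpow_le_rpow (by positivity) (by linarith) hp.le
    rw [Real.mul_rpow (by norm_num) hb] at h1
    have h2 : 0 ≤ a ^ p := Real.rpow_nonneg ha p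
    have h3 : (0 : ℝ) < 2 ^ p := Real.rpow_pos_of_pos (by norm_num) p
    nlinarith
  · have h1 : (a + b) ^ p ≤ (2 * a) ^ p := Real.rpow_le_rpow (by positivity) (by linarith) hp.le
    rw [Real.mul_rpow (by norm_num) ha] at h1
    have h2 : 0 ≤ b ^ p := Real.rpow_nonneg hb p
    have h3 : (0 : ℝ) < 2 ^ p := Real.rpow_pos_of_pos (by norm_num) p
    nlinarith


/-- the weight is integrable -/
private theorem gp_G_int {p : ℝ} (n : ℕ) (hn : p + 2 ≤ n) :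
    Integrable fun y : ℝ => (1 + |y|) ^ p * ((1 + |y|) ^ n)⁻¹ := by
  have h1 : Integrable fun y : ℝ => (1 + ‖y‖) ^ (-(2 : ℝ)) := by
    apply integrable_one_add_norm
    norm_num
  refine h1.mono' ?_ (Filter.Eventually.of_forall fun y => ?_)
  · apply Continuous.aestronglyMeasurable
    have h2 : Continuous fun y : ℝ => (1 + |y|) := by fun_prop
    exact (h2.rpow_const fun y => Or.inl (by positivity)).mul
      ((h2.pow n).inv₀ fun y => pow_ne_zero n (by positivity))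
  · have hy : (1 : ℝ) ≤ 1 + |y| := by linarith [abs_nonneg y]
    have hy0 : (0 : ℝ) < 1 + |y| := by linarith
    rw [Real.norm_eq_abs, abs_of_nonneg (by positivity), Real.norm_eq_abs, ← Real.rpow_natCast,
      ← Real.rpow_neg hy0.le, ← Real.rpow_add hy0]
    exact Real.rpow_le_rpow_of_exponent_le hy (by linarith)

/-- the average over `t` of the right hand side of `DiscPt` -/
private theorem gp_fub {F0 : ℂ → ℂ} (hF : Continuous F0) {p Cg H T B : ℝ} (hp : 0 < p)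
    (n : ℕ) (hn : p + 2 ≤ n) (hCg : 0 ≤ Cg) (hH : 0 < H) (hH4 : H ≤ 1 / 4) (hT : 0 ≤ T) 
    (hgr : ∀ z : ℂ, 1 / 4 ≤ z.re → z.re ≤ 2 → ‖F0 z‖ ≤ Cg * (1 + |z.im|))
    (hJ : ∀ x ∈ Icc (-(H / 2)) (H / 2), ∀ y : ℝ,
      ∫ t in (0 : ℝ)..T, ‖F0 (((1 / 2 + H + x : ℝ) : ℂ) + I * ((t + H / 2 * y : ℝ) : ℂ))‖ ^ p
        ≤ B * (1 + |y|) ^ p) :
    IntervalIntegrable (fun t : ℝ => ∫ x in (-(H / 2))..(H / 2), ∫ y : ℝ,
      ‖F0 (((1 / 2 + H + x : ℝ) : ℂ) + I * ((t + H / 2 * y : ℝ) : ℂ))‖ ^ p * ((1 + |y|) ^ n)⁻¹)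
      volume 0 T ∧
    ∫ t in (0 : ℝ)..T, (∫ x in (-(H / 2))..(H / 2), ∫ y : ℝ,
      ‖F0 (((1 / 2 + H + x : ℝ) : ℂ) + I * ((t + H / 2 * y : ℝ) : ℂ))‖ ^ p * ((1 + |y|) ^ n)⁻¹)
      ≤ H * (B * ∫ y : ℝ, (1 + |y|) ^ p * ((1 + |y|) ^ n)⁻¹) := by
  set Φ : ℝ → ℝ × ℝ → ℝ := fun t z =>
    ‖F0 (((1 / 2 + H + z.1 : ℝ) : ℂ) + I * ((t + H / 2 * z.2 : ℝ) : ℂ))‖ ^ p *
      ((1 + |z.2|) ^ n)⁻¹ with hΦ
  set G : ℝ → ℝ := fun y => (1 + |y|) ^ p * ((1 + |y|) ^ n)⁻¹ with hG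
  have hGi : Integrable G := gp_G_int n hn
  set μ : Measure ℝ := volume.restrict (Ioc 0 T) with hμ
  set ν : Measure ℝ := volume.restrict (Ioc (-(H / 2)) (H / 2)) with hν
  have hle : -(H / 2) ≤ H / 2 := by linarith
  have hΦc : Continuous fun w : ℝ × ℝ × ℝ => Φ w.1 w.2 := by
    have h1 : Continuous fun w : ℝ × ℝ × ℝ =>
        F0 (((1 / 2 + H + w.2.1 : ℝ) : ℂ) + I * ((w.1 + H / 2 * w.2.2 : ℝ) : ℂ)) := by
      apply hF.comp
      fun_prop
    have h2 : Continuous fun w : ℝ × ℝ × ℝ => (1 + |w.2.2|) := by fun_prop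
    exact (h1.norm.rpow_const fun w => Or.inr hp.le).mul
      ((h2.pow n).inv₀ fun w => pow_ne_zero n (by positivity))
  have hbound : ∀ t ∈ Ioc 0 T, ∀ z : ℝ × ℝ, z.1 ∈ Ioc (-(H / 2)) (H / 2) →
      Φ t z ≤ (Cg * (1 + T)) ^ p * G z.2 := by
    intro t ht z hz
    have h1 : ‖F0 (((1 / 2 + H + z.1 : ℝ) : ℂ) + I * ((t + H / 2 * z.2 : ℝ) : ℂ))‖ ≤
        (Cg * (1 + T)) * (1 + |z.2|) := by
      have hre : (((1 / 2 + H + z.1 : ℝ) : ℂ) + I * ((t + H / 2 * z.2 : ℝ) : ℂ)).re =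
          1 / 2 + H + z.1 := by simp
      have him : (((1 / 2 + H + z.1 : ℝ) : ℂ) + I * ((t + H / 2 * z.2 : ℝ) : ℂ)).im =
          t + H / 2 * z.2 := by simp
      refine (hgr _ (by rw [hre]; linarith [hz.1]) (by rw [hre]; linarith [hz.2])).trans ?_
      rw [him, mul_assoc]
      refine mul_le_mul_of_nonneg_left ?_ hCg
      have h2 : |t + H / 2 * z.2| ≤ T + |z.2| := by
        refine (abs_add_le _ _).trans ?_
        rw [abs_of_pos ht.1, abs_mul, abs_of_pos (by linarith : 0 < H / 2)]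
        nlinarith [ht.2, abs_nonneg z.2]
      nlinarith [abs_nonneg z.2, mul_nonneg hT (abs_nonneg z.2)]
    have h3 : ‖F0 (((1 / 2 + H + z.1 : ℝ) : ℂ) + I * ((t + H / 2 * z.2 : ℝ) : ℂ))‖ ^ p ≤
        (Cg * (1 + T)) ^ p * (1 + |z.2|) ^ p := by
      rw [← Real.mul_rpow (by positivity) (by positivity)]
      exact Real.rpow_le_rpow (norm_nonneg _) h1 hp.le
    show _ * ((1 + |z.2|) ^ n)⁻¹ ≤ (Cg * (1 + T)) ^ p * ((1 + |z.2|) ^ p * ((1 + |z.2|) ^ n)⁻¹)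
    rw [← mul_assoc]
    exact mul_le_mul_of_nonneg_right h3 (by positivity)
  have hΦ0 : ∀ t z, 0 ≤ Φ t z := fun t z => by
    show 0 ≤ _ * _
    positivity
  -- integrability
  have hGi2 : Integrable (fun z : ℝ × ℝ => G z.2) (ν.prod volume) := hGi.comp_snd ν
  have hGi3 : Integrable (fun w : ℝ × ℝ × ℝ => G w.2.2) (μ.prod (ν.prod volume)) :=
    hGi2.comp_snd μ
  have haez : ∀ᵐ z : ℝ × ℝ ∂(ν.prod volume), z.1 ∈ Ioc (-(H / 2)) (H / 2) :=
    Measure.quasiMeasurePreserving_fst.ae (ae_restrict_mem measurableSet_Ioc)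
  have hint : Integrable (fun w : ℝ × ℝ × ℝ => Φ w.1 w.2) (μ.prod (ν.prod volume)) := by
    refine (hGi3.const_mul ((Cg * (1 + T)) ^ p)).mono' hΦc.aestronglyMeasurable ?_
    have h1 : ∀ᵐ w : ℝ × ℝ × ℝ ∂(μ.prod (ν.prod volume)), w.1 ∈ Ioc 0 T :=
      Measure.quasiMeasurePreserving_fst.ae (ae_restrict_mem measurableSet_Ioc)
    have h2 : ∀ᵐ w : ℝ × ℝ × ℝ ∂(μ.prod (ν.prod volume)), w.2.1 ∈ Ioc (-(H / 2)) (H / 2) :=
      Measure.quasiMeasurePreserving_snd.ae haez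
    filter_upwards [h1, h2] with w hw1 hw2
    rw [Real.norm_eq_abs, abs_of_nonneg (hΦ0 _ _)]
    exact hbound _ hw1 _ hw2
  have hKeq : ∀ᵐ t ∂μ, (∫ x in (-(H / 2))..(H / 2), ∫ y : ℝ, Φ t (x, y)) =
      ∫ z, Φ t z ∂(ν.prod volume) := by
    filter_upwards [hint.prod_right_ae] with t ht
    rw [intervalIntegral.integral_of_le hle, integral_prod _ ht]
  have hKi : Integrable (fun t : ℝ => ∫ x in (-(H / 2))..(H / 2), ∫ y : ℝ, Φ t (x, y)) μ :=
    hint.integral_prod_left.congr (hKeq.mono fun t ht => ht.symm)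
  refine ⟨(intervalIntegrable_iff_integrableOn_Ioc_of_le hT).2 hKi, ?_⟩
  rw [intervalIntegral.integral_of_le hT]
  have e1 : (∫ t in Ioc 0 T, (∫ x in (-(H / 2))..(H / 2), ∫ y : ℝ, Φ t (x, y))) =
      ∫ z, ∫ t, Φ t z ∂μ ∂(ν.prod volume) := by
    rw [← integral_integral_swap (f := Φ) hint]
    exact integral_congr_ae hKeq
  change (∫ t in Ioc 0 T, (∫ x in (-(H / 2))..(H / 2), ∫ y : ℝ, Φ t (x, y))) ≤ _
  rw [e1]
  have e2 : (∫ z, ∫ t, Φ t z ∂μ ∂(ν.prod volume)) ≤ ∫ z : ℝ × ℝ, B * G z.2 ∂(ν.prod volume) := by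
    refine integral_mono_ae hint.integral_prod_right (hGi2.const_mul B) ?_
    filter_upwards [haez] with z hz
    have h1 : (∫ t, Φ t z ∂μ) = (∫ t in (0 : ℝ)..T,
        ‖F0 (((1 / 2 + H + z.1 : ℝ) : ℂ) + I * ((t + H / 2 * z.2 : ℝ) : ℂ))‖ ^ p) *
          ((1 + |z.2|) ^ n)⁻¹ := by
      rw [intervalIntegral.integral_of_le hT]
      exact integral_mul_const _ _
    rw [h1]
    show _ ≤ B * ((1 + |z.2|) ^ p * ((1 + |z.2|) ^ n)⁻¹)
    rw [← mul_assoc]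
    exact mul_le_mul_of_nonneg_right (hJ z.1 ⟨hz.1.le, hz.2⟩ z.2) (by positivity)
  refine e2.trans (le_of_eq ?_)
  rw [integral_prod _ (hGi2.const_mul B)]
  have e3 : (fun x : ℝ => ∫ y : ℝ, B * G ((x, y) : ℝ × ℝ).2) = fun _ => B * ∫ y, G y := by
    funext x
    exact integral_const_mul _ _
  rw [e3, integral_const, smul_eq_mul]
  congr 1
  rw [hν, measureReal_restrict_apply_univ, Real.volume_real_Ioc_of_le hle]
  ring


private theorem gp_J {F0 : ℂ → ℂ} (hFc : Continuous F0) {p Cg Cc C3 H T : ℝ} (hp : 0 < p)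
    (hCg : 0 ≤ Cg) (hC3 : 0 ≤ C3) (hCc : 1 ≤ Cc)
    (hconv : ∀ T x0 x : ℝ, Cc ≤ T → |x0| ≤ 4 * T → 0 ≤ x → x ≤ 1 →
      ∫ t in x0..(x0 + T), ‖F0 (((1 / 2 + x : ℝ) : ℂ) + I * t)‖ ^ p
        ≤ Cc * ((∫ t in (x0 - T)..(x0 + 2 * T), ‖F0 (((1 / 2 : ℝ) : ℂ) + I * t)‖ ^ p)
        + x * (∫ t in (x0 - T)..(x0 + 2 * T), ‖F0 (((3 / 2 : ℝ) : ℂ) + I * t)‖ ^ p) + 1))
    (hgr : ∀ z : ℂ, 1 / 4 ≤ z.re → z.re ≤ 2 → ‖F0 z‖ ≤ Cg * (1 + |z.im|))
    (h3 : ∀ t : ℝ, ‖F0 (((3 / 2 : ℝ) : ℂ) + I * t)‖ ≤ C3)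
    (hH : 0 < H) (hH4 : H ≤ 1 / 4) (hT : Cc ≤ T) :
    ∀ x ∈ Icc (-(H / 2)) (H / 2), ∀ y : ℝ,
      ∫ t in (0 : ℝ)..T, ‖F0 (((1 / 2 + H + x : ℝ) : ℂ) + I * ((t + H / 2 * y : ℝ) : ℂ))‖ ^ p
        ≤ (T * (Cc * (8 * Av p (-4 * T) (8 * T) (fun t : ℝ => F0 (((1 / 2 : ℝ) : ℂ) + I * t)) +
          3 * C3 ^ p + 1) + Cg ^ p)) * (1 + |y|) ^ p := by
  intro x hx y
  have hT1 : 1 ≤ T := hCc.trans hT
  have hT0 : 0 < T := by linarith
  set A := Av p (-4 * T) (8 * T) (fun t : ℝ => F0 (((1 / 2 : ℝ) : ℂ) + I * t)) with hA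
  have hcont : ∀ c : ℝ, Continuous fun t : ℝ => ‖F0 ((c : ℂ) + I * t)‖ ^ p := by
    intro c
    have h1 : Continuous fun t : ℝ => F0 ((c : ℂ) + I * t) := hFc.comp (by fun_prop)
    exact h1.norm.rpow_const fun _ => Or.inr hp.le
  have hA0 : 0 ≤ A := by
    rw [hA]
    unfold Av
    refine mul_nonneg (by positivity) (intervalIntegral.integral_nonneg (by linarith) ?_)
    intro t _
    positivity
  have hAeq : ∫ t in (-4 * T)..(4 * T), ‖F0 (((1 / 2 : ℝ) : ℂ) + I * t)‖ ^ p = 8 * T * A := by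
    rw [hA]
    unfold Av
    rw [show -4 * T + 8 * T = 4 * T by ring]
    field_simp
  have hy1 : 1 ≤ (1 + |y|) ^ p := Real.one_le_rpow (by linarith [abs_nonneg y]) hp.le
  have hC3p : 0 ≤ C3 ^ p := Real.rpow_nonneg hC3 p
  have hCgp : 0 ≤ Cg ^ p := Real.rpow_nonneg hCg p
  have hB1 : 0 ≤ Cc * (8 * A + 3 * C3 ^ p + 1) := by positivity
  rcases le_or_gt |H / 2 * y| T with hcase | hcase
  · -- convexity
    have hx0 : -T ≤ H / 2 * y ∧ H / 2 * y ≤ T := abs_le.1 hcase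
    have e1 : ∫ t in (0 : ℝ)..T,
        ‖F0 (((1 / 2 + H + x : ℝ) : ℂ) + I * ((t + H / 2 * y : ℝ) : ℂ))‖ ^ p =
        ∫ t in (H / 2 * y)..(H / 2 * y + T), ‖F0 (((1 / 2 + (H + x) : ℝ) : ℂ) + I * t)‖ ^ p := by
      have h1 := intervalIntegral.integral_comp_add_right (a := 0) (b := T)
        (fun t : ℝ => ‖F0 (((1 / 2 + (H + x) : ℝ) : ℂ) + I * (t : ℂ))‖ ^ p) (H / 2 * y)
      rw [zero_add, add_comm T] at h1
      rw [← h1, add_assoc]
    rw [e1]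
    have h1 := hconv T (H / 2 * y) (H + x) hT (by linarith [hcase]) (by linarith [hx.1])
      (by linarith [hx.2])
    refine h1.trans ?_
    have h2 : ∫ t in (H / 2 * y - T)..(H / 2 * y + 2 * T), ‖F0 (((1 / 2 : ℝ) : ℂ) + I * t)‖ ^ p ≤
        8 * T * A := by
      rw [← hAeq]
      refine intervalIntegral.integral_mono_interval (by linarith [hx0.1]) (by linarith)
        (by linarith [hx0.2]) (Filter.Eventually.of_forall fun t => ?_)
        ((hcont _).intervalIntegrable _ _)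
      show 0 ≤ _
      positivity
    have h4 : ∫ t in (H / 2 * y - T)..(H / 2 * y + 2 * T), ‖F0 (((3 / 2 : ℝ) : ℂ) + I * t)‖ ^ p ≤
        3 * T * C3 ^ p := by
      have h5 : ∫ t in (H / 2 * y - T)..(H / 2 * y + 2 * T), ‖F0 (((3 / 2 : ℝ) : ℂ) + I * t)‖ ^ p ≤
          ∫ t in (H / 2 * y - T)..(H / 2 * y + 2 * T), C3 ^ p := by
        refine intervalIntegral.integral_mono_on (by linarith) ((hcont _).intervalIntegrable _ _)
          (by simp) fun t _ => ?_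
        exact Real.rpow_le_rpow (norm_nonneg _) (h3 t) hp.le
      refine h5.trans (le_of_eq ?_)
      rw [intervalIntegral.integral_const, smul_eq_mul]
      ring
    have h40 : 0 ≤ ∫ t in (H / 2 * y - T)..(H / 2 * y + 2 * T),
        ‖F0 (((3 / 2 : ℝ) : ℂ) + I * t)‖ ^ p := by
      refine intervalIntegral.integral_nonneg (by linarith) fun t _ => ?_
      positivity
    have h6 : (H + x) * (∫ t in (H / 2 * y - T)..(H / 2 * y + 2 * T),
        ‖F0 (((3 / 2 : ℝ) : ℂ) + I * t)‖ ^ p) ≤ 3 * T * C3 ^ p := by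
      have h7 : H + x ≤ 1 := by linarith [hx.2]
      have h8 : 0 ≤ H + x := by linarith [hx.1]
      nlinarith
    calc _ ≤ Cc * (8 * T * A + 3 * T * C3 ^ p + 1) := by
            refine mul_le_mul_of_nonneg_left ?_ (by linarith)
            linarith
      _ ≤ T * (Cc * (8 * A + 3 * C3 ^ p + 1)) := by nlinarith
      _ ≤ (T * (Cc * (8 * A + 3 * C3 ^ p + 1) + Cg ^ p)) * 1 := by nlinarith
      _ ≤ _ := mul_le_mul_of_nonneg_left hy1 (by positivity)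
  · -- growth
    have h1 : ∫ t in (0 : ℝ)..T,
        ‖F0 (((1 / 2 + H + x : ℝ) : ℂ) + I * ((t + H / 2 * y : ℝ) : ℂ))‖ ^ p ≤
        ∫ t in (0 : ℝ)..T, Cg ^ p * (1 + |y|) ^ p := by
      refine intervalIntegral.integral_mono_on hT0.le ?_ (by simp) fun t ht => ?_
      · apply Continuous.intervalIntegrable
        have h2 : Continuous fun t : ℝ =>
            F0 (((1 / 2 + H + x : ℝ) : ℂ) + I * ((t + H / 2 * y : ℝ) : ℂ)) :=
          hFc.comp (by fun_prop)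
        exact h2.norm.rpow_const fun _ => Or.inr hp.le
      · rw [← Real.mul_rpow hCg (by positivity)]
        refine Real.rpow_le_rpow (norm_nonneg _) ?_ hp.le
        have hre : (((1 / 2 + H + x : ℝ) : ℂ) + I * ((t + H / 2 * y : ℝ) : ℂ)).re =
            1 / 2 + H + x := by simp
        have him : (((1 / 2 + H + x : ℝ) : ℂ) + I * ((t + H / 2 * y : ℝ) : ℂ)).im =
            t + H / 2 * y := by simp
        refine (hgr _ (by rw [hre]; linarith [hx.1]) (by rw [hre]; linarith [hx.2])).trans ?_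
        rw [him]
        refine mul_le_mul_of_nonneg_left ?_ hCg
        have h2 : |t + H / 2 * y| ≤ |t| + |H / 2 * y| := abs_add_le _ _
        rw [abs_of_nonneg ht.1] at h2
        have h3' : |H / 2 * y| ≤ |y| / 8 := by
          rw [abs_mul, abs_of_pos (by linarith : 0 < H / 2)]
          nlinarith [abs_nonneg y]
        have h4 : t ≤ T := ht.2
        linarith [abs_nonneg y]
    refine h1.trans ?_
    rw [intervalIntegral.integral_const, smul_eq_mul, sub_zero, ← mul_assoc]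
    refine mul_le_mul_of_nonneg_right ?_ (by positivity)
    nlinarith

/-- decay of a bump function on the line -/
private theorem gp_int {g : ℂ → ℂ} (hg : BumpFn g) {f : ℝ → ℂ} (hf : Continuous f) {D : ℝ}
    (hD : ∀ u : ℝ, ‖f u‖ ≤ D * (1 + |u|)) : Integrable fun u : ℝ => f u * g (u : ℂ) := by
  obtain ⟨C, hC⟩ := hg.decay 3
  have h1 : Integrable fun y : ℝ => (1 + ‖y‖) ^ (-(2 : ℝ)) := by
    apply integrable_one_add_norm
    norm_num
  have hD0 : 0 ≤ D := by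
    have h2 := hD 0
    rw [abs_zero, add_zero, mul_one] at h2
    exact (norm_nonneg _).trans h2
  refine (h1.const_mul (D * C)).mono' ?_ (Filter.Eventually.of_forall fun u => ?_)
  · exact (hf.mul (hg.diff.continuous.comp continuous_ofReal)).aestronglyMeasurable
  · have hu0 : (0 : ℝ) < 1 + |u| := by linarith [abs_nonneg u]
    have h3 := hC (u : ℂ) (by simp)
    rw [ofReal_re] at h3
    rw [norm_mul, Real.norm_eq_abs u, Real.rpow_neg hu0.le, Real.rpow_two]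
    have h4 : ‖g (u : ℂ)‖ ≤ C * ((1 + |u|) ^ 3)⁻¹ := by
      rw [← div_eq_mul_inv, le_div_iff₀ (by positivity)]
      exact h3
    have h5 : ‖f u‖ * ‖g (u : ℂ)‖ ≤ (D * (1 + |u|)) * (C * ((1 + |u|) ^ 3)⁻¹) :=
      mul_le_mul (hD u) h4 (norm_nonneg _) (by positivity)
    refine h5.trans (le_of_eq ?_)
    field_simp

private theorem gp_one_div {s : ℂ} (hs : 1 / 2 ≤ |s.re|) : ‖1 / s‖ ≤ 2 := by
  have h1 : 1 / 2 ≤ ‖s‖ := hs.trans (abs_re_le_norm s)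
  rw [norm_div, norm_one, div_le_iff₀ (by linarith)]
  linarith


/-- the analytic function -/
private noncomputable def gpF (Z0 : ℂ → ℂ) (φ : ℝ → ℂ) (H : ℝ) (s : ℂ) : ℂ :=
  ∫ v : ℝ, Z0 (s + I * ((H * v : ℝ) : ℂ)) * φ v

private theorem gp_re (s : ℂ) (x : ℝ) : (s + I * (x : ℂ)).re = s.re := by simp

private theorem gp_im (s : ℂ) (x : ℝ) : (s + I * (x : ℂ)).im = s.im + x := by simp

private theorem gp_int_Z {Z0 : ℂ → ℂ} {C : ℝ} (hC : 1 ≤ C) (hZ : ZeroPole Z0 C) {φ : ℝ → ℂ} (h : W1 φ)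
    (H : ℝ) {s : ℂ} (h1 : 1 / 4 ≤ s.re) (h2 : s.re ≤ 2) :
    Integrable (fun v : ℝ => Z0 (s + I * ((H * v : ℝ) : ℂ)) * φ v) := by
  have hm : Continuous (fun v : ℝ => Z0 (s + I * ((H * v : ℝ) : ℂ))) :=
    hZ.diff.continuous.comp (by fun_prop)
  refine ((G2A.w1_norm h).const_mul (C * (1 + |s.im| + |H|))).mono'
    (hm.aestronglyMeasurable.mul (G2A.w1_int h).aestronglyMeasurable)
    (Filter.Eventually.of_forall fun v => ?_)
  have h3 := hZ.bd (s + I * ((H * v : ℝ) : ℂ)) (by rw [gp_re]; exact h1) (by rw [gp_re]; exact h2)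
  rw [gp_im] at h3
  have h4 : |s.im + H * v| ≤ |s.im| + |H| * |v| := by
    have := abs_add_le s.im (H * v)
    rwa [abs_mul] at this
  have h5 := abs_nonneg H
  have h6 := abs_nonneg v
  have h7 := abs_nonneg s.im
  have h8 : 1 + |s.im + H * v| ≤ (1 + |s.im| + |H|) * (1 + |v|) := by
    nlinarith [mul_nonneg h5 h6, mul_nonneg h7 h6]
  rw [norm_mul]
  calc ‖Z0 (s + I * ((H * v : ℝ) : ℂ))‖ * ‖φ v‖ ≤ (C * (1 + |s.im + H * v|)) * ‖φ v‖ := by gcongr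
    _ ≤ (C * ((1 + |s.im| + |H|) * (1 + |v|))) * ‖φ v‖ := by gcongr
    _ = _ := by ring

private theorem gp_diff {Z0 : ℂ → ℂ} {C : ℝ} (hC : 1 ≤ C) (hZ : ZeroPole Z0 C) {φ : ℝ → ℂ} (h : W1 φ)
    (H : ℝ) : DifferentiableOn ℂ (gpF Z0 φ H) {z : ℂ | 1 / 4 < z.re ∧ z.re < 2} := by
  intro s0 hs0
  apply DifferentiableAt.differentiableWithinAt
  have hZc : Continuous Z0 := hZ.diff.continuous
  have hdc : Continuous (deriv Z0) := (hZ.diff.contDiff (n := 1)).continuous_deriv le_rfl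
  have ha : 1 / 4 < s0.re := hs0.1
  have hb : s0.re < 2 := hs0.2
  obtain ⟨r, hr0, hr1, hra, hrb⟩ : ∃ r : ℝ, 0 < r ∧ r ≤ 1 ∧ 1 / 4 ≤ s0.re - 2 * r ∧
      s0.re + 2 * r ≤ 2 := by
    refine ⟨min ((s0.re - 1 / 4) / 2) ((2 - s0.re) / 2), ?_, ?_, ?_, ?_⟩
    · apply lt_min <;> linarith
    · refine (min_le_right _ _).trans ?_
      linarith
    · have := min_le_left ((s0.re - 1 / 4) / 2) ((2 - s0.re) / 2)
      linarith
    · have := min_le_right ((s0.re - 1 / 4) / 2) ((2 - s0.re) / 2)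
      linarith
  have hsh : ∀ s : ℂ, Continuous fun v : ℝ => s + I * ((H * v : ℝ) : ℂ) := by
    intro s; fun_prop
  have hφm := (G2A.w1_int h).aestronglyMeasurable
  have hder : ∀ (v : ℝ) (s : ℂ), s ∈ Metric.ball s0 r →
      ‖deriv Z0 (s + I * ((H * v : ℝ) : ℂ))‖ ≤ C * ((3 + |s0.im| + |H|) * (1 + |v|)) / r := by
    intro v s hs
    rw [Metric.mem_ball, dist_eq_norm] at hs
    refine Complex.norm_deriv_le_of_forall_mem_sphere_norm_le hr0
      (hZ.diff.diffContOnCl) fun z hz => ?_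
    rw [mem_sphere_iff_norm] at hz
    have e1 := Complex.abs_re_le_norm (z - (s + I * ((H * v : ℝ) : ℂ)))
    have e2 := Complex.abs_im_le_norm (z - (s + I * ((H * v : ℝ) : ℂ)))
    have e3 := Complex.abs_re_le_norm (s - s0)
    have e4 := Complex.abs_im_le_norm (s - s0)
    rw [hz, Complex.sub_re, gp_re] at e1
    rw [hz, Complex.sub_im, gp_im] at e2
    rw [Complex.sub_re] at e3
    rw [Complex.sub_im] at e4
    have e1' := abs_le.mp e1
    have e3' := abs_le.mp e3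
    have e5 := hZ.bd z (by linarith [e1'.1, e3'.1]) (by linarith [e1'.2, e3'.2])
    have e6 : |z.im| ≤ 2 + |s0.im| + |H| * |v| := by
      have f1 : z.im = (z.im - (s.im + H * v)) + (s.im - s0.im) + s0.im + H * v := by ring
      have f2 : |z.im| ≤ |z.im - (s.im + H * v)| + |s.im - s0.im| + |s0.im| + |H * v| := by
        conv_lhs => rw [f1]
        refine (abs_add_le _ _).trans ?_
        gcongr
        refine (abs_add_le _ _).trans ?_
        gcongr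
        exact abs_add_le _ _
      rw [abs_mul] at f2
      linarith
    have h5 := abs_nonneg H
    have h6 := abs_nonneg v
    have h7 := abs_nonneg s0.im
    have h8 : 1 + |z.im| ≤ (3 + |s0.im| + |H|) * (1 + |v|) := by
      nlinarith [mul_nonneg h5 h6, mul_nonneg h7 h6]
    exact e5.trans (mul_le_mul_of_nonneg_left h8 (by linarith))
  have key := hasDerivAt_integral_of_dominated_loc_of_deriv_le (μ := volume)
    (F := fun (s : ℂ) (v : ℝ) => Z0 (s + I * ((H * v : ℝ) : ℂ)) * φ v)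
    (F' := fun (s : ℂ) (v : ℝ) => deriv Z0 (s + I * ((H * v : ℝ) : ℂ)) * φ v)
    (x₀ := s0) (s := Metric.ball s0 r)
    (bound := fun v => C * (3 + |s0.im| + |H|) / r * ((1 + |v|) * ‖φ v‖))
    (Metric.ball_mem_nhds s0 hr0)
    (Filter.Eventually.of_forall fun s => (hZc.comp (hsh s)).aestronglyMeasurable.mul hφm)
    (gp_int_Z hC hZ h H (by linarith) (by linarith))
    ((hdc.comp (hsh s0)).aestronglyMeasurable.mul hφm)
    (Filter.Eventually.of_forall fun v s hs => by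
      rw [norm_mul]
      calc ‖deriv Z0 (s + I * ((H * v : ℝ) : ℂ))‖ * ‖φ v‖
          ≤ (C * ((3 + |s0.im| + |H|) * (1 + |v|)) / r) * ‖φ v‖ :=
            mul_le_mul_of_nonneg_right (hder v s hs) (norm_nonneg _)
        _ = _ := by ring)
    ((G2A.w1_norm h).const_mul _)
    (Filter.Eventually.of_forall fun v s _ => by
      have h1 : HasDerivAt Z0 (deriv Z0 (s + I * ((H * v : ℝ) : ℂ))) (s + I * ((H * v : ℝ) : ℂ)) :=
        (hZ.diff _).hasDerivAt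
      exact (h1.comp_add_const s (I * ((H * v : ℝ) : ℂ))).mul_const (φ v))
  exact key.2.differentiableAt

private theorem gp_growth {Z0 : ℂ → ℂ} {C : ℝ} (hC : 1 ≤ C) (hZ : ZeroPole Z0 C) {φ : ℝ → ℂ} (h : W1 φ)
    {H : ℝ} (hH : 0 < H) (hH1 : H ≤ 1) (z : ℂ) (hz1 : 1 / 4 ≤ z.re) (hz2 : z.re ≤ 2) :
    ‖gpF Z0 φ H z‖ ≤ C * (∫ v : ℝ, (1 + |v|) * ‖φ v‖) * (1 + |z.im|) := by
  have e : C * (∫ v : ℝ, (1 + |v|) * ‖φ v‖) * (1 + |z.im|)
      = ∫ v : ℝ, C * (1 + |z.im|) * ((1 + |v|) * ‖φ v‖) := by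
    rw [integral_const_mul]; ring
  rw [e]
  unfold gpF
  refine norm_integral_le_of_norm_le ((G2A.w1_norm h).const_mul _)
    (Filter.Eventually.of_forall fun v => ?_)
  have h3 := hZ.bd (z + I * ((H * v : ℝ) : ℂ)) (by rw [gp_re]; exact hz1) (by rw [gp_re]; exact hz2)
  rw [gp_im] at h3
  have h6 := abs_nonneg v
  have h7 := abs_nonneg z.im
  have h4 : |z.im + H * v| ≤ |z.im| + |v| := by
    refine (abs_add_le _ _).trans ?_
    rw [abs_mul, abs_of_pos hH]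
    nlinarith
  have h8 : 1 + |z.im + H * v| ≤ (1 + |z.im|) * (1 + |v|) := by
    nlinarith [mul_nonneg h7 h6]
  rw [norm_mul]
  calc ‖Z0 (z + I * ((H * v : ℝ) : ℂ))‖ * ‖φ v‖ ≤ (C * (1 + |z.im + H * v|)) * ‖φ v‖ := by gcongr
    _ ≤ (C * ((1 + |z.im|) * (1 + |v|))) * ‖φ v‖ := by gcongr
    _ = _ := by ring

private theorem gp_right {Z0 : ℂ → ℂ} {C : ℝ} (hZ : ZeroPole Z0 C) {φ : ℝ → ℂ} (h : W1 φ)
    {Zb : ℝ} (hZb : ∀ t : ℝ, ‖riemannZeta (((3 / 2 : ℝ) : ℂ) + I * t)‖ ≤ Zb) (H t : ℝ) :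
    ‖gpF Z0 φ H (((3 / 2 : ℝ) : ℂ) + I * t)‖ ≤ (Zb + 2) * ∫ v : ℝ, ‖φ v‖ := by
  rw [← integral_const_mul]
  unfold gpF
  refine norm_integral_le_of_norm_le ((G2A.w1_int h).norm.const_mul _)
    (Filter.Eventually.of_forall fun v => ?_)
  rw [norm_mul]
  refine mul_le_mul_of_nonneg_right ?_ (norm_nonneg _)
  have e1 : (((3 / 2 : ℝ) : ℂ) + I * t) + I * ((H * v : ℝ) : ℂ) =
      ((3 / 2 : ℝ) : ℂ) + I * ((t + H * v : ℝ) : ℂ) := by
    push_cast
    ring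
  rw [e1]
  have hre : (((3 / 2 : ℝ) : ℂ) + I * ((t + H * v : ℝ) : ℂ)).re = 3 / 2 := by simp
  have hne : ((3 / 2 : ℝ) : ℂ) + I * ((t + H * v : ℝ) : ℂ) ≠ 1 := by
    intro h
    rw [h, one_re] at hre
    norm_num at hre
  rw [hZ.eq _ hne]
  refine (norm_sub_le _ _).trans ?_
  have h4 : ‖1 / (((3 / 2 : ℝ) : ℂ) + I * ((t + H * v : ℝ) : ℂ) - 1)‖ ≤ 2 := by
    apply gp_one_div
    rw [sub_re, hre, one_re]
    norm_num
  linarith [hZb (t + H * v)]

private theorem gp_dec {Z0 : ℂ → ℂ} {C : ℝ} (hC : 1 ≤ C) (hZ : ZeroPole Z0 C) {φ : ℝ → ℂ} (h : W1 φ)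
    (H t : ℝ) : ‖ZW φ H t - gpF Z0 φ H (((1 / 2 : ℝ) : ℂ) + I * t)‖ ≤ 2 * ∫ v : ℝ, ‖φ v‖ := by
  have e0 : ∀ v : ℝ, (1 / 2 + I * ((t + H * v : ℝ) : ℂ) : ℂ).re = 1 / 2 := by
    intro v
    simp
  have hne : ∀ v : ℝ, (1 / 2 + I * ((t + H * v : ℝ) : ℂ) : ℂ) ≠ 1 := by
    intro v h
    have h2 := e0 v
    rw [h, one_re] at h2
    norm_num at h2
  have hb : ∀ v : ℝ, ‖1 / ((1 / 2 + I * ((t + H * v : ℝ) : ℂ) : ℂ) - 1)‖ ≤ 2 := by
    intro v
    apply gp_one_div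
    rw [sub_re, e0, one_re]
    norm_num
  have hci : Continuous fun v : ℝ => 1 / ((1 / 2 + I * ((t + H * v : ℝ) : ℂ) : ℂ) - 1) :=
    Continuous.div continuous_const (by fun_prop) fun v => sub_ne_zero.2 (hne v)
  have hi1 : Integrable (fun v : ℝ => 1 / ((1 / 2 + I * ((t + H * v : ℝ) : ℂ) : ℂ) - 1) * φ v) :=
    (G2A.w1_int h).bdd_mul (c := 2) hci.aestronglyMeasurable (Filter.Eventually.of_forall hb)
  have hi2 : Integrable (fun v : ℝ => Z0 (((1 / 2 : ℝ) : ℂ) + I * t + I * ((H * v : ℝ) : ℂ)) * φ v) := by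
    refine gp_int_Z hC hZ h H ?_ ?_
    · have : (((1 / 2 : ℝ) : ℂ) + I * (t : ℂ)).re = 1 / 2 := by simp
      rw [this]; norm_num
    · have : (((1 / 2 : ℝ) : ℂ) + I * (t : ℂ)).re = 1 / 2 := by simp
      rw [this]; norm_num
  have e1 : ZW φ H t = gpF Z0 φ H (((1 / 2 : ℝ) : ℂ) + I * t) +
      ∫ v : ℝ, 1 / ((1 / 2 + I * ((t + H * v : ℝ) : ℂ) : ℂ) - 1) * φ v := by
    unfold ZW gpF
    rw [← integral_add hi2 hi1]
    refine integral_congr_ae (Filter.Eventually.of_forall fun v => ?_)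
    beta_reduce
    have e2 : ((1 / 2 : ℝ) : ℂ) + I * t + I * ((H * v : ℝ) : ℂ) = 1 / 2 + I * ((t + H * v : ℝ) : ℂ) := by
      push_cast
      ring
    rw [e2, hZ.eq _ (hne v)]
    ring
  rw [e1, add_sub_cancel_left, ← integral_const_mul]
  refine norm_integral_le_of_norm_le ((G2A.w1_int h).norm.const_mul _)
    (Filter.Eventually.of_forall fun v => ?_)
  rw [norm_mul]
  exact mul_le_mul_of_nonneg_right (hb v) (norm_nonneg _)

/-- projection to a smaller strip -/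
private noncomputable def gpc (s : ℂ) : ℂ := ((max (3 / 8) (min s.re (7 / 4)) : ℝ) : ℂ) + I * (s.im : ℂ)

private theorem gpc_re (s : ℂ) : (gpc s).re = max (3 / 8) (min s.re (7 / 4)) := by
  unfold gpc
  rw [gp_re, ofReal_re]

private theorem gpc_im (s : ℂ) : (gpc s).im = s.im := by
  unfold gpc
  rw [gp_im, ofReal_im, zero_add]

private theorem gpc_mem (s : ℂ) : 3 / 8 ≤ (gpc s).re ∧ (gpc s).re ≤ 7 / 4 := by
  rw [gpc_re]
  exact ⟨le_max_left _ _, max_le (by norm_num) (min_le_right _ _)⟩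

private theorem gpc_eq {s : ℂ} (h1 : 3 / 8 ≤ s.re) (h2 : s.re ≤ 7 / 4) : gpc s = s := by
  apply Complex.ext
  · rw [gpc_re, min_eq_left h2, max_eq_right h1]
  · rw [gpc_im]

private theorem gpc_cont : Continuous gpc := by
  unfold gpc
  fun_prop

private theorem gpFc_cont {F : ℂ → ℂ} (hF : DifferentiableOn ℂ F {z : ℂ | 1 / 4 < z.re ∧ z.re < 2}) :
    Continuous (fun s => F (gpc s)) := by
  refine hF.continuousOn.comp_continuous gpc_cont fun s => ?_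
  have := gpc_mem s
  exact ⟨by linarith [this.1], by linarith [this.2]⟩

private theorem gp_line {c : ℝ} (h1 : 3 / 8 ≤ c) (h2 : c ≤ 7 / 4) (t : ℝ) :
    gpc ((c : ℂ) + I * (t : ℂ)) = (c : ℂ) + I * (t : ℂ) := by
  apply gpc_eq
  · rw [gp_re, ofReal_re]; exact h1
  · rw [gp_re, ofReal_re]; exact h2

theorem posG (hz : ExZ0) (hc : ConvexInt) (hd : DiscPt) (hC : ContG) (h0 : CvConv) (h1 : ShiftLine) : PosG := by
  intro g hg φ hφ p hp
  obtain ⟨Z0, C, hC1, hZ⟩ := hz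
  obtain ⟨Zb, hZb0, hZb⟩ := gp_zeta_bd
  set M1 : ℝ := ∫ v : ℝ, (1 + |v|) * ‖φ v‖ with hM1
  set M0 : ℝ := ∫ v : ℝ, ‖φ v‖ with hM0
  have hM10 : 0 ≤ M1 := integral_nonneg fun v => by
    show 0 ≤ _
    positivity
  have hM00 : 0 ≤ M0 := integral_nonneg fun v => norm_nonneg _
  obtain ⟨Cc, hCc1, hCc⟩ := hc p hp (C * M1) 1
  have hCg0 : 0 ≤ C * M1 := by positivity
  set S : ℝ → ℂ := fun y => g (((y / 2 : ℝ) : ℂ) - I) / 2 with hS
  have hSc : Continuous S := by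
    have h2 : Continuous fun y : ℝ => g (((y / 2 : ℝ) : ℂ) - I) :=
      hg.diff.continuous.comp (by fun_prop)
    exact h2.div_const 2
  have hSRD : RD S := by
    intro n
    obtain ⟨D, hD⟩ := hg.decay n
    refine ⟨2 ^ n * D, fun y => ?_⟩
    have h2 := hD (((y / 2 : ℝ) : ℂ) - I) (by simp)
    have h3 : (((y / 2 : ℝ) : ℂ) - I).re = y / 2 := by simp
    rw [h3] at h2
    have h4 : (1 + |y|) ^ n ≤ 2 ^ n * (1 + |y / 2|) ^ n := by
      rw [← mul_pow]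
      refine pow_le_pow_left₀ (by positivity) ?_ n
      rw [abs_div, abs_two]
      linarith [abs_nonneg y]
    have h5 : ‖S y‖ ≤ ‖g (((y / 2 : ℝ) : ℂ) - I)‖ := by
      show ‖_ / 2‖ ≤ _
      rw [norm_div, show ‖(2 : ℂ)‖ = 2 by norm_num]
      linarith [norm_nonneg (g (((y / 2 : ℝ) : ℂ) - I))]
    calc ‖S y‖ * (1 + |y|) ^ n ≤ ‖g (((y / 2 : ℝ) : ℂ) - I)‖ * (2 ^ n * (1 + |y / 2|) ^ n) :=
          mul_le_mul h5 h4 (by positivity) (norm_nonneg _)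
      _ = 2 ^ n * (‖g (((y / 2 : ℝ) : ℂ) - I)‖ * (1 + |y / 2|) ^ n) := by ring
      _ ≤ 2 ^ n * D := mul_le_mul_of_nonneg_left h2 (by positivity)
  have hn1 : p * ((1 : ℕ) : ℝ) + 2 ≤ ((⌈p⌉₊ + 4 : ℕ) : ℝ) := by
    push_cast
    linarith [Nat.le_ceil p]
  have hn2 : p + 2 ≤ ((⌈p⌉₊ + 4 : ℕ) : ℝ) := by
    push_cast
    linarith [Nat.le_ceil p]
  set n : ℕ := ⌈p⌉₊ + 4 with hn
  obtain ⟨Cd, hCd1, hCd⟩ := hd p hp S hSc.aestronglyMeasurable hSRD n 1 hn1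
  set G1 : ℝ := ∫ u : ℝ, ‖g (u : ℂ)‖ with hG1
  set IW : ℝ := ∫ y : ℝ, (1 + |y|) ^ p * ((1 + |y|) ^ n)⁻¹ with hIW
  have hG10 : 0 ≤ G1 := integral_nonneg fun _ => norm_nonneg _
  have hIW0 : 0 ≤ IW := integral_nonneg fun y => by
    show 0 ≤ _
    positivity
  set C3 : ℝ := (Zb + 2) * M0 with hC3
  have hC30 : 0 ≤ C3 := by positivity
  have hqp : 0 ≤ (2 * M0) ^ p := Real.rpow_nonneg (by positivity) p
  have h2p : (0 : ℝ) < 2 ^ p := Real.rpow_pos_of_pos (by norm_num) p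
  set C0 : ℝ := 2 ^ p * (2 * Cd * (IW * (Cc * (8 * 2 ^ p + 8 * 2 ^ p * (2 * M0) ^ p + 3 * C3 ^ p + 1) +
    (C * M1) ^ p)) + (2 * M0 * G1) ^ p) with hC0
  have hC3p : 0 ≤ C3 ^ p := Real.rpow_nonneg hC30 p
  have hCgp : 0 ≤ (C * M1) ^ p := Real.rpow_nonneg hCg0 p
  have hGp : 0 ≤ (2 * M0 * G1) ^ p := Real.rpow_nonneg (by positivity) p
  have hC00 : 0 ≤ C0 := by
    rw [hC0]
    positivity
  refine ⟨1 + C0, by linarith, fun H hH hH4 => ⟨Cc, fun T hT => ?_⟩⟩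
  have hT1 : 1 ≤ T := hCc1.trans hT
  have hT0 : 0 < T := by linarith
  set F0 : ℂ → ℂ := gpF Z0 φ H with hF0
  have hF0d : DifferentiableOn ℂ F0 {z : ℂ | 1 / 4 < z.re ∧ z.re < 2} := gp_diff hC1 hZ hφ H
  set Ft : ℂ → ℂ := fun s => F0 (gpc s) with hFt
  have hFtc : Continuous Ft := gpFc_cont hF0d
  have hFl : ∀ c : ℝ, 3 / 8 ≤ c → c ≤ 7 / 4 → ∀ t : ℝ, Ft ((c : ℂ) + I * (t : ℂ)) = F0 ((c : ℂ) + I * (t : ℂ)) := by
    intro c hc1 hc2 t
    show F0 (gpc _) = _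
    rw [gp_line hc1 hc2]
  -- growth
  have hgr : ∀ z : ℂ, 1 / 4 ≤ z.re → z.re ≤ 2 → ‖F0 z‖ ≤ C * M1 * (1 + |z.im|) :=
    fun z hz1 hz2 => gp_growth hC1 hZ hφ hH (by linarith) z hz1 hz2
  have hgrt : ∀ z : ℂ, 1 / 4 ≤ z.re → z.re ≤ 2 → ‖Ft z‖ ≤ C * M1 * (1 + |z.im|) := by
    intro z _ _
    have h2 := gpc_mem z
    have h3 := hgr (gpc z) (by linarith [h2.1]) (by linarith [h2.2])
    rwa [gpc_im] at h3
  have h3F : ∀ t : ℝ, ‖F0 (((3 / 2 : ℝ) : ℂ) + I * t)‖ ≤ C3 := fun t => gp_right hZ hφ hZb H t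
  -- decomposition of the average
  have hdec : ∀ t : ℝ, ‖ZW φ H t - F0 (((1 / 2 : ℝ) : ℂ) + I * t)‖ ≤ 2 * M0 :=
    fun t => gp_dec hC1 hZ hφ H t
  have hPAc : Continuous (ZW φ H) := hC φ hφ H
  set F1 : ℝ → ℂ := fun t => F0 (((1 / 2 : ℝ) : ℂ) + I * t) with hF1
  have hF1c : Continuous F1 := by
    have h2 : Continuous fun t : ℝ => Ft (((1 / 2 : ℝ) : ℂ) + I * t) := hFtc.comp (by fun_prop)
    have h3 : F1 = fun t : ℝ => Ft (((1 / 2 : ℝ) : ℂ) + I * t) := by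
      funext t
      exact (hFl (1 / 2) (by norm_num) (by norm_num) t).symm
    rw [h3]
    exact h2
  -- the smooth average
  set A : ℝ → ℂ := fun t => ∫ y : ℝ,
    F0 (((1 / 2 + H : ℝ) : ℂ) + I * ((t + H / 2 * y : ℝ) : ℂ)) * S y with hA
  have hgi : Integrable fun u : ℝ => ‖g (u : ℂ)‖ := by
    have h2 := gp_int hg (f := fun _ => 1) continuous_const (D := 1)
      (fun u => by rw [norm_one]; linarith [abs_nonneg u])
    simpa using h2.norm
  have hZW : ∀ t : ℝ, ‖ZW (cvl φ g) H t‖ ≤ ‖A t‖ + 2 * M0 * G1 := by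
    intro t
    have hlin : Continuous fun u : ℝ => t + H * u := by fun_prop
    have hi1 : Integrable fun u : ℝ => F1 (t + H * u) * g (u : ℂ) := by
      refine gp_int hg (hF1c.comp hlin) (D := C * M1 * (1 + |t|)) fun u => ?_
      have hre : (((1 / 2 : ℝ) : ℂ) + I * ((t + H * u : ℝ) : ℂ)).re = 1 / 2 := by simp
      have him : (((1 / 2 : ℝ) : ℂ) + I * ((t + H * u : ℝ) : ℂ)).im = t + H * u := by simp
      refine (hgr _ (by rw [hre]; norm_num) (by rw [hre]; norm_num)).trans ?_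
      rw [him, mul_assoc (C * M1) (1 + |t|)]
      refine mul_le_mul_of_nonneg_left ?_ hCg0
      have h2 : |t + H * u| ≤ |t| + |u| := by
        refine (abs_add_le _ _).trans ?_
        rw [abs_mul, abs_of_pos hH]
        nlinarith [abs_nonneg u]
      nlinarith [abs_nonneg u, abs_nonneg t, mul_nonneg (abs_nonneg t) (abs_nonneg u)]
    have hi2 : Integrable fun u : ℝ => (ZW φ H (t + H * u) - F1 (t + H * u)) * g (u : ℂ) := by
      refine gp_int hg ((hPAc.comp hlin).sub (hF1c.comp hlin)) (D := 2 * M0) fun u => ?_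
      refine (hdec (t + H * u)).trans ?_
      nlinarith [abs_nonneg u, mul_nonneg hM00 (abs_nonneg u)]
    have e1 : ZW (cvl φ g) H t = (∫ u : ℝ, F1 (t + H * u) * g (u : ℂ)) +
        ∫ u : ℝ, (ZW φ H (t + H * u) - F1 (t + H * u)) * g (u : ℂ) := by
      rw [h0 g hg φ hφ H t hH, ← integral_add hi1 hi2]
      refine integral_congr_ae (Filter.Eventually.of_forall fun u => ?_)
      show ZW φ H (t + H * u) * g u = _
      ring
    have e2 : (∫ u : ℝ, F1 (t + H * u) * g (u : ℂ)) = A t := by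
      have h2 := h1 g hg F0 hF0d ⟨C * M1, 1, fun z hz1 hz2 => by
        rw [pow_one]
        exact hgr z (by linarith) (by linarith)⟩ H t hH (by linarith)
      have h3 : (∫ u : ℝ, F1 (t + H * u) * g (u : ℂ)) =
          ∫ u : ℝ, F0 (((1 / 2 : ℝ) : ℂ) + I * ((t + H * u : ℝ) : ℂ)) * g (u : ℂ) := rfl
      rw [h3, h2]
      have h4 := Measure.integral_comp_div
        (fun u : ℝ => F0 (((1 / 2 + H : ℝ) : ℂ) + I * ((t + H * u : ℝ) : ℂ)) * g ((u : ℂ) - I)) 2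
      rw [abs_two] at h4
      have h5 : A t = (1 / 2 : ℝ) • ∫ y : ℝ,
          F0 (((1 / 2 + H : ℝ) : ℂ) + I * ((t + H * (y / 2) : ℝ) : ℂ)) *
            g (((y / 2 : ℝ) : ℂ) - I) := by
        rw [← integral_smul]
        show (∫ y : ℝ, _) = _
        refine integral_congr_ae (Filter.Eventually.of_forall fun y => ?_)
        show F0 (((1 / 2 + H : ℝ) : ℂ) + I * ((t + H / 2 * y : ℝ) : ℂ)) *
          (g (((y / 2 : ℝ) : ℂ) - I) / 2) = (1 / 2 : ℝ) •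
          (F0 (((1 / 2 + H : ℝ) : ℂ) + I * ((t + H * (y / 2) : ℝ) : ℂ)) *
            g (((y / 2 : ℝ) : ℂ) - I))
        rw [show t + H / 2 * y = t + H * (y / 2) by ring, real_smul]
        push_cast
        ring
      rw [h5, h4, smul_smul]
      norm_num
    rw [e1, e2]
    refine (norm_add_le _ _).trans (add_le_add le_rfl ?_)
    refine (norm_integral_le_integral_norm _).trans ?_
    rw [hG1, ← integral_const_mul]
    refine integral_mono hi2.norm (hgi.const_mul (2 * M0)) fun u => ?_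
    show ‖_ * _‖ ≤ _
    rw [norm_mul]
    exact mul_le_mul_of_nonneg_right (hdec _) (norm_nonneg _)
  -- the pointwise bound
  set K : ℝ → ℝ := fun t => ∫ x in (-(H / 2))..(H / 2), ∫ y : ℝ,
      ‖F0 (((1 / 2 + H + x : ℝ) : ℂ) + I * ((t + H / 2 * y : ℝ) : ℂ))‖ ^ p * ((1 + |y|) ^ n)⁻¹
    with hK
  have hAK : ∀ t : ℝ, ‖A t‖ ^ p ≤ Cd * (H / 2)⁻¹ * K t := by
    intro t
    refine hCd F0 (1 / 2 + H) (H / 2) t (C * M1) (by linarith) (by linarith)
      (hF0d.mono fun z hz => ?_) fun z hz => ?_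
    · have hz' : |z.re - (1 / 2 + H)| < 2 * (H / 2) := hz
      rw [abs_lt] at hz'
      exact ⟨by linarith [hz'.1], by linarith [hz'.2]⟩
    rw [pow_one]
    rw [abs_le] at hz
    exact hgr z (by linarith [hz.1]) (by linarith [hz.2])
  -- the average of the bound
  set AF : ℝ := Av p (-4 * T) (8 * T) F1 with hAF
  set AP : ℝ := Av p (-4 * T) (8 * T) (ZW φ H) with hAP
  have hJ0 := gp_J hFtc hp hCg0 hC30 hCc1
      (fun T x0 x hT hx0 hx1 hx2 => by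
        have h2 := hCc F0 hF0d (fun z hz1 hz2 => by
          rw [pow_one]
          exact hgr z (by linarith) (by linarith)) T x0 x hT hx0 hx1 hx2
        simp only [hFl (1 / 2 + x) (by linarith) (by linarith),
          hFl (1 / 2) (by norm_num) (by norm_num), hFl (3 / 2) (by norm_num) (by norm_num)]
        exact h2) hgrt
      (fun t => by
        rw [hFl (3 / 2) (by norm_num) (by norm_num)]
        exact h3F t) hH hH4 hT
  have hAvt : Av p (-4 * T) (8 * T) (fun t : ℝ => Ft (((1 / 2 : ℝ) : ℂ) + I * t)) = AF := by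
    rw [hAF]
    congr 1
    funext t
    exact hFl (1 / 2) (by norm_num) (by norm_num) t
  rw [hAvt] at hJ0
  obtain ⟨hKi0, hKb0⟩ := gp_fub hFtc hp n hn2 hCg0 hH hH4 hT0.le hgrt hJ0
  have hKt : (fun t : ℝ => ∫ x in (-(H / 2))..(H / 2), ∫ y : ℝ,
      ‖Ft (((1 / 2 + H + x : ℝ) : ℂ) + I * ((t + H / 2 * y : ℝ) : ℂ))‖ ^ p * ((1 + |y|) ^ n)⁻¹) = K := by
    funext t
    refine intervalIntegral.integral_congr fun x hx => ?_
    rw [uIcc_of_le (by linarith)] at hx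
    simp only [hFl (1 / 2 + H + x) (by linarith [hx.1]) (by linarith [hx.2])]
  rw [hKt] at hKi0
  have hKi : IntervalIntegrable K volume 0 T := hKi0
  have hKb : ∫ t in (0 : ℝ)..T, K t ≤ H * ((T * (Cc * (8 * AF + 3 * C3 ^ p + 1) + (C * M1) ^ p)) * IW) := by
    have h2 : (∫ t in (0 : ℝ)..T, K t) = ∫ t in (0 : ℝ)..T, ∫ x in (-(H / 2))..(H / 2), ∫ y : ℝ,
      ‖Ft (((1 / 2 + H + x : ℝ) : ℂ) + I * ((t + H / 2 * y : ℝ) : ℂ))‖ ^ p * ((1 + |y|) ^ n)⁻¹ := by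
      rw [← hKt]
    rw [h2]
    exact hKb0
  have hrp : ∀ {f : ℝ → ℂ}, Continuous f → Continuous fun t => ‖f t‖ ^ p := fun hf =>
    hf.norm.rpow_const fun _ => Or.inr hp.le
  have hZWc : Continuous (ZW (cvl φ g) H) := hC _ (G2A.int_cvl hg hφ) H
  have hAF1 : AF ≤ 2 ^ p * (AP + (2 * M0) ^ p) := by
    rw [hAF, hAP]
    unfold Av
    rw [show -4 * T + 8 * T = 4 * T by ring]
    have h2 : ∫ t in (-4 * T)..(4 * T), ‖F1 t‖ ^ p ≤
        ∫ t in (-4 * T)..(4 * T), 2 ^ p * (‖ZW φ H t‖ ^ p + (2 * M0) ^ p) := by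
      refine intervalIntegral.integral_mono_on (by linarith) ((hrp hF1c).intervalIntegrable _ _)
        ((((hrp hPAc).add continuous_const).const_mul _).intervalIntegrable _ _) fun t _ => ?_
      have h3 : ‖F1 t‖ ≤ ‖ZW φ H t‖ + 2 * M0 := by
        have h4 : F1 t = ZW φ H t - (ZW φ H t - F1 t) := by ring
        rw [h4]
        exact (norm_sub_le _ _).trans (add_le_add le_rfl (hdec t))
      exact (Real.rpow_le_rpow (norm_nonneg _) h3 hp.le).trans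
        (gp_pow_add hp (norm_nonneg _) (by positivity))
    have h3 : ∫ t in (-4 * T)..(4 * T), 2 ^ p * (‖ZW φ H t‖ ^ p + (2 * M0) ^ p) =
        2 ^ p * ((∫ t in (-4 * T)..(4 * T), ‖ZW φ H t‖ ^ p) + 8 * T * (2 * M0) ^ p) := by
      rw [intervalIntegral.integral_const_mul, intervalIntegral.integral_add
        ((hrp hPAc).intervalIntegrable _ _) (by simp), intervalIntegral.integral_const, smul_eq_mul]
      ring
    have h4 : (8 * T)⁻¹ * (∫ t in (-4 * T)..(4 * T), ‖F1 t‖ ^ p) ≤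
        (8 * T)⁻¹ * (2 ^ p * ((∫ t in (-4 * T)..(4 * T), ‖ZW φ H t‖ ^ p) + 8 * T * (2 * M0) ^ p)) :=
      mul_le_mul_of_nonneg_left (h2.trans (le_of_eq h3)) (by positivity)
    refine h4.trans (le_of_eq ?_)
    field_simp
  have hAP0 : 0 ≤ AP := by
    rw [hAP]
    unfold Av
    refine mul_nonneg (by positivity) (intervalIntegral.integral_nonneg (by linarith) ?_)
    intro t _
    positivity
  -- conclusion
  have hfin1 : ∫ t in (0 : ℝ)..T, ‖ZW (cvl φ g) H t‖ ^ p ≤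
      ∫ t in (0 : ℝ)..T, 2 ^ p * (Cd * (H / 2)⁻¹ * K t + (2 * M0 * G1) ^ p) := by
    refine intervalIntegral.integral_mono_on hT0.le ((hrp hZWc).intervalIntegrable _ _)
      (((hKi.const_mul _).add (by simp)).const_mul _) fun t _ => ?_
    refine (Real.rpow_le_rpow (norm_nonneg _) (hZW t) hp.le).trans ?_
    refine (gp_pow_add hp (norm_nonneg _) (by positivity)).trans ?_
    exact mul_le_mul_of_nonneg_left (add_le_add (hAK t) le_rfl) h2p.le
  have hfin2 : ∫ t in (0 : ℝ)..T, 2 ^ p * (Cd * (H / 2)⁻¹ * K t + (2 * M0 * G1) ^ p) =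
      2 ^ p * (Cd * (H / 2)⁻¹ * (∫ t in (0 : ℝ)..T, K t) + T * (2 * M0 * G1) ^ p) := by
    rw [intervalIntegral.integral_const_mul, intervalIntegral.integral_add
      (hKi.const_mul _) (by simp), intervalIntegral.integral_const_mul,
      intervalIntegral.integral_const, smul_eq_mul, sub_zero]
  have hfin3 : Av p 0 T (ZW (cvl φ g) H) ≤ T⁻¹ * (2 ^ p * (Cd * (H / 2)⁻¹ *
      (H * ((T * (Cc * (8 * AF + 3 * C3 ^ p + 1) + (C * M1) ^ p)) * IW)) + T * (2 * M0 * G1) ^ p)) := by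
    unfold Av
    rw [zero_add]
    refine mul_le_mul_of_nonneg_left ?_ (by positivity)
    refine hfin1.trans ?_
    rw [hfin2]
    refine mul_le_mul_of_nonneg_left (add_le_add ?_ le_rfl) h2p.le
    exact mul_le_mul_of_nonneg_left hKb (by positivity)
  have hfin4 : T⁻¹ * (2 ^ p * (Cd * (H / 2)⁻¹ *
      (H * ((T * (Cc * (8 * AF + 3 * C3 ^ p + 1) + (C * M1) ^ p)) * IW)) + T * (2 * M0 * G1) ^ p)) =
      2 ^ p * (2 * Cd * (IW * (Cc * (8 * AF + 3 * C3 ^ p + 1) + (C * M1) ^ p)) + (2 * M0 * G1) ^ p) := by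
    field_simp
  rw [hfin4] at hfin3
  have hfin5 : 2 ^ p * (2 * Cd * (IW * (Cc * (8 * AF + 3 * C3 ^ p + 1) + (C * M1) ^ p)) +
      (2 * M0 * G1) ^ p) ≤ C0 * (AP + 1) := by
    have h2 : 8 * AF + 3 * C3 ^ p + 1 ≤
        (8 * 2 ^ p + 8 * 2 ^ p * (2 * M0) ^ p + 3 * C3 ^ p + 1) * (AP + 1) := by
      nlinarith [mul_nonneg hC3p hAP0, mul_nonneg h2p.le hAP0,
        mul_nonneg (mul_nonneg h2p.le hqp) hAP0]
    have h3 : Cc * (8 * AF + 3 * C3 ^ p + 1) + (C * M1) ^ p ≤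
        (Cc * (8 * 2 ^ p + 8 * 2 ^ p * (2 * M0) ^ p + 3 * C3 ^ p + 1) + (C * M1) ^ p) * (AP + 1) := by
      have h4 := mul_le_mul_of_nonneg_left h2 (by linarith : (0 : ℝ) ≤ Cc)
      nlinarith [mul_nonneg hCgp hAP0]
    have h5 : 2 * Cd * (IW * (Cc * (8 * AF + 3 * C3 ^ p + 1) + (C * M1) ^ p)) ≤
        2 * Cd * (IW * ((Cc * (8 * 2 ^ p + 8 * 2 ^ p * (2 * M0) ^ p + 3 * C3 ^ p + 1) +
          (C * M1) ^ p) * (AP + 1))) :=
      mul_le_mul_of_nonneg_left (mul_le_mul_of_nonneg_left h3 hIW0) (by linarith)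
    have h6 : (2 * M0 * G1) ^ p ≤ (2 * M0 * G1) ^ p * (AP + 1) := by nlinarith [mul_nonneg hGp hAP0]
    calc _ ≤ 2 ^ p * (2 * Cd * (IW * ((Cc * (8 * 2 ^ p + 8 * 2 ^ p * (2 * M0) ^ p + 3 * C3 ^ p + 1) +
          (C * M1) ^ p) * (AP + 1))) + (2 * M0 * G1) ^ p * (AP + 1)) :=
          mul_le_mul_of_nonneg_left (add_le_add h5 h6) h2p.le
      _ = C0 * (AP + 1) := by
          rw [hC0]
          ring
  refine (hfin3.trans hfin5).trans ?_
  nlinarith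

end Pool.Agent.Lib.MP2
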