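import Mathlib
import Pool.Agent.Lib.MP_f9aece_nt_mp.StmtsP

/-!
Moments of the plain average of zeta over short windows, module N1.

p <= 1: ||sum||^p <= sum ||z_j||^p (Real.rpow subadditivity, induction) and 1 <= 2^(eta j). p > 1: Hoelder (Real.inner_le_Lp_mul_Lq or inner_le_nnorm) with weights 2^(-eta j/p), 2^(eta j/p): (sum ||z_j||)^p <= (sum_j 2^(-eta j q/p))^(p/q) * sum 2^(eta j) ||z_j||^p, geometric series. Alternatively convexity. (about 60 lines)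
-/

set_option autoImplicit false

namespace Pool.Agent.Lib.MP2

open MeasureTheory Set Filter Topology Complex
open Pool.Agent.Lib.MS (psi Adm ZW MomentsT2)

theorem powSum : PowSum := by
  intro p η hp hη
  obtain ⟨r, hr⟩ : ∃ r : ℝ, r = (2 : ℝ) ^ (-(η / p)) := ⟨_, rfl⟩
  have hηp : 0 < η / p := div_pos hη hp
  have hr0 : 0 < r := by rw [hr]; exact Real.rpow_pos_of_pos two_pos _
  have hr1 : r < 1 := by
    rw [hr]
    exact Real.rpow_lt_one_of_one_lt_of_neg one_lt_two (by linarith)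
  have hK : 1 ≤ (1 - r)⁻¹ := (one_le_inv₀ (by linarith)).2 (by linarith)
  refine ⟨(1 - r)⁻¹ ^ p, Real.one_le_rpow hK hp.le, fun n z => ?_⟩
  obtain ⟨S, hSdef⟩ : ∃ S : ℝ, S = ∑ j ∈ Finset.range n, (2 : ℝ) ^ (η * j) * ‖z j‖ ^ p :=
    ⟨_, rfl⟩
  rw [← hSdef]
  have hterm : ∀ j : ℕ, 0 ≤ (2 : ℝ) ^ (η * j) * ‖z j‖ ^ p := fun j => by positivity
  have hS : 0 ≤ S := by
    rw [hSdef]
    exact Finset.sum_nonneg (fun j _ => hterm j)
  have hj : ∀ j ∈ Finset.range n, ‖z j‖ ≤ r ^ j * S ^ (1 / p) := by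
    intro j hjn
    have h1 : (2 : ℝ) ^ (η * j) * ‖z j‖ ^ p ≤ S := by
      rw [hSdef]
      exact Finset.single_le_sum (f := fun j : ℕ => (2 : ℝ) ^ (η * j) * ‖z j‖ ^ p)
        (fun i _ => hterm i) hjn
    have h2 : ((2 : ℝ) ^ (η * j) * ‖z j‖ ^ p) ^ (1 / p) ≤ S ^ (1 / p) :=
      Real.rpow_le_rpow (hterm j) h1 (by positivity)
    rw [Real.mul_rpow (by positivity) (by positivity), ← Real.rpow_mul (norm_nonneg _),
      mul_one_div_cancel hp.ne', Real.rpow_one, ← Real.rpow_mul two_pos.le] at h2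
    have h3 : r ^ j * (2 : ℝ) ^ (η * (j : ℝ) * (1 / p)) = 1 := by
      rw [hr, ← Real.rpow_natCast, ← Real.rpow_mul two_pos.le, ← Real.rpow_add two_pos]
      have h4 : -(η / p) * (j : ℝ) + η * (j : ℝ) * (1 / p) = 0 := by
        field_simp
        ring
      rw [h4, Real.rpow_zero]
    calc ‖z j‖ = r ^ j * (2 : ℝ) ^ (η * (j : ℝ) * (1 / p)) * ‖z j‖ := by rw [h3, one_mul]
      _ = r ^ j * ((2 : ℝ) ^ (η * (j : ℝ) * (1 / p)) * ‖z j‖) := by ring
      _ ≤ r ^ j * S ^ (1 / p) := mul_le_mul_of_nonneg_left h2 (pow_nonneg hr0.le _)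
  have hgeom : ∑ j ∈ Finset.range n, r ^ j ≤ (1 - r)⁻¹ := by
    rw [← tsum_geometric_of_lt_one hr0.le hr1]
    exact (summable_geometric_of_lt_one hr0.le hr1).sum_le_tsum _
      (fun j _ => pow_nonneg hr0.le j)
  have hSp : 0 ≤ S ^ (1 / p) := Real.rpow_nonneg hS _
  have hsum : ‖∑ j ∈ Finset.range n, z j‖ ≤ (1 - r)⁻¹ * S ^ (1 / p) := by
    calc ‖∑ j ∈ Finset.range n, z j‖ ≤ ∑ j ∈ Finset.range n, ‖z j‖ := norm_sum_le _ _
      _ ≤ ∑ j ∈ Finset.range n, r ^ j * S ^ (1 / p) := Finset.sum_le_sum hj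
      _ = (∑ j ∈ Finset.range n, r ^ j) * S ^ (1 / p) := by rw [Finset.sum_mul]
      _ ≤ (1 - r)⁻¹ * S ^ (1 / p) := mul_le_mul_of_nonneg_right hgeom hSp
  calc ‖∑ j ∈ Finset.range n, z j‖ ^ p ≤ ((1 - r)⁻¹ * S ^ (1 / p)) ^ p :=
        Real.rpow_le_rpow (norm_nonneg _) hsum hp.le
    _ = (1 - r)⁻¹ ^ p * S := by
        rw [Real.mul_rpow (by linarith) hSp, ← Real.rpow_mul hS, one_div_mul_cancel hp.ne',
          Real.rpow_one]

end Pool.Agent.Lib.MP2
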