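import Mathlib
import Pool.Agent.Lib.MP_f9aece_nt_mp.StmtsP

/-!
Moments of the plain average of zeta over short windows, module Z3.

ConvexInt for f = Z0 (Cg = C, N = 1), x0 = -T, length 2T: int_{-T..T} ||Z0(1/2+x+it)||^p <= C (int_{-3T..3T} ||Z0(1/2+it)||^p + x int_{-3T..3T} ||Z0(3/2+it)||^p + 1). On Re = 1/2 and Re = 1/2 + x, x <= 1/4: ||Z0 - zeta|| <= 4; on Re s = 3/2: ||Z0|| <= 10. ||a+b||^p <= 2^p(||a||^p + ||b||^p); LineUp at 3T, log(3T) <= 2 log T; everything <= C T log T^(p^2/4). (about 90 lines)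
-/

set_option autoImplicit false

namespace Pool.Agent.Lib.MP2

open MeasureTheory Set Filter Topology Complex
open Pool.Agent.Lib.MS (psi Adm ZW MomentsT2)

private theorem z3_add_rpow (p : ℝ) (hp : 0 < p) (a b c : ℝ) (hc : 0 ≤ c) (ha : 0 ≤ a)
    (hb : 0 ≤ b) (h : c ≤ a + b) : c ^ p ≤ 2 ^ p * (a ^ p + b ^ p) := by
  have h1 : c ≤ 2 * max a b := by
    have := le_max_left a b
    have := le_max_right a b
    linarith
  have h2 : c ^ p ≤ (2 * max a b) ^ p := Real.rpow_le_rpow hc h1 hp.le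
  have hm : 0 ≤ max a b := le_max_of_le_left ha
  rw [Real.mul_rpow (by norm_num) hm] at h2
  have h3 : (max a b) ^ p ≤ a ^ p + b ^ p := by
    rcases max_choice a b with h | h <;> rw [h]
    · have := Real.rpow_nonneg hb p
      linarith
    · have := Real.rpow_nonneg ha p
      linarith
  have h4 : (0 : ℝ) < 2 ^ p := Real.rpow_pos_of_pos (by norm_num) p
  calc c ^ p ≤ 2 ^ p * (max a b) ^ p := h2
    _ ≤ 2 ^ p * (a ^ p + b ^ p) := mul_le_mul_of_nonneg_left h3 h4.le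

private theorem z3_re (σ t : ℝ) : ((σ : ℂ) + I * t).re = σ := by simp

private theorem z3_im (σ t : ℝ) : ((σ : ℂ) + I * t).im = t := by simp

private theorem z3_ne (σ t : ℝ) (h : σ ≠ 1) : ((σ : ℂ) + I * t) ≠ 1 := by
  intro h1
  apply h
  have := congrArg Complex.re h1
  rwa [z3_re, Complex.one_re] at this

private theorem z3_pole (σ t δ : ℝ) (hδ : 0 < δ) (h : δ ≤ |σ - 1|) :
    ‖1 / (((σ : ℂ) + I * t) - 1)‖ ≤ 1 / δ := by
  have h1 : |σ - 1| ≤ ‖((σ : ℂ) + I * t) - 1‖ := by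
    have := Complex.abs_re_le_norm (((σ : ℂ) + I * t) - 1)
    rwa [Complex.sub_re, z3_re, Complex.one_re] at this
  rw [norm_div, norm_one]
  exact one_div_le_one_div_of_le hδ (h.trans h1)

private theorem z3_zeta_cont (σ : ℝ) (h : σ ≠ 1) :
    Continuous (fun t : ℝ => riemannZeta ((σ : ℂ) + I * t)) := by
  rw [continuous_iff_continuousAt]
  intro t
  have h1 : ContinuousAt riemannZeta ((σ : ℂ) + I * t) :=
    (differentiableAt_riemannZeta (z3_ne σ t h)).continuousAt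
  exact ContinuousAt.comp (f := fun t : ℝ => ((σ : ℂ) + I * t)) h1 (by fun_prop)

private theorem z3_const : ∃ K : ℝ, 0 ≤ K ∧ ∀ t : ℝ,
    ‖riemannZeta (((3 / 2 : ℝ) : ℂ) + I * t)‖ ≤ K := by
  refine ⟨∑' n : ℕ, 1 / (n : ℝ) ^ (3 / 2 : ℝ), tsum_nonneg fun n => by positivity, fun t => ?_⟩
  have hs : 1 < (((3 / 2 : ℝ) : ℂ) + I * t).re := by
    rw [z3_re]
    norm_num
  have hterm : ∀ n : ℕ, ‖1 / (n : ℂ) ^ (((3 / 2 : ℝ) : ℂ) + I * t)‖ = 1 / (n : ℝ) ^ (3 / 2 : ℝ) := by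
    intro n
    rcases Nat.eq_zero_or_pos n with h0 | h0
    · subst h0
      have hne : (((3 / 2 : ℝ) : ℂ) + I * t) ≠ 0 := by
        intro h
        have := congrArg Complex.re h
        rw [z3_re, Complex.zero_re] at this
        norm_num at this
      rw [Nat.cast_zero, Complex.zero_cpow hne, Nat.cast_zero, Real.zero_rpow (by norm_num)]
      simp
    · rw [norm_div, norm_one, Complex.norm_natCast_cpow_of_pos h0, z3_re]
  have hsum : Summable (fun n : ℕ => 1 / (n : ℝ) ^ (3 / 2 : ℝ)) :=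
    Real.summable_one_div_nat_rpow.2 (by norm_num)
  rw [zeta_eq_tsum_one_div_nat_cpow hs]
  have hsum2 : Summable (fun n : ℕ => ‖1 / (n : ℂ) ^ (((3 / 2 : ℝ) : ℂ) + I * t)‖) := by
    simpa only [hterm] using hsum
  calc ‖∑' n : ℕ, 1 / (n : ℂ) ^ (((3 / 2 : ℝ) : ℂ) + I * t)‖
      ≤ ∑' n : ℕ, ‖1 / (n : ℂ) ^ (((3 / 2 : ℝ) : ℂ) + I * t)‖ := norm_tsum_le_tsum_norm hsum2
    _ = ∑' n : ℕ, 1 / (n : ℝ) ^ (3 / 2 : ℝ) := tsum_congr hterm

theorem rightUp (hz : ExZ0) (hl : LineUp) (hc : ConvexInt) : RightUp := by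
  intro p hp hp4
  obtain ⟨Z0, Cz, hCz, hZ⟩ := hz
  obtain ⟨Cl, hCl, hl⟩ := hl p hp hp4
  obtain ⟨Ch, hCh, hc⟩ := hc p hp Cz 1
  obtain ⟨K, hK, hKb⟩ := z3_const
  have hc := hc Z0 hZ.diff.differentiableOn (by
    intro z h1 h2
    rw [pow_one]
    exact hZ.bd z (by linarith) (by linarith))
  -- continuity of `Z0` on vertical lines
  have hZc : ∀ σ : ℝ, Continuous (fun t : ℝ => ‖Z0 ((σ : ℂ) + I * t)‖ ^ p) := by
    intro σ
    have h1 : Continuous (fun t : ℝ => Z0 ((σ : ℂ) + I * t)) :=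
      hZ.diff.continuous.comp (by fun_prop)
    exact h1.norm.rpow_const (fun t => Or.inr hp.le)
  have hzc : ∀ σ : ℝ, σ ≠ 1 → Continuous (fun t : ℝ => ‖riemannZeta ((σ : ℂ) + I * t)‖ ^ p) := by
    intro σ hσ
    exact (z3_zeta_cont σ hσ).norm.rpow_const (fun t => Or.inr hp.le)
  -- pointwise comparisons
  have hA : ∀ x t : ℝ, 0 ≤ x → x ≤ 1 / 4 →
      ‖riemannZeta (((1 / 2 + x : ℝ) : ℂ) + I * t)‖ ^ p ≤
        2 ^ p * (‖Z0 (((1 / 2 + x : ℝ) : ℂ) + I * t)‖ ^ p + 4 ^ p) := by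
    intro x t hx hx4
    have hne := z3_ne (1 / 2 + x) t (by linarith)
    have he := hZ.eq _ hne
    have hp1 := z3_pole (1 / 2 + x) t (1 / 4) (by norm_num) (by
      rw [abs_sub_comm, abs_of_nonneg (by linarith)]
      linarith)
    refine z3_add_rpow p hp _ _ _ (norm_nonneg _) (norm_nonneg _) (by norm_num) ?_
    have h1 : riemannZeta (((1 / 2 + x : ℝ) : ℂ) + I * t) =
        Z0 (((1 / 2 + x : ℝ) : ℂ) + I * t) + 1 / ((((1 / 2 + x : ℝ) : ℂ) + I * t) - 1) := by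
      rw [he]
      ring
    rw [h1]
    refine (norm_add_le _ _).trans ?_
    have h4 : (1 : ℝ) / (1 / 4) = 4 := by norm_num
    rw [h4] at hp1
    linarith
  have hB : ∀ t : ℝ, ‖Z0 (((1 / 2 : ℝ) : ℂ) + I * t)‖ ^ p ≤
        2 ^ p * (‖riemannZeta (((1 / 2 : ℝ) : ℂ) + I * t)‖ ^ p + 2 ^ p) := by
    intro t
    have hne := z3_ne (1 / 2) t (by norm_num)
    have he := hZ.eq _ hne
    have hp1 := z3_pole (1 / 2) t (1 / 2) (by norm_num) (by
      rw [abs_sub_comm, abs_of_nonneg (by norm_num)]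
      norm_num)
    refine z3_add_rpow p hp _ _ _ (norm_nonneg _) (norm_nonneg _) (by norm_num) ?_
    rw [he]
    refine (norm_sub_le _ _).trans ?_
    have h4 : (1 : ℝ) / (1 / 2) = 2 := by norm_num
    rw [h4] at hp1
    linarith
  have hC : ∀ t : ℝ, ‖Z0 (((3 / 2 : ℝ) : ℂ) + I * t)‖ ^ p ≤ (K + 2) ^ p := by
    intro t
    have hne := z3_ne (3 / 2) t (by norm_num)
    have he := hZ.eq _ hne
    have hp1 := z3_pole (3 / 2) t (1 / 2) (by norm_num) (by
      rw [abs_of_nonneg (by norm_num)]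
      norm_num)
    refine Real.rpow_le_rpow (norm_nonneg _) ?_ hp.le
    rw [he]
    refine (norm_sub_le _ _).trans ?_
    have h4 : (1 : ℝ) / (1 / 2) = 2 := by norm_num
    rw [h4] at hp1
    have := hKb t
    linarith
  -- constants
  have h2p : (0 : ℝ) < 2 ^ p := Real.rpow_pos_of_pos (by norm_num) p
  have h4p : (0 : ℝ) < 4 ^ p := Real.rpow_pos_of_pos (by norm_num) p
  have hKp : (0 : ℝ) < (K + 2) ^ p := Real.rpow_pos_of_pos (by linarith) p
  have h2q : (0 : ℝ) < 2 ^ (p ^ 2 / 4) := Real.rpow_pos_of_pos (by norm_num) _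
  set C1 : ℝ := 2 ^ p * (Cl * (3 * 2 ^ (p ^ 2 / 4)) + 6 * 2 ^ p) with hC1
  set C2 : ℝ := Ch * (C1 + 6 * (K + 2) ^ p + 1) with hC2
  set C3 : ℝ := 2 ^ p * (C2 + 2 * 4 ^ p) with hC3
  have hC1n : 0 ≤ C1 := by
    have : 0 ≤ Cl := by linarith
    positivity
  have hC2n : 0 ≤ C2 := by
    have : 0 ≤ Ch := by linarith
    positivity
  have hC3n : 0 ≤ C3 := by positivity
  refine ⟨Cl + Ch + C3 + 3, by linarith, ?_⟩
  intro T x hT hx hx4
  have hT3 : 3 ≤ T := by linarith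
  have hT0 : 0 < T := by linarith
  have hlog : 1 ≤ Real.log T := by
    rw [Real.le_log_iff_exp_le hT0]
    have := Real.exp_one_lt_d9
    linarith
  set L : ℝ := Real.log T ^ (p ^ 2 / 4) with hL
  have hL1 : 1 ≤ L := Real.one_le_rpow hlog (by positivity)
  have hTL : T ≤ T * L := by nlinarith
  have h1TL : 1 ≤ T * L := by nlinarith
  have hlog3 : Real.log (3 * T) ≤ 2 * Real.log T := by
    rw [Real.log_mul (by norm_num) hT0.ne']
    have := Real.log_le_log (by norm_num : (0 : ℝ) < 3) hT3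
    linarith
  have hlog3' : Real.log (3 * T) ^ (p ^ 2 / 4) ≤ 2 ^ (p ^ 2 / 4) * L := by
    rw [hL, ← Real.mul_rpow (by norm_num) (by linarith)]
    refine Real.rpow_le_rpow ?_ hlog3 (by positivity)
    exact Real.log_nonneg (by linarith)
  -- the line
  have hline : ∫ t in (-(3 * T))..(3 * T), ‖riemannZeta (((1 / 2 : ℝ) : ℂ) + I * t)‖ ^ p ≤
      Cl * (3 * 2 ^ (p ^ 2 / 4)) * (T * L) := by
    have h := hl (3 * T) (by linarith)
    have he : ∀ t : ℝ, ((1 / 2 : ℂ) + I * t) = (((1 / 2 : ℝ) : ℂ) + I * t) := by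
      intro t
      push_cast
      rfl
    simp only [he] at h
    refine h.trans ?_
    have hCl0 : 0 ≤ Cl := by linarith
    have : 3 * T * Real.log (3 * T) ^ (p ^ 2 / 4) ≤ 3 * T * (2 ^ (p ^ 2 / 4) * L) :=
      mul_le_mul_of_nonneg_left hlog3' (by positivity)
    calc Cl * (3 * T * Real.log (3 * T) ^ (p ^ 2 / 4)) ≤ Cl * (3 * T * (2 ^ (p ^ 2 / 4) * L)) :=
          mul_le_mul_of_nonneg_left this hCl0
      _ = Cl * (3 * 2 ^ (p ^ 2 / 4)) * (T * L) := by ring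
  have hZline : ∫ t in (-(3 * T))..(3 * T), ‖Z0 (((1 / 2 : ℝ) : ℂ) + I * t)‖ ^ p ≤ C1 * (T * L) := by
    have h1 : ∫ t in (-(3 * T))..(3 * T), ‖Z0 (((1 / 2 : ℝ) : ℂ) + I * t)‖ ^ p ≤
        ∫ t in (-(3 * T))..(3 * T),
          2 ^ p * (‖riemannZeta (((1 / 2 : ℝ) : ℂ) + I * t)‖ ^ p + 2 ^ p) := by
      refine intervalIntegral.integral_mono_on (by linarith) ?_ ?_ (fun t _ => hB t)
      · exact (hZc (1 / 2)).intervalIntegrable _ _
      · exact (continuous_const.mul ((hzc (1 / 2) (by norm_num)).add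
          continuous_const)).intervalIntegrable _ _
    refine h1.trans ?_
    rw [intervalIntegral.integral_const_mul, intervalIntegral.integral_add
      ((hzc (1 / 2) (by norm_num)).intervalIntegrable _ _) intervalIntegrable_const,
      intervalIntegral.integral_const, smul_eq_mul]
    have h2 : (3 * T - -(3 * T)) * (2 : ℝ) ^ p ≤ 6 * 2 ^ p * (T * L) := by
      have : (3 * T - -(3 * T)) * (2 : ℝ) ^ p = 6 * 2 ^ p * T := by ring
      rw [this]
      exact mul_le_mul_of_nonneg_left hTL (by positivity)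
    calc 2 ^ p * ((∫ t in (-(3 * T))..(3 * T), ‖riemannZeta (((1 / 2 : ℝ) : ℂ) + I * t)‖ ^ p) +
          (3 * T - -(3 * T)) * 2 ^ p)
        ≤ 2 ^ p * (Cl * (3 * 2 ^ (p ^ 2 / 4)) * (T * L) + 6 * 2 ^ p * (T * L)) :=
          mul_le_mul_of_nonneg_left (add_le_add hline h2) h2p.le
      _ = C1 * (T * L) := by rw [hC1]; ring
  have hZr : x * (∫ t in (-(3 * T))..(3 * T), ‖Z0 (((3 / 2 : ℝ) : ℂ) + I * t)‖ ^ p) ≤
      6 * (K + 2) ^ p * (T * L) := by
    have h1 : ∫ t in (-(3 * T))..(3 * T), ‖Z0 (((3 / 2 : ℝ) : ℂ) + I * t)‖ ^ p ≤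
        ∫ t in (-(3 * T))..(3 * T), (K + 2) ^ p := by
      refine intervalIntegral.integral_mono_on (by linarith) ?_ intervalIntegrable_const
        (fun t _ => hC t)
      exact (hZc (3 / 2)).intervalIntegrable _ _
    rw [intervalIntegral.integral_const, smul_eq_mul] at h1
    have h0 : 0 ≤ ∫ t in (-(3 * T))..(3 * T), ‖Z0 (((3 / 2 : ℝ) : ℂ) + I * t)‖ ^ p :=
      intervalIntegral.integral_nonneg (by linarith) (fun t _ => by positivity)
    have h2 : (3 * T - -(3 * T)) * (K + 2) ^ p ≤ 6 * (K + 2) ^ p * (T * L) := by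
      have : (3 * T - -(3 * T)) * (K + 2) ^ p = 6 * (K + 2) ^ p * T := by ring
      rw [this]
      exact mul_le_mul_of_nonneg_left hTL (by positivity)
    calc x * (∫ t in (-(3 * T))..(3 * T), ‖Z0 (((3 / 2 : ℝ) : ℂ) + I * t)‖ ^ p)
        ≤ 1 * (∫ t in (-(3 * T))..(3 * T), ‖Z0 (((3 / 2 : ℝ) : ℂ) + I * t)‖ ^ p) :=
          mul_le_mul_of_nonneg_right (by linarith) h0
      _ ≤ 6 * (K + 2) ^ p * (T * L) := by rw [one_mul]; exact h1.trans h2
  have hconv : ∫ t in (-T)..T, ‖Z0 (((1 / 2 + x : ℝ) : ℂ) + I * t)‖ ^ p ≤ C2 * (T * L) := by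
    have h := hc (2 * T) (-T) x (by linarith) (by
      rw [abs_neg, abs_of_pos hT0]
      linarith) hx (by linarith)
    have e1 : -T + 2 * T = T := by ring
    have e2 : -T - 2 * T = -(3 * T) := by ring
    have e3 : -T + 2 * (2 * T) = 3 * T := by ring
    rw [e1, e2, e3] at h
    refine h.trans ?_
    have hCh0 : 0 ≤ Ch := by linarith
    calc Ch * ((∫ t in (-(3 * T))..(3 * T), ‖Z0 (((1 / 2 : ℝ) : ℂ) + I * t)‖ ^ p) +
          x * (∫ t in (-(3 * T))..(3 * T), ‖Z0 (((3 / 2 : ℝ) : ℂ) + I * t)‖ ^ p) + 1)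
        ≤ Ch * (C1 * (T * L) + 6 * (K + 2) ^ p * (T * L) + 1 * (T * L)) := by
          refine mul_le_mul_of_nonneg_left (add_le_add (add_le_add hZline hZr) ?_) hCh0
          rw [one_mul]
          exact h1TL
      _ = C2 * (T * L) := by rw [hC2]; ring
  -- conclusion
  have hfin : ∫ t in (-T)..T, ‖riemannZeta (((1 / 2 + x : ℝ) : ℂ) + I * t)‖ ^ p ≤
      ∫ t in (-T)..T, 2 ^ p * (‖Z0 (((1 / 2 + x : ℝ) : ℂ) + I * t)‖ ^ p + 4 ^ p) := by
    refine intervalIntegral.integral_mono_on (by linarith) ?_ ?_ (fun t _ => hA x t hx hx4)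
    · exact (hzc (1 / 2 + x) (by linarith)).intervalIntegrable _ _
    · exact (continuous_const.mul ((hZc (1 / 2 + x)).add continuous_const)).intervalIntegrable _ _
  refine hfin.trans ?_
  rw [intervalIntegral.integral_const_mul, intervalIntegral.integral_add
    ((hZc (1 / 2 + x)).intervalIntegrable _ _) intervalIntegrable_const,
    intervalIntegral.integral_const, smul_eq_mul]
  have h2 : (T - -T) * (4 : ℝ) ^ p ≤ 2 * 4 ^ p * (T * L) := by
    have : (T - -T) * (4 : ℝ) ^ p = 2 * 4 ^ p * T := by ring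
    rw [this]
    exact mul_le_mul_of_nonneg_left hTL (by positivity)
  calc 2 ^ p * ((∫ t in (-T)..T, ‖Z0 (((1 / 2 + x : ℝ) : ℂ) + I * t)‖ ^ p) + (T - -T) * 4 ^ p)
      ≤ 2 ^ p * (C2 * (T * L) + 2 * 4 ^ p * (T * L)) :=
        mul_le_mul_of_nonneg_left (add_le_add hconv h2) h2p.le
    _ = C3 * (T * L) := by rw [hC3]; ring
    _ ≤ (Cl + Ch + C3 + 3) * (T * L) := by
        refine mul_le_mul_of_nonneg_right ?_ (by linarith)
        linarith

end Pool.Agent.Lib.MP2
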